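import Pool.Agent.Helper486.TP.Basic

/-! # The absolutely continuous part -/

set_option autoImplicit false

open MeasureTheory Set Filter Topology Metric
open scoped InnerProductSpace ContDiff Laplacian ENNReal

namespace Pool.Agent.Helper486.TP




/-- **Target AC.** (From the two results `hgrowth` and `hnull`, proved elsewhere.) -/
theorem ac_part {n : ℕ} (hn : 0 < n) {U : Set (E n)} {v : E n → ℝ} (hv : Integrable v)
    (hv0 : ∀ x, 0 ≤ v x) (P N : Measure (E n)) [IsFiniteMeasure P] [IsFiniteMeasure N]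
    (hgrowth : ∀ᵐ z ∂(volume : Measure (E n)), z ∈ U → v z = 0 →
      N.rnDeriv volume z < P.rnDeriv volume z →
      ∃ j : ℕ, 0 < j ∧ ∀ r : ℝ, 0 < r → r < 1 / (j : ℝ) →
        (1 / (j : ℝ)) * r ^ (n + 2) ≤ ∫ x in ball z r, v x ∧
        ∫ x in ball z r, v x ≤ (j : ℝ) * r ^ (n + 2))
    (hnull : ∀ (Z : Set (E n)) (j : ℕ), 0 < j →
      (∀ z ∈ Z, ∀ r : ℝ, 0 < r → r < 1 / (j : ℝ) →
        (1 / (j : ℝ)) * r ^ (n + 2) ≤ ∫ x in ball z r, v x ∧
        ∫ x in ball z r, v x ≤ (j : ℝ) * r ^ (n + 2)) → volume Z = 0) :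
    ∀ᵐ x ∂(volume : Measure (E n)), x ∈ U → v x = 0 →
      P.rnDeriv volume x ≤ N.rnDeriv volume x := by
  have h2 : ∀ᵐ z ∂(volume : Measure (E n)), ∀ j : ℕ, 0 < j → ¬ (∀ r : ℝ, 0 < r →
      r < 1 / (j : ℝ) → (1 / (j : ℝ)) * r ^ (n + 2) ≤ ∫ x in ball z r, v x ∧
        ∫ x in ball z r, v x ≤ (j : ℝ) * r ^ (n + 2)) := by
    rw [ae_all_iff]
    intro j
    by_cases hj : 0 < j
    · have h3 := hnull {z | ∀ r : ℝ, 0 < r →
        r < 1 / (j : ℝ) → (1 / (j : ℝ)) * r ^ (n + 2) ≤ ∫ x in ball z r, v x ∧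
        ∫ x in ball z r, v x ≤ (j : ℝ) * r ^ (n + 2)} j hj (fun z hz => hz)
      rw [measure_eq_zero_iff_ae_notMem] at h3
      filter_upwards [h3] with z hz _
      exact hz
    · exact Eventually.of_forall fun z h => absurd h hj
  filter_upwards [hgrowth, h2] with z h3 h4 hzU hvz
  by_contra hcon
  obtain ⟨j, hj, h5⟩ := h3 hzU hvz (not_le.1 hcon)
  exact h4 j hj h5

theorem ac_claim_dens {n : ℕ} (α : Measure (E n)) [IsFiniteMeasure α] (s : Set (E n))
    (hs : MeasurableSet s) (hα : α.restrict s ≪ volume) (B : Set (E n)) (hB : MeasurableSet B)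
    (hBs : B ⊆ s) : α B = ∫⁻ x in B, α.rnDeriv volume x := by
  calc α B = (α.restrict s) B := by
        rw [Measure.restrict_apply hB, inter_eq_left.2 hBs]
    _ = ((volume : Measure (E n)).withDensity ((α.restrict s).rnDeriv volume)) B := by
        rw [Measure.withDensity_rnDeriv_eq _ _ hα]
    _ = ∫⁻ x in B, (α.restrict s).rnDeriv volume x := withDensity_apply _ hB
    _ = ∫⁻ x in B, s.indicator (α.rnDeriv volume) x :=
        lintegral_congr_ae (ae_restrict_of_ae (Measure.rnDeriv_restrict α volume hs))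
    _ = ∫⁻ x in B, α.rnDeriv volume x := by
        refine setLIntegral_congr_fun hB fun x hx => ?_
        exact indicator_of_mem (hBs hx) _

/-- **Target AC2.** Combination on the absolutely continuous part: if at almost every point of `U`
some `v k` vanishes, then `σp ≤ σn` on the part of `U` where everything is absolutely continuous. -/
theorem ac_claim {n : ℕ} {U : Set (E n)} (hU : IsOpen U) {v : Fin 3 → E n → ℝ}
    (hd : ∀ i j, i ≠ j → ∀ᵐ x ∂(volume : Measure (E n)), v i x = 0 ∨ v j x = 0)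
    (σp σn : Measure (E n)) (P N : Fin 3 → Measure (E n))
    [IsFiniteMeasure σp] [IsFiniteMeasure σn] [∀ k, IsFiniteMeasure (P k)]
    [∀ k, IsFiniteMeasure (N k)]
    (hac : ∀ k, ∀ᵐ x ∂(volume : Measure (E n)), x ∈ U → v k x = 0 →
      (P k).rnDeriv volume x ≤ (N k).rnDeriv volume x)
    (hle : ∀ k, (σp + N k).restrict U ≤ (P k + σn).restrict U)
    (s : Set (E n)) (hs : MeasurableSet s)
    (hsσp : σp.restrict s ≪ volume) (hsσn : σn.restrict s ≪ volume)
    (hsP : ∀ k, (P k).restrict s ≪ volume) (hsN : ∀ k, (N k).restrict s ≪ volume)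
    (B : Set (E n)) (hB : MeasurableSet B) (hBU : B ⊆ U) (hBs : B ⊆ s) :
    σp B ≤ σn B := by
  have hUs : MeasurableSet (U ∩ s) := hU.measurableSet.inter hs
  have key : ∀ k, ∀ᵐ x ∂((volume : Measure (E n)).restrict (U ∩ s)),
      σp.rnDeriv volume x + (N k).rnDeriv volume x ≤
        (P k).rnDeriv volume x + σn.rnDeriv volume x := by
    intro k
    refine ae_le_of_forall_setLIntegral_le_of_sigmaFinite
      ((Measure.measurable_rnDeriv _ _).add (Measure.measurable_rnDeriv _ _)) ?_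
    intro t ht _
    rw [Measure.restrict_restrict ht]
    have hC : MeasurableSet (t ∩ (U ∩ s)) := ht.inter hUs
    have hCs : t ∩ (U ∩ s) ⊆ s := fun x hx => hx.2.2
    have hCU : t ∩ (U ∩ s) ⊆ U := fun x hx => hx.2.1
    rw [lintegral_add_left (Measure.measurable_rnDeriv _ _),
      lintegral_add_left (Measure.measurable_rnDeriv _ _),
      ← ac_claim_dens σp s hs hsσp _ hC hCs, ← ac_claim_dens (N k) s hs (hsN k) _ hC hCs,
      ← ac_claim_dens (P k) s hs (hsP k) _ hC hCs, ← ac_claim_dens σn s hs hsσn _ hC hCs]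
    have h1 := hle k (t ∩ (U ∩ s))
    rw [Measure.restrict_apply hC, Measure.restrict_apply hC, inter_eq_left.2 hCU,
      Measure.add_apply, Measure.add_apply] at h1
    exact h1
  have hlt : ∀ k, ∀ᵐ x ∂(volume : Measure (E n)), (N k).rnDeriv volume x < ⊤ := fun k =>
    Measure.rnDeriv_lt_top (N k) volume
  have hfin : ∀ᵐ x ∂((volume : Measure (E n)).restrict (U ∩ s)),
      σp.rnDeriv volume x ≤ σn.rnDeriv volume x := by
    filter_upwards [key 0, key 1, ae_restrict_of_ae (hd 0 1 (by decide)),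
      ae_restrict_of_ae (hac 0), ae_restrict_of_ae (hac 1), ae_restrict_of_ae (hlt 0),
      ae_restrict_of_ae (hlt 1), ae_restrict_mem hUs] with x k0 k1 hv h0 h1 l0 l1 hx
    have fin : ∀ a b c d : ℝ≥0∞, a + b ≤ c + d → c ≤ b → b < ⊤ → a ≤ d := by
      intro a b c d h1 h2 h3
      have h4 : a + b ≤ d + b := by
        calc a + b ≤ c + d := h1
          _ ≤ b + d := add_le_add_left h2 d
          _ = d + b := add_comm _ _
      exact (ENNReal.add_le_add_iff_right h3.ne).1 h4
    rcases hv with hv | hv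
    · exact fin _ _ _ _ k0 (h0 hx.1 hv) l0
    · exact fin _ _ _ _ k1 (h1 hx.1 hv) l1
  rw [ac_claim_dens σp s hs hsσp B hB hBs, ac_claim_dens σn s hs hsσn B hB hBs]
  refine lintegral_mono_ae ?_
  exact ae_restrict_of_ae_restrict_of_subset (subset_inter hBU hBs) hfin

end Pool.Agent.Helper486.TP
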