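import Pool.Agent.Helper486.TP.PDefs

/-! # Newtonian potentials, balayage, fine topology, harmonic measure -/

set_option autoImplicit false

open MeasureTheory Set Filter Topology Metric
open scoped ENNReal

namespace Pool.Agent.Helper486.TP

/-- The Newtonian kernel `|x - y|^{2-n}` of `ℝⁿ`, `n ≥ 3` (equal to `∞` on the diagonal). -/
noncomputable def newton {n : ℕ} (x y : E n) : ℝ≥0∞ := (ENNReal.ofReal ‖x - y‖ ^ (n - 2))⁻¹

/-- The Newtonian potential of a measure. -/
noncomputable def pot {n : ℕ} (μ : Measure (E n)) (y : E n) : ℝ≥0∞ := ∫⁻ z, newton z y ∂μ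

/-- Positive superharmonic functions on `ℝⁿ`: lower semicontinuous, not identically `∞`, and at
least the mean value over each ball at its centre. -/
structure PosSuperharmonic {n : ℕ} (v : E n → ℝ≥0∞) : Prop where
  lsc : LowerSemicontinuous v
  ne_top : ∃ x, v x ≠ ⊤
  supermean : ∀ (x : E n) (r : ℝ), 0 < r → ∫⁻ y in ball x r, v y ≤ volume (ball x r) * v x

/-- The reduced function `R_s^A`: the infimum of the positive superharmonic functions `v` with
`v ≥ s` on `A`. -/
noncomputable def reduced {n : ℕ} (A : Set (E n)) (s : E n → ℝ≥0∞) (y : E n) : ℝ≥0∞ :=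
  ⨅ v ∈ {v : E n → ℝ≥0∞ | PosSuperharmonic v ∧ ∀ z ∈ A, s z ≤ v z}, v y

/-- The lower semicontinuous regularization `f̂(y) = liminf_{z → y} f(z)` (with `z = y` allowed). -/
noncomputable def lscReg {n : ℕ} (f : E n → ℝ≥0∞) (y : E n) : ℝ≥0∞ := liminf f (𝓝 y)

/-- `ω` is the balayage (swept-out measure) of the Dirac measure `ε_x` onto `A`: the finite measure
whose Newtonian potential is the regularized reduced function `R̂_s^A` of the potential
`s = |x - ·|^{2-n}` of `ε_x`. -/
structure IsSwept {n : ℕ} (A : Set (E n)) (x : E n) (ω : Measure (E n)) : Prop where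
  finite : IsFiniteMeasure ω
  pot_eq : ∀ y, pot ω y = lscReg (reduced A (newton x)) y

/-- The fine topology of H. Cartan on `ℝⁿ`: the coarsest topology in which every subharmonic
function on `ℝⁿ` is continuous. -/
@[reducible] noncomputable def fineTopology (n : ℕ) : TopologicalSpace (E n) :=
  ⨅ u : {u : E n → EReal // Subharmonic univ u}, TopologicalSpace.induced u.1 inferInstance

/-- Fine domains: finely open, finely connected (nonempty) sets. -/
structure FineDomain {n : ℕ} (D : Set (E n)) : Prop where
  isOpen : IsOpen[fineTopology n] D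
  isConnected : @IsConnected (E n) (fineTopology n) D

/-- `ω` is the (fine) harmonic measure `ω(D, x)`: the balayage of the Dirac measure at `x` onto the
complement of `D`. -/
def IsHarmonicMeasure {n : ℕ} (D : Set (E n)) (x : E n) (ω : Measure (E n)) : Prop :=
  IsSwept Dᶜ x ω

end Pool.Agent.Helper486.TP
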