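import Pool.Agent.Helper486.TP.Defs

/-! # Basic facts on test functions -/

set_option autoImplicit false

open MeasureTheory Set Filter Topology Metric
open scoped InnerProductSpace ContDiff Laplacian

namespace Pool.Agent.Helper486.TP

variable {n : ℕ} {U V : Set (E n)} {φ ψ : E n → ℝ}

theorem two_le_infty : (2 : WithTop ℕ∞) ≤ ∞ := by
  have : ((2 : ℕ∞) : WithTop ℕ∞) ≤ ((⊤ : ℕ∞) : WithTop ℕ∞) := WithTop.coe_le_coe.2 le_top
  exact this

theorem lap_eq (φ : E n → ℝ) : Δ φ = fun x => ∑ i, iteratedFDeriv ℝ 2 φ x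
    ![(EuclideanSpace.basisFun (Fin n) ℝ) i, (EuclideanSpace.basisFun (Fin n) ℝ) i] :=
  InnerProductSpace.laplacian_eq_iteratedFDeriv_orthonormalBasis φ _

theorem lap_continuous (h : ContDiff ℝ ∞ φ) : Continuous (Δ φ) := by
  rw [lap_eq]
  refine continuous_finsetSum _ fun i _ => ?_
  have h2 : Continuous (iteratedFDeriv ℝ 2 φ) :=
    h.continuous_iteratedFDeriv (m := 2) two_le_infty
  exact (ContinuousMultilinearMap.apply ℝ (fun _ : Fin 2 => E n) ℝ
    ![(EuclideanSpace.basisFun (Fin n) ℝ) i, (EuclideanSpace.basisFun (Fin n) ℝ) i]).continuous.comp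
    h2

theorem lap_hasCompactSupport (h : HasCompactSupport φ) : HasCompactSupport (Δ φ) := by
  have h2 : HasCompactSupport (iteratedFDeriv ℝ 2 φ) := h.iteratedFDeriv 2
  refine HasCompactSupport.intro h2.isCompact fun x hx => ?_
  rw [lap_eq]
  have : iteratedFDeriv ℝ 2 φ x = 0 := image_eq_zero_of_notMem_tsupport hx
  simp [this]

theorem lap_bdd (h : ContDiff ℝ ∞ φ) (hc : HasCompactSupport φ) : ∃ C, 0 ≤ C ∧ ∀ x, |(Δ φ) x| ≤ C := by
  obtain ⟨C, hC⟩ := (lap_hasCompactSupport hc).exists_bound_of_continuous (lap_continuous h)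
  exact ⟨max C 0, le_max_right _ _, fun x => (hC x).trans (le_max_left _ _)⟩

theorem lap_comp_sub (φ : E n → ℝ) (y : E n) : Δ (fun x => φ (x - y)) = fun x => (Δ φ) (x - y) := by
  rw [lap_eq, lap_eq]
  funext x
  simp only [iteratedFDeriv_comp_sub]

theorem lap_add (h : ContDiff ℝ ∞ φ) (h' : ContDiff ℝ ∞ ψ) (x : E n) :
    (Δ (fun x => φ x + ψ x)) x = (Δ φ) x + (Δ ψ) x :=
  ContDiffAt.laplacian_add (h.contDiffAt.of_le two_le_infty)
    (h'.contDiffAt.of_le two_le_infty)

theorem lap_const_mul (c : ℝ) (h : ContDiff ℝ ∞ φ) (x : E n) :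
    (Δ (fun x => c * φ x)) x = c * (Δ φ) x :=
  InnerProductSpace.laplacian_smul c (h.contDiffAt.of_le two_le_infty)

theorem TestOn.integrable_mul_lap (h : TestOn U φ) {g : E n → ℝ} (hg : Integrable g) :
    Integrable (fun x => g x * (Δ φ) x) := by
  obtain ⟨C, hC0, hC⟩ := lap_bdd h.smooth h.cpt
  exact hg.mul_bdd (c := C) (lap_continuous h.smooth).aestronglyMeasurable
    (Eventually.of_forall fun x => by simpa using hC x)

theorem TestOn.integrable (h : TestOn U φ) (μ : Measure (E n)) [IsFiniteMeasure μ] :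
    Integrable φ μ :=
  h.smooth.continuous.integrable_of_hasCompactSupport h.cpt

theorem TestOn.bdd (h : TestOn U φ) : ∃ C, 0 < C ∧ ∀ x, |φ x| ≤ C := by
  obtain ⟨C, hC⟩ := h.cpt.exists_bound_of_continuous h.smooth.continuous
  exact ⟨max C 1, lt_max_of_lt_right one_pos, fun x => (hC x).trans (le_max_left _ _)⟩

theorem TestOn.mono (h : TestOn U φ) (hUV : U ⊆ V) : TestOn V φ := ⟨h.smooth, h.cpt, h.sub.trans hUV⟩

theorem TestOn.add (h : TestOn U φ) (h' : TestOn U ψ) : TestOn U (fun x => φ x + ψ x) where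
  smooth := h.smooth.add h'.smooth
  cpt := h.cpt.add h'.cpt
  sub := (tsupport_add φ ψ).trans (union_subset h.sub h'.sub)

theorem TestOn.mul_left (h : TestOn U φ) {ζ : E n → ℝ} (hζ : ContDiff ℝ ∞ ζ) :
    TestOn U (fun x => ζ x * φ x) where
  smooth := hζ.mul h.smooth
  cpt := h.cpt.mul_left
  sub := (tsupport_mul_subset_right).trans h.sub

theorem TestOn.const_mul (h : TestOn U φ) (c : ℝ) : TestOn U (fun x => c * φ x) :=
  h.mul_left contDiff_const

/-- translates of test functions -/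
theorem TestOn.comp_sub (h : TestOn V φ) {δ : ℝ} (hδ : thickening δ V ⊆ U) {y : E n}
    (hy : ‖y‖ < δ) : TestOn U (fun x => φ (x - y)) := by
  have hcl : IsClosedMap (fun x : E n => x + y) := (Homeomorph.addRight y).isClosedMap
  have hts : tsupport (fun x => φ (x - y)) ⊆ (fun x => x + y) '' tsupport φ := by
    refine closure_minimal (fun x hx => ?_) (hcl _ (isClosed_tsupport φ))
    exact ⟨x - y, subset_tsupport φ hx, by simp⟩
  refine ⟨h.smooth.comp (contDiff_id.sub contDiff_const), ?_, ?_⟩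
  · refine HasCompactSupport.of_support_subset_isCompact
      ((h.cpt.isCompact).image (continuous_add_const y)) ((subset_tsupport _).trans hts)
  · intro x hx
    obtain ⟨z, hz, rfl⟩ := hts hx
    refine hδ (mem_thickening_iff.2 ⟨z, h.sub hz, ?_⟩)
    rw [dist_eq_norm]; simpa using hy

theorem exists_cutoff {s t : Set (E n)} (hs : IsClosed s) (ht : IsClosed t) (hd : Disjoint s t) :
    ∃ ζ : E n → ℝ, ContDiff ℝ ∞ ζ ∧ (∀ x ∈ s, ζ x = 0) ∧ (∀ x ∈ t, ζ x = 1) ∧
      ∀ x, 0 ≤ ζ x ∧ ζ x ≤ 1 := by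
  obtain ⟨f, h1, h2, h3⟩ := exists_contMDiffMap_zero_one_of_isClosed (n := (⊤ : ℕ∞))
    (modelWithCornersSelf ℝ (E n)) hs ht hd
  exact ⟨f, f.contMDiff.contDiff, fun x hx => h1 hx, fun x hx => h2 hx, fun x => h3 x⟩

end Pool.Agent.Helper486.TP
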