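import Pool.Agent.Helper486.TP.BDefs

/-! # The regularized infimum of superharmonic functions -/

set_option autoImplicit false

open MeasureTheory Set Filter Topology Metric
open scoped InnerProductSpace ContDiff Laplacian ENNReal

namespace Pool.Agent.Helper486.TP





/-- **Target CH.** The infimum of a nonempty family of positive superharmonic functions agrees
almost everywhere with its lower semicontinuous regularization. -/
theorem lscReg_ae {n : ℕ} (hn : 0 < n) {F : Set (E n → ℝ≥0∞)} (hF : ∀ v ∈ F, PosSuperharmonic v)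
    (hne : F.Nonempty) :
    ∀ᵐ y ∂(volume : Measure (E n)), lscReg (fun y => ⨅ v ∈ F, v y) y = ⨅ v ∈ F, v y := by
  classical
  obtain ⟨v0, hv0F⟩ := hne
  obtain ⟨x0, hx0⟩ := (hF v0 hv0F).ne_top
  set f : E n → ℝ≥0∞ := fun y => ⨅ v ∈ F, v y with hf
  let P : (TopologicalSpace.countableBasis (E n)) × ℚ → Prop := fun bq =>
    ∃ v, v ∈ F ∧ ∃ z ∈ (bq.1 : Set (E n)), v z < (Real.toNNReal bq.2 : ℝ≥0∞)
  let w' : (TopologicalSpace.countableBasis (E n)) × ℚ → (E n → ℝ≥0∞) := fun bq =>
    if h : P bq then h.choose else v0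
  have hw'F : ∀ bq, w' bq ∈ F := by
    intro bq
    by_cases h : P bq
    · simp only [w', dif_pos h]; exact h.choose_spec.1
    · simp only [w', dif_neg h]; exact hv0F
  let w : Option ((TopologicalSpace.countableBasis (E n)) × ℚ) → (E n → ℝ≥0∞) := fun i =>
    i.elim v0 w'
  have hwF : ∀ i, w i ∈ F := by
    intro i
    cases i with
    | none => exact hv0F
    | some bq => exact hw'F bq
  haveI : Countable (TopologicalSpace.countableBasis (E n)) :=
    (TopologicalSpace.countable_countableBasis (E n)).to_subtype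
  let g : E n → ℝ≥0∞ := fun z => ⨅ i, w i z
  have hgm : Measurable g := Measurable.iInf (fun i => (hF _ (hwF i)).lsc.measurable)
  have hfg : ∀ z, f z ≤ g z := fun z => le_iInf fun i => iInf₂_le (w i) (hwF i)
  have hgv0 : ∀ z, g z ≤ v0 z := fun z => iInf_le (fun i => w i z) none
  have hself : ∀ (h : E n → ℝ≥0∞) (y : E n), lscReg h y ≤ h y := by
    intro h y
    refine le_of_forall_lt_imp_le_of_dense fun a ha => ?_
    have := Filter.eventually_lt_of_lt_liminf ha
    exact this.self_of_nhds.le
  -- Choquet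
  have hreg : ∀ y, lscReg g y ≤ lscReg f y := by
    intro y
    refine le_of_forall_lt_imp_le_of_dense fun a ha => ?_
    have hev : ∀ᶠ z in 𝓝 y, a < g z := Filter.eventually_lt_of_lt_liminf ha
    obtain ⟨b, hbB, hyb, hbs⟩ :=
      (TopologicalSpace.isBasis_countableBasis (E n)).mem_nhds_iff.1 hev
    refine Filter.le_liminf_of_le (by isBoundedDefault) ?_
    have hbo : b ∈ 𝓝 y :=
      ((TopologicalSpace.isBasis_countableBasis (E n)).isOpen hbB).mem_nhds hyb
    filter_upwards [hbo] with z hz
    by_contra hcon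
    push Not at hcon
    obtain ⟨q, hq0, hq1, hq2⟩ := ENNReal.lt_iff_exists_rat_btwn.1 hcon
    have hP : P (⟨b, hbB⟩, q) := by
      have h3 : f z < (Real.toNNReal q : ℝ≥0∞) := hq1
      simp only [hf, iInf_lt_iff] at h3
      obtain ⟨v, hv, hvz⟩ := h3
      exact ⟨v, hv, z, hz, hvz⟩
    have hsp := hP.choose_spec.2
    obtain ⟨z', hz', hlt⟩ := hsp
    have h4 : g z' ≤ hP.choose z' := by
      have : w (some (⟨b, hbB⟩, q)) = hP.choose := by
        simp only [w, Option.elim, w', dif_pos hP]
      calc g z' ≤ w (some (⟨b, hbB⟩, q)) z' := iInf_le (fun i => w i z') _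
        _ = hP.choose z' := by rw [this]
    have h5 : a < g z' := hbs hz'
    exact absurd (h5.trans_le (h4.trans hlt.le)) (not_lt.2 hq2.le)
  have hd : Module.finrank ℝ (E n) = n := by simp
  set V1 : ℝ≥0∞ := volume (ball (0 : E n) 1) with hV1
  have hV1top : V1 ≠ ⊤ := measure_ball_lt_top.ne
  have hV10 : V1 ≠ 0 := (measure_ball_pos _ _ one_pos).ne'
  have hball : ∀ (z : E n) (r : ℝ), 0 < r → volume (ball z r) = ENNReal.ofReal (r ^ n) * V1 := by
    intro z r hr
    have := Measure.addHaar_ball_of_pos (volume : Measure (E n)) z hr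
    rw [hd] at this
    exact this
  have hcball : ∀ (z : E n) (r : ℝ), 0 < r →
      volume (closedBall z r) = ENNReal.ofReal (r ^ n) * V1 := by
    intro z r hr
    have := Measure.addHaar_closedBall (volume : Measure (E n)) z hr.le
    rw [hd] at this
    exact this
  have hmean : ∀ (z : E n) (r : ℝ), 0 < r →
      (∫⁻ y in ball z r, g y) / volume (ball z r) ≤ g z := by
    intro z r hr
    refine le_iInf fun i => ?_
    have h1 : (∫⁻ y in ball z r, g y) ≤ ∫⁻ y in ball z r, w i y :=
      lintegral_mono fun y => iInf_le (fun i => w i y) i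
    have h2 := (hF _ (hwF i)).supermean z r hr
    refine ENNReal.div_le_of_le_mul ?_
    rw [mul_comm]
    exact h1.trans h2
  -- lower bound for the regularisation
  have hlow : ∀ (y : E n) (s r : ℝ), 0 < s → s < r →
      (∫⁻ x in closedBall y s, g x) / (ENNReal.ofReal (r ^ n) * V1) ≤ lscReg g y := by
    intro y s r hs hsr
    refine Filter.le_liminf_of_le (by isBoundedDefault) ?_
    filter_upwards [ball_mem_nhds y (sub_pos.2 hsr)] with z hz
    have hr : 0 < r := hs.trans hsr
    have hsub : closedBall y s ⊆ ball z r := by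
      intro x hx
      rw [mem_closedBall] at hx
      rw [mem_ball] at hz ⊢
      calc dist x z ≤ dist x y + dist y z := dist_triangle _ _ _
        _ < s + (r - s) := by rw [dist_comm y z]; linarith
        _ = r := by ring
    calc (∫⁻ x in closedBall y s, g x) / (ENNReal.ofReal (r ^ n) * V1)
        ≤ (∫⁻ x in ball z r, g x) / (ENNReal.ofReal (r ^ n) * V1) :=
          ENNReal.div_le_div_right (lintegral_mono_set hsub) _
      _ = (∫⁻ x in ball z r, g x) / volume (ball z r) := by rw [hball z r hr]
      _ ≤ g z := hmean z r hr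
  -- Lebesgue differentiation, localised
  have hLeb : ∀ᵐ y ∂(volume : Measure (E n)), Tendsto
      (fun s : ℝ => (∫⁻ x in closedBall y s, g x) / volume (closedBall y s)) (𝓝[>] 0)
      (𝓝 (g y)) := by
    have hloc : ∀ N : ℕ, ∀ᵐ y ∂(volume : Measure (E n)), y ∈ ball x0 (N : ℝ) → Tendsto
      (fun s : ℝ => (∫⁻ x in closedBall y s, g x) / volume (closedBall y s)) (𝓝[>] 0)
      (𝓝 (g y)) := by
      intro N
      let gN : E n → ℝ≥0∞ := (ball x0 (N : ℝ)).indicator g
      have hgNm : AEMeasurable gN volume := (hgm.indicator measurableSet_ball).aemeasurable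
      have hint : (∫⁻ y, gN y) ≠ ⊤ := by
        rw [lintegral_indicator measurableSet_ball]
        rcases Nat.eq_zero_or_pos N with h0 | h0
        · subst h0; simp
        · have hN : (0 : ℝ) < N := by exact_mod_cast h0
          have h1 : (∫⁻ y in ball x0 (N : ℝ), g y) ≤ volume (ball x0 (N : ℝ)) * v0 x0 :=
            (lintegral_mono fun y => hgv0 y).trans ((hF v0 hv0F).supermean x0 N hN)
          exact ne_top_of_le_ne_top (ENNReal.mul_ne_top measure_ball_lt_top.ne hx0) h1
      have hae := (Besicovitch.vitaliFamily (volume : Measure (E n))).ae_tendsto_lintegral_div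
        hgNm hint
      filter_upwards [hae] with y hy hyN
      have hy2 := hy.comp (Besicovitch.tendsto_filterAt (volume : Measure (E n)) y)
      have hgy : gN y = g y := indicator_of_mem hyN g
      rw [hgy] at hy2
      refine hy2.congr' ?_
      have hrad : 0 < (N : ℝ) - dist y x0 := by
        rw [mem_ball] at hyN; linarith
      have hmem : Ioo (0 : ℝ) ((N : ℝ) - dist y x0) ∈ 𝓝[>] (0 : ℝ) := Ioo_mem_nhdsGT hrad
      filter_upwards [hmem] with s hs
      have hsub : closedBall y s ⊆ ball x0 (N : ℝ) := by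
        intro x hx
        rw [mem_closedBall] at hx
        rw [mem_ball]
        calc dist x x0 ≤ dist x y + dist y x0 := dist_triangle _ _ _
          _ < ((N : ℝ) - dist y x0) + dist y x0 := by linarith [hs.2]
          _ = N := by ring
      show (∫⁻ x in closedBall y s, gN x) / volume (closedBall y s) = _
      congr 1
      refine setLIntegral_congr_fun measurableSet_closedBall fun x hx => ?_
      exact indicator_of_mem (hsub hx) g
    have hall := ae_all_iff.2 hloc
    filter_upwards [hall] with y hy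
    obtain ⟨N, hN⟩ := exists_nat_gt (dist y x0)
    exact hy N (mem_ball.2 hN)
  filter_upwards [hLeb] with y hy
  refine le_antisymm (hself f y) ?_
  refine (hfg y).trans (le_trans ?_ (hreg y))
  -- g y ≤ lscReg g y
  have hstep : ∀ t : ℝ, 1 < t → g y ≤ ENNReal.ofReal (t ^ n) * lscReg g y := by
    intro t ht
    refine le_of_tendsto hy ?_
    filter_upwards [self_mem_nhdsWithin] with s hs
    have hs0 : 0 < s := hs
    have ht0 : 0 < t := by linarith
    have h1 := hlow y s (t * s) hs0 (by nlinarith)
    rw [hcball y s hs0]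
    have h2 : ENNReal.ofReal ((t * s) ^ n) * V1
        = ENNReal.ofReal (t ^ n) * (ENNReal.ofReal (s ^ n) * V1) := by
      rw [mul_pow, ENNReal.ofReal_mul (by positivity), mul_assoc]
    rw [h2] at h1
    have htn0 : ENNReal.ofReal (t ^ n) ≠ 0 := by
      simp only [ne_eq, ENNReal.ofReal_eq_zero, not_le]; positivity
    have htnt : ENNReal.ofReal (t ^ n) ≠ ⊤ := ENNReal.ofReal_ne_top
    have h3 : (∫⁻ x in closedBall y s, g x) / (ENNReal.ofReal (s ^ n) * V1)
        = ENNReal.ofReal (t ^ n) * ((∫⁻ x in closedBall y s, g x) /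
          (ENNReal.ofReal (t ^ n) * (ENNReal.ofReal (s ^ n) * V1))) := by
      rw [ENNReal.div_eq_inv_mul, ENNReal.div_eq_inv_mul,
        ENNReal.mul_inv (Or.inl htn0) (Or.inl htnt), ← mul_assoc, ← mul_assoc,
        ENNReal.mul_inv_cancel htn0 htnt, one_mul]
    rw [h3]
    gcongr
  have hlim : Tendsto (fun t : ℝ => ENNReal.ofReal (t ^ n) * lscReg g y) (𝓝[>] 1)
      (𝓝 (1 * lscReg g y)) := by
    refine ENNReal.Tendsto.mul_const ?_ (Or.inl one_ne_zero)
    have hc : Tendsto (fun t : ℝ => ENNReal.ofReal (t ^ n)) (𝓝 1) (𝓝 (ENNReal.ofReal (1 ^ n))) :=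
      (ENNReal.continuous_ofReal.comp (continuous_pow n)).tendsto 1
    rw [one_pow, ENNReal.ofReal_one] at hc
    exact hc.mono_left nhdsWithin_le_nhds
  rw [one_mul] at hlim
  refine ge_of_tendsto hlim ?_
  filter_upwards [self_mem_nhdsWithin] with t ht
  exact hstep t ht

end Pool.Agent.Helper486.TP
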