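import Pool.Agent.Helper486.TP.Transl
import Pool.Agent.Helper486.TP.Basic

/-! # Growth of a nonnegative function at a zero where its Laplacian has positive density -/

set_option autoImplicit false

open MeasureTheory Set Filter Topology Metric
open scoped InnerProductSpace ContDiff Laplacian

namespace Pool.Agent.Helper486.TP





theorem growth_fderiv {n : ℕ} {G : Type*} [NormedAddCommGroup G] [NormedSpace ℝ G] (F : E n → G)
    (hF : Differentiable ℝ F) (z w : E n) (c : ℝ) :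
    fderiv ℝ (fun w => F (c • (z - w))) w = (-c) • fderiv ℝ F (c • (z - w)) := by
  have h1 : HasFDerivAt (fun w : E n => c • (z - w)) (c • (-(ContinuousLinearMap.id ℝ (E n)))) w :=
    ((hasFDerivAt_id w).const_sub z).const_smul c
  have h2 := (hF (c • (z - w))).hasFDerivAt.comp w h1
  have h3 : (fderiv ℝ F (c • (z - w))).comp (c • (-(ContinuousLinearMap.id ℝ (E n)))) =
      (-c) • fderiv ℝ F (c • (z - w)) := by
    ext v
    simp
  rw [← h3]
  exact h2.fderiv

theorem growth_lap {n : ℕ} (H : E n → ℝ) (hH : ContDiff ℝ ∞ H) (z w : E n) (a c : ℝ) :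
    (Δ (fun w => a * H (c • (z - w)))) w = a * c ^ 2 * (Δ H) (c • (z - w)) := by
  have hd1 : Differentiable ℝ H := hH.differentiable (by simp)
  have hd2 : Differentiable ℝ (fderiv ℝ H) :=
    (hH.fderiv_right (m := ∞) (by simp)).differentiable (by simp)
  have h1 : ∀ w : E n, fderiv ℝ (fun w => a * H (c • (z - w))) w =
      (-(a * c)) • fderiv ℝ H (c • (z - w)) := by
    intro w
    have h2 : HasFDerivAt (fun w => H (c • (z - w))) ((-c) • fderiv ℝ H (c • (z - w))) w := by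
      rw [← growth_fderiv H hd1 z w c]
      apply DifferentiableAt.hasFDerivAt
      exact (hd1 _).comp w (((differentiableAt_id).const_sub z).const_smul c)
    have h3 := h2.const_mul a
    rw [h3.fderiv, smul_smul]
    congr 1
    ring
  rw [InnerProductSpace.laplacian_eq_iteratedFDeriv_stdOrthonormalBasis,
    InnerProductSpace.laplacian_eq_iteratedFDeriv_stdOrthonormalBasis, Finset.mul_sum]
  apply Finset.sum_congr rfl
  intro i _
  rw [iteratedFDeriv_two_apply, iteratedFDeriv_two_apply]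
  have h4 : fderiv ℝ (fun w => a * H (c • (z - w))) =
      fun w => (-(a * c)) • fderiv ℝ H (c • (z - w)) := funext h1
  rw [h4]
  have h5 : HasFDerivAt (fun w => fderiv ℝ H (c • (z - w)))
      ((-c) • fderiv ℝ (fderiv ℝ H) (c • (z - w))) w := by
    rw [← growth_fderiv (fderiv ℝ H) hd2 z w c]
    apply DifferentiableAt.hasFDerivAt
    exact (hd2 _).comp w (((differentiableAt_id).const_sub z).const_smul c)
  have h6 : HasFDerivAt (fun w => (-(a * c)) • fderiv ℝ H (c • (z - w)))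
      ((-(a * c)) • (-c) • fderiv ℝ (fderiv ℝ H) (c • (z - w))) w := h5.const_smul (-(a * c))
  rw [h6.fderiv]
  simp only [_root_.smul_apply, smul_eq_mul]
  ring

theorem growth_lap_cont {n : ℕ} (H : E n → ℝ) (hH : ContDiff ℝ ∞ H) : Continuous (Δ H) := by
  rw [InnerProductSpace.laplacian_eq_iteratedFDeriv_stdOrthonormalBasis]
  apply continuous_finsetSum
  intro i _
  have h1 : Continuous (iteratedFDeriv ℝ 2 H) :=
    hH.continuous_iteratedFDeriv (by exact WithTop.coe_le_coe.2 le_top)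
  exact h1.eval_const _

theorem growth_lap_bdd {n : ℕ} (H : E n → ℝ) (hH : ContDiff ℝ ∞ H)
    (h0 : ∀ x, 1 ≤ ‖x‖ → H x = 0) : ∃ C : ℝ, ∀ x, ‖(Δ H) x‖ ≤ C := by
  have hc : HasCompactSupport (Δ H) := by
    apply HasCompactSupport.intro (isCompact_closedBall (0 : E n) 1)
    intro x hx
    rw [mem_closedBall_zero_iff, not_le] at hx
    have h1 : H =ᶠ[𝓝 x] (fun _ => (0 : ℝ)) := by
      have h2 : ∀ᶠ y in 𝓝 x, 1 < ‖y‖ := continuous_norm.continuousAt.eventually_const_lt hx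
      filter_upwards [h2] with y hy
      exact h0 y hy.le
    have h3 := (InnerProductSpace.laplacian_congr_nhds h1).eq_of_nhds
    rw [h3, InnerProductSpace.laplacian_const]
    rfl
  exact hc.exists_bound_of_continuous (growth_lap_cont H hH)

theorem growth_supp {n : ℕ} (g : E n → ℝ) (h0 : ∀ x, 1 ≤ ‖x‖ → g x = 0) (z w : E n) (r : ℝ)
    (hr : 0 < r) (hw : w ∉ ball z r) : g (r⁻¹ • (z - w)) = 0 := by
  apply h0
  rw [norm_smul, Real.norm_of_nonneg (inv_nonneg.2 hr.le)]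
  rw [mem_ball, not_lt, dist_comm, dist_eq_norm] at hw
  rw [← div_eq_inv_mul, one_le_div hr]
  exact hw

theorem growth_test {n : ℕ} (K : Kernel n) (U : Set (E n)) (z : E n) (r : ℝ) (hr : 0 < r)
    (hU : closedBall z r ⊆ U) : TestOn U (fun w => (r ^ n)⁻¹ * K.H (r⁻¹ • (z - w))) := by
  have hsub : tsupport (fun w => (r ^ n)⁻¹ * K.H (r⁻¹ • (z - w))) ⊆ closedBall z r := by
    apply closure_minimal _ isClosed_closedBall
    intro w hw
    by_contra h
    apply hw
    show (r ^ n)⁻¹ * K.H (r⁻¹ • (z - w)) = 0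
    rw [growth_supp K.H K.H_supp z w r hr (fun h' => h (ball_subset_closedBall h')), mul_zero]
  refine ⟨?_, ?_, hsub.trans hU⟩
  · have h1 : ContDiff ℝ ∞ (fun w : E n => r⁻¹ • (z - w)) := by fun_prop
    exact contDiff_const.mul (K.H_smooth.comp h1)
  · exact HasCompactSupport.of_support_subset_isCompact (isCompact_closedBall z r)
      (subset_closure.trans hsub)

/-- the basic identity for a fixed radius -/
theorem growth_id {n : ℕ} (K : Kernel n) (U : Set (E n)) (v : E n → ℝ)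
    (P N : Measure (E n))
    (hlap : ∀ φ, TestOn U φ → ∫ x, v x * (Δ φ) x = ∫ x, φ x ∂P - ∫ x, φ x ∂N)
    (z : E n) (r : ℝ) (hr : 0 < r) (hU : closedBall z r ⊆ U) :
    r * ((r ^ n)⁻¹ * ∫ w, K.H (r⁻¹ • (z - w)) ∂P - (r ^ n)⁻¹ * ∫ w, K.H (r⁻¹ • (z - w)) ∂N) =
      ∫ w, v w * ((r ^ (n + 1))⁻¹ * (Δ K.H) (r⁻¹ • (z - w))) := by
  have h1 := hlap _ (growth_test K U z r hr hU)
  rw [integral_const_mul, integral_const_mul] at h1
  rw [← h1, ← integral_const_mul]
  congr 1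
  funext w
  rw [growth_lap K.H K.H_smooth]
  field_simp
  ring

/-- continuous bumps supported in the unit ball -/
structure growth_Bump {n : ℕ} (g : E n → ℝ) : Prop where
  cont : Continuous g
  nonneg : ∀ x, 0 ≤ g x
  supp : ∀ x, 1 ≤ ‖x‖ → g x = 0

theorem growth_Bump.cpt {n : ℕ} {g : E n → ℝ} (hg : growth_Bump g) : HasCompactSupport g := by
  apply HasCompactSupport.intro (isCompact_closedBall (0 : E n) 1)
  intro x hx
  rw [mem_closedBall_zero_iff, not_le] at hx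
  exact hg.supp x hx.le

theorem growth_Bump.bdd {n : ℕ} {g : E n → ℝ} (hg : growth_Bump g) :
    ∃ M : ℝ, 0 < M ∧ ∀ x, g x ≤ M := by
  obtain ⟨C, hC⟩ := hg.cpt.exists_bound_of_continuous hg.cont
  refine ⟨max C 1, lt_of_lt_of_le one_pos (le_max_right _ _), fun x => ?_⟩
  exact (le_abs_self _).trans ((hC x).trans (le_max_left _ _))

theorem growth_scale {n : ℕ} (g : E n → ℝ) (z : E n) (r : ℝ) (hr : 0 < r) :
    (r ^ n)⁻¹ * ∫ w, g (r⁻¹ • (z - w)) = ∫ w, g w := by
  have h1 : ∫ w, g (r⁻¹ • (z - w)) = ∫ w, g (r⁻¹ • w) :=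
    integral_sub_left_eq_self (fun w => g (r⁻¹ • w)) volume z
  rw [h1, Measure.integral_comp_smul, finrank_euclideanSpace_fin, smul_eq_mul,
    inv_pow, inv_inv, abs_of_pos (pow_pos hr n), ← mul_assoc, inv_mul_cancel₀ (pow_pos hr n).ne',
    one_mul]

theorem growth_vol {n : ℕ} (z : E n) (r : ℝ) (hr : 0 < r) :
    (volume (closedBall z r)).toReal = r ^ n * (volume (ball (0 : E n) 1)).toReal := by
  rw [Measure.addHaar_closedBall _ _ hr.le, ENNReal.toReal_mul,
    ENNReal.toReal_ofReal (by positivity), finrank_euclideanSpace_fin]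

theorem growth_ker1 {n : ℕ} {g : E n → ℝ} (hg : growth_Bump g) (f : E n → ℝ)
    (hf : Integrable f) : ∀ᵐ z : E n, Tendsto
      (fun r : ℝ => (r ^ n)⁻¹ * ∫ w, f w * g (r⁻¹ • (z - w))) (𝓝[>] 0) (𝓝 ((∫ w, g w) * f z)) := by
  obtain ⟨M, hM0, hM⟩ := hg.bdd
  filter_upwards [IsUnifLocDoublingMeasure.ae_tendsto_average_norm_sub
    (μ := (volume : Measure (E n))) hf.locallyIntegrable 1] with z hz
  have hlim := hz (fun _ : ℝ => z) (fun r : ℝ => r) tendsto_id (by
    filter_upwards [self_mem_nhdsWithin] with r hr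
    exact mem_closedBall_self (by have : (0 : ℝ) < r := hr; linarith))
  set V : ℝ := (volume (ball (0 : E n) 1)).toReal with hV
  rw [tendsto_iff_norm_sub_tendsto_zero]
  have hlim2 : Tendsto (fun r : ℝ => M * V * ⨍ y in closedBall z r, ‖f y - f z‖) (𝓝[>] 0)
      (𝓝 (M * V * 0)) := hlim.const_mul _
  rw [mul_zero] at hlim2
  refine squeeze_zero' (Eventually.of_forall fun r => norm_nonneg _) ?_ hlim2
  filter_upwards [self_mem_nhdsWithin] with r hr
  have hr0 : (0 : ℝ) < r := hr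
  have hrn : (0 : ℝ) < r ^ n := pow_pos hr0 n
  have hgc : Continuous (fun w : E n => g (r⁻¹ • (z - w))) := by
    apply hg.cont.comp
    fun_prop
  have hgb : ∀ w : E n, ‖g (r⁻¹ • (z - w))‖ ≤ M := fun w => by
    rw [Real.norm_of_nonneg (hg.nonneg _)]
    exact hM _
  have hg0 : ∀ w : E n, w ∉ closedBall z r → g (r⁻¹ • (z - w)) = 0 := fun w hw =>
    growth_supp g hg.supp z w r hr0 (fun h => hw (ball_subset_closedBall h))
  have hgi : Integrable (fun w : E n => g (r⁻¹ • (z - w))) := by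
    apply hgc.integrable_of_hasCompactSupport
    exact HasCompactSupport.intro (isCompact_closedBall z r) hg0
  have hfg : Integrable (fun w : E n => f w * g (r⁻¹ • (z - w))) :=
    hf.mul_bdd (c := M) hgc.aestronglyMeasurable (Eventually.of_forall hgb)
  have hfi : IntegrableOn (fun w => ‖f w - f z‖) (closedBall z r) :=
    (hf.integrableOn.sub (integrableOn_const (by exact measure_closedBall_lt_top.ne))).norm
  have h1 : (r ^ n)⁻¹ * (∫ w, f w * g (r⁻¹ • (z - w))) - (∫ w, g w) * f z =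
      (r ^ n)⁻¹ * ∫ w, (f w - f z) * g (r⁻¹ • (z - w)) := by
    have h2 : ∫ w, (f w - f z) * g (r⁻¹ • (z - w)) =
        (∫ w, f w * g (r⁻¹ • (z - w))) - f z * ∫ w, g (r⁻¹ • (z - w)) := by
      rw [← integral_const_mul, ← integral_sub hfg (hgi.const_mul _)]
      congr 1
      funext w
      ring
    rw [h2, mul_sub, ← growth_scale g z r hr0]
    ring
  rw [h1, norm_mul, Real.norm_of_nonneg (inv_nonneg.2 hrn.le)]
  have h3 : ‖∫ w, (f w - f z) * g (r⁻¹ • (z - w))‖ ≤ M * ∫ w in closedBall z r, ‖f w - f z‖ := by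
    have h4 : ∫ w, (f w - f z) * g (r⁻¹ • (z - w)) =
        ∫ w in closedBall z r, (f w - f z) * g (r⁻¹ • (z - w)) := by
      rw [setIntegral_eq_integral_of_forall_compl_eq_zero]
      intro w hw
      rw [hg0 w hw, mul_zero]
    rw [h4, ← integral_const_mul]
    apply norm_integral_le_of_norm_le (hfi.const_mul M)
    filter_upwards with w
    rw [norm_mul, mul_comm]
    exact mul_le_mul_of_nonneg_right (hgb w) (norm_nonneg _)
  have h5 : ⨍ y in closedBall z r, ‖f y - f z‖ =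
      (r ^ n * V)⁻¹ * ∫ w in closedBall z r, ‖f w - f z‖ := by
    rw [setAverage_eq, smul_eq_mul, Measure.real, growth_vol z r hr0]
  rw [h5]
  have hV0 : V ≠ 0 := by
    rw [hV, ENNReal.toReal_ne_zero]
    exact ⟨(measure_ball_pos _ _ one_pos).ne', measure_ball_lt_top.ne⟩
  calc (r ^ n)⁻¹ * ‖∫ w, (f w - f z) * g (r⁻¹ • (z - w))‖
      ≤ (r ^ n)⁻¹ * (M * ∫ w in closedBall z r, ‖f w - f z‖) := by gcongr
    _ = M * V * ((r ^ n * V)⁻¹ * ∫ w in closedBall z r, ‖f w - f z‖) := by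
      field_simp

theorem growth_ker2 {n : ℕ} {g : E n → ℝ} (hg : growth_Bump g) (μ : Measure (E n))
    [IsFiniteMeasure μ] (hμ : μ.rnDeriv volume =ᵐ[volume] 0) : ∀ᵐ z : E n, Tendsto
      (fun r : ℝ => (r ^ n)⁻¹ * ∫ w, g (r⁻¹ • (z - w)) ∂μ) (𝓝[>] 0) (𝓝 0) := by
  obtain ⟨M, hM0, hM⟩ := hg.bdd
  filter_upwards [Besicovitch.ae_tendsto_rnDeriv μ (volume : Measure (E n)), hμ] with z hz hz0
  rw [hz0] at hz
  set V : ℝ := (volume (ball (0 : E n) 1)).toReal with hV
  have hlim : Tendsto (fun r : ℝ => M * V * (μ (closedBall z r) / volume (closedBall z r)).toReal)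
      (𝓝[>] 0) (𝓝 (M * V * (0 : ENNReal).toReal)) :=
    ((ENNReal.tendsto_toReal ENNReal.zero_ne_top).comp hz).const_mul _
  rw [ENNReal.toReal_zero, mul_zero] at hlim
  refine squeeze_zero' ?_ ?_ hlim
  · filter_upwards [self_mem_nhdsWithin] with r hr
    have hr0 : (0 : ℝ) < r := hr
    exact mul_nonneg (inv_nonneg.2 (pow_pos hr0 n).le) (integral_nonneg fun w => hg.nonneg _)
  · filter_upwards [self_mem_nhdsWithin] with r hr
    have hr0 : (0 : ℝ) < r := hr
    have hrn : (0 : ℝ) < r ^ n := pow_pos hr0 n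
    have hg0 : ∀ w : E n, w ∉ closedBall z r → g (r⁻¹ • (z - w)) = 0 := fun w hw =>
      growth_supp g hg.supp z w r hr0 (fun h => hw (ball_subset_closedBall h))
    have h1 : ∫ w, g (r⁻¹ • (z - w)) ∂μ ≤ M * (μ (closedBall z r)).toReal := by
      rw [← setIntegral_eq_integral_of_forall_compl_eq_zero hg0]
      have h2 : ∫ w in closedBall z r, g (r⁻¹ • (z - w)) ∂μ ≤
          ∫ _w in closedBall z r, M ∂μ := by
        apply integral_mono_of_nonneg
        · exact Eventually.of_forall fun w => hg.nonneg _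
        · exact integrable_const _
        · exact Eventually.of_forall fun w => hM _
      refine h2.trans (le_of_eq ?_)
      rw [setIntegral_const, smul_eq_mul, mul_comm]
      rfl
    have hV0 : V ≠ 0 := by
      rw [hV, ENNReal.toReal_ne_zero]
      exact ⟨(measure_ball_pos _ _ one_pos).ne', measure_ball_lt_top.ne⟩
    rw [ENNReal.toReal_div, growth_vol z r hr0]
    calc (r ^ n)⁻¹ * ∫ w, g (r⁻¹ • (z - w)) ∂μ
        ≤ (r ^ n)⁻¹ * (M * (μ (closedBall z r)).toReal) := by gcongr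
      _ = M * V * ((μ (closedBall z r)).toReal / (r ^ n * V)) := by
        field_simp

theorem growth_ker {n : ℕ} {g : E n → ℝ} (hg : growth_Bump g) (μ : Measure (E n))
    [IsFiniteMeasure μ] : ∀ᵐ z : E n, Tendsto
      (fun r : ℝ => (r ^ n)⁻¹ * ∫ w, g (r⁻¹ • (z - w)) ∂μ) (𝓝[>] 0)
      (𝓝 ((∫ w, g w) * (μ.rnDeriv volume z).toReal)) := by
  obtain ⟨M, hM0, hM⟩ := hg.bdd
  have h1 := growth_ker2 hg (μ.singularPart volume) (Measure.rnDeriv_singularPart _ _)
  have h2 := growth_ker1 hg (fun z => (μ.rnDeriv volume z).toReal) Measure.integrable_toReal_rnDeriv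
  filter_upwards [h1, h2] with z hz1 hz2
  have h3 := hz1.add hz2
  rw [zero_add] at h3
  refine h3.congr' ?_
  filter_upwards [self_mem_nhdsWithin] with r hr
  have hgc : Continuous (fun w : E n => g (r⁻¹ • (z - w))) := by
    apply hg.cont.comp
    fun_prop
  have hgb : ∀ w : E n, ‖g (r⁻¹ • (z - w))‖ ≤ M := fun w => by
    rw [Real.norm_of_nonneg (hg.nonneg _)]
    exact hM _
  have hint : ∀ ν : Measure (E n), IsFiniteMeasure ν →
      Integrable (fun w : E n => g (r⁻¹ • (z - w))) ν := fun ν _ =>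
    Integrable.of_bound hgc.aestronglyMeasurable M (Eventually.of_forall hgb)
  have h4 : ∫ w, g (r⁻¹ • (z - w)) ∂μ = ∫ w, g (r⁻¹ • (z - w)) ∂(μ.singularPart volume) +
      ∫ w, (μ.rnDeriv volume w).toReal * g (r⁻¹ • (z - w)) := by
    conv_lhs => rw [Measure.haveLebesgueDecomposition_add μ (volume : Measure (E n))]
    rw [integral_add_measure (hint _ inferInstance) (hint _ inferInstance),
      integral_withDensity_eq_integral_toReal_smul (Measure.measurable_rnDeriv _ _)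
        (Measure.rnDeriv_lt_top _ _)]
    rfl
  rw [h4, mul_add]

/-- Fubini for the scaling identity -/
theorem growth_fubini {n : ℕ} (K : Kernel n) (v : E n → ℝ) (hv : Integrable v)
    (z : E n) (s h : ℝ) (hs : 0 < s) (hsh : s ≤ h) :
    IntervalIntegrable (fun r : ℝ => ∫ w, v w * ((r ^ (n + 1))⁻¹ * (Δ K.H) (r⁻¹ • (z - w))))
      volume s h ∧
    ∫ r in s..h, ∫ w, v w * ((r ^ (n + 1))⁻¹ * (Δ K.H) (r⁻¹ • (z - w))) =
      ∫ w, v w * ((h ^ n)⁻¹ * K.ρ (h⁻¹ • (z - w)) - (s ^ n)⁻¹ * K.ρ (s⁻¹ • (z - w))) := by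
  obtain ⟨C, hC⟩ := growth_lap_bdd K.H K.H_smooth K.H_supp
  have hc := growth_lap_cont K.H K.H_smooth
  set F : ℝ × E n → ℝ := fun p => v p.2 * (((max p.1 s) ^ (n + 1))⁻¹ *
    (Δ K.H) ((max p.1 s)⁻¹ • (z - p.2))) with hF
  have hmax : ∀ p : ℝ × E n, 0 < max p.1 s := fun p => lt_of_lt_of_le hs (le_max_right _ _)
  have hFi : Integrable F ((volume.restrict (Ioc s h)).prod volume) := by
    have h1 : Integrable (fun p : ℝ × E n => v p.2) ((volume.restrict (Ioc s h)).prod volume) :=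
      hv.comp_snd _
    apply h1.mul_bdd (c := (s ^ (n + 1))⁻¹ * C)
    · apply Continuous.aestronglyMeasurable
      have h2 : Continuous (fun p : ℝ × E n => (max p.1 s)⁻¹) :=
        (continuous_fst.max continuous_const).inv₀ (fun p => (hmax p).ne')
      have h3 : Continuous (fun p : ℝ × E n => ((max p.1 s) ^ (n + 1))⁻¹) :=
        ((continuous_fst.max continuous_const).pow _).inv₀ (fun p => (pow_pos (hmax p) _).ne')
      exact h3.mul (hc.comp (h2.smul (continuous_const.sub continuous_snd)))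
    · refine Eventually.of_forall fun p => ?_
      rw [norm_mul, Real.norm_of_nonneg (inv_nonneg.2 (pow_pos (hmax p) _).le)]
      apply mul_le_mul _ (hC _) (norm_nonneg _) (by positivity)
      apply inv_anti₀ (by positivity)
      exact pow_le_pow_left₀ hs.le (le_max_right _ _) _
  have hFeq : ∀ r ∈ Ioc s h, ∀ w, F (r, w) = v w * ((r ^ (n + 1))⁻¹ * (Δ K.H) (r⁻¹ • (z - w))) := by
    intro r hr w
    simp only [hF]
    rw [max_eq_left hr.1.le]
  have hI1 : IntegrableOn (fun r : ℝ => ∫ w, v w * ((r ^ (n + 1))⁻¹ * (Δ K.H) (r⁻¹ • (z - w))))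
      (Ioc s h) := by
    have h1 := hFi.integral_prod_left
    refine h1.congr ?_
    filter_upwards [ae_restrict_mem measurableSet_Ioc] with r hr
    apply integral_congr_ae
    exact Eventually.of_forall fun w => hFeq r hr w
  refine ⟨(intervalIntegrable_iff_integrableOn_Ioc_of_le hsh).2 hI1, ?_⟩
  rw [intervalIntegral.integral_of_le hsh]
  have h2 : ∫ r in Ioc s h, ∫ w, v w * ((r ^ (n + 1))⁻¹ * (Δ K.H) (r⁻¹ • (z - w))) =
      ∫ r in Ioc s h, ∫ w, F (r, w) := by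
    apply setIntegral_congr_fun measurableSet_Ioc
    intro r hr
    exact integral_congr_ae (Eventually.of_forall fun w => (hFeq r hr w).symm)
  rw [h2, integral_integral_swap (f := fun r w => F (r, w)) hFi]
  congr 1
  funext w
  have h3 : ∫ r in Ioc s h, F (r, w) =
      ∫ r in Ioc s h, v w * ((r ^ (n + 1))⁻¹ * (Δ K.H) (r⁻¹ • (z - w))) :=
    setIntegral_congr_fun measurableSet_Ioc fun r hr => hFeq r hr w
  rw [h3, integral_const_mul, K.scaling (z - w) s h hs hsh, intervalIntegral.integral_of_le hsh]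

theorem growth_diff {n : ℕ} (K : Kernel n) (U : Set (E n)) (v : E n → ℝ) (hv : Integrable v)
    (P N : Measure (E n))
    (hlap : ∀ φ, TestOn U φ → ∫ x, v x * (Δ φ) x = ∫ x, φ x ∂P - ∫ x, φ x ∂N)
    (z : E n) (s h : ℝ) (hs : 0 < s) (hsh : s ≤ h) (hU : closedBall z h ⊆ U) (a b : ℝ)
    (hab : ∀ r ∈ Icc s h, a ≤ (r ^ n)⁻¹ * ∫ w, K.H (r⁻¹ • (z - w)) ∂P -
        (r ^ n)⁻¹ * ∫ w, K.H (r⁻¹ • (z - w)) ∂N ∧
      (r ^ n)⁻¹ * ∫ w, K.H (r⁻¹ • (z - w)) ∂P -
        (r ^ n)⁻¹ * ∫ w, K.H (r⁻¹ • (z - w)) ∂N ≤ b) :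
    a * ((h ^ 2 - s ^ 2) / 2) ≤ (h ^ n)⁻¹ * (∫ w, v w * K.ρ (h⁻¹ • (z - w))) -
      (s ^ n)⁻¹ * (∫ w, v w * K.ρ (s⁻¹ • (z - w))) ∧
    (h ^ n)⁻¹ * (∫ w, v w * K.ρ (h⁻¹ • (z - w))) -
      (s ^ n)⁻¹ * (∫ w, v w * K.ρ (s⁻¹ • (z - w))) ≤ b * ((h ^ 2 - s ^ 2) / 2) := by
  obtain ⟨hI, hE⟩ := growth_fubini K v hv z s h hs hsh
  have hρ : growth_Bump K.ρ := ⟨K.ρ_smooth.continuous, K.ρ_nonneg, K.ρ_supp⟩
  obtain ⟨M, hM0, hM⟩ := hρ.bdd
  have hint : ∀ r : ℝ, Integrable (fun w => v w * K.ρ (r⁻¹ • (z - w))) := by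
    intro r
    apply hv.mul_bdd (c := M)
    · apply Continuous.aestronglyMeasurable
      apply hρ.cont.comp
      fun_prop
    · refine Eventually.of_forall fun w => ?_
      rw [Real.norm_of_nonneg (hρ.nonneg _)]
      exact hM _
  have h1 : ∫ w, v w * ((h ^ n)⁻¹ * K.ρ (h⁻¹ • (z - w)) - (s ^ n)⁻¹ * K.ρ (s⁻¹ • (z - w))) =
      (h ^ n)⁻¹ * (∫ w, v w * K.ρ (h⁻¹ • (z - w))) -
      (s ^ n)⁻¹ * (∫ w, v w * K.ρ (s⁻¹ • (z - w))) := by
    rw [← integral_const_mul, ← integral_const_mul,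
      ← integral_sub ((hint h).const_mul _) ((hint s).const_mul _)]
    congr 1
    funext w
    ring
  rw [← h1, ← hE]
  have hid : ∀ r ∈ Icc s h, ∫ w, v w * ((r ^ (n + 1))⁻¹ * (Δ K.H) (r⁻¹ • (z - w))) =
      r * ((r ^ n)⁻¹ * ∫ w, K.H (r⁻¹ • (z - w)) ∂P -
        (r ^ n)⁻¹ * ∫ w, K.H (r⁻¹ • (z - w)) ∂N) := by
    intro r hr
    exact (growth_id K U v P N hlap z r (hs.trans_le hr.1)
      ((closedBall_subset_closedBall hr.2).trans hU)).symm
  have hlin : ∀ c : ℝ, IntervalIntegrable (fun r : ℝ => c * r) volume s h := fun c =>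
    (continuous_const.mul continuous_id).intervalIntegrable _ _
  have hval : ∀ c : ℝ, ∫ r in s..h, c * r = c * ((h ^ 2 - s ^ 2) / 2) := fun c => by
    rw [intervalIntegral.integral_const_mul, integral_id]
  constructor
  · rw [← hval]
    apply intervalIntegral.integral_mono_on hsh (hlin a) hI
    intro r hr
    rw [hid r hr, mul_comm]
    exact mul_le_mul_of_nonneg_left (hab r hr).1 (hs.le.trans hr.1)
  · rw [← hval]
    apply intervalIntegral.integral_mono_on hsh hI (hlin b)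
    intro r hr
    rw [hid r hr, mul_comm b]
    exact mul_le_mul_of_nonneg_left (hab r hr).2 (hs.le.trans hr.1)


/-- **Target A1.** At almost every zero `z` of `v` at which the absolutely continuous part of the
Laplacian is positive, the ball averages of `v` are comparable with `r ^ 2`. -/
theorem growth {n : ℕ} (hn : 0 < n) (K : Kernel n) (U : Set (E n)) (hU : IsOpen U)
    (v : E n → ℝ) (hv : Integrable v) (hv0 : ∀ x, 0 ≤ v x)
    (P N : Measure (E n)) [IsFiniteMeasure P] [IsFiniteMeasure N]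
    (hlap : ∀ φ, TestOn U φ → ∫ x, v x * (Δ φ) x = ∫ x, φ x ∂P - ∫ x, φ x ∂N) :
    ∀ᵐ z ∂(volume : Measure (E n)), z ∈ U → v z = 0 →
      N.rnDeriv volume z < P.rnDeriv volume z →
      ∃ j : ℕ, 0 < j ∧ ∀ r : ℝ, 0 < r → r < 1 / (j : ℝ) →
        (1 / (j : ℝ)) * r ^ (n + 2) ≤ ∫ x in ball z r, v x ∧
        ∫ x in ball z r, v x ≤ (j : ℝ) * r ^ (n + 2) := by
  have hρ : growth_Bump K.ρ := ⟨K.ρ_smooth.continuous, K.ρ_nonneg, K.ρ_supp⟩
  have hH : growth_Bump K.H := ⟨K.H_smooth.continuous, K.H_nonneg, K.H_supp⟩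
  obtain ⟨M, hM0, hM⟩ := hρ.bdd
  have hcH : 0 < ∫ w, K.H w := by
    apply hH.cont.integral_pos_of_hasCompactSupport_nonneg_nonzero hH.cpt
      (fun x => hH.nonneg x) (x := 0)
    exact (K.H_pos 0 (by rw [norm_zero]; exact one_pos)).ne'
  obtain ⟨c0, hc0, hc0ρ⟩ : ∃ c0 : ℝ, 0 < c0 ∧ ∀ x : E n, ‖x‖ ≤ 1 / 2 → c0 ≤ K.ρ x := by
    obtain ⟨x, hx, hmin⟩ := (isCompact_closedBall (0 : E n) (1 / 2)).exists_isMinOn
      ⟨0, mem_closedBall_self (by norm_num)⟩ hρ.cont.continuousOn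
    refine ⟨K.ρ x, K.ρ_pos x ?_, fun y hy => hmin (mem_closedBall_zero_iff.2 hy)⟩
    have := mem_closedBall_zero_iff.1 hx
    linarith
  filter_upwards [growth_ker1 hρ v hv, growth_ker hH P, growth_ker hH N,
    Measure.rnDeriv_lt_top P volume] with z h1 h2 h3 h4 hzU hvz hlt
  have hpq : (N.rnDeriv volume z).toReal < (P.rnDeriv volume z).toReal :=
    (ENNReal.toReal_lt_toReal (hlt.trans h4).ne h4.ne).2 hlt
  rw [hvz, mul_zero] at h1
  set L : ℝ := (∫ w, K.H w) * (P.rnDeriv volume z).toReal -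
    (∫ w, K.H w) * (N.rnDeriv volume z).toReal with hL
  have hL0 : 0 < L := by
    rw [hL, ← mul_sub]
    exact mul_pos hcH (sub_pos.2 hpq)
  have hS := h2.sub h3
  rw [← hL] at hS
  have hev : ∀ᶠ r : ℝ in 𝓝[>] 0, L / 2 < (r ^ n)⁻¹ * ∫ w, K.H (r⁻¹ • (z - w)) ∂P -
      (r ^ n)⁻¹ * ∫ w, K.H (r⁻¹ • (z - w)) ∂N ∧
      (r ^ n)⁻¹ * ∫ w, K.H (r⁻¹ • (z - w)) ∂P -
      (r ^ n)⁻¹ * ∫ w, K.H (r⁻¹ • (z - w)) ∂N < 2 * L :=
    (hS.eventually_const_lt (by linarith)).and (hS.eventually_lt_const (by linarith))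
  obtain ⟨k1, hk1, hk1S⟩ := mem_nhdsGT_iff_exists_Ioc_subset.1 hev
  obtain ⟨k2, hk2, hk2U⟩ := nhds_basis_closedBall.mem_iff.1 (hU.mem_nhds hzU)
  have hk1' : (0 : ℝ) < k1 := hk1
  set h0 : ℝ := min k1 k2 with hh0
  have hh0pos : 0 < h0 := lt_min hk1' hk2
  -- the two sided bound for the kernel averages
  have hA : ∀ h : ℝ, 0 < h → h ≤ h0 →
      L / 2 * (h ^ 2 / 2) ≤ (h ^ n)⁻¹ * (∫ w, v w * K.ρ (h⁻¹ • (z - w))) ∧
      (h ^ n)⁻¹ * (∫ w, v w * K.ρ (h⁻¹ • (z - w))) ≤ 2 * L * (h ^ 2 / 2) := by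
    intro h hh hhh
    have hev2 : ∀ᶠ s : ℝ in 𝓝[>] 0, s ∈ Ioc 0 h := Ioc_mem_nhdsGT hh
    have hd : ∀ s ∈ Ioc 0 h, L / 2 * ((h ^ 2 - s ^ 2) / 2) ≤
        (h ^ n)⁻¹ * (∫ w, v w * K.ρ (h⁻¹ • (z - w))) -
        (s ^ n)⁻¹ * (∫ w, v w * K.ρ (s⁻¹ • (z - w))) ∧
        (h ^ n)⁻¹ * (∫ w, v w * K.ρ (h⁻¹ • (z - w))) -
        (s ^ n)⁻¹ * (∫ w, v w * K.ρ (s⁻¹ • (z - w))) ≤ 2 * L * ((h ^ 2 - s ^ 2) / 2) := by
      intro s hs
      apply growth_diff K U v hv P N hlap z s h hs.1 hs.2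
        ((closedBall_subset_closedBall (hhh.trans (min_le_right _ _))).trans hk2U)
      intro r hr
      have hr2 := hk1S ⟨hs.1.trans_le hr.1, hr.2.trans (hhh.trans (min_le_left _ _))⟩
      exact ⟨hr2.1.le, hr2.2.le⟩
    have hs2 : Tendsto (fun s : ℝ => (h ^ 2 - s ^ 2) / 2) (𝓝[>] 0) (𝓝 ((h ^ 2 - 0 ^ 2) / 2)) := by
      have : Continuous (fun s : ℝ => (h ^ 2 - s ^ 2) / 2) := by fun_prop
      exact (this.tendsto 0).mono_left nhdsWithin_le_nhds
    have hlimA : Tendsto (fun s : ℝ => (h ^ n)⁻¹ * (∫ w, v w * K.ρ (h⁻¹ • (z - w))) -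
        (s ^ n)⁻¹ * (∫ w, v w * K.ρ (s⁻¹ • (z - w)))) (𝓝[>] 0)
        (𝓝 ((h ^ n)⁻¹ * (∫ w, v w * K.ρ (h⁻¹ • (z - w))) - 0)) :=
      tendsto_const_nhds.sub h1
    rw [sub_zero] at hlimA
    rw [zero_pow two_ne_zero, sub_zero] at hs2
    constructor
    · apply le_of_tendsto_of_tendsto (hs2.const_mul _) hlimA
      filter_upwards [hev2] with s hs
      exact (hd s hs).1
    · apply le_of_tendsto_of_tendsto hlimA (hs2.const_mul _)
      filter_upwards [hev2] with s hs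
      exact (hd s hs).2
  have hint : ∀ r : ℝ, Integrable (fun w => v w * K.ρ (r⁻¹ • (z - w))) := by
    intro r
    apply hv.mul_bdd (c := M)
    · apply Continuous.aestronglyMeasurable
      apply hρ.cont.comp
      fun_prop
    · refine Eventually.of_forall fun w => ?_
      rw [Real.norm_of_nonneg (hρ.nonneg _)]
      exact hM _
  -- lower bound for the ball integrals
  have hlow : ∀ r : ℝ, 0 < r → r ≤ h0 → L / (4 * M) * r ^ (n + 2) ≤ ∫ x in ball z r, v x := by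
    intro r hr hrh
    have h5 := (hA r hr hrh).1
    have hrn : (0 : ℝ) < r ^ n := pow_pos hr n
    have h6 : ∫ w, v w * K.ρ (r⁻¹ • (z - w)) ≤ M * ∫ x in ball z r, v x := by
      have h7 : ∫ w, v w * K.ρ (r⁻¹ • (z - w)) = ∫ w in ball z r, v w * K.ρ (r⁻¹ • (z - w)) := by
        rw [setIntegral_eq_integral_of_forall_compl_eq_zero]
        intro w hw
        rw [growth_supp K.ρ K.ρ_supp z w r hr hw, mul_zero]
      rw [h7, ← integral_const_mul]
      apply integral_mono (hint r).integrableOn (hv.integrableOn.const_mul M)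
      intro w
      show v w * K.ρ (r⁻¹ • (z - w)) ≤ M * v w
      rw [mul_comm]
      exact mul_le_mul_of_nonneg_right (hM _) (hv0 w)
    have h8 : L / 2 * (r ^ 2 / 2) ≤ (r ^ n)⁻¹ * (M * ∫ x in ball z r, v x) :=
      h5.trans (mul_le_mul_of_nonneg_left h6 (inv_nonneg.2 hrn.le))
    rw [← div_eq_inv_mul, le_div_iff₀ hrn] at h8
    have h9 : L / (4 * M) * r ^ (n + 2) = L / 2 * (r ^ 2 / 2) * r ^ n / M := by
      field_simp
      ring
    rw [h9, div_le_iff₀ hM0, mul_comm _ M]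
    exact h8
  -- upper bound
  have hupp : ∀ r : ℝ, 0 < r → 2 * r ≤ h0 → ∫ x in ball z r, v x ≤
      2 ^ (n + 2) * L / c0 * r ^ (n + 2) := by
    intro r hr hrh
    have h2r : 0 < 2 * r := by linarith
    have h5 := (hA (2 * r) h2r hrh).2
    have hrn : (0 : ℝ) < (2 * r) ^ n := pow_pos h2r n
    have h6 : c0 * ∫ x in ball z r, v x ≤ ∫ w, v w * K.ρ ((2 * r)⁻¹ • (z - w)) := by
      have h7 : ∫ w in ball z r, v w * K.ρ ((2 * r)⁻¹ • (z - w)) ≤
          ∫ w, v w * K.ρ ((2 * r)⁻¹ • (z - w)) :=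
        setIntegral_le_integral (hint (2 * r))
          (Eventually.of_forall fun w => mul_nonneg (hv0 w) (hρ.nonneg _))
      refine le_trans ?_ h7
      rw [← integral_const_mul]
      apply setIntegral_mono_on (hv.integrableOn.const_mul c0) (hint (2 * r)).integrableOn
        measurableSet_ball
      intro w hw
      rw [mul_comm]
      apply mul_le_mul_of_nonneg_left _ (hv0 w)
      apply hc0ρ
      rw [norm_smul, Real.norm_of_nonneg (inv_nonneg.2 h2r.le)]
      rw [mem_ball, dist_comm, dist_eq_norm] at hw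
      rw [← div_eq_inv_mul, div_le_iff₀ h2r]
      linarith
    have h8 : ((2 * r) ^ n)⁻¹ * (c0 * ∫ x in ball z r, v x) ≤ 2 * L * ((2 * r) ^ 2 / 2) :=
      (mul_le_mul_of_nonneg_left h6 (inv_nonneg.2 hrn.le)).trans h5
    rw [← div_eq_inv_mul, div_le_iff₀ hrn] at h8
    have h9 : 2 ^ (n + 2) * L / c0 * r ^ (n + 2) = 2 * L * ((2 * r) ^ 2 / 2) * (2 * r) ^ n / c0 := by
      rw [mul_pow, mul_pow]
      field_simp
      ring
    rw [h9, le_div_iff₀ hc0, mul_comm _ c0]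
    exact h8
  obtain ⟨j, hj⟩ := exists_nat_gt (max (max (2 / h0) (4 * M / L)) (max (2 ^ (n + 2) * L / c0) 1))
  have hj1 : 2 / h0 < j := lt_of_le_of_lt ((le_max_left _ _).trans (le_max_left _ _)) hj
  have hj2 : 4 * M / L < j := lt_of_le_of_lt ((le_max_right _ _).trans (le_max_left _ _)) hj
  have hj3 : 2 ^ (n + 2) * L / c0 < j :=
    lt_of_le_of_lt ((le_max_left _ _).trans (le_max_right _ _)) hj
  have hj4 : (1 : ℝ) < j := lt_of_le_of_lt ((le_max_right _ _).trans (le_max_right _ _)) hj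
  have hjpos : (0 : ℝ) < j := by linarith
  refine ⟨j, by exact_mod_cast hjpos, ?_⟩
  intro r hr hrj
  have hrpos : (0 : ℝ) < r ^ (n + 2) := pow_pos hr _
  have hrh : 2 * r ≤ h0 := by
    rw [div_lt_iff₀ hh0pos] at hj1
    rw [lt_div_iff₀ hjpos] at hrj
    by_contra hcon
    push Not at hcon
    have h5 : (j : ℝ) * h0 < j * (2 * r) := mul_lt_mul_of_pos_left hcon hjpos
    nlinarith
  constructor
  · refine le_trans ?_ (hlow r hr (by linarith))
    apply mul_le_mul_of_nonneg_right _ hrpos.le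
    rw [div_le_div_iff₀ hjpos (by positivity), one_mul]
    rw [div_lt_iff₀ hL0] at hj2
    linarith
  · refine (hupp r hr hrh).trans ?_
    exact mul_le_mul_of_nonneg_right hj3.le hrpos.le

end Pool.Agent.Helper486.TP
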