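import Pool.Agent.Helper486.TP.Defs

/-! # A set of points of quadratic growth is null -/

set_option autoImplicit false

open MeasureTheory Set Filter Topology Metric


namespace Pool.Agent.Helper486.TP



/-- **Target A2.** If the integrals of `v ≥ 0` over small balls centred at the points of `Z` are
comparable with `r ^ (n + 2)`, uniformly on `Z`, then `Z` is a null set. -/
theorem growth_null {n : ℕ} (hn : 0 < n) (v : E n → ℝ) (hv : Integrable v)
    (hv0 : ∀ x, 0 ≤ v x) (Z : Set (E n)) (j : ℕ) (hj : 0 < j)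
    (h : ∀ z ∈ Z, ∀ r : ℝ, 0 < r → r < 1 / (j : ℝ) →
        (1 / (j : ℝ)) * r ^ (n + 2) ≤ ∫ x in ball z r, v x ∧
        ∫ x in ball z r, v x ≤ (j : ℝ) * r ^ (n + 2)) :
    volume Z = 0 := by
  by_contra hZ
  have hjR : (0 : ℝ) < j := by exact_mod_cast hj
  have hj1 : (1 : ℝ) ≤ j := by exact_mod_cast hj
  -- volume of balls
  have : Nonempty (Fin n) := ⟨⟨0, hn⟩⟩
  have hfr : Module.finrank ℝ (E n) = n := finrank_euclideanSpace_fin
  set ω : ENNReal := volume (ball (0 : E n) 1) with hω
  have hω0 : ω ≠ 0 := (measure_ball_pos volume (0 : E n) one_pos).ne'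
  have hωt : ω ≠ ⊤ := measure_ball_lt_top.ne
  have hball : ∀ (x : E n) (r : ℝ), 0 ≤ r → volume (ball x r) = ENNReal.ofReal (r ^ n) * ω := by
    intro x r hr
    have := Measure.addHaar_ball (volume : Measure (E n)) x hr
    rw [hfr] at this
    exact this
  have hcball : ∀ (x : E n) (r : ℝ), 0 ≤ r →
      volume (closedBall x r) = ENNReal.ofReal (r ^ n) * ω := by
    intro x r hr
    have := Measure.addHaar_closedBall (volume : Measure (E n)) x hr
    rw [hfr] at this
    exact this
  -- the density measure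
  set ν : Measure (E n) := volume.withDensity (fun x => ENNReal.ofReal (v x)) with hν
  have hνf : IsFiniteMeasure ν := isFiniteMeasure_withDensity_ofReal hv.2
  have hνb : ∀ (x : E n) (r : ℝ), ν (ball x r) = ENNReal.ofReal (∫ x in ball x r, v x) := by
    intro x r
    rw [hν, withDensity_apply _ measurableSet_ball,
      ofReal_integral_eq_lintegral_ofReal hv.integrableOn (Eventually.of_forall hv0)]
  -- density point
  obtain ⟨z0, hz0, hdens⟩ : ∃ z0 ∈ Z, Tendsto
      (fun r => volume (Z ∩ closedBall z0 r) / volume (closedBall z0 r)) (𝓝[>] 0) (𝓝 1) := by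
    by_contra hcon
    push Not at hcon
    have h1 := ae_imp_of_ae_restrict
      (Besicovitch.ae_tendsto_measure_inter_div (volume : Measure (E n)) Z)
    apply hZ
    apply measure_mono_null _ h1
    intro x hx
    simp only [Set.mem_compl_iff, Set.mem_ofPred_eq]
    intro h2
    exact hcon x hx (h2 hx)
  -- the constant
  set δ : ℝ := 1 / ((j : ℝ) * 2 ^ (n + 2)) with hδ
  have hδ0 : 0 < δ := by positivity
  have hδ2 : δ ≤ 1 / 2 := by
    rw [hδ]
    apply one_div_le_one_div_of_le (by norm_num)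
    have : (2 : ℝ) ≤ 2 ^ (n + 2) := by
      calc (2 : ℝ) = 2 ^ 1 := by norm_num
        _ ≤ 2 ^ (n + 2) := pow_le_pow_right₀ (by norm_num) (by omega)
    nlinarith
  have hc0 : ENNReal.ofReal ((δ / 3) ^ n) ≠ 0 := by
    rw [Ne, ENNReal.ofReal_eq_zero, not_le]; positivity
  have hev : ∀ᶠ ρ in 𝓝[>] (0 : ℝ),
      1 < volume (Z ∩ closedBall z0 ρ) / volume (closedBall z0 ρ) +
        ENNReal.ofReal ((δ / 3) ^ n) := by
    have h1 := hdens.add_const (ENNReal.ofReal ((δ / 3) ^ n))
    exact (tendsto_order.1 h1).1 1 (ENNReal.lt_add_right ENNReal.one_ne_top hc0)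
  obtain ⟨ε, hε, hε2⟩ := (nhdsGT_basis (0 : ℝ)).eventually_iff.1 hev
  -- the radius
  obtain ⟨r, hr0, hr1, hr2⟩ : ∃ r : ℝ, 0 < r ∧ r < 1 / (j : ℝ) ∧ 3 * r < ε := by
    refine ⟨min (1 / (2 * (j : ℝ))) (ε / 6), by positivity, ?_, ?_⟩
    · apply lt_of_le_of_lt (min_le_left _ _)
      apply one_div_lt_one_div_of_lt hjR
      linarith
    · have := min_le_right (1 / (2 * (j : ℝ))) (ε / 6)
      linarith
  have hclose : ∀ y ∈ ball z0 (2 * r), ∃ z ∈ Z, dist y z < δ * r := by
    intro y hy
    by_contra hcon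
    push Not at hcon
    have h3r : (0 : ℝ) < 3 * r := by positivity
    have h1 := hε2 (x := 3 * r) ⟨h3r, hr2⟩
    have hM0 : volume (closedBall z0 (3 * r)) ≠ 0 :=
      (measure_closedBall_pos volume z0 h3r).ne'
    have hMt : volume (closedBall z0 (3 * r)) ≠ ⊤ := measure_closedBall_lt_top.ne
    have hsub : ball y (δ * r) ⊆ closedBall z0 (3 * r) := by
      intro x hx
      rw [mem_ball] at hx hy
      rw [mem_closedBall]
      calc dist x z0 ≤ dist x y + dist y z0 := dist_triangle _ _ _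
        _ ≤ δ * r + 2 * r := by linarith
        _ ≤ 3 * r := by nlinarith
    have hdis : Disjoint (Z ∩ closedBall z0 (3 * r)) (ball y (δ * r)) := by
      rw [Set.disjoint_left]
      intro x hx hx2
      rw [mem_ball, dist_comm] at hx2
      exact absurd hx2 (not_lt.2 (hcon x hx.1))
    have h2 : volume (Z ∩ closedBall z0 (3 * r)) + volume (ball y (δ * r)) ≤
        volume (closedBall z0 (3 * r)) := by
      rw [← measure_union hdis measurableSet_ball]
      exact measure_mono (union_subset inter_subset_right hsub)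
    have h3 : volume (ball y (δ * r)) / volume (closedBall z0 (3 * r)) =
        ENNReal.ofReal ((δ / 3) ^ n) := by
      rw [hball _ _ (by positivity), hcball _ _ h3r.le,
        ENNReal.mul_div_mul_right _ _ hω0 hωt, ← ENNReal.ofReal_div_of_pos (by positivity)]
      congr 1
      rw [← div_pow]
      congr 1
      field_simp
    have h4 : volume (Z ∩ closedBall z0 (3 * r)) / volume (closedBall z0 (3 * r)) +
        ENNReal.ofReal ((δ / 3) ^ n) ≤ 1 := by
      rw [← h3, ← ENNReal.add_div]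
      exact ENNReal.div_le_of_le_mul (by rw [one_mul]; exact h2)
    exact absurd h1 (not_lt.2 h4)
  have hδr : δ * r < 1 / j / 2 := by nlinarith
  -- upper bound for nu of small balls
  have hup : ∀ y ∈ ball z0 (2 * r), ν (ball y (δ * r)) ≤
      ENNReal.ofReal (j * (2 * (δ * r)) ^ (n + 2)) := by
    intro y hy
    obtain ⟨z, hz, hyz⟩ := hclose y hy
    have hsub : ball y (δ * r) ⊆ ball z (2 * (δ * r)) := by
      intro x hx
      rw [mem_ball] at hx ⊢
      calc dist x z ≤ dist x y + dist y z := dist_triangle _ _ _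
        _ < 2 * (δ * r) := by linarith
    calc ν (ball y (δ * r)) ≤ ν (ball z (2 * (δ * r))) := measure_mono hsub
      _ = ENNReal.ofReal (∫ x in ball z (2 * (δ * r)), v x) := hνb _ _
      _ ≤ _ := ENNReal.ofReal_le_ofReal (h z hz _ (by positivity) (by linarith)).2
  -- Tonelli
  set S : Set (E n × E n) := {p | dist p.1 p.2 < δ * r} with hS
  have hSm : MeasurableSet S := by
    apply IsOpen.measurableSet
    exact isOpen_lt (by fun_prop) continuous_const
  have hT1 : ((volume : Measure (E n)).restrict (ball z0 (2 * r))).prod ν S ≤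
      ENNReal.ofReal (j * (2 * (δ * r)) ^ (n + 2)) * volume (ball z0 (2 * r)) := by
    rw [Measure.prod_apply hSm]
    calc ∫⁻ y in ball z0 (2 * r), ν (Prod.mk y ⁻¹' S)
        ≤ ∫⁻ _y in ball z0 (2 * r), ENNReal.ofReal (j * (2 * (δ * r)) ^ (n + 2)) := by
          apply setLIntegral_mono' measurableSet_ball
          intro y hy
          have e1 : Prod.mk y ⁻¹' S = ball y (δ * r) := by
            ext x
            simp only [hS, Set.mem_preimage, Set.mem_ofPred_eq, mem_ball]
            rw [dist_comm]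
          rw [e1]
          exact hup y hy
      _ = _ := by rw [setLIntegral_const]
  have hT2 : ENNReal.ofReal ((δ * r) ^ n) * ω * ν (ball z0 r) ≤
      ((volume : Measure (E n)).restrict (ball z0 (2 * r))).prod ν S := by
    rw [Measure.prod_apply_symm hSm]
    calc ENNReal.ofReal ((δ * r) ^ n) * ω * ν (ball z0 r)
        = ∫⁻ _x in ball z0 r, ENNReal.ofReal ((δ * r) ^ n) * ω ∂ν := by rw [setLIntegral_const]
      _ ≤ ∫⁻ x in ball z0 r, ((volume : Measure (E n)).restrict (ball z0 (2 * r)))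
            ((fun y => (y, x)) ⁻¹' S) ∂ν := by
          apply setLIntegral_mono' measurableSet_ball
          intro x hx
          have e1 : (fun y => (y, x)) ⁻¹' S = ball x (δ * r) := by
            ext y
            simp only [hS, Set.mem_preimage, Set.mem_ofPred_eq, mem_ball]
          rw [e1, Measure.restrict_apply measurableSet_ball]
          have e2 : ball x (δ * r) ∩ ball z0 (2 * r) = ball x (δ * r) := by
            apply inter_eq_left.2
            intro y hy
            rw [mem_ball] at hx hy ⊢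
            calc dist y z0 ≤ dist y x + dist x z0 := dist_triangle _ _ _
              _ < δ * r + r := by linarith
              _ ≤ 2 * r := by nlinarith
          rw [e2, hball _ _ (by positivity)]
      _ ≤ _ := lintegral_mono' Measure.restrict_le_self le_rfl
  have hlow : ENNReal.ofReal ((1 / (j : ℝ)) * r ^ (n + 2)) ≤ ν (ball z0 r) := by
    rw [hνb]
    exact ENNReal.ofReal_le_ofReal (h z0 hz0 r hr0 hr1).1
  have hfin : ENNReal.ofReal ((δ * r) ^ n * ((1 / (j : ℝ)) * r ^ (n + 2))) * ω ≤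
      ENNReal.ofReal ((j * (2 * (δ * r)) ^ (n + 2)) * (2 * r) ^ n) * ω := by
    have m1 : ENNReal.ofReal ((δ * r) ^ n * ((1 / (j : ℝ)) * r ^ (n + 2))) =
        ENNReal.ofReal ((δ * r) ^ n) * ENNReal.ofReal ((1 / (j : ℝ)) * r ^ (n + 2)) :=
      ENNReal.ofReal_mul (by positivity)
    have m2 : ENNReal.ofReal ((j * (2 * (δ * r)) ^ (n + 2)) * (2 * r) ^ n) =
        ENNReal.ofReal (j * (2 * (δ * r)) ^ (n + 2)) * ENNReal.ofReal ((2 * r) ^ n) :=
      ENNReal.ofReal_mul (by positivity)
    rw [m1, m2]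
    calc ENNReal.ofReal ((δ * r) ^ n) * ENNReal.ofReal ((1 / (j : ℝ)) * r ^ (n + 2)) * ω
        = ENNReal.ofReal ((δ * r) ^ n) * ω * ENNReal.ofReal ((1 / (j : ℝ)) * r ^ (n + 2)) := by
          ring
      _ ≤ ENNReal.ofReal ((δ * r) ^ n) * ω * ν (ball z0 r) := by gcongr
      _ ≤ ENNReal.ofReal (j * (2 * (δ * r)) ^ (n + 2)) * volume (ball z0 (2 * r)) :=
          hT2.trans hT1
      _ = ENNReal.ofReal (j * (2 * (δ * r)) ^ (n + 2)) * ENNReal.ofReal ((2 * r) ^ n) * ω := by
          rw [hball _ _ (by positivity), mul_assoc]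
  have hfin2 : (δ * r) ^ n * ((1 / (j : ℝ)) * r ^ (n + 2)) ≤
      (j * (2 * (δ * r)) ^ (n + 2)) * (2 * r) ^ n := by
    have h1 := (ENNReal.mul_le_mul_iff_left hω0 hωt).1 hfin
    exact (ENNReal.ofReal_le_ofReal_iff (by positivity)).1 h1
  have hfin3 : (δ ^ n * r ^ (2 * n + 2)) * (1 / (j : ℝ)) ≤
      (δ ^ n * r ^ (2 * n + 2)) * (j * 2 ^ (2 * n + 2) * δ ^ 2) := by
    calc (δ ^ n * r ^ (2 * n + 2)) * (1 / (j : ℝ))
        = (δ * r) ^ n * ((1 / (j : ℝ)) * r ^ (n + 2)) := by ring
      _ ≤ _ := hfin2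
      _ = _ := by ring
  have hfin4 : (1 / (j : ℝ)) ≤ j * 2 ^ (2 * n + 2) * δ ^ 2 :=
    le_of_mul_le_mul_left hfin3 (by positivity)
  have hfin5 : (j : ℝ) * 2 ^ (2 * n + 2) * δ ^ 2 = 1 / j * (1 / 4) := by
    have e1 : (2 : ℝ) ^ (n + 2) * 2 ^ (n + 2) = 2 ^ (2 * n + 2) * 4 := by
      rw [← pow_add, show (4 : ℝ) = 2 ^ 2 by norm_num, ← pow_add]
      congr 1
      omega
    have e2 : δ ^ 2 = 1 / ((j : ℝ) * j * (2 ^ (2 * n + 2) * 4)) := by
      rw [← e1, hδ, div_pow, one_pow]
      congr 1
      ring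
    rw [e2]
    field_simp
  rw [hfin5] at hfin4
  have : 0 < 1 / (j : ℝ) := by positivity
  linarith

end Pool.Agent.Helper486.TP
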