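import Pool.Agent.Helper486.TP.Defs

/-! # The explicit kernel -/

set_option autoImplicit false

open MeasureTheory Set Filter Topology Metric Polynomial
open scoped InnerProductSpace ContDiff Laplacian

namespace Pool.Agent.Helper486.TP

/-- first derivative of `expNegInvGlue` -/
noncomputable def q1 (t : ℝ) : ℝ := (X ^ 2 : ℝ[X]).eval t⁻¹ * expNegInvGlue t
/-- second derivative of `expNegInvGlue` -/
noncomputable def q2 (t : ℝ) : ℝ :=
  (X ^ 2 * (X ^ 2 - derivative (X ^ 2 : ℝ[X]))).eval t⁻¹ * expNegInvGlue t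

theorem hasDerivAt_f (t : ℝ) : HasDerivAt expNegInvGlue (q1 t) t := by
  have := expNegInvGlue.hasDerivAt_polynomial_eval_inv_mul 1 t
  simpa [q1] using this

theorem hasDerivAt_q1 (t : ℝ) : HasDerivAt q1 (q2 t) t :=
  expNegInvGlue.hasDerivAt_polynomial_eval_inv_mul (X ^ 2) t

theorem contDiff_q1 : ContDiff ℝ ∞ q1 :=
  expNegInvGlue.contDiff_polynomial_eval_inv_mul (X ^ 2)

theorem continuous_q2 : Continuous q2 :=
  expNegInvGlue.continuous_polynomial_eval_inv_mul _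

theorem q1_nonneg (t : ℝ) : 0 ≤ q1 t := by
  unfold q1
  have h1 := expNegInvGlue.nonneg t
  have h2 : 0 ≤ (X ^ 2 : ℝ[X]).eval t⁻¹ := by simp; positivity
  exact mul_nonneg h2 h1

theorem q1_zero {t : ℝ} (ht : t ≤ 0) : q1 t = 0 := by
  simp [q1, expNegInvGlue.zero_of_nonpos ht]

theorem q1_pos {t : ℝ} (ht : 0 < t) : 0 < q1 t := by
  unfold q1
  have h1 := expNegInvGlue.pos_of_pos ht
  have h2 : 0 < (X ^ 2 : ℝ[X]).eval t⁻¹ := by simp; positivity
  exact mul_pos h2 h1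

variable {n : ℕ}

/-- the kernel `H` -/
noncomputable def HH (x : E n) : ℝ := expNegInvGlue (1 - ‖x‖ ^ 2)
/-- the kernel `ρ` -/
noncomputable def RR (x : E n) : ℝ := 2 * q1 (1 - ‖x‖ ^ 2)

theorem hasFDerivAt_sq (x : E n) :
    HasFDerivAt (fun x : E n => 1 - ‖x‖ ^ 2) (-(2 • (innerSL ℝ x))) x := by
  have := (hasStrictFDerivAt_norm_sq x).hasFDerivAt
  simpa using this.const_sub 1

theorem hasFDerivAt_HH (x : E n) :
    HasFDerivAt (HH (n := n)) ((-(2 * q1 (1 - ‖x‖ ^ 2))) • (innerSL ℝ x)) x := by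
  have h := (hasDerivAt_f (1 - ‖x‖ ^ 2)).comp_hasFDerivAt x (hasFDerivAt_sq x)
  refine h.congr_fderiv ?_
  ext v
  simp
  ring

theorem fderiv_HH : fderiv ℝ (HH (n := n)) =
    fun x => (-(2 * q1 (1 - ‖x‖ ^ 2))) • (innerSL ℝ x) := by
  funext x; exact (hasFDerivAt_HH x).fderiv

theorem laplacian_HH (x : E n) :
    (Δ (HH (n := n))) x = 4 * ‖x‖ ^ 2 * q2 (1 - ‖x‖ ^ 2) - 2 * n * q1 (1 - ‖x‖ ^ 2) := by
  rw [InnerProductSpace.laplacian_eq_iteratedFDeriv_orthonormalBasis _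
    (EuclideanSpace.basisFun (Fin n) ℝ)]
  have hd : ∀ v : E n, iteratedFDeriv ℝ 2 (HH (n := n)) x ![v, v] =
      4 * q2 (1 - ‖x‖ ^ 2) * (inner ℝ x v) ^ 2 - 2 * q1 (1 - ‖x‖ ^ 2) * ‖v‖ ^ 2 := by
    intro v
    rw [iteratedFDeriv_two_apply, fderiv_HH]
    have hc := ((hasDerivAt_q1 (1 - ‖x‖ ^ 2)).const_mul 2).neg.comp_hasFDerivAt x
        (hasFDerivAt_sq x)
    change HasFDerivAt (fun x : E n => -(2 * q1 (1 - ‖x‖ ^ 2))) _ x at hc
    have hi : HasFDerivAt (fun x : E n => innerSL ℝ x) (innerSL ℝ) x :=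
      (innerSL ℝ : E n →L[ℝ] E n →L[ℝ] ℝ).hasFDerivAt
    have hcs := hc.smul hi
    change HasFDerivAt (fun x : E n => (-(2 * q1 (1 - ‖x‖ ^ 2))) • innerSL ℝ x) _ x at hcs
    rw [hcs.fderiv]
    have hvv : (innerSL ℝ v) v = ‖v‖ ^ 2 := by
      rw [innerSL_apply_apply]; exact real_inner_self_eq_norm_sq v
    simp
    rw [hvv]
    ring
  simp only [hd]
  rw [Finset.sum_sub_distrib, ← Finset.mul_sum]
  have h1 : ∑ i, (inner ℝ x ((EuclideanSpace.basisFun (Fin n) ℝ) i)) ^ 2 = ‖x‖ ^ 2 := by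
    have := (EuclideanSpace.basisFun (Fin n) ℝ).sum_sq_norm_inner_left x
    simpa using this
  rw [h1]
  simp
  ring

theorem scaling_aux (w : E n) (s h : ℝ) (hs : 0 < s) (hsh : s ≤ h) :
    (h ^ n)⁻¹ * RR (h⁻¹ • w) - (s ^ n)⁻¹ * RR (s⁻¹ • w)
      = ∫ r in s..h, (r ^ (n + 1))⁻¹ * (Δ (HH (n := n))) (r⁻¹ • w) := by
  have hd : ∀ r ∈ uIcc s h, HasDerivAt (fun r : ℝ => (r ^ n)⁻¹ * RR (r⁻¹ • w))
      ((r ^ (n + 1))⁻¹ * (Δ (HH (n := n))) (r⁻¹ • w)) r := by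
    intro r hr
    rw [uIcc_of_le hsh] at hr
    have hr0 : 0 < r := hs.trans_le hr.1
    have h1 : HasDerivAt (fun r : ℝ => (r ^ n)⁻¹) (-(n * r ^ (n - 1)) / (r ^ n) ^ 2) r :=
      (hasDerivAt_pow n r).inv (by positivity)
    have h2 : HasDerivAt (fun r : ℝ => 1 - ‖r⁻¹ • w‖ ^ 2) (2 * ‖w‖ ^ 2 * (r ^ 3)⁻¹) r := by
      have h3 : HasDerivAt (fun r : ℝ => 1 - (r⁻¹) ^ 2 * ‖w‖ ^ 2)
          (-((2 * r⁻¹ ^ 1 * (-(r ^ 2)⁻¹)) * ‖w‖ ^ 2)) r := by
        have := (((hasDerivAt_inv hr0.ne').pow 2).mul_const (‖w‖ ^ 2)).const_sub 1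
        simpa using this
      have h4 : (fun r : ℝ => 1 - ‖r⁻¹ • w‖ ^ 2) = fun r : ℝ => 1 - (r⁻¹) ^ 2 * ‖w‖ ^ 2 := by
        funext r
        rw [norm_smul, mul_pow, Real.norm_eq_abs, sq_abs]
      rw [h4]
      convert h3 using 1
      field_simp
    have h5 : HasDerivAt (fun r : ℝ => RR (r⁻¹ • w))
        (2 * (q2 (1 - ‖r⁻¹ • w‖ ^ 2) * (2 * ‖w‖ ^ 2 * (r ^ 3)⁻¹))) r :=
      ((hasDerivAt_q1 _).comp r h2).const_mul 2
    have h6 := h1.mul h5
    refine h6.congr_deriv ?_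
    rw [laplacian_HH, norm_smul, mul_pow, Real.norm_eq_abs, sq_abs]
    unfold RR
    rw [norm_smul, mul_pow, Real.norm_eq_abs, sq_abs]
    generalize q2 (1 - r⁻¹ ^ 2 * ‖w‖ ^ 2) = a
    generalize q1 (1 - r⁻¹ ^ 2 * ‖w‖ ^ 2) = b
    rcases n with _ | n
    · simp; field_simp; ring
    · simp only [Nat.add_sub_cancel]
      field_simp
      push_cast
      ring
  rw [intervalIntegral.integral_eq_sub_of_hasDerivAt hd]
  refine ContinuousOn.intervalIntegrable ?_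
  rw [uIcc_of_le hsh]
  have hne : ∀ r ∈ Icc s h, r ≠ 0 := fun r hr => (hs.trans_le hr.1).ne'
  have h1 : ContinuousOn (fun r : ℝ => r⁻¹ • w) (Icc s h) :=
    (continuousOn_inv₀.mono fun r hr => hne r hr).smul continuousOn_const
  have h2 : Continuous (Δ (HH (n := n))) := by
    have : (Δ (HH (n := n))) = fun x => 4 * ‖x‖ ^ 2 * q2 (1 - ‖x‖ ^ 2)
        - 2 * n * q1 (1 - ‖x‖ ^ 2) := by funext x; exact laplacian_HH x
    rw [this]
    have := contDiff_q1.continuous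
    have := continuous_q2
    fun_prop
  refine ContinuousOn.mul ?_ (h2.comp_continuousOn h1)
  refine ContinuousOn.inv₀ (by fun_prop) fun r hr => pow_ne_zero _ (hne r hr)

/-- the kernel -/
noncomputable def kern (n : ℕ) : Kernel n where
  ρ := RR
  H := HH
  ρ_smooth := by
    unfold RR
    exact contDiff_const.mul (contDiff_q1.comp (contDiff_const.sub (contDiff_norm_sq ℝ)))
  H_smooth := by
    unfold HH
    exact expNegInvGlue.contDiff.comp (contDiff_const.sub (contDiff_norm_sq ℝ))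
  ρ_nonneg x := by unfold RR; have := q1_nonneg (1 - ‖x‖ ^ 2); positivity
  H_nonneg x := expNegInvGlue.nonneg _
  ρ_supp x hx := by
    unfold RR; rw [q1_zero (by nlinarith)]; simp
  H_supp x hx := by
    unfold HH; exact expNegInvGlue.zero_of_nonpos (by nlinarith)
  ρ_even x := by unfold RR; rw [norm_neg]
  H_even x := by unfold HH; rw [norm_neg]
  ρ_pos x hx := by
    unfold RR
    have := q1_pos (t := 1 - ‖x‖ ^ 2) (by nlinarith [norm_nonneg x])
    positivity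
  H_pos x hx := by
    unfold HH
    exact expNegInvGlue.pos_of_pos (by nlinarith [norm_nonneg x])
  scaling := scaling_aux

end Pool.Agent.Helper486.TP
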