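import Pool.Agent.Helper486.TP.Core2

/-! # Measures and test functions -/

set_option autoImplicit false

open MeasureTheory Set Filter Topology Metric
open scoped InnerProductSpace ContDiff Laplacian ENNReal

namespace Pool.Agent.Helper486.TP

variable {n : ℕ} {U V : Set (E n)} {φ ψ : E n → ℝ}

/-- a smooth cut-off with compact support -/
theorem exists_test {K O : Set (E n)} (hK : IsCompact K) (hO : IsOpen O) (hKO : K ⊆ O) :
    ∃ ζ : E n → ℝ, TestOn O ζ ∧ (∀ x ∈ K, ζ x = 1) ∧ (∀ x, 0 ≤ ζ x ∧ ζ x ≤ 1) := by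
  obtain ⟨K1, hK1, h1, h2⟩ := exists_compact_between hK hO hKO
  obtain ⟨ζ, hζ, hz0, hz1, hz⟩ := exists_cutoff (s := (interior K1)ᶜ) (t := K)
    isOpen_interior.isClosed_compl hK.isClosed (disjoint_compl_left_iff_subset.2 h1)
  have hts : tsupport ζ ⊆ K1 := by
    refine closure_minimal (fun x hx => ?_) hK1.isClosed
    by_contra hxK
    exact hx (hz0 x fun h => hxK (interior_subset h))
  exact ⟨ζ, ⟨hζ, HasCompactSupport.of_support_subset_isCompact hK1
    ((subset_tsupport _).trans hts), hts.trans h2⟩, hz1, hz⟩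

theorem compact_le_of_test {α β : Measure (E n)} [IsFiniteMeasure α] [IsFiniteMeasure β]
    (hU : IsOpen U) (h : ∀ φ, TestOn U φ → (∀ x, 0 ≤ φ x) → ∫ x, φ x ∂α ≤ ∫ x, φ x ∂β)
    {K : Set (E n)} (hK : IsCompact K) (hKU : K ⊆ U) : α K ≤ β K := by
  refine ENNReal.le_of_forall_pos_le_add fun ε hε _ => ?_
  obtain ⟨O, hKO, hO, hOε⟩ := K.exists_isOpen_lt_add (μ := β) (measure_ne_top _ _)
    (ε := (ε : ℝ≥0∞)) (by simpa using hε.ne')
  obtain ⟨ζ, hζ, hz1, hz⟩ := exists_test hK (hO.inter hU) (subset_inter hKO hKU)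
  have hζU : TestOn U ζ := hζ.mono inter_subset_right
  have h1 := h ζ hζU fun x => (hz x).1
  have h2 : α.real K ≤ ∫ x, ζ x ∂α := by
    have : ∫ x, K.indicator (fun _ => (1 : ℝ)) x ∂α = α.real K := by
      rw [integral_indicator hK.measurableSet, setIntegral_const]; simp
    rw [← this]
    refine integral_mono_of_nonneg (Eventually.of_forall fun x =>
      indicator_nonneg (fun _ _ => zero_le_one) x) (hζU.integrable α)
      (Eventually.of_forall fun x => ?_)
    by_cases hx : x ∈ K
    · simp [hx, hz1 x hx]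
    · simp only [indicator_of_notMem hx]; exact (hz x).1
  have h3 : ∫ x, ζ x ∂β ≤ β.real O := by
    have : ∫ x, O.indicator (fun _ => (1 : ℝ)) x ∂β = β.real O := by
      rw [integral_indicator hO.measurableSet, setIntegral_const]; simp
    rw [← this]
    refine integral_mono_of_nonneg (Eventually.of_forall fun x => (hz x).1)
      ((integrable_indicator_iff hO.measurableSet).2 (integrableOn_const (measure_ne_top _ _)))
      (Eventually.of_forall fun x => ?_)
    by_cases hx : x ∈ O
    · simp only [indicator_of_mem hx]; exact (hz x).2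
    · have : ζ x = 0 := by
        by_contra hne
        exact hx (hζ.sub (subset_tsupport ζ hne)).1
      simp [hx, this]
  have h4 : α.real K ≤ β.real O := h2.trans (h1.trans h3)
  have h5 : α K ≤ β O := by
    rwa [Measure.real, Measure.real, ENNReal.toReal_le_toReal (measure_ne_top _ _)
      (measure_ne_top _ _)] at h4
  exact h5.trans hOε.le

theorem le_of_test {α β : Measure (E n)} [IsFiniteMeasure α] [IsFiniteMeasure β]
    (hU : IsOpen U) (h : ∀ φ, TestOn U φ → (∀ x, 0 ≤ φ x) → ∫ x, φ x ∂α ≤ ∫ x, φ x ∂β)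
    {B : Set (E n)} (hB : MeasurableSet B) (hBU : B ⊆ U) : α B ≤ β B := by
  rw [hB.measure_eq_iSup_isCompact_of_ne_top (measure_ne_top α B)]
  refine iSup_le fun K => iSup_le fun hKB => iSup_le fun hK => ?_
  exact (compact_le_of_test hU h hK (hKB.trans hBU)).trans (measure_mono hKB)

theorem restrict_le_of_test {α β : Measure (E n)} [IsFiniteMeasure α] [IsFiniteMeasure β]
    (hU : IsOpen U) (h : ∀ φ, TestOn U φ → (∀ x, 0 ≤ φ x) → ∫ x, φ x ∂α ≤ ∫ x, φ x ∂β) :
    α.restrict U ≤ β.restrict U := by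
  refine Measure.le_iff.2 fun s hs => ?_
  rw [Measure.restrict_apply hs, Measure.restrict_apply hs]
  exact le_of_test hU h (hs.inter hU.measurableSet) inter_subset_right

end Pool.Agent.Helper486.TP
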