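import Pool.Agent.Helper486.TP.Basic

/-! # The singular part -/

set_option autoImplicit false

open MeasureTheory Set Filter Topology Metric
open scoped InnerProductSpace ContDiff Laplacian ENNReal

namespace Pool.Agent.Helper486.TP




theorem sing_dens {n : ℕ} (ξ α : Measure (E n)) [IsFiniteMeasure ξ] [IsFiniteMeasure α]
    (h : α ≪ ξ) : ∃ a : E n → ℝ, Measurable a ∧ Integrable a ξ ∧
      (∀ f : E n → ℝ, ∫ x, f x ∂α = ∫ x, f x * a x ∂ξ) ∧
      (∀ C, MeasurableSet C → ∫ x in C, a x ∂ξ = (α C).toReal) := by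
  have := Measure.haveLebesgueDecomposition_of_sigmaFinite α ξ
  refine ⟨fun x => (α.rnDeriv ξ x).toReal, (Measure.measurable_rnDeriv _ _).ennreal_toReal,
    Measure.integrable_toReal_rnDeriv, ?_, ?_⟩
  · intro f
    rw [← integral_toReal_rnDeriv_mul h]
    refine integral_congr_ae (ae_of_all _ fun x => ?_)
    ring
  · intro C hC
    rw [Measure.setIntegral_toReal_rnDeriv h, measureReal_def]

theorem sing_int {n : ℕ} {U : Set (E n)} {φ : E n → ℝ} (hφ : TestOn U φ) (ξ : Measure (E n))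
    [IsFiniteMeasure ξ] {f : E n → ℝ} (hf : Integrable f ξ) :
    Integrable (fun x => φ x * f x) ξ := by
  obtain ⟨C, hC⟩ := hφ.cpt.exists_bound_of_continuous hφ.smooth.continuous
  exact hf.bdd_mul hφ.smooth.continuous.aestronglyMeasurable (ae_of_all _ hC)

theorem sing_wd {n : ℕ} (ξ : Measure (E n)) [IsFiniteMeasure ξ] {w : E n → ℝ}
    (hw : Measurable w) (hw0 : ∀ x, 0 ≤ w x) (f : E n → ℝ) :
    ∫ x, f x ∂(ξ.withDensity (fun x => ENNReal.ofReal (w x))) = ∫ x, f x * w x ∂ξ := by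
  rw [integral_withDensity_eq_integral_toReal_smul hw.ennreal_ofReal
    (ae_of_all _ fun x => ENNReal.ofReal_lt_top)]
  refine integral_congr_ae (ae_of_all _ fun x => ?_)
  simp only [smul_eq_mul]
  rw [ENNReal.toReal_ofReal (hw0 x), mul_comm]

theorem sing_null {n : ℕ} {U : Set (E n)} {v : Fin 3 → E n → ℝ}
    (hv : ∀ k, Integrable (v k)) (hv0 : ∀ k x, 0 ≤ v k x)
    (hd : ∀ i j, i ≠ j → ∀ᵐ x ∂(volume : Measure (E n)), v i x = 0 ∨ v j x = 0)
    (hcore : ∀ u : Fin 3 → E n → ℝ, (∀ k, Integrable (u k)) → (∀ k x, 0 ≤ u k x) →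
      (∀ i j, i ≠ j → ∀ᵐ x ∂(volume : Measure (E n)), u i x = 0 ∨ u j x = 0) →
      ∀ ν S : Measure (E n), IsFiniteMeasure ν → IsFiniteMeasure S →
      ν ⟂ₘ (volume : Measure (E n)) →
      (∀ φ, TestOn U φ → (∀ x, 0 ≤ φ x) →
        |(∫ x, u 0 x * (Δ φ) x) - ∫ x, φ x ∂ν| + |(∫ x, u 1 x * (Δ φ) x) - ∫ x, φ x ∂ν|
          + |(∫ x, u 2 x * (Δ φ) x) - ∫ x, φ x ∂ν| ≤ ∫ x, φ x ∂S) →
      ∀ χ : E n → ℝ, TestOn U χ → (∀ x, 0 ≤ χ x) → ∫ x, χ x ∂ν ≤ ∫ x, χ x ∂S)
    (htest : ∀ α β : Measure (E n), IsFiniteMeasure α → IsFiniteMeasure β →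
      (∀ φ, TestOn U φ → (∀ x, 0 ≤ φ x) → ∫ x, φ x ∂α ≤ ∫ x, φ x ∂β) →
      ∀ B : Set (E n), MeasurableSet B → B ⊆ U → α B ≤ β B)
    (ξ : Measure (E n)) [IsFiniteMeasure ξ] (s : E n → ℝ) (m : Fin 3 → E n → ℝ)
    (hs : Measurable s) (hsi : Integrable s ξ) (hm : ∀ k, Measurable (m k))
    (hmi : ∀ k, Integrable (m k) ξ)
    (hlap : ∀ k φ, TestOn U φ → ∫ x, v k x * (Δ φ) x = ∫ x, φ x * m k x ∂ξ)
    (c : Fin 3 → ℝ) (hc : ∀ k, 0 < c k) (A B : Set (E n)) (hA : MeasurableSet A)
    (hB : MeasurableSet B) (hAB : A ⊆ B) (hBU : B ⊆ U) (hB0 : volume B = 0)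
    (hA1 : ∀ x ∈ A, 0 < s x ∧ ∀ k, |c k * m k x - s x| ≤ s x / 10) : ξ A = 0 := by
  classical
  obtain ⟨w, hw⟩ : ∃ w : E n → ℝ, w = A.indicator s := ⟨_, rfl⟩
  obtain ⟨t, ht⟩ : ∃ t : E n → ℝ, t = fun x => |c 0 * m 0 x - w x| + |c 1 * m 1 x - w x|
    + |c 2 * m 2 x - w x| := ⟨_, rfl⟩
  have hwm : Measurable w := by rw [hw]; exact hs.indicator hA
  have hwi : Integrable w ξ := by rw [hw]; exact hsi.indicator hA
  have hw0 : ∀ x, 0 ≤ w x := by
    intro x
    rw [hw]
    exact indicator_nonneg (fun x hx => (hA1 x hx).1.le) x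
  have hdi : ∀ k, Integrable (fun x => c k * m k x - w x) ξ := fun k =>
    ((hmi k).const_mul (c k)).sub hwi
  have hdm : ∀ k, Measurable (fun x => c k * m k x - w x) := fun k =>
    ((hm k).const_mul (c k)).sub hwm
  have hai : ∀ k, Integrable (fun x => |c k * m k x - w x|) ξ := fun k => (hdi k).abs
  have ham : ∀ k, Measurable (fun x => |c k * m k x - w x|) := fun k => (hdm k).abs
  have htm : Measurable t := by rw [ht]; exact ((ham 0).add (ham 1)).add (ham 2)
  have hti : Integrable t ξ := by rw [ht]; exact ((hai 0).add (hai 1)).add (hai 2)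
  have ht0 : ∀ x, 0 ≤ t x := by intro x; rw [ht]; positivity
  obtain ⟨ν, hν⟩ : ∃ ν : Measure (E n), ν = ξ.withDensity (fun x => ENNReal.ofReal (w x)) :=
    ⟨_, rfl⟩
  obtain ⟨S, hS⟩ : ∃ S : Measure (E n), S = ξ.withDensity (fun x => ENNReal.ofReal (t x)) :=
    ⟨_, rfl⟩
  have hνf : IsFiniteMeasure ν := by
    rw [hν]; exact isFiniteMeasure_withDensity_ofReal hwi.2
  have hSf : IsFiniteMeasure S := by
    rw [hS]; exact isFiniteMeasure_withDensity_ofReal hti.2
  have hνv : ν ⟂ₘ (volume : Measure (E n)) := by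
    refine ⟨Bᶜ, hB.compl, ?_, by rw [compl_compl]; exact hB0⟩
    rw [hν, withDensity_apply _ hB.compl]
    rw [lintegral_eq_zero_iff (hwm.ennreal_ofReal)]
    filter_upwards [ae_restrict_mem hB.compl] with x hx
    have : x ∉ A := fun h => hx (hAB h)
    simp [hw, this]
  have hνi : ∀ f : E n → ℝ, ∫ x, f x ∂ν = ∫ x, f x * w x ∂ξ := by
    intro f; rw [hν]; exact sing_wd ξ hwm hw0 f
  have hSi : ∀ f : E n → ℝ, ∫ x, f x ∂S = ∫ x, f x * t x ∂ξ := by
    intro f; rw [hS]; exact sing_wd ξ htm ht0 f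
  have key := hcore (fun k x => c k * v k x) (fun k => (hv k).const_mul (c k))
    (fun k x => mul_nonneg (hc k).le (hv0 k x))
    (by
      intro i j hij
      filter_upwards [hd i j hij] with x hx
      rcases hx with hx | hx
      · left; rw [hx, mul_zero]
      · right; rw [hx, mul_zero])
    ν S hνf hSf hνv
    (by
      intro φ hφ hφ0
      have h1 : ∀ k, (∫ x, c k * v k x * (Δ φ) x) - ∫ x, φ x ∂ν
          = ∫ x, φ x * (c k * m k x - w x) ∂ξ := by
        intro k
        have e1 : (∫ x, c k * v k x * (Δ φ) x) = c k * ∫ x, φ x * m k x ∂ξ := by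
          rw [← hlap k φ hφ, ← integral_const_mul]
          refine integral_congr_ae (ae_of_all _ fun x => ?_)
          simp only
          ring
        rw [e1, hνi, ← integral_const_mul, ← integral_sub]
        · refine integral_congr_ae (ae_of_all _ fun x => ?_)
          simp only
          ring
        · exact (sing_int hφ ξ (hmi k)).const_mul (c k)
        · exact sing_int hφ ξ hwi
      have h2 : ∀ k, |(∫ x, c k * v k x * (Δ φ) x) - ∫ x, φ x ∂ν|
          ≤ ∫ x, φ x * |c k * m k x - w x| ∂ξ := by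
        intro k
        rw [h1 k]
        refine (abs_integral_le_integral_abs).trans (le_of_eq ?_)
        refine integral_congr_ae (ae_of_all _ fun x => ?_)
        simp only
        rw [abs_mul, abs_of_nonneg (hφ0 x)]
      have h3 : ∫ x, φ x ∂S = (∫ x, φ x * |c 0 * m 0 x - w x| ∂ξ)
          + (∫ x, φ x * |c 1 * m 1 x - w x| ∂ξ) + ∫ x, φ x * |c 2 * m 2 x - w x| ∂ξ := by
        rw [hSi, ← integral_add, ← integral_add]
        · refine integral_congr_ae (ae_of_all _ fun x => ?_)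
          simp only [ht]
          ring
        · exact (sing_int hφ ξ (hai 0)).add (sing_int hφ ξ (hai 1))
        · exact sing_int hφ ξ (hai 2)
        · exact sing_int hφ ξ (hai 0)
        · exact sing_int hφ ξ (hai 1)
      rw [h3]
      exact add_le_add (add_le_add (h2 0) (h2 1)) (h2 2))
  have hle : ν A ≤ S A := htest ν S hνf hSf key A hA (hAB.trans hBU)
  have e1 : ν A = ∫⁻ x in A, ENNReal.ofReal (s x) ∂ξ := by
    rw [hν, withDensity_apply _ hA]
    refine setLIntegral_congr_fun hA fun x hx => ?_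
    simp [hw, hx]
  have e2 : S A ≤ ENNReal.ofReal (3 / 10) * ∫⁻ x in A, ENNReal.ofReal (s x) ∂ξ := by
    rw [hS, withDensity_apply _ hA, ← lintegral_const_mul _ hs.ennreal_ofReal]
    refine setLIntegral_mono (hs.ennreal_ofReal.const_mul _) fun x hx => ?_
    rw [← ENNReal.ofReal_mul (by norm_num)]
    apply ENNReal.ofReal_le_ofReal
    have h0 := (hA1 x hx).2 0
    have h1 := (hA1 x hx).2 1
    have h2 := (hA1 x hx).2 2
    have hwx : w x = s x := by simp [hw, hx]
    simp only [ht, hwx]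
    linarith
  have hfin : ν A ≠ ⊤ := measure_ne_top ν A
  have hzero : ν A = 0 := by
    rw [← e1] at e2
    have h3 : ν A ≤ ENNReal.ofReal (3 / 10) * ν A := hle.trans e2
    by_contra hne
    have h4 : (ν A).toReal ≤ 3 / 10 * (ν A).toReal := by
      have := ENNReal.toReal_mono (ENNReal.mul_ne_top ENNReal.ofReal_ne_top hfin) h3
      rwa [ENNReal.toReal_mul, ENNReal.toReal_ofReal (by norm_num)] at this
    have h5 : 0 < (ν A).toReal := ENNReal.toReal_pos hne hfin
    linarith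
  rw [e1, lintegral_eq_zero_iff hs.ennreal_ofReal] at hzero
  have h6 : ∀ᵐ x ∂(ξ.restrict A), False := by
    filter_upwards [hzero, ae_restrict_mem hA] with x hx hxA
    have : 0 < s x := (hA1 x hxA).1
    simp only [Pi.zero_apply, ENNReal.ofReal_eq_zero] at hx
    linarith
  rw [ae_iff] at h6
  simpa using h6

/-- **Target SING.** The singular part, from the core lemma `core` (hypothesis `hcore`, proved
elsewhere) and the passage from test functions to measures (hypothesis `htest`, proved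
elsewhere). -/
theorem sing_claim {n : ℕ} {U : Set (E n)} (hU : IsOpen U) {v : Fin 3 → E n → ℝ}
    (hv : ∀ k, Integrable (v k)) (hv0 : ∀ k x, 0 ≤ v k x)
    (hd : ∀ i j, i ≠ j → ∀ᵐ x ∂(volume : Measure (E n)), v i x = 0 ∨ v j x = 0)
    (hcore : ∀ u : Fin 3 → E n → ℝ, (∀ k, Integrable (u k)) → (∀ k x, 0 ≤ u k x) →
      (∀ i j, i ≠ j → ∀ᵐ x ∂(volume : Measure (E n)), u i x = 0 ∨ u j x = 0) →
      ∀ ν S : Measure (E n), IsFiniteMeasure ν → IsFiniteMeasure S →
      ν ⟂ₘ (volume : Measure (E n)) →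
      (∀ φ, TestOn U φ → (∀ x, 0 ≤ φ x) →
        |(∫ x, u 0 x * (Δ φ) x) - ∫ x, φ x ∂ν| + |(∫ x, u 1 x * (Δ φ) x) - ∫ x, φ x ∂ν|
          + |(∫ x, u 2 x * (Δ φ) x) - ∫ x, φ x ∂ν| ≤ ∫ x, φ x ∂S) →
      ∀ χ : E n → ℝ, TestOn U χ → (∀ x, 0 ≤ χ x) → ∫ x, χ x ∂ν ≤ ∫ x, χ x ∂S)
    (htest : ∀ α β : Measure (E n), IsFiniteMeasure α → IsFiniteMeasure β →
      (∀ φ, TestOn U φ → (∀ x, 0 ≤ φ x) → ∫ x, φ x ∂α ≤ ∫ x, φ x ∂β) →
      ∀ B : Set (E n), MeasurableSet B → B ⊆ U → α B ≤ β B)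
    (σp σn : Measure (E n)) (P N : Fin 3 → Measure (E n))
    [IsFiniteMeasure σp] [IsFiniteMeasure σn] [∀ k, IsFiniteMeasure (P k)]
    [∀ k, IsFiniteMeasure (N k)]
    (hlap : ∀ k φ, TestOn U φ →
      ∫ x, v k x * (Δ φ) x = (∫ x, φ x ∂(P k)) - ∫ x, φ x ∂(N k))
    (hσ : ∀ k φ, TestOn U φ → (∀ x, 0 ≤ φ x) →
      (∫ x, φ x ∂σp) - (∫ x, φ x ∂σn) ≤ (∫ x, φ x ∂(P k)) - ∫ x, φ x ∂(N k))
    (B : Set (E n)) (hB : MeasurableSet B) (hBU : B ⊆ U) (hB0 : volume B = 0) :
    σp B ≤ σn B := by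
  classical
  obtain ⟨ξ, hξ⟩ : ∃ ξ : Measure (E n), ξ = σp + (σn + (P 0 + (P 1 + (P 2 + (N 0 + (N 1 + N 2)))))) :=
    ⟨_, rfl⟩
  have hξf : IsFiniteMeasure ξ := by rw [hξ]; infer_instance
  have hle : ∀ α : Measure (E n), α ≤ ξ → α ≪ ξ := fun α h => Measure.absolutelyContinuous_of_le h
  have hacp : σp ≪ ξ := by
    apply hle; rw [hξ]; exact Measure.le_add_right le_rfl
  have hacn : σn ≪ ξ := by
    apply hle; rw [hξ]; exact Measure.le_add_left (Measure.le_add_right le_rfl)
  have hacP : ∀ k, P k ≪ ξ := by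
    intro k
    apply hle; rw [hξ]
    fin_cases k
    · exact Measure.le_add_left (Measure.le_add_left (Measure.le_add_right le_rfl))
    · exact Measure.le_add_left (Measure.le_add_left (Measure.le_add_left
        (Measure.le_add_right le_rfl)))
    · exact Measure.le_add_left (Measure.le_add_left (Measure.le_add_left
        (Measure.le_add_left (Measure.le_add_right le_rfl))))
  have hacN : ∀ k, N k ≪ ξ := by
    intro k
    apply hle; rw [hξ]
    fin_cases k
    · exact Measure.le_add_left (Measure.le_add_left (Measure.le_add_left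
        (Measure.le_add_left (Measure.le_add_left (Measure.le_add_right le_rfl)))))
    · exact Measure.le_add_left (Measure.le_add_left (Measure.le_add_left
        (Measure.le_add_left (Measure.le_add_left (Measure.le_add_left
        (Measure.le_add_right le_rfl))))))
    · exact Measure.le_add_left (Measure.le_add_left (Measure.le_add_left
        (Measure.le_add_left (Measure.le_add_left (Measure.le_add_left
        (Measure.le_add_left le_rfl))))))
  obtain ⟨ap, hapm, hapi, hapf, hapC⟩ := sing_dens ξ σp hacp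
  obtain ⟨an, hanm, hani, hanf, hanC⟩ := sing_dens ξ σn hacn
  choose p hpm hpi hpf hpC using fun k => sing_dens ξ (P k) (hacP k)
  choose q hqm hqi hqf hqC using fun k => sing_dens ξ (N k) (hacN k)
  obtain ⟨s, hsdef⟩ : ∃ s : E n → ℝ, s = fun x => ap x - an x := ⟨_, rfl⟩
  obtain ⟨m, hmdef⟩ : ∃ m : Fin 3 → E n → ℝ, m = fun k x => p k x - q k x := ⟨_, rfl⟩
  have hs : Measurable s := by rw [hsdef]; exact hapm.sub hanm
  have hsi : Integrable s ξ := by rw [hsdef]; exact hapi.sub hani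
  have hm : ∀ k, Measurable (m k) := by intro k; rw [hmdef]; exact (hpm k).sub (hqm k)
  have hmi : ∀ k, Integrable (m k) ξ := by intro k; rw [hmdef]; exact (hpi k).sub (hqi k)
  have hlap' : ∀ k φ, TestOn U φ → ∫ x, v k x * (Δ φ) x = ∫ x, φ x * m k x ∂ξ := by
    intro k φ hφ
    rw [hlap k φ hφ, hpf, hqf, ← integral_sub (sing_int hφ ξ (hpi k)) (sing_int hφ ξ (hqi k))]
    refine integral_congr_ae (ae_of_all _ fun x => ?_)
    simp only [hmdef]
    ring
  -- Step 1
  have hcomp : ∀ k, ∀ C, MeasurableSet C → C ⊆ U → ∫ x in C, s x ∂ξ ≤ ∫ x in C, m k x ∂ξ := by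
    intro k C hC hCU
    have h1 : (σp + N k) C ≤ (P k + σn) C := by
      refine htest (σp + N k) (P k + σn) inferInstance inferInstance ?_ C hC hCU
      intro φ hφ hφ0
      obtain ⟨D, hD⟩ := hφ.cpt.exists_bound_of_continuous hφ.smooth.continuous
      have hint : ∀ α : Measure (E n), IsFiniteMeasure α → Integrable φ α := by
        intro α hα
        exact Integrable.of_bound hφ.smooth.continuous.aestronglyMeasurable D (ae_of_all _ hD)
      rw [integral_add_measure (hint _ inferInstance) (hint _ inferInstance),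
        integral_add_measure (hint _ inferInstance) (hint _ inferInstance)]
      have := hσ k φ hφ hφ0
      linarith
    rw [Measure.add_apply, Measure.add_apply] at h1
    have h2 := ENNReal.toReal_mono (by simp) h1
    rw [ENNReal.toReal_add (by simp) (by simp), ENNReal.toReal_add (by simp) (by simp)] at h2
    have e1 : ∫ x in C, s x ∂ξ = (σp C).toReal - (σn C).toReal := by
      rw [← hapC C hC, ← hanC C hC, ← integral_sub hapi.integrableOn hani.integrableOn, hsdef]
    have e2 : ∫ x in C, m k x ∂ξ = (P k C).toReal - (N k C).toReal := by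
      rw [← hpC k C hC, ← hqC k C hC, ← integral_sub (hpi k).integrableOn (hqi k).integrableOn,
        hmdef]
    rw [e1, e2]
    linarith
  have hae : ∀ k, ∀ᵐ x ∂(ξ.restrict B), s x ≤ m k x := by
    intro k
    refine ae_le_of_forall_setIntegral_le hsi.integrableOn (hmi k).integrableOn ?_
    intro C hC _
    rw [Measure.restrict_restrict hC]
    exact hcomp k _ (hC.inter hB) (inter_subset_right.trans hBU)
  -- Step 2, 3
  obtain ⟨A, hAdef⟩ : ∃ A : (Fin 3 → ℚ) → Set (E n), A = fun c => {x | x ∈ B ∧ 0 < s x ∧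
    ∀ k, |(c k : ℝ) * m k x - s x| ≤ s x / 10} := ⟨_, rfl⟩
  have hAm : ∀ c, MeasurableSet (A c) := by
    intro c
    rw [hAdef]
    refine hB.inter ((measurableSet_lt measurable_const hs).inter ?_)
    have : {x | ∀ k, |(c k : ℝ) * m k x - s x| ≤ s x / 10} =
      ⋂ k, {x | |(c k : ℝ) * m k x - s x| ≤ s x / 10} := by ext x; simp
    change MeasurableSet {x | ∀ k, |(c k : ℝ) * m k x - s x| ≤ s x / 10}
    rw [this]
    refine MeasurableSet.iInter fun k => ?_
    exact measurableSet_le (((hm k).const_mul _).sub hs).abs (hs.div_const _)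
  have hA0 : ∀ c : Fin 3 → ℚ, (∀ k, 0 < c k) → ξ (A c) = 0 := by
    intro c hc
    refine sing_null hv hv0 hd hcore htest ξ s m hs hsi hm hmi hlap' (fun k => (c k : ℝ))
      (fun k => by exact_mod_cast hc k) (A c) B (hAm c) hB ?_ hBU hB0 ?_
    · intro x hx; rw [hAdef] at hx; exact hx.1
    · intro x hx; rw [hAdef] at hx; exact hx.2
  -- Step 4
  have hnull : ∀ᵐ x ∂(ξ.restrict B), s x ≤ 0 := by
    have hU0 : ξ (⋃ c : {c : Fin 3 → ℚ // ∀ k, 0 < c k}, A c) = 0 :=
      measure_iUnion_null fun c => hA0 c c.2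
    have hU1 : ∀ᵐ x ∂(ξ.restrict B), x ∉ ⋃ c : {c : Fin 3 → ℚ // ∀ k, 0 < c k}, A c := by
      refine ae_restrict_of_ae ?_
      exact measure_eq_zero_iff_ae_notMem.1 hU0
    filter_upwards [hU1, hae 0, hae 1, hae 2, ae_restrict_mem hB] with x hx h0 h1 h2 hxB
    by_contra hsx
    push Not at hsx
    apply hx
    have hk : ∀ k, s x ≤ m k x := by
      intro k
      fin_cases k
      · exact h0
      · exact h1
      · exact h2
    have hex : ∀ k, ∃ c : ℚ, 0 < c ∧ |(c : ℝ) * m k x - s x| ≤ s x / 10 := by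
      intro k
      have hmk : 0 < m k x := hsx.trans_le (hk k)
      obtain ⟨c, hc1, hc2⟩ := exists_rat_btwn
        (show (9 / 10) * s x / m k x < s x / m k x by
          apply div_lt_div_of_pos_right _ hmk; linarith)
      refine ⟨c, ?_, ?_⟩
      · have : (0 : ℝ) < c := lt_trans (by positivity) hc1
        exact_mod_cast this
      · rw [div_lt_iff₀ hmk] at hc1
        rw [lt_div_iff₀ hmk] at hc2
        rw [abs_le]
        constructor <;> linarith
    choose c hc1 hc2 using hex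
    refine mem_iUnion.2 ⟨⟨c, hc1⟩, ?_⟩
    rw [hAdef]
    exact ⟨hxB, hsx, hc2⟩
  have hfinal : ∫ x in B, s x ∂ξ ≤ 0 := integral_nonpos_of_ae hnull
  have e1 : ∫ x in B, s x ∂ξ = (σp B).toReal - (σn B).toReal := by
    rw [← hapC B hB, ← hanC B hB, ← integral_sub hapi.integrableOn hani.integrableOn, hsdef]
  rw [e1] at hfinal
  rw [← ENNReal.toReal_le_toReal (measure_ne_top _ _) (measure_ne_top _ _)]
  linarith

end Pool.Agent.Helper486.TP
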