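import Pool.Agent.Helper486.TP.AC
import Pool.Agent.Helper486.TP.Sing
import Pool.Agent.Helper486.TP.Meas
import Pool.Agent.Helper486.TP.Growth
import Pool.Agent.Helper486.TP.GrowthNull
import Pool.Agent.Helper486.TP.Kern

/-! # The main claim: finite and local versions -/

set_option autoImplicit false

open MeasureTheory Set Filter Topology Metric
open scoped InnerProductSpace ContDiff Laplacian ENNReal

namespace Pool.Agent.Helper486.TP

variable {n : ℕ} {U V Ω : Set (E n)} {φ ψ : E n → ℝ}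

theorem restrict_ac_of_le {α ξ : Measure (E n)} (h : α ≤ ξ) {s : Set (E n)}
    (hs : MeasurableSet s) (h1 : ξ.restrict s ≪ volume) : α.restrict s ≪ volume :=
  (Measure.absolutelyContinuous_of_le (Measure.restrict_mono le_rfl h)).trans h1

theorem exists_ac_set (ξ : Measure (E n)) [IsFiniteMeasure ξ] :
    ∃ s : Set (E n), MeasurableSet s ∧ volume sᶜ = 0 ∧ ξ.restrict s ≪ volume := by
  obtain ⟨s, hs, h1, h2⟩ := Measure.mutuallySingular_singularPart ξ (volume : Measure (E n))
  refine ⟨s, hs, h2, ?_⟩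
  have h3 : ξ.restrict s = (volume.withDensity (ξ.rnDeriv volume)).restrict s := by
    conv_lhs => rw [ξ.haveLebesgueDecomposition_add volume]
    rw [Measure.restrict_add, Measure.restrict_eq_zero.2 h1, zero_add]
  rw [h3]
  exact (Measure.absolutelyContinuous_of_le Measure.restrict_le_self).trans
    (withDensity_absolutelyContinuous _ _)

/-- The main claim, global finite version. -/
theorem claim_finite (hn : 0 < n) (hU : IsOpen U) {v : Fin 3 → E n → ℝ}
    (hv : ∀ k, Integrable (v k)) (hv0 : ∀ k x, 0 ≤ v k x)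
    (hd : ∀ i j, i ≠ j → ∀ᵐ x ∂(volume : Measure (E n)), v i x = 0 ∨ v j x = 0)
    (σp σn : Measure (E n)) (P N : Fin 3 → Measure (E n))
    [IsFiniteMeasure σp] [IsFiniteMeasure σn] [∀ k, IsFiniteMeasure (P k)]
    [∀ k, IsFiniteMeasure (N k)]
    (hlap : ∀ k φ, TestOn U φ →
      ∫ x, v k x * (Δ φ) x = (∫ x, φ x ∂(P k)) - ∫ x, φ x ∂(N k))
    (hσ : ∀ k φ, TestOn U φ → (∀ x, 0 ≤ φ x) →
      (∫ x, φ x ∂σp) - (∫ x, φ x ∂σn) ≤ (∫ x, φ x ∂(P k)) - ∫ x, φ x ∂(N k))
    (B : Set (E n)) (hB : MeasurableSet B) (hBU : B ⊆ U) :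
    σp B ≤ σn B := by
  let ξ : Measure (E n) := σp + σn + (P 0 + P 1 + P 2) + (N 0 + N 1 + N 2)
  have hξP : ∀ k, P k ≤ ξ := by
    intro k
    refine Measure.le_iff.2 fun s hs => ?_
    simp only [ξ, Measure.add_apply]
    fin_cases k
    · simp only [Fin.zero_eta]
      calc P 0 s ≤ P 0 s + (σp s + σn s + P 1 s + P 2 s + (N 0 s + N 1 s + N 2 s)) := le_self_add
        _ = _ := by ring
    · simp only [Fin.mk_one]
      calc P 1 s ≤ P 1 s + (σp s + σn s + P 0 s + P 2 s + (N 0 s + N 1 s + N 2 s)) := le_self_add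
        _ = _ := by ring
    · simp only [Fin.reduceFinMk]
      calc P 2 s ≤ P 2 s + (σp s + σn s + P 0 s + P 1 s + (N 0 s + N 1 s + N 2 s)) := le_self_add
        _ = _ := by ring
  have hξN : ∀ k, N k ≤ ξ := by
    intro k
    refine Measure.le_iff.2 fun s hs => ?_
    simp only [ξ, Measure.add_apply]
    fin_cases k
    · simp only [Fin.zero_eta]
      calc N 0 s ≤ N 0 s + (σp s + σn s + (P 0 s + P 1 s + P 2 s) + N 1 s + N 2 s) := le_self_add
        _ = _ := by ring
    · simp only [Fin.mk_one]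
      calc N 1 s ≤ N 1 s + (σp s + σn s + (P 0 s + P 1 s + P 2 s) + N 0 s + N 2 s) := le_self_add
        _ = _ := by ring
    · simp only [Fin.reduceFinMk]
      calc N 2 s ≤ N 2 s + (σp s + σn s + (P 0 s + P 1 s + P 2 s) + N 0 s + N 1 s) := le_self_add
        _ = _ := by ring
  have hξp : σp ≤ ξ := by
    refine Measure.le_iff.2 fun s hs => ?_
    simp only [ξ, Measure.add_apply]
    calc σp s ≤ σp s + (σn s + (P 0 s + P 1 s + P 2 s) + (N 0 s + N 1 s + N 2 s)) := le_self_add
      _ = _ := by ring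
  have hξn : σn ≤ ξ := by
    refine Measure.le_iff.2 fun s hs => ?_
    simp only [ξ, Measure.add_apply]
    calc σn s ≤ σn s + (σp s + (P 0 s + P 1 s + P 2 s) + (N 0 s + N 1 s + N 2 s)) := le_self_add
      _ = _ := by ring
  obtain ⟨s, hs, hs0, hsac⟩ := exists_ac_set ξ
  have htest : ∀ α β : Measure (E n), IsFiniteMeasure α → IsFiniteMeasure β →
      (∀ φ, TestOn U φ → (∀ x, 0 ≤ φ x) → ∫ x, φ x ∂α ≤ ∫ x, φ x ∂β) →
      ∀ B : Set (E n), MeasurableSet B → B ⊆ U → α B ≤ β B := by
    intro α β _ _ h B hB hBU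
    exact le_of_test hU h hB hBU
  have hle : ∀ k, (σp + N k).restrict U ≤ (P k + σn).restrict U := by
    intro k
    refine restrict_le_of_test hU fun φ hφ hφ0 => ?_
    rw [integral_add_measure (hφ.integrable _) (hφ.integrable _),
      integral_add_measure (hφ.integrable _) (hφ.integrable _)]
    have := hσ k φ hφ hφ0
    linarith
  have hac : ∀ k, ∀ᵐ x ∂(volume : Measure (E n)), x ∈ U → v k x = 0 →
      (P k).rnDeriv volume x ≤ (N k).rnDeriv volume x := by
    intro k
    exact ac_part hn (hv k) (hv0 k) (P k) (N k)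
      (growth hn (kern n) U hU (v k) (hv k) (hv0 k) (P k) (N k) (hlap k))
      (fun Z j hj h => growth_null hn (v k) (hv k) (hv0 k) Z j hj h)
  have h1 : σp (B ∩ s) ≤ σn (B ∩ s) :=
    ac_claim hU hd σp σn P N hac hle s hs (restrict_ac_of_le hξp hs hsac)
      (restrict_ac_of_le hξn hs hsac) (fun k => restrict_ac_of_le (hξP k) hs hsac)
      (fun k => restrict_ac_of_le (hξN k) hs hsac) (B ∩ s) (hB.inter hs)
      (inter_subset_left.trans hBU) inter_subset_right
  have h2 : σp (B \ s) ≤ σn (B \ s) := by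
    refine sing_claim hU hv hv0 hd ?_ htest σp σn P N hlap hσ (B \ s) (hB.diff hs)
      (sdiff_subset.trans hBU) ?_
    · intro u hu hu0 hud ν S _ _ hν hk χ hχ hχ0
      exact core hn hU hu hu0 hud ν S hν hk hχ hχ0
    · exact measure_mono_null (fun x hx => hx.2) hs0
  rw [← measure_inter_add_sdiff B hs, ← measure_inter_add_sdiff (μ := σn) B hs]
  exact add_le_add h1 h2

end Pool.Agent.Helper486.TP
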