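import Pool.Agent.Helper486.TP.Max
import Pool.Agent.Helper486.TP.Kern

/-! # The doubling argument for a fixed translation -/

set_option autoImplicit false

open MeasureTheory Set Filter Topology Metric
open scoped InnerProductSpace ContDiff Laplacian

namespace Pool.Agent.Helper486.TP

variable {n : ℕ} {U V : Set (E n)} {φ ψ : E n → ℝ}

/-- The distance of the tripod as a maximum of three linear expressions. -/
theorem tripod {p q : Fin 3 → ℝ} (hp : ∀ k, 0 ≤ p k) (hq : ∀ k, 0 ≤ q k)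
    (hp' : ∀ i j, i ≠ j → p i = 0 ∨ p j = 0) (hq' : ∀ i j, i ≠ j → q i = 0 ∨ q j = 0) :
    |p 0 - q 0| + |p 1 - q 1| + |p 2 - q 2| =
      max (max (-(p 0 - q 0) + (p 1 - q 1) + (p 2 - q 2))
        ((p 0 - q 0) - (p 1 - q 1) + (p 2 - q 2)))
        ((p 0 - q 0) + (p 1 - q 1) - (p 2 - q 2)) := by
  have a0 := hp 0
  have a1 := hp 1
  have a2 := hp 2
  have b0 := hq 0
  have b1 := hq 1
  have b2 := hq 2
  have hp2 : (p 1 = 0 ∧ p 2 = 0) ∨ (p 0 = 0 ∧ p 2 = 0) ∨ (p 0 = 0 ∧ p 1 = 0) := by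
    rcases hp' 0 1 (by decide) with h | h <;> rcases hp' 0 2 (by decide) with h' | h' <;>
      rcases hp' 1 2 (by decide) with h'' | h'' <;> tauto
  have hq2 : (q 1 = 0 ∧ q 2 = 0) ∨ (q 0 = 0 ∧ q 2 = 0) ∨ (q 0 = 0 ∧ q 1 = 0) := by
    rcases hq' 0 1 (by decide) with h | h <;> rcases hq' 0 2 (by decide) with h' | h' <;>
      rcases hq' 1 2 (by decide) with h'' | h'' <;> tauto
  apply le_antisymm
  · rcases hp2 with ⟨h1, h2⟩ | ⟨h1, h2⟩ | ⟨h1, h2⟩ <;>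
      rcases hq2 with ⟨h3, h4⟩ | ⟨h3, h4⟩ | ⟨h3, h4⟩ <;>
      simp only [h1, h2, h3, h4, sub_zero, zero_sub, neg_zero, abs_zero, add_zero, zero_add,
        abs_neg, sub_self, neg_neg] <;>
      (simp only [le_max_iff]
       rcases abs_cases (p 0 - q 0) with ⟨e1, e2⟩ | ⟨e1, e2⟩ <;>
        rcases abs_cases (p 1 - q 1) with ⟨e3, e4⟩ | ⟨e3, e4⟩ <;>
        rcases abs_cases (p 2 - q 2) with ⟨e5, e6⟩ | ⟨e5, e6⟩ <;>
        simp only [h1, h2, h3, h4, sub_zero, zero_sub, abs_neg, abs_of_nonneg a0, abs_of_nonneg a1,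
          abs_of_nonneg a2, abs_of_nonneg b0, abs_of_nonneg b1, abs_of_nonneg b2] at e1 e2 e3 e4 e5 e6 ⊢ <;>
        first
          | (left; left; linarith)
          | (left; right; linarith)
          | (right; linarith))
  · have := neg_abs_le (p 0 - q 0)
    have := le_abs_self (p 0 - q 0)
    have := neg_abs_le (p 1 - q 1)
    have := le_abs_self (p 1 - q 1)
    have := neg_abs_le (p 2 - q 2)
    have := le_abs_self (p 2 - q 2)
    refine max_le (max_le ?_ ?_) ?_ <;> linarith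


/-- the sum of the translation differences -/
noncomputable def DD (u : Fin 3 → E n → ℝ) (y x : E n) : ℝ :=
  |u 0 (x + y) - u 0 x| + |u 1 (x + y) - u 1 x| + |u 2 (x + y) - u 2 x|

theorem integrable_diff {u : E n → ℝ} (hu : Integrable u) (y : E n) :
    Integrable (fun x => u (x + y) - u x) := (hu.comp_add_right y).sub hu

theorem integrable_DD {u : Fin 3 → E n → ℝ} (hu : ∀ k, Integrable (u k)) (y : E n) :
    Integrable (DD u y) :=
  (((integrable_diff (hu 0) y).abs.add (integrable_diff (hu 1) y).abs).add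
    (integrable_diff (hu 2) y).abs)

theorem integral_diff {u : E n → ℝ} (hu : Integrable u) (y : E n) (hφ : TestOn V φ)
    {δ : ℝ} (hδ : thickening δ V ⊆ U) (hy : ‖y‖ < δ) :
    ∫ x, (u (x + y) - u x) * (Δ φ) x =
      (∫ x, u x * (Δ (fun z => φ (z - y))) x) - ∫ x, u x * (Δ φ) x := by
  have h1 : Integrable (fun x => u (x + y) * (Δ φ) x) :=
    hφ.integrable_mul_lap (hu.comp_add_right y)
  have h2 : Integrable (fun x => u x * (Δ φ) x) := hφ.integrable_mul_lap hu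
  have h3 : ∫ x, u (x + y) * (Δ φ) x = ∫ x, u x * (Δ (fun z => φ (z - y))) x := by
    have := integral_add_right_eq_self (μ := (volume : Measure (E n)))
      (fun x => u x * (Δ (fun z => φ (z - y))) x) y
    rw [← this]
    simp only [lap_comp_sub, add_sub_cancel_right]
  rw [← h3, ← integral_sub h1 h2]
  congr 1
  funext x
  ring

theorem DD_ae {u : Fin 3 → E n → ℝ} (hu0 : ∀ k x, 0 ≤ u k x)
    (hd : ∀ i j, i ≠ j → ∀ᵐ x, u i x = 0 ∨ u j x = 0) (y : E n) :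
    ∀ᵐ x, DD u y x =
      max (max (-(u 0 (x + y) - u 0 x) + (u 1 (x + y) - u 1 x) + (u 2 (x + y) - u 2 x))
        ((u 0 (x + y) - u 0 x) - (u 1 (x + y) - u 1 x) + (u 2 (x + y) - u 2 x)))
        ((u 0 (x + y) - u 0 x) + (u 1 (x + y) - u 1 x) - (u 2 (x + y) - u 2 x)) ∧
      DD u y x =
      max (max (-(-(u 0 (x + y) - u 0 x) + (u 1 (x + y) - u 1 x) + (u 2 (x + y) - u 2 x)))
        (-((u 0 (x + y) - u 0 x) - (u 1 (x + y) - u 1 x) + (u 2 (x + y) - u 2 x))))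
        (-((u 0 (x + y) - u 0 x) + (u 1 (x + y) - u 1 x) - (u 2 (x + y) - u 2 x))) := by
  have h1 : ∀ᵐ x, ∀ i j, i ≠ j → u i x = 0 ∨ u j x = 0 := by
    rw [ae_all_iff]; intro i; rw [ae_all_iff]; intro j
    by_cases hij : i = j
    · exact Eventually.of_forall fun x h => absurd hij h
    · filter_upwards [hd i j hij] with x hx _ using hx
  have h2 : ∀ᵐ x, ∀ i j, i ≠ j → u i (x + y) = 0 ∨ u j (x + y) = 0 :=
    (quasiMeasurePreserving_add_right (volume : Measure (E n)) y).ae h1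
  filter_upwards [h1, h2] with x hx hy
  refine ⟨tripod (p := fun k => u k (x + y)) (q := fun k => u k x) (fun k => hu0 k _)
    (fun k => hu0 k _) hy hx, ?_⟩
  have := tripod (p := fun k => u k x) (q := fun k => u k (x + y)) (fun k => hu0 k _)
    (fun k => hu0 k _) hx hy
  unfold DD
  rw [abs_sub_comm (u 0 (x + y)), abs_sub_comm (u 1 (x + y)), abs_sub_comm (u 2 (x + y)), this]
  ring_nf

/-- three functions -/
theorem max_lemma3 (hn : 0 < n) (hU : IsOpen U)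
    {g₁ g₂ g₃ : E n → ℝ} (h₁ : Integrable g₁) (h₂ : Integrable g₂) (h₃ : Integrable g₃)
    (A B : Measure (E n)) [IsFiniteMeasure A] [IsFiniteMeasure B]
    (hg₁ : ∀ φ, TestOn U φ → (∀ x, 0 ≤ φ x) →
      ∫ x, φ x ∂A - ∫ x, φ x ∂B ≤ ∫ x, g₁ x * (Δ φ) x)
    (hg₂ : ∀ φ, TestOn U φ → (∀ x, 0 ≤ φ x) →
      ∫ x, φ x ∂A - ∫ x, φ x ∂B ≤ ∫ x, g₂ x * (Δ φ) x)
    (hg₃ : ∀ φ, TestOn U φ → (∀ x, 0 ≤ φ x) →
      ∫ x, φ x ∂A - ∫ x, φ x ∂B ≤ ∫ x, g₃ x * (Δ φ) x) :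
    ∀ φ, TestOn U φ → (∀ x, 0 ≤ φ x) →
      ∫ x, φ x ∂A - ∫ x, φ x ∂B ≤ ∫ x, max (max (g₁ x) (g₂ x)) (g₃ x) * (Δ φ) x :=
  max_lemma hn (kern n) U hU (fun x => max (g₁ x) (g₂ x)) g₃ (h₁.sup h₂) h₃ A B
    (max_lemma hn (kern n) U hU g₁ g₂ h₁ h₂ A B hg₁ hg₂) hg₃

/-- Fixed translation. -/
theorem core_fixed (hn : 0 < n) {u : Fin 3 → E n → ℝ} (hu : ∀ k, Integrable (u k))
    (hu0 : ∀ k x, 0 ≤ u k x) (hd : ∀ i j, i ≠ j → ∀ᵐ x, u i x = 0 ∨ u j x = 0)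
    (ν S : Measure (E n)) [IsFiniteMeasure ν] [IsFiniteMeasure S]
    (hk : ∀ φ, TestOn U φ → (∀ x, 0 ≤ φ x) →
      |(∫ x, u 0 x * (Δ φ) x) - ∫ x, φ x ∂ν| + |(∫ x, u 1 x * (Δ φ) x) - ∫ x, φ x ∂ν|
        + |(∫ x, u 2 x * (Δ φ) x) - ∫ x, φ x ∂ν| ≤ ∫ x, φ x ∂S)
    (hV : IsOpen V) (hVU : V ⊆ U) {δ : ℝ} (hδ : thickening δ V ⊆ U) {y : E n} (hy : ‖y‖ < δ) :
    ∀ φ, TestOn V φ → (∀ x, 0 ≤ φ x) →
      (∫ x, φ (x - y) ∂ν - ∫ x, φ x ∂ν - ∫ x, φ (x - y) ∂S - ∫ x, φ x ∂S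
        ≤ ∫ x, DD u y x * (Δ φ) x) ∧
      (∫ x, φ x ∂ν - ∫ x, φ (x - y) ∂ν - ∫ x, φ (x - y) ∂S - ∫ x, φ x ∂S
        ≤ ∫ x, DD u y x * (Δ φ) x) := by
  set νy := ν.map (fun x => x - y) with hνy
  set Sy := S.map (fun x => x - y) with hSy
  have hmeas : Measurable (fun x : E n => x - y) := measurable_id.sub_const y
  have eν : ∀ φ, TestOn V φ → ∫ x, φ x ∂νy = ∫ x, φ (x - y) ∂ν := fun φ hφ =>
    integral_map hmeas.aemeasurable hφ.smooth.continuous.aestronglyMeasurable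
  have eS : ∀ φ, TestOn V φ → ∫ x, φ x ∂Sy = ∫ x, φ (x - y) ∂S := fun φ hφ =>
    integral_map hmeas.aemeasurable hφ.smooth.continuous.aestronglyMeasurable
  have : IsFiniteMeasure νy := Measure.isFiniteMeasure_map ν _
  have : IsFiniteMeasure Sy := Measure.isFiniteMeasure_map S _
  have i0 := integrable_diff (hu 0) y
  have i1 := integrable_diff (hu 1) y
  have i2 := integrable_diff (hu 2) y
  -- integrals against `B = ν + S + Sy` etc.
  have eB : ∀ (μ : Measure (E n)) [IsFiniteMeasure μ] (φ : E n → ℝ), TestOn V φ →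
      ∫ x, φ x ∂(μ + S + Sy) = ∫ x, φ x ∂μ + ∫ x, φ x ∂S + ∫ x, φ (x - y) ∂S := by
    intro μ _ φ hφ
    rw [integral_add_measure ((hφ.integrable μ).add_measure (hφ.integrable S)) (hφ.integrable Sy),
      integral_add_measure (hφ.integrable μ) (hφ.integrable S), eS φ hφ]
  -- the basic bounds
  have key : ∀ φ, TestOn V φ → (∀ x, 0 ≤ φ x) →
      |(∫ x, (u 0 (x + y) - u 0 x) * (Δ φ) x) - (∫ x, φ (x - y) ∂ν - ∫ x, φ x ∂ν)|
      + |(∫ x, (u 1 (x + y) - u 1 x) * (Δ φ) x) - (∫ x, φ (x - y) ∂ν - ∫ x, φ x ∂ν)|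
      + |(∫ x, (u 2 (x + y) - u 2 x) * (Δ φ) x) - (∫ x, φ (x - y) ∂ν - ∫ x, φ x ∂ν)|
      ≤ ∫ x, φ x ∂S + ∫ x, φ (x - y) ∂S := by
    intro φ hφ h0
    have a := hk _ (hφ.comp_sub hδ hy) (fun x => h0 _)
    have b := hk _ (hφ.mono hVU) h0
    rw [integral_diff (hu 0) y hφ hδ hy, integral_diff (hu 1) y hφ hδ hy,
      integral_diff (hu 2) y hφ hδ hy]
    have t : ∀ k, |(∫ x, u k x * (Δ (fun z => φ (z - y))) x) - (∫ x, u k x * (Δ φ) x)
        - (∫ x, φ (x - y) ∂ν - ∫ x, φ x ∂ν)| ≤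
        |(∫ x, u k x * (Δ (fun z => φ (z - y))) x) - ∫ x, φ (x - y) ∂ν|
        + |(∫ x, u k x * (Δ φ) x) - ∫ x, φ x ∂ν| := by
      intro k
      have := abs_sub ((∫ x, u k x * (Δ (fun z => φ (z - y))) x) - ∫ x, φ (x - y) ∂ν)
        ((∫ x, u k x * (Δ φ) x) - ∫ x, φ x ∂ν)
      refine le_trans (le_of_eq ?_) this
      congr 1; ring
    have t0 := t 0
    have t1 := t 1
    have t2 := t 2
    linarith
  have split : ∀ (a b c : ℝ) (φ : E n → ℝ), TestOn V φ →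
      ∫ x, (a * (u 0 (x + y) - u 0 x) + b * (u 1 (x + y) - u 1 x) + c * (u 2 (x + y) - u 2 x))
        * (Δ φ) x = a * (∫ x, (u 0 (x + y) - u 0 x) * (Δ φ) x)
        + b * (∫ x, (u 1 (x + y) - u 1 x) * (Δ φ) x)
        + c * (∫ x, (u 2 (x + y) - u 2 x) * (Δ φ) x) := by
    intro a b c φ hφ
    have j0 := hφ.integrable_mul_lap i0
    have j1 := hφ.integrable_mul_lap i1
    have j2 := hφ.integrable_mul_lap i2
    have j01 : Integrable (fun x => a * ((u 0 (x + y) - u 0 x) * (Δ φ) x)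
        + b * ((u 1 (x + y) - u 1 x) * (Δ φ) x)) := (j0.const_mul a).add (j1.const_mul b)
    rw [← integral_const_mul, ← integral_const_mul, ← integral_const_mul,
      ← integral_add (j0.const_mul a) (j1.const_mul b),
      ← integral_add j01 (j2.const_mul c)]
    congr 1
    funext x
    ring
  have igen : ∀ a b c : ℝ, Integrable (fun x => a * (u 0 (x + y) - u 0 x)
      + b * (u 1 (x + y) - u 1 x) + c * (u 2 (x + y) - u 2 x)) := fun a b c =>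
    ((i0.const_mul a).add (i1.const_mul b)).add (i2.const_mul c)
  have hae := DD_ae hu0 hd y
  intro φ hφ h0
  constructor
  · -- first representation
    have hfun : ∫ x, DD u y x * (Δ φ) x = ∫ x, max (max
        ((-1) * (u 0 (x + y) - u 0 x) + 1 * (u 1 (x + y) - u 1 x) + 1 * (u 2 (x + y) - u 2 x))
        (1 * (u 0 (x + y) - u 0 x) + (-1) * (u 1 (x + y) - u 1 x) + 1 * (u 2 (x + y) - u 2 x)))
        (1 * (u 0 (x + y) - u 0 x) + 1 * (u 1 (x + y) - u 1 x) + (-1) * (u 2 (x + y) - u 2 x))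
        * (Δ φ) x := by
      refine integral_congr_ae ?_
      filter_upwards [hae] with x hx
      rw [hx.1]
      ring_nf
    rw [hfun]
    have := max_lemma3 hn hV (igen (-1) 1 1) (igen 1 (-1) 1) (igen 1 1 (-1)) νy (ν + S + Sy)
      ?_ ?_ ?_ φ hφ h0
    · rw [eν φ hφ, eB ν φ hφ] at this
      linarith
    all_goals
      intro ψ hψ hψ0
      rw [eν ψ hψ, eB ν ψ hψ, split _ _ _ ψ hψ]
      have k := key ψ hψ hψ0
      have k0 := abs_le.1 (le_refl |(∫ x, (u 0 (x + y) - u 0 x) * (Δ ψ) x)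
        - (∫ x, ψ (x - y) ∂ν - ∫ x, ψ x ∂ν)|)
      have k1 := abs_le.1 (le_refl |(∫ x, (u 1 (x + y) - u 1 x) * (Δ ψ) x)
        - (∫ x, ψ (x - y) ∂ν - ∫ x, ψ x ∂ν)|)
      have k2 := abs_le.1 (le_refl |(∫ x, (u 2 (x + y) - u 2 x) * (Δ ψ) x)
        - (∫ x, ψ (x - y) ∂ν - ∫ x, ψ x ∂ν)|)
      linarith [k0.1, k0.2, k1.1, k1.2, k2.1, k2.2]
  · have hfun : ∫ x, DD u y x * (Δ φ) x = ∫ x, max (max
        (1 * (u 0 (x + y) - u 0 x) + (-1) * (u 1 (x + y) - u 1 x) + (-1) * (u 2 (x + y) - u 2 x))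
        ((-1) * (u 0 (x + y) - u 0 x) + 1 * (u 1 (x + y) - u 1 x) + (-1) * (u 2 (x + y) - u 2 x)))
        ((-1) * (u 0 (x + y) - u 0 x) + (-1) * (u 1 (x + y) - u 1 x) + 1 * (u 2 (x + y) - u 2 x))
        * (Δ φ) x := by
      refine integral_congr_ae ?_
      filter_upwards [hae] with x hx
      rw [hx.2]
      ring_nf
    rw [hfun]
    have := max_lemma3 hn hV (igen 1 (-1) (-1)) (igen (-1) 1 (-1)) (igen (-1) (-1) 1) ν
      (νy + S + Sy) ?_ ?_ ?_ φ hφ h0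
    · rw [eB νy φ hφ, eν φ hφ] at this
      linarith
    all_goals
      intro ψ hψ hψ0
      rw [eB νy ψ hψ, eν ψ hψ, split _ _ _ ψ hψ]
      have k := key ψ hψ hψ0
      have k0 := abs_le.1 (le_refl |(∫ x, (u 0 (x + y) - u 0 x) * (Δ ψ) x)
        - (∫ x, ψ (x - y) ∂ν - ∫ x, ψ x ∂ν)|)
      have k1 := abs_le.1 (le_refl |(∫ x, (u 1 (x + y) - u 1 x) * (Δ ψ) x)
        - (∫ x, ψ (x - y) ∂ν - ∫ x, ψ x ∂ν)|)
      have k2 := abs_le.1 (le_refl |(∫ x, (u 2 (x + y) - u 2 x) * (Δ ψ) x)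
        - (∫ x, ψ (x - y) ∂ν - ∫ x, ψ x ∂ν)|)
      linarith [k0.1, k0.2, k1.1, k1.2, k2.1, k2.2]

end Pool.Agent.Helper486.TP
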