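import Pool.Agent.Helper486.TP.Core1

/-! # The core lemma -/

set_option autoImplicit false

open MeasureTheory Set Filter Topology Metric
open scoped InnerProductSpace ContDiff Laplacian

namespace Pool.Agent.Helper486.TP

variable {n : ℕ} {U V : Set (E n)} {φ ψ : E n → ℝ}

/-- a.e. translate of `ν` gives mass zero to a Lebesgue null set -/
theorem ae_translate_null (ν : Measure (E n)) [IsFiniteMeasure ν] {N : Set (E n)}
    (hN : MeasurableSet N) (h0 : volume N = 0) :
    ∀ᵐ y : E n, ν {x | x - y ∈ N} = 0 := by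
  have hms : MeasurableSet {p : E n × E n | p.2 - p.1 ∈ N} :=
    (measurable_snd.sub measurable_fst) hN
  have hz : ((volume : Measure (E n)).prod ν) {p : E n × E n | p.2 - p.1 ∈ N} = 0 := by
    rw [Measure.prod_apply_symm hms]
    have : ∀ x : E n, volume ((fun y => (y, x)) ⁻¹' {p : E n × E n | p.2 - p.1 ∈ N}) = 0 := by
      intro x
      have : (fun y => (y, x)) ⁻¹' {p : E n × E n | p.2 - p.1 ∈ N} = (fun y => x - y) ⁻¹' N := rfl
      rw [this]
      have hq : MeasurePreserving (fun y : E n => x - y) volume volume :=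
        Measure.measurePreserving_sub_left volume x
      rw [hq.measure_preimage hN.nullMeasurableSet, h0]
    rw [lintegral_congr this, lintegral_zero]
  exact Measure.ae_ae_of_ae_prod (p := fun p : E n × E n => p ∉ {p : E n × E n | p.2 - p.1 ∈ N})
    (measure_eq_zero_iff_ae_notMem.1 hz) |>.mono fun y hy => by
      rw [measure_eq_zero_iff_ae_notMem]; exact hy

/-- separation of mutually singular measures by a smooth function -/
theorem exists_separate (ν νy : Measure (E n)) [IsFiniteMeasure ν] [IsFiniteMeasure νy]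
    {N : Set (E n)} (hN : MeasurableSet N) (h1 : ν Nᶜ = 0) (h2 : νy N = 0) {η : ℝ} (hη : 0 < η) :
    ∃ ζ : E n → ℝ, ContDiff ℝ ∞ ζ ∧ (∀ x, 0 ≤ ζ x ∧ ζ x ≤ 1) ∧
      ∫ x, (1 - ζ x) ∂ν ≤ η ∧ ∫ x, ζ x ∂νy ≤ η := by
  obtain ⟨K, hKN, hK, hKη⟩ := hN.exists_isCompact_sdiff_lt (μ := ν) (measure_ne_top _ _)
    (ε := ENNReal.ofReal η) (by simpa using hη)
  have hKy : νy K = 0 := measure_mono_null hKN h2
  obtain ⟨O, hKO, hO, hOη⟩ := K.exists_isOpen_lt_add (μ := νy) (measure_ne_top _ _)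
    (ε := ENNReal.ofReal η) (by simpa using hη)
  rw [hKy, zero_add] at hOη
  obtain ⟨ζ, hζ, hz0, hz1, hz⟩ := exists_cutoff hO.isClosed_compl hK.isClosed
    (disjoint_compl_left_iff_subset.2 hKO)
  refine ⟨ζ, hζ, hz, ?_, ?_⟩
  · have hle : ∀ x, 1 - ζ x ≤ (Kᶜ).indicator (fun _ => (1 : ℝ)) x := by
      intro x
      by_cases hx : x ∈ K
      · simp [hz1 x hx, hx]
      · simp only [indicator_of_mem (show x ∈ Kᶜ from hx)]; linarith [(hz x).1]
    calc ∫ x, (1 - ζ x) ∂ν ≤ ∫ x, (Kᶜ).indicator (fun _ => (1 : ℝ)) x ∂ν := by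
          refine integral_mono_of_nonneg (Eventually.of_forall fun x => by
            simp only [Pi.zero_apply]; linarith [(hz x).2]) ?_ (Eventually.of_forall hle)
          exact (integrable_indicator_iff hK.measurableSet.compl).2
            (integrableOn_const (measure_ne_top _ _))
      _ = ν.real Kᶜ := by
          rw [integral_indicator hK.measurableSet.compl, setIntegral_const]; simp
      _ ≤ η := by
          have : ν Kᶜ ≤ ENNReal.ofReal η := by
            calc ν Kᶜ ≤ ν (Nᶜ ∪ (N \ K)) := measure_mono fun x hx => by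
                  by_cases hxN : x ∈ N
                  · exact Or.inr ⟨hxN, hx⟩
                  · exact Or.inl hxN
              _ ≤ ν Nᶜ + ν (N \ K) := measure_union_le _ _
              _ ≤ ENNReal.ofReal η := by rw [h1, zero_add]; exact hKη.le
          exact ENNReal.toReal_le_of_le_ofReal hη.le this
  · have hle : ∀ x, ζ x ≤ O.indicator (fun _ => (1 : ℝ)) x := by
      intro x
      by_cases hx : x ∈ O
      · simp only [indicator_of_mem hx]; exact (hz x).2
      · simp [hz0 x hx, hx]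
    calc ∫ x, ζ x ∂νy ≤ ∫ x, O.indicator (fun _ => (1 : ℝ)) x ∂νy := by
          refine integral_mono_of_nonneg (Eventually.of_forall fun x => (hz x).1) ?_
            (Eventually.of_forall hle)
          exact (integrable_indicator_iff hO.measurableSet).2
            (integrableOn_const (measure_ne_top _ _))
      _ = νy.real O := by
          rw [integral_indicator hO.measurableSet, setIntegral_const]; simp
      _ ≤ η := ENNReal.toReal_le_of_le_ofReal hη.le hOη.le

/-- the inequality for a good translation -/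
theorem core_good (hn : 0 < n) {u : Fin 3 → E n → ℝ} (hu : ∀ k, Integrable (u k))
    (hu0 : ∀ k x, 0 ≤ u k x) (hd : ∀ i j, i ≠ j → ∀ᵐ x, u i x = 0 ∨ u j x = 0)
    (ν S : Measure (E n)) [IsFiniteMeasure ν] [IsFiniteMeasure S]
    (hk : ∀ φ, TestOn U φ → (∀ x, 0 ≤ φ x) →
      |(∫ x, u 0 x * (Δ φ) x) - ∫ x, φ x ∂ν| + |(∫ x, u 1 x * (Δ φ) x) - ∫ x, φ x ∂ν|
        + |(∫ x, u 2 x * (Δ φ) x) - ∫ x, φ x ∂ν| ≤ ∫ x, φ x ∂S)
    (hV : IsOpen V) (hVU : V ⊆ U) {δ : ℝ} (hδ : thickening δ V ⊆ U) {y : E n} (hy : ‖y‖ < δ)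
    {N : Set (E n)} (hN : MeasurableSet N) (h1 : ν Nᶜ = 0) (h2 : ν {x | x - y ∈ N} = 0)
    {χ : E n → ℝ} (hχ : TestOn V χ) (hχ0 : ∀ x, 0 ≤ χ x) :
    ∫ x, χ x ∂ν + ∫ x, χ (x - y) ∂ν - ∫ x, χ x ∂S - ∫ x, χ (x - y) ∂S
      ≤ ∫ x, DD u y x * (Δ χ) x := by
  have hmeas : Measurable (fun x : E n => x - y) := measurable_id.sub_const y
  set νy := ν.map (fun x => x - y) with hνy
  have : IsFiniteMeasure νy := Measure.isFiniteMeasure_map ν _
  have h2' : νy N = 0 := by rw [hνy, Measure.map_apply hmeas hN]; exact h2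
  obtain ⟨C, hC0, hC⟩ := hχ.bdd
  refine le_of_forall_pos_le_add fun η hη => ?_
  obtain ⟨ζ, hζ, hz, e1, e2⟩ := exists_separate ν νy hN h1 h2' (η := η / (4 * C)) (by positivity)
  have hζ' : ContDiff ℝ ∞ (fun x => 1 - ζ x) := contDiff_const.sub hζ
  have t1 : TestOn V (fun x => ζ x * χ x) := hχ.mul_left hζ
  have t2 : TestOn V (fun x => (1 - ζ x) * χ x) := hχ.mul_left hζ'
  have a1 := (core_fixed hn hu hu0 hd ν S hk hV hVU hδ hy _ t1
    (fun x => mul_nonneg (hz x).1 (hχ0 x))).2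
  have a2 := (core_fixed hn hu hu0 hd ν S hk hV hVU hδ hy _ t2
    (fun x => mul_nonneg (by linarith [(hz x).2]) (hχ0 x))).1
  have hsum : (∫ x, DD u y x * (Δ (fun x => ζ x * χ x)) x)
      + (∫ x, DD u y x * (Δ (fun x => (1 - ζ x) * χ x)) x) = ∫ x, DD u y x * (Δ χ) x := by
    rw [← integral_add (t1.integrable_mul_lap (integrable_DD hu y))
      (t2.integrable_mul_lap (integrable_DD hu y))]
    have hfe : (fun x => ζ x * χ x + (1 - ζ x) * χ x) = χ := by funext x; ring
    congr 1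
    funext x
    rw [← mul_add, ← lap_add t1.smooth t2.smooth, hfe]
  -- integrability on finite measures
  have cy : Continuous (fun x : E n => x - y) := continuous_id.sub continuous_const
  have ic : ∀ (μ : Measure (E n)) [IsFiniteMeasure μ] (f : E n → ℝ), Continuous f →
      (∃ D, ∀ x, |f x| ≤ D) → Integrable f μ := by
    intro μ _ f hf ⟨D, hD⟩
    exact Integrable.of_bound hf.aestronglyMeasurable D (Eventually.of_forall hD)
  have bχ : ∃ D, ∀ x, |χ x| ≤ D := ⟨C, hC⟩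
  have bz : ∀ x, |ζ x| ≤ 1 := fun x => by rw [abs_of_nonneg (hz x).1]; exact (hz x).2
  have bz' : ∀ x, |1 - ζ x| ≤ 1 := fun x => by
    rw [abs_of_nonneg (by linarith [(hz x).2])]; linarith [(hz x).1]
  have b1 : ∀ x, |ζ x * χ x| ≤ C := fun x => by
    rw [abs_mul]; calc _ ≤ 1 * C := mul_le_mul (bz x) (hC x) (abs_nonneg _) (by norm_num)
      _ = C := one_mul C
  have b2 : ∀ x, |(1 - ζ x) * χ x| ≤ C := fun x => by
    rw [abs_mul]; calc _ ≤ 1 * C := mul_le_mul (bz' x) (hC x) (abs_nonneg _) (by norm_num)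
      _ = C := one_mul C
  have c1 := t1.smooth.continuous
  have c2 := t2.smooth.continuous
  -- sums
  have s1 : ∀ (μ : Measure (E n)) [IsFiniteMeasure μ],
      ∫ x, ζ x * χ x ∂μ + ∫ x, (1 - ζ x) * χ x ∂μ = ∫ x, χ x ∂μ := by
    intro μ _
    rw [← integral_add (ic μ _ c1 ⟨C, b1⟩) (ic μ _ c2 ⟨C, b2⟩)]
    congr 1; funext x; ring
  have s2 : ∀ (μ : Measure (E n)) [IsFiniteMeasure μ],
      ∫ x, ζ (x - y) * χ (x - y) ∂μ + ∫ x, (1 - ζ (x - y)) * χ (x - y) ∂μ
        = ∫ x, χ (x - y) ∂μ := by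
    intro μ _
    have j1 : Integrable (fun x => ζ (x - y) * χ (x - y)) μ :=
      ic μ _ (c1.comp cy) ⟨C, fun x => b1 _⟩
    have j2 : Integrable (fun x => (1 - ζ (x - y)) * χ (x - y)) μ :=
      ic μ _ (c2.comp cy) ⟨C, fun x => b2 _⟩
    rw [← integral_add j1 j2]
    congr 1; funext x; ring
  -- smallness
  have m1 : ∫ x, (1 - ζ x) * χ x ∂ν ≤ C * (η / (4 * C)) := by
    calc ∫ x, (1 - ζ x) * χ x ∂ν ≤ ∫ x, C * (1 - ζ x) ∂ν := by
          refine integral_mono (ic ν _ c2 ⟨C, b2⟩)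
            ((ic ν _ hζ'.continuous ⟨1, bz'⟩).const_mul C) fun x => ?_
          have := (abs_le.1 (hC x)).2
          nlinarith [(hz x).2]
      _ = C * ∫ x, (1 - ζ x) ∂ν := integral_const_mul _ _
      _ ≤ _ := by gcongr
  have m2 : ∫ x, ζ (x - y) * χ (x - y) ∂ν ≤ C * (η / (4 * C)) := by
    have e3 : ∫ x, ζ x ∂νy = ∫ x, ζ (x - y) ∂ν :=
      integral_map hmeas.aemeasurable hζ.continuous.aestronglyMeasurable
    rw [e3] at e2
    calc ∫ x, ζ (x - y) * χ (x - y) ∂ν ≤ ∫ x, C * ζ (x - y) ∂ν := by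
          refine integral_mono (ic ν _ (c1.comp cy) ⟨C, fun x => b1 _⟩)
            ((ic ν _ (hζ.continuous.comp cy) ⟨1, fun x => bz _⟩).const_mul C) fun x => ?_
          have := (abs_le.1 (hC (x - y))).2
          nlinarith [(hz (x - y)).1]
      _ = C * ∫ x, ζ (x - y) ∂ν := integral_const_mul _ _
      _ ≤ _ := by gcongr
  have hCη : C * (η / (4 * C)) = η / 4 := by field_simp
  rw [hCη] at m1 m2
  have q1 := s1 ν
  have q2 := s2 ν
  have q3 := s1 S
  have q4 := s2 S
  linarith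

/-- **Core lemma.** -/
theorem core (hn : 0 < n) (hU : IsOpen U) {u : Fin 3 → E n → ℝ} (hu : ∀ k, Integrable (u k))
    (hu0 : ∀ k x, 0 ≤ u k x) (hd : ∀ i j, i ≠ j → ∀ᵐ x, u i x = 0 ∨ u j x = 0)
    (ν S : Measure (E n)) [IsFiniteMeasure ν] [IsFiniteMeasure S] (hν : ν ⟂ₘ volume)
    (hk : ∀ φ, TestOn U φ → (∀ x, 0 ≤ φ x) →
      |(∫ x, u 0 x * (Δ φ) x) - ∫ x, φ x ∂ν| + |(∫ x, u 1 x * (Δ φ) x) - ∫ x, φ x ∂ν|
        + |(∫ x, u 2 x * (Δ φ) x) - ∫ x, φ x ∂ν| ≤ ∫ x, φ x ∂S)
    {χ : E n → ℝ} (hχ : TestOn U χ) (hχ0 : ∀ x, 0 ≤ χ x) :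
    ∫ x, χ x ∂ν ≤ ∫ x, χ x ∂S := by
  obtain ⟨s, hs, hs1, hs2⟩ := hν
  -- the null set `N = sᶜ`
  have hN : MeasurableSet sᶜ := hs.compl
  obtain ⟨δ, hδ, hδU⟩ := hχ.cpt.isCompact.exists_thickening_subset_open hU hχ.sub
  set V := thickening (δ / 2) (tsupport χ) with hV
  have hVo : IsOpen V := isOpen_thickening
  have hVU : V ⊆ U := (thickening_mono (by linarith) _).trans hδU
  have hVδ : thickening (δ / 2) V ⊆ U := by
    refine (thickening_thickening_subset _ _ _).trans ?_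
    rw [add_halves]; exact hδU
  have hχV : TestOn V χ := ⟨hχ.smooth, hχ.cpt, self_subset_thickening (by positivity) _⟩
  have hgood := ae_translate_null ν hN hs2
  obtain ⟨C, hC0, hC⟩ := hχ.bdd
  obtain ⟨C', hC0', hC'⟩ := lap_bdd hχ.smooth hχ.cpt
  by_contra hcon
  push Not at hcon
  -- continuity in `y`
  have hcont : ∀ (μ : Measure (E n)) [IsFiniteMeasure μ],
      Tendsto (fun y : E n => ∫ x, χ (x - y) ∂μ) (𝓝 0) (𝓝 (∫ x, χ x ∂μ)) := by
    intro μ _
    have hc : Continuous (fun y : E n => ∫ x, χ (x - y) ∂μ) := by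
      refine continuous_of_dominated (bound := fun _ => C)
        (fun y => (hχ.smooth.continuous.comp
          (continuous_id.sub continuous_const)).aestronglyMeasurable)
        (fun y => Eventually.of_forall fun x => hC _) (integrable_const C)
        (Eventually.of_forall fun x => hχ.smooth.continuous.comp
          (continuous_const.sub continuous_id))
    simpa using hc.tendsto 0
  have hDD : Tendsto (fun y : E n => ∫ x, DD u y x * (Δ χ) x) (𝓝 0) (𝓝 0) := by
    have hb : ∀ y : E n, |∫ x, DD u y x * (Δ χ) x| ≤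
        C' * ((∫ x, |u 0 (x + y) - u 0 x|) + (∫ x, |u 1 (x + y) - u 1 x|)
          + ∫ x, |u 2 (x + y) - u 2 x|) := by
      intro y
      have j0 := (integrable_diff (hu 0) y).abs
      have j1 := (integrable_diff (hu 1) y).abs
      have j2 := (integrable_diff (hu 2) y).abs
      have j01 : Integrable (fun x => |u 0 (x + y) - u 0 x| + |u 1 (x + y) - u 1 x|) :=
        j0.add j1
      rw [← integral_add j0 j1, ← integral_add j01 j2, ← integral_const_mul]
      refine (abs_integral_le_integral_abs).trans ?_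
      refine integral_mono (hχV.integrable_mul_lap (integrable_DD hu y)).abs
        ((j01.add j2).const_mul C') fun x => ?_
      have h0 : 0 ≤ DD u y x := by unfold DD; positivity
      simp only [abs_mul, abs_of_nonneg h0]
      rw [mul_comm]
      exact mul_le_mul_of_nonneg_right (hC' x) h0
    have hlim : Tendsto (fun y : E n => C' * ((∫ x, |u 0 (x + y) - u 0 x|)
        + (∫ x, |u 1 (x + y) - u 1 x|) + ∫ x, |u 2 (x + y) - u 2 x|)) (𝓝 0) (𝓝 0) := by
      have := (((translation_continuous (u 0) (hu 0)).add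
        (translation_continuous (u 1) (hu 1))).add
        (translation_continuous (u 2) (hu 2))).const_mul C'
      simpa using this
    exact squeeze_zero_norm (fun y => hb y) hlim
  have hlim : Tendsto (fun y : E n => ∫ x, χ x ∂ν + ∫ x, χ (x - y) ∂ν - ∫ x, χ x ∂S
      - ∫ x, χ (x - y) ∂S - ∫ x, DD u y x * (Δ χ) x) (𝓝 0)
      (𝓝 (∫ x, χ x ∂ν + ∫ x, χ x ∂ν - ∫ x, χ x ∂S - ∫ x, χ x ∂S - 0)) := by
    exact ((((tendsto_const_nhds.add (hcont ν)).sub tendsto_const_nhds).sub (hcont S)).sub hDD)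
  have hpos : 0 < ∫ x, χ x ∂ν + ∫ x, χ x ∂ν - ∫ x, χ x ∂S - ∫ x, χ x ∂S - 0 := by linarith
  have hev := (hlim.eventually (lt_mem_nhds hpos)).and
    (Metric.ball_mem_nhds (0 : E n) (ε := δ / 2) (by positivity))
  obtain ⟨W, hW, hWo, hW0⟩ := _root_.mem_nhds_iff.1 hev
  have hdense : Dense {y : E n | ν {x | x - y ∈ sᶜ} = 0} := Measure.dense_of_ae hgood
  obtain ⟨y, hyW, hy⟩ := hdense.inter_open_nonempty W hWo ⟨0, hW0⟩
  obtain ⟨h3, h4⟩ := hW hyW
  have h5 := core_good hn hu hu0 hd ν S hk hVo hVU hVδ (y := y) (by simpa using h4) hN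
    (by rwa [compl_compl]) hy hχV hχ0
  linarith

end Pool.Agent.Helper486.TP
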