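import Mathlib

/-! # Test functions, kernels: basic definitions for the triple point inequality -/

set_option autoImplicit false

open MeasureTheory Set Filter Topology Metric
open scoped InnerProductSpace ContDiff Laplacian

namespace Pool.Agent.Helper486.TP

/-- Euclidean space. -/
abbrev E (n : ℕ) : Type := EuclideanSpace ℝ (Fin n)

/-- Smooth test functions with compact support in `U`. -/
structure TestOn {n : ℕ} (U : Set (E n)) (φ : E n → ℝ) : Prop where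
  smooth : ContDiff ℝ ∞ φ
  cpt : HasCompactSupport φ
  sub : tsupport φ ⊆ U

/-- A pair of radial bumps `ρ`, `H` with `d/dr (r⁻ⁿ ρ(x/r)) = r⁻ⁿ⁻¹ (ΔH)(x/r)`. -/
structure Kernel (n : ℕ) where
  ρ : E n → ℝ
  H : E n → ℝ
  ρ_smooth : ContDiff ℝ ∞ ρ
  H_smooth : ContDiff ℝ ∞ H
  ρ_nonneg : ∀ x, 0 ≤ ρ x
  H_nonneg : ∀ x, 0 ≤ H x
  ρ_supp : ∀ x, 1 ≤ ‖x‖ → ρ x = 0
  H_supp : ∀ x, 1 ≤ ‖x‖ → H x = 0
  ρ_even : ∀ x, ρ (-x) = ρ x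
  H_even : ∀ x, H (-x) = H x
  ρ_pos : ∀ x, ‖x‖ < 1 → 0 < ρ x
  H_pos : ∀ x, ‖x‖ < 1 → 0 < H x
  scaling : ∀ (w : E n) (s h : ℝ), 0 < s → s ≤ h →
    (h ^ n)⁻¹ * ρ (h⁻¹ • w) - (s ^ n)⁻¹ * ρ (s⁻¹ • w)
      = ∫ r in s..h, (r ^ (n + 1))⁻¹ * (Δ H) (r⁻¹ • w)

end Pool.Agent.Helper486.TP
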