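import Pool.Agent.Helper486.TP.Local

/-! # Minima of δ-subharmonic functions and the inequality for finite families -/

set_option autoImplicit false

open MeasureTheory Set Filter Topology Metric
open scoped InnerProductSpace ContDiff Laplacian ENNReal

namespace Pool.Agent.Helper486.TP

variable {n : ℕ} {U V Ω : Set (E n)} {φ ψ : E n → ℝ}

theorem finOn_zero : FinOn Ω (0 : Measure (E n)) := fun K _ _ => by simp

/-- local version of the maximum lemma -/
theorem max_lemma_loc (hn : 0 < n) (hΩ : IsOpen Ω) {g₁ g₂ : E n → ℝ}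
    (h₁ : LocallyIntegrableOn g₁ Ω) (h₂ : LocallyIntegrableOn g₂ Ω)
    {B : Measure (E n)} (hB : FinOn Ω B)
    (hg₁ : ∀ φ, TestOn Ω φ → (∀ x, 0 ≤ φ x) → -(∫ x, φ x ∂B) ≤ ∫ x, g₁ x * (Δ φ) x)
    (hg₂ : ∀ φ, TestOn Ω φ → (∀ x, 0 ≤ φ x) → -(∫ x, φ x ∂B) ≤ ∫ x, g₂ x * (Δ φ) x) :
    ∀ φ, TestOn Ω φ → (∀ x, 0 ≤ φ x) →
      -(∫ x, φ x ∂B) ≤ ∫ x, max (g₁ x) (g₂ x) * (Δ φ) x := by
  intro φ hφ hφ0
  obtain ⟨L, hL, hKL, hLΩ⟩ := exists_compact_between hφ.cpt.isCompact hΩ hφ.sub
  have hLm : MeasurableSet L := hL.measurableSet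
  have hint : interior L ⊆ L := interior_subset
  have := hB.isFinite hL hLΩ
  have hφL : TestOn (interior L) φ := ⟨hφ.smooth, hφ.cpt, hKL⟩
  have key := max_lemma hn (kern n) (interior L) isOpen_interior (L.indicator g₁)
    (L.indicator g₂) ((integrable_indicator_iff hLm).2 (h₁.integrableOn_compact_subset hLΩ hL))
    ((integrable_indicator_iff hLm).2 (h₂.integrableOn_compact_subset hLΩ hL))
    0 (B.restrict L)
    (fun ψ hψ hψ0 => by
      rw [integral_zero_measure, zero_sub, hψ.setInt hLm hint]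
      refine (hg₁ ψ (hψ.mono (hint.trans hLΩ)) hψ0).trans (le_of_eq ?_)
      exact integral_congr_ae (Eventually.of_forall fun x => (hψ.ind hint g₁ x).symm))
    (fun ψ hψ hψ0 => by
      rw [integral_zero_measure, zero_sub, hψ.setInt hLm hint]
      refine (hg₂ ψ (hψ.mono (hint.trans hLΩ)) hψ0).trans (le_of_eq ?_)
      exact integral_congr_ae (Eventually.of_forall fun x => (hψ.ind hint g₂ x).symm))
    φ hφL hφ0
  rw [integral_zero_measure, zero_sub, hφL.setInt hLm hint] at key
  refine key.trans (le_of_eq ?_)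
  refine integral_congr_ae (Eventually.of_forall fun x => ?_)
  by_cases hx : x ∈ L
  · simp only [indicator_of_mem hx]
  · have : (Δ φ) x = 0 := hφL.lap_eq_zero fun h => hx (hint h)
    simp [this]

theorem locInt_min {f g : E n → ℝ} (hf : LocallyIntegrableOn f Ω) (hg : LocallyIntegrableOn g Ω) :
    LocallyIntegrableOn (fun x => min (f x) (g x)) Ω := by
  intro x hx
  obtain ⟨s, hs, h1⟩ := hf x hx
  obtain ⟨t, ht, h2⟩ := hg x hx
  refine ⟨s ∩ t, inter_mem hs ht, ?_⟩
  have h3 : Integrable f (volume.restrict (s ∩ t)) := h1.mono_set inter_subset_left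
  have h4 : Integrable g (volume.restrict (s ∩ t)) := h2.mono_set inter_subset_right
  exact h3.inf h4

/-- the minimum of two δ-subharmonic functions is δ-subharmonic -/
theorem HasLap.exists_min (hn : 0 < n) (hΩ : IsOpen Ω) {f g : E n → ℝ}
    {P₁ N₁ P₂ N₂ : Measure (E n)} (hf : HasLap Ω f P₁ N₁) (hg : HasLap Ω g P₂ N₂) :
    ∃ P N, HasLap Ω (fun x => min (f x) (g x)) P N := by
  have hB : FinOn Ω (P₁ + P₂) := hf.finP.add hg.finP
  have hmin := locInt_min hf.int hg.int
  have key := max_lemma_loc hn hΩ (g₁ := fun x => -f x) (g₂ := fun x => -g x) hf.int.neg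
    hg.int.neg hB
    (fun φ hφ hφ0 => by
      have h1 : ∫ x, -f x * (Δ φ) x = -∫ x, f x * (Δ φ) x := by
        rw [← integral_neg]
        exact integral_congr_ae (Eventually.of_forall fun x => by ring)
      rw [h1, hf.lap φ hφ, integral_add_measure (hφ.integrable_fin hf.finP)
        (hφ.integrable_fin hg.finP)]
      have h2 : 0 ≤ ∫ x, φ x ∂N₁ := integral_nonneg hφ0
      have h3 : 0 ≤ ∫ x, φ x ∂P₂ := integral_nonneg hφ0
      linarith)
    (fun φ hφ hφ0 => by
      have h1 : ∫ x, -g x * (Δ φ) x = -∫ x, g x * (Δ φ) x := by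
        rw [← integral_neg]
        exact integral_congr_ae (Eventually.of_forall fun x => by ring)
      rw [h1, hg.lap φ hφ, integral_add_measure (hφ.integrable_fin hf.finP)
        (hφ.integrable_fin hg.finP)]
      have h2 : 0 ≤ ∫ x, φ x ∂N₂ := integral_nonneg hφ0
      have h3 : 0 ≤ ∫ x, φ x ∂P₁ := integral_nonneg hφ0
      linarith)
  have hmm : ∀ φ : E n → ℝ, ∫ x, max (-f x) (-g x) * (Δ φ) x =
      -∫ x, min (f x) (g x) * (Δ φ) x := by
    intro φ
    rw [← integral_neg]
    refine integral_congr_ae (Eventually.of_forall fun x => ?_)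
    simp only
    rw [max_neg_neg]; ring
  obtain ⟨Q, hQ1, -, hQ2⟩ := positive_distribution Ω hΩ
    (fun φ => (∫ x, φ x ∂(P₁ + P₂)) - ∫ x, min (f x) (g x) * (Δ φ) x)
    (fun φ ψ hφ hψ => by
      have h1 : ∫ x, (φ x + ψ x) ∂(P₁ + P₂) = (∫ x, φ x ∂(P₁ + P₂)) + ∫ x, ψ x ∂(P₁ + P₂) :=
        integral_add (hφ.integrable_fin hB) (hψ.integrable_fin hB)
      have h2 : ∫ x, min (f x) (g x) * (Δ (fun x => φ x + ψ x)) x =
          (∫ x, min (f x) (g x) * (Δ φ) x) + ∫ x, min (f x) (g x) * (Δ ψ) x := by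
        rw [← integral_add (hφ.integrable_lap_loc hmin) (hψ.integrable_lap_loc hmin)]
        refine integral_congr_ae (Eventually.of_forall fun x => ?_)
        simp only
        rw [lap_add hφ.smooth hψ.smooth]; ring
      rw [h1, h2]; ring)
    (fun c φ hφ => by
      have h1 : ∫ x, c * φ x ∂(P₁ + P₂) = c * ∫ x, φ x ∂(P₁ + P₂) := integral_const_mul _ _
      have h2 : ∫ x, min (f x) (g x) * (Δ (fun x => c * φ x)) x =
          c * ∫ x, min (f x) (g x) * (Δ φ) x := by
        rw [← integral_const_mul]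
        refine integral_congr_ae (Eventually.of_forall fun x => ?_)
        simp only
        rw [lap_const_mul c hφ.smooth]; ring
      rw [h1, h2]; ring)
    (fun φ hφ hφ0 => by
      have := key φ hφ hφ0
      rw [hmm] at this
      linarith)
  refine ⟨P₁ + P₂, Q, hmin, hB, fun K hK hKΩ => hQ1 K hK hKΩ, fun φ hφ => ?_⟩
  rw [hQ2 φ hφ]; ring

/-- `inf'` of a family -/
theorem fam_hasLap (hn : 0 < n) (hΩ : IsOpen Ω) {ι : Type} [DecidableEq ι] {w : ι → E n → ℝ}
    (hw : ∀ i, ∃ P N, HasLap Ω (w i) P N) (s : Finset ι) (hs : s.Nonempty) :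
    ∃ P N, HasLap Ω (fun x => s.inf' hs (fun i => w i x)) P N := by
  induction hs using Finset.Nonempty.cons_induction with
  | singleton i => simpa using hw i
  | cons i s hi hs ih =>
    obtain ⟨P₁, N₁, h1⟩ := hw i
    obtain ⟨P₂, N₂, h2⟩ := ih
    obtain ⟨P, N, h⟩ := h1.exists_min hn hΩ h2
    refine ⟨P, N, ?_⟩
    have : (fun x => (Finset.cons i s hi).inf' (Finset.cons_nonempty hi) (fun i => w i x)) =
        fun x => min (w i x) (s.inf' hs (fun i => w i x)) := by
      funext x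
      exact Finset.inf'_cons hs (fun i => w i x)
    rw [this]
    exact h

/-- the inequality for finite families -/
theorem fam_le (hn : 0 < n) (hΩ : IsOpen Ω) {ι : Type} [DecidableEq ι] {w : ι → E n → ℝ}
    (hw : ∀ i, ∃ P N, HasLap Ω (w i) P N)
    {lp ln : Measure (E n)} (hlp : FinOn Ω lp) (hln : FinOn Ω ln)
    (h : ∀ i j, i ≠ j → ∀ φ, TestOn Ω φ → (∀ x, 0 ≤ φ x) →
      (∫ x, φ x ∂lp) - (∫ x, φ x ∂ln) ≤ ∫ x, min (w i x) (w j x) * (Δ φ) x)
    (k : ℕ) : ∀ (s : Finset ι) (hs : s.Nonempty), s.card = k + 2 →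
      ∀ φ, TestOn Ω φ → (∀ x, 0 ≤ φ x) →
      (∫ x, φ x ∂lp) - (∫ x, φ x ∂ln) ≤ ∫ x, s.inf' hs (fun i => w i x) * (Δ φ) x := by
  induction k with
  | zero =>
    intro s hs hcard φ hφ hφ0
    obtain ⟨i, j, hij, rfl⟩ := Finset.card_eq_two.1 hcard
    have : (fun x => ({i, j} : Finset ι).inf' hs (fun i => w i x) * (Δ φ) x) =
        fun x => min (w i x) (w j x) * (Δ φ) x := by
      funext x
      congr 1
      rw [Finset.inf'_insert (Finset.singleton_nonempty j)]
      simp
    rw [this]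
    exact h i j hij φ hφ hφ0
  | succ k ih =>
    intro s hs hcard φ hφ hφ0
    -- pick two elements
    obtain ⟨c, t, hct, rfl, ht⟩ := Finset.card_eq_succ.1 (show s.card = (k + 2) + 1 by omega)
    obtain ⟨b, r, hbr, rfl, hr⟩ := Finset.card_eq_succ.1 (show t.card = (k + 1) + 1 by omega)
    have hrne : r.Nonempty := Finset.card_pos.1 (by omega)
    have hcb : c ≠ b := by
      rintro rfl; exact hct (Finset.mem_insert_self _ _)
    have hcr : c ∉ r := fun h => hct (Finset.mem_insert_of_mem h)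
    have hbne : (insert b r).Nonempty := Finset.insert_nonempty _ _
    have hcne : (insert c r).Nonempty := Finset.insert_nonempty _ _
    obtain ⟨Pa, Na, La⟩ := fam_hasLap hn hΩ hw r hrne
    obtain ⟨Pb, Nb, Lb⟩ := hw b
    obtain ⟨Pc, Nc, Lc⟩ := hw c
    obtain ⟨P₀, N₀, L0⟩ := Lb.exists_min hn hΩ Lc
    obtain ⟨P₁, N₁, L1⟩ := La.exists_min hn hΩ Lc
    obtain ⟨P₂, N₂, L2⟩ := La.exists_min hn hΩ Lb
    obtain ⟨P₃, N₃, L3⟩ := L2.exists_min hn hΩ Lc
    have e1 : ∀ x, (insert c r).inf' hcne (fun i => w i x) =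
        min (r.inf' hrne (fun i => w i x)) (w c x) := by
      intro x
      rw [Finset.inf'_insert hrne, min_comm]
    have e2 : ∀ x, (insert b r).inf' hbne (fun i => w i x) =
        min (r.inf' hrne (fun i => w i x)) (w b x) := by
      intro x
      rw [Finset.inf'_insert hrne, min_comm]
    have e3 : ∀ x, (insert c (insert b r)).inf' hs (fun i => w i x) =
        min (min (r.inf' hrne (fun i => w i x)) (w b x)) (w c x) := by
      intro x
      rw [Finset.inf'_insert hbne, ← e2, min_comm]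
    have key := three hn hΩ L0 L1 L2 L3 hlp hln (h b c hcb.symm)
      (fun ψ hψ hψ0 => by
        have := ih (insert c r) hcne (by rw [Finset.card_insert_of_notMem hcr]; omega) ψ hψ hψ0
        simpa only [e1] using this)
      (fun ψ hψ hψ0 => by
        have := ih (insert b r) hbne (by rw [Finset.card_insert_of_notMem hbr]; omega) ψ hψ hψ0
        simpa only [e2] using this)
      φ hφ hφ0
    simpa only [e3] using key

end Pool.Agent.Helper486.TP
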