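import Pool.Agent.Helper486.TP.PDefs

/-! # Greatest lower bounds of signed Radon measures -/

set_option autoImplicit false

open MeasureTheory Set Filter Topology Metric
open scoped InnerProductSpace ContDiff Laplacian ENNReal

namespace Pool.Agent.Helper486.TP






theorem SignedRadon.fin_pos {n : ℕ} {Ω : Set (E n)} (a : SignedRadon Ω) {B K : Set (E n)}
    (hK : IsCompact K) (hBK : B ⊆ K) (hKΩ : K ⊆ Ω) : a.pos B ≠ ⊤ :=
  ne_top_of_le_ne_top (a.pos_lt_top K hK hKΩ).ne (measure_mono hBK)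

theorem SignedRadon.fin_neg {n : ℕ} {Ω : Set (E n)} (a : SignedRadon Ω) {B K : Set (E n)}
    (hK : IsCompact K) (hBK : B ⊆ K) (hKΩ : K ⊆ Ω) : a.neg B ≠ ⊤ :=
  ne_top_of_le_ne_top (a.neg_lt_top K hK hKΩ).ne (measure_mono hBK)

/-- Hahn set for two signed Radon measures. -/
theorem exists_hahn {n : ℕ} {Ω : Set (E n)} (hΩ : IsOpen Ω) (a b : SignedRadon Ω) :
    ∃ S : Set (E n), MeasurableSet S ∧
      (∀ B K : Set (E n), MeasurableSet B → IsCompact K → B ⊆ K → K ⊆ Ω → B ⊆ S → a.val B ≤ b.val B) ∧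
      (∀ B K : Set (E n), MeasurableSet B → IsCompact K → B ⊆ K → K ⊆ Ω → B ⊆ Sᶜ → b.val B ≤ a.val B) := by
  obtain ⟨F, hF1, hF2, hF3, hF4⟩ := hΩ.exists_iUnion_isClosed
  let P : Measure (E n) := (a.pos + b.neg).restrict Ω
  let N : Measure (E n) := (a.neg + b.pos).restrict Ω
  let ξ : Measure (E n) := P + N
  have hKc : ∀ i : ℕ, IsCompact (F i ∩ closedBall (0 : E n) i) := fun i =>
    (isCompact_closedBall (0 : E n) (i : ℝ)).inter_left (hF1 i)
  have hcov : ∀ x ∈ Ω, ∃ i : ℕ, x ∈ F i ∩ closedBall (0 : E n) i := by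
    intro x hx
    rw [← hF3] at hx
    obtain ⟨j, hj⟩ := mem_iUnion.1 hx
    obtain ⟨k, hk⟩ := exists_nat_ge ‖x‖
    refine ⟨max j k, hF4 (le_max_left j k) hj, ?_⟩
    rw [mem_closedBall_zero_iff]
    refine hk.trans ?_
    exact_mod_cast le_max_right j k
  have hξ : SigmaFinite ξ := by
    refine ⟨⟨{ set := fun i => (F i ∩ closedBall (0 : E n) i) ∪ Ωᶜ
               set_mem := fun _ => trivial
               finite := ?_
               spanning := ?_ }⟩⟩
    · intro i
      refine lt_of_le_of_lt (measure_union_le _ _) ?_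
      have h0 : ξ Ωᶜ = 0 := by
        show P Ωᶜ + N Ωᶜ = 0
        have h1 : P Ωᶜ = 0 := by
          rw [Measure.restrict_apply hΩ.measurableSet.compl, compl_inter_self]
          exact measure_empty
        have h2 : N Ωᶜ = 0 := by
          rw [Measure.restrict_apply hΩ.measurableSet.compl, compl_inter_self]
          exact measure_empty
        rw [h1, h2, add_zero]
      rw [h0, add_zero]
      have hsub : F i ∩ closedBall (0 : E n) i ⊆ Ω := inter_subset_left.trans (hF2 i)
      have h1 : ξ (F i ∩ closedBall (0 : E n) i) ≤ (a.pos (F i ∩ closedBall (0 : E n) i) +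
          b.neg (F i ∩ closedBall (0 : E n) i)) + (a.neg (F i ∩ closedBall (0 : E n) i) +
          b.pos (F i ∩ closedBall (0 : E n) i)) :=
        add_le_add (Measure.restrict_apply_le _ _) (Measure.restrict_apply_le _ _)
      refine lt_of_le_of_lt h1 ?_
      exact ENNReal.add_lt_top.2 ⟨ENNReal.add_lt_top.2 ⟨a.pos_lt_top _ (hKc i) hsub, b.neg_lt_top _ (hKc i) hsub⟩,
        ENNReal.add_lt_top.2 ⟨a.neg_lt_top _ (hKc i) hsub, b.pos_lt_top _ (hKc i) hsub⟩⟩
    · apply eq_univ_of_forall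
      intro x
      by_cases hx : x ∈ Ω
      · obtain ⟨i, hi⟩ := hcov x hx
        exact mem_iUnion.2 ⟨i, Or.inl hi⟩
      · exact mem_iUnion.2 ⟨0, Or.inr hx⟩
  have hPle : P ≤ ξ := Measure.le_add_right le_rfl
  have hNle : N ≤ ξ := Measure.le_add_left le_rfl
  have hPs : SigmaFinite P := Measure.sigmaFinite_of_le ξ hPle
  have hNs : SigmaFinite N := Measure.sigmaFinite_of_le ξ hNle
  have hP : ξ.withDensity (P.rnDeriv ξ) = P :=
    Measure.withDensity_rnDeriv_eq P ξ (Measure.absolutelyContinuous_of_le hPle)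
  have hN : ξ.withDensity (N.rnDeriv ξ) = N :=
    Measure.withDensity_rnDeriv_eq N ξ (Measure.absolutelyContinuous_of_le hNle)
  have hval : ∀ B K : Set (E n), MeasurableSet B → IsCompact K → B ⊆ K → K ⊆ Ω →
      (P B ≤ N B → a.val B ≤ b.val B) ∧ (N B ≤ P B → b.val B ≤ a.val B) := by
    intro B K hB hK hBK hKΩ
    have hBΩ : B ⊆ Ω := hBK.trans hKΩ
    have e1 : P B = a.pos B + b.neg B := by
      show (a.pos + b.neg).restrict Ω B = _
      rw [Measure.restrict_apply hB, inter_eq_left.2 hBΩ]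
      rfl
    have e2 : N B = a.neg B + b.pos B := by
      show (a.neg + b.pos).restrict Ω B = _
      rw [Measure.restrict_apply hB, inter_eq_left.2 hBΩ]
      rfl
    have f1 := a.fin_pos hK hBK hKΩ
    have f2 := a.fin_neg hK hBK hKΩ
    have f3 := b.fin_pos hK hBK hKΩ
    have f4 := b.fin_neg hK hBK hKΩ
    rw [e1, e2]
    unfold SignedRadon.val
    constructor
    · intro h
      have := ENNReal.toReal_mono (ENNReal.add_ne_top.2 ⟨f2, f3⟩) h
      rw [ENNReal.toReal_add f1 f4, ENNReal.toReal_add f2 f3] at this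
      linarith
    · intro h
      have := ENNReal.toReal_mono (ENNReal.add_ne_top.2 ⟨f1, f4⟩) h
      rw [ENNReal.toReal_add f1 f4, ENNReal.toReal_add f2 f3] at this
      linarith
  refine ⟨{x | P.rnDeriv ξ x < N.rnDeriv ξ x},
    measurableSet_lt (Measure.measurable_rnDeriv _ _) (Measure.measurable_rnDeriv _ _), ?_, ?_⟩
  · intro B K hB hK hBK hKΩ hS
    refine (hval B K hB hK hBK hKΩ).1 ?_
    rw [← hP, ← hN, withDensity_apply _ hB, withDensity_apply _ hB]
    exact setLIntegral_mono' hB (fun x hx => (hS hx).le)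
  · intro B K hB hK hBK hKΩ hS
    refine (hval B K hB hK hBK hKΩ).2 ?_
    rw [← hP, ← hN, withDensity_apply _ hB, withDensity_apply _ hB]
    exact setLIntegral_mono' hB (fun x hx => not_lt.1 (hS hx))

theorem exists_glb_pair {n : ℕ} {Ω : Set (E n)} (hΩ : IsOpen Ω) (a b : SignedRadon Ω) :
    ∃ I : SignedRadon Ω, IsGLB {a, b} I := by
  obtain ⟨S, hS, h1, h2⟩ := exists_hahn hΩ a b
  let I : SignedRadon Ω :=
    { pos := a.pos.restrict S + b.pos.restrict Sᶜ
      neg := a.neg.restrict S + b.neg.restrict Sᶜ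
      pos_lt_top := fun K hK hKΩ => lt_of_le_of_lt
        (add_le_add (Measure.restrict_apply_le _ _) (Measure.restrict_apply_le _ _))
        (ENNReal.add_lt_top.2 ⟨a.pos_lt_top K hK hKΩ, b.pos_lt_top K hK hKΩ⟩)
      neg_lt_top := fun K hK hKΩ => lt_of_le_of_lt
        (add_le_add (Measure.restrict_apply_le _ _) (Measure.restrict_apply_le _ _))
        (ENNReal.add_lt_top.2 ⟨a.neg_lt_top K hK hKΩ, b.neg_lt_top K hK hKΩ⟩) }
  have hsplit : ∀ (c : SignedRadon Ω) (B K : Set (E n)), MeasurableSet B → IsCompact K → B ⊆ K → K ⊆ Ω →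
      c.val B = c.val (B ∩ S) + c.val (B ∩ Sᶜ) := by
    intro c B K hB hK hBK hKΩ
    have e1 : c.pos B = c.pos (B ∩ S) + c.pos (B ∩ Sᶜ) := (measure_inter_add_sdiff B hS).symm
    have e2 : c.neg B = c.neg (B ∩ S) + c.neg (B ∩ Sᶜ) := (measure_inter_add_sdiff B hS).symm
    have s1 : B ∩ S ⊆ K := inter_subset_left.trans hBK
    have s2 : B ∩ Sᶜ ⊆ K := inter_subset_left.trans hBK
    unfold SignedRadon.val
    rw [e1, e2, ENNReal.toReal_add (c.fin_pos hK s1 hKΩ) (c.fin_pos hK s2 hKΩ),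
      ENNReal.toReal_add (c.fin_neg hK s1 hKΩ) (c.fin_neg hK s2 hKΩ)]
    ring
  have hI : ∀ (B K : Set (E n)), MeasurableSet B → IsCompact K → B ⊆ K → K ⊆ Ω →
      I.val B = a.val (B ∩ S) + b.val (B ∩ Sᶜ) := by
    intro B K hB hK hBK hKΩ
    have s1 : B ∩ S ⊆ K := inter_subset_left.trans hBK
    have s2 : B ∩ Sᶜ ⊆ K := inter_subset_left.trans hBK
    have e1 : I.pos B = a.pos (B ∩ S) + b.pos (B ∩ Sᶜ) := by
      show (a.pos.restrict S + b.pos.restrict Sᶜ) B = _
      rw [Measure.add_apply, Measure.restrict_apply hB, Measure.restrict_apply hB]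
    have e2 : I.neg B = a.neg (B ∩ S) + b.neg (B ∩ Sᶜ) := by
      show (a.neg.restrict S + b.neg.restrict Sᶜ) B = _
      rw [Measure.add_apply, Measure.restrict_apply hB, Measure.restrict_apply hB]
    unfold SignedRadon.val
    rw [e1, e2, ENNReal.toReal_add (a.fin_pos hK s1 hKΩ) (b.fin_pos hK s2 hKΩ),
      ENNReal.toReal_add (a.fin_neg hK s1 hKΩ) (b.fin_neg hK s2 hKΩ)]
    ring
  refine ⟨I, ?_, ?_⟩
  · rintro c (rfl | rfl)
    · intro B K hB hK hBK hKΩ
      rw [hI B K hB hK hBK hKΩ, hsplit c B K hB hK hBK hKΩ]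
      have := h2 (B ∩ Sᶜ) K (hB.inter hS.compl) hK (inter_subset_left.trans hBK) hKΩ inter_subset_right
      linarith
    · intro B K hB hK hBK hKΩ
      rw [hI B K hB hK hBK hKΩ, hsplit _ B K hB hK hBK hKΩ]
      have := h1 (B ∩ S) K (hB.inter hS) hK (inter_subset_left.trans hBK) hKΩ inter_subset_right
      linarith
  · intro c hc B K hB hK hBK hKΩ
    rw [hI B K hB hK hBK hKΩ, hsplit c B K hB hK hBK hKΩ]
    have c1 : c ≤ a := hc (mem_insert _ _)
    have c2 : c ≤ b := hc (mem_insert_of_mem _ rfl)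
    exact add_le_add (c1 _ K (hB.inter hS) hK (inter_subset_left.trans hBK) hKΩ)
      (c2 _ K (hB.inter hS.compl) hK (inter_subset_left.trans hBK) hKΩ)

theorem exists_glb_finite {n : ℕ} {Ω : Set (E n)} (hΩ : IsOpen Ω) (T : Set (SignedRadon Ω))
    (hT : T.Finite) (hne : T.Nonempty) : ∃ I : SignedRadon Ω, IsGLB T I := by
  induction T, hT using Set.Finite.induction_on with
  | empty => exact absurd hne (by simp)
  | insert _ _ ih =>
    rename_i a s _ _
    rcases s.eq_empty_or_nonempty with h | h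
    · subst h
      refine ⟨a, ?_⟩
      have : insert a (∅ : Set (SignedRadon Ω)) = {a} := by simp
      rw [this]
      exact isGLB_singleton
    · obtain ⟨J, hJ⟩ := ih h
      obtain ⟨I, hI⟩ := exists_glb_pair hΩ a J
      refine ⟨I, ?_, ?_⟩
      · rintro c (rfl | hc)
        · exact hI.1 (mem_insert _ _)
        · exact (hI.1 (mem_insert_of_mem _ rfl)).trans (hJ.1 hc)
      · intro c hc
        apply hI.2
        rintro d (rfl | hd)
        · exact hc (mem_insert _ _)
        · rw [mem_singleton_iff] at hd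
          rw [hd]
          exact hJ.2 (fun x hx => hc (mem_insert_of_mem _ hx))

/-- **Target G.** Finite nonempty families of signed Radon measures have a greatest lower bound. -/
theorem exists_glb {n : ℕ} {Ω : Set (E n)} (hΩ : IsOpen Ω) {ι : Type} [Finite ι] [Nonempty ι]
    (μ : ι → SignedRadon Ω) : ∃ I : SignedRadon Ω, IsGLB (Set.range μ) I := by
  exact exists_glb_finite hΩ _ (Set.finite_range μ) (Set.range_nonempty μ)

end Pool.Agent.Helper486.TP
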