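import Pool.Agent.Helper486.TP.PDefs

/-! # Subharmonic functions are locally integrable -/

set_option autoImplicit false

open MeasureTheory Set Filter Topology Metric
open scoped InnerProductSpace ContDiff Laplacian ENNReal

namespace Pool.Agent.Helper486.TP






theorem sr_aem {n : ℕ} {Ω : Set (E n)} (hΩ : IsOpen Ω) {u : E n → EReal}
    (husc : UpperSemicontinuousOn u Ω) :
    AEMeasurable u ((volume : Measure (E n)).restrict Ω) := by
  classical
  let v : E n → EReal := Ω.piecewise u (fun _ => ⊥)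
  have hv : Measurable v := by
    refine measurable_of_Iio fun a => ?_
    obtain ⟨U, hU, hUe⟩ := upperSemicontinuousOn_iff_preimage_Iio.1 husc a
    have e : v ⁻¹' Iio a = (Ω ∩ U) ∪ (((fun _ : E n => (⊥ : EReal)) ⁻¹' Iio a) \ Ω) := by
      rw [← hUe, Set.piecewise_preimage, Set.ite, inter_comm]
    rw [e]
    exact ((hΩ.inter hU).measurableSet).union ((measurable_const measurableSet_Iio).diff
      hΩ.measurableSet)
  refine hv.aemeasurable.congr ?_
  refine (ae_restrict_iff' hΩ.measurableSet).2 (ae_of_all _ fun x hx => ?_)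
  exact Set.piecewise_eq_of_mem _ _ _ hx

theorem sr_pos {n : ℕ} {Ω : Set (E n)} {u : E n → EReal} (hu : Subharmonic Ω u) {x : E n}
    {r : ℝ} (hr : 0 < r) (hb : closedBall x r ⊆ Ω) :
    ∫⁻ y in ball x r, (u y).toENNReal < ⊤ := by
  obtain ⟨a, ha, hmax⟩ := (hu.usc.mono hb).exists_isMaxOn (nonempty_closedBall.2 hr.le)
    (isCompact_closedBall x r)
  have h1 : ∫⁻ y in ball x r, (u y).toENNReal ≤ ∫⁻ _y in ball x r, (u a).toENNReal := by
    refine setLIntegral_mono' measurableSet_ball fun y hy => ?_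
    exact EReal.toENNReal_le_toENNReal (hmax (ball_subset_closedBall hy))
  refine h1.trans_lt ?_
  rw [setLIntegral_const]
  exact ENNReal.mul_lt_top (lt_top_iff_ne_top.2 (EReal.toENNReal_ne_top_iff.2
    (hu.lt_top a (hb ha)).ne)) measure_ball_lt_top

theorem sr_neg {n : ℕ} {Ω : Set (E n)} {u : E n → EReal} (hu : Subharmonic Ω u) {x : E n}
    {r : ℝ} (hr : 0 < r) (hb : closedBall x r ⊆ Ω) (hx : u x ≠ ⊥) :
    ∫⁻ y in ball x r, (-u y).toENNReal < ⊤ := by
  by_contra h
  rw [not_lt, top_le_iff] at h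
  have h1 := hu.submean x r hr hb
  rw [h, EReal.coe_ennreal_top, EReal.sub_top, le_bot_iff, EReal.mul_eq_bot] at h1
  rcases h1 with h1 | h1 | h1 | h1
  · exact EReal.coe_ennreal_ne_bot _ h1.1
  · exact hx h1.2
  · exact (measure_ball_lt_top (x := x) (r := r) (μ := (volume : Measure (E n)))).ne
      (EReal.coe_ennreal_eq_top_iff.1 h1.1)
  · exact absurd h1.1 (not_lt.2 (EReal.coe_ennreal_nonneg _))

theorem sr_pt (a : EReal) : ‖a.toReal‖ₑ ≤ a.toENNReal + (-a).toENNReal := by
  induction a with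
  | bot => simp
  | top => simp
  | coe a =>
    rw [EReal.toReal_coe, ← EReal.coe_neg, EReal.real_coe_toENNReal, EReal.real_coe_toENNReal,
      Real.enorm_eq_ofReal_abs]
    rcases le_total 0 a with h | h
    · rw [abs_of_nonneg h]; exact le_self_add
    · rw [abs_of_nonpos h]; exact le_add_self

theorem sr_int {n : ℕ} {Ω : Set (E n)} (hΩ : IsOpen Ω) {u : E n → EReal}
    (hu : Subharmonic Ω u) {x : E n} {r : ℝ} (hb : ball x r ⊆ Ω)
    (hP : ∫⁻ y in ball x r, (u y).toENNReal < ⊤) (hN : ∫⁻ y in ball x r, (-u y).toENNReal < ⊤) :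
    (∀ᵐ y ∂((volume : Measure (E n)).restrict (ball x r)), u y ≠ ⊥) ∧
    IntegrableOn (fun y => (u y).toReal) (ball x r) ∧
    ∫ y in ball x r, (u y).toReal = (∫⁻ y in ball x r, (u y).toENNReal).toReal -
      (∫⁻ y in ball x r, (-u y).toENNReal).toReal := by
  have hm : AEMeasurable u ((volume : Measure (E n)).restrict (ball x r)) :=
    (sr_aem hΩ hu.usc).mono_measure (Measure.restrict_mono hb le_rfl)
  have hmn : AEMeasurable (fun y => -u y) ((volume : Measure (E n)).restrict (ball x r)) :=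
    (continuous_neg.measurable).comp_aemeasurable hm
  have h1 : ∀ᵐ y ∂((volume : Measure (E n)).restrict (ball x r)), u y ≠ ⊥ := by
    filter_upwards [ae_lt_top' hmn.ereal_toENNReal hN.ne] with y hy hy2
    rw [hy2] at hy
    simp at hy
  have htop : ∀ᵐ y ∂((volume : Measure (E n)).restrict (ball x r)), u y ≠ ⊤ := by
    refine (ae_restrict_iff' measurableSet_ball).2 (ae_of_all _ fun y hy => ?_)
    exact (hu.lt_top y (hb hy)).ne
  have h2 : IntegrableOn (fun y => (u y).toReal) (ball x r) := by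
    refine ⟨hm.ereal_toReal.aestronglyMeasurable, ?_⟩
    have h3 : ∫⁻ y in ball x r, ‖(u y).toReal‖ₑ ≤
        ∫⁻ y in ball x r, ((u y).toENNReal + (-u y).toENNReal) :=
      lintegral_mono fun y => sr_pt (u y)
    rw [lintegral_add_left' hm.ereal_toENNReal] at h3
    exact h3.trans_lt (ENNReal.add_lt_top.2 ⟨hP, hN⟩)
  refine ⟨h1, h2, ?_⟩
  rw [integral_eq_lintegral_pos_part_sub_lintegral_neg_part h2]
  congr 2
  · refine lintegral_congr_ae ?_
    filter_upwards [htop] with y hy
    rw [EReal.toENNReal_of_ne_top hy]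
  · refine lintegral_congr_ae ?_
    filter_upwards [h1] with y hy
    have h5 : -u y ≠ ⊤ := by
      intro h; exact hy (by simpa using h)
    have h6 : (-u y).toReal = -(u y).toReal := by
      induction u y with
      | bot => simp
      | top => simp
      | coe a => rw [← EReal.coe_neg, EReal.toReal_coe, EReal.toReal_coe]
    rw [EReal.toENNReal_of_ne_top h5, h6]

/-- **Target S1.** A subharmonic function on a connected open set is finite almost everywhere,
locally integrable, and its real part satisfies the sub-mean value property almost everywhere. -/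
theorem subh_real {n : ℕ} (hn : 0 < n) {Ω : Set (E n)} (hΩ : IsOpen Ω) (hc : IsPreconnected Ω)
    {u : E n → EReal} (hu : Subharmonic Ω u) :
    (∀ᵐ x ∂(volume : Measure (E n)), x ∈ Ω → u x ≠ ⊥) ∧
    LocallyIntegrableOn (fun x => (u x).toReal) Ω ∧
    ∀ r : ℝ, 0 < r → ∀ᵐ x ∂(volume : Measure (E n)), closedBall x r ⊆ Ω →
      (volume (ball x r)).toReal * (u x).toReal ≤ ∫ y in ball x r, (u y).toReal := by
  have hcb : ∀ x ∈ Ω, ∃ r : ℝ, 0 < r ∧ closedBall x r ⊆ Ω := by
    intro x hx
    exact nhds_basis_closedBall.mem_iff.1 (hΩ.mem_nhds hx)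
  -- the good set
  let A : Set (E n) := {x | ∃ r : ℝ, 0 < r ∧ closedBall x r ⊆ Ω ∧
    ∫⁻ y in ball x r, (-u y).toENNReal < ⊤}
  have hAsub : ∀ x r, 0 < r → closedBall x r ⊆ Ω →
      ∫⁻ y in ball x r, (-u y).toENNReal < ⊤ → ball x r ⊆ A := by
    intro x r hr hb hN y hy
    have hy' : dist y x < r := hy
    refine ⟨(r - dist y x) / 2, by linarith, ?_, ?_⟩
    · refine subset_trans ?_ hb
      exact closedBall_subset_closedBall' (by linarith)
    · refine lt_of_le_of_lt (lintegral_mono_set ?_) hN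
      exact ball_subset_ball' (by linarith)
  have hAopen : IsOpen A := by
    rw [isOpen_iff_mem_nhds]
    rintro x ⟨r, hr, hb, hN⟩
    exact mem_of_superset (ball_mem_nhds x hr) (hAsub x r hr hb hN)
  have hBopen : IsOpen (Ω \ A) := by
    rw [isOpen_iff_mem_nhds]
    rintro x ⟨hx, hxA⟩
    obtain ⟨R, hR, hRb⟩ := hcb x hx
    have hbot : ∀ y ∈ ball x (R / 2), u y = ⊥ := by
      intro y hy
      by_contra hne
      have hy' : dist y x < R / 2 := hy
      have hb2 : closedBall y (R / 2) ⊆ Ω :=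
        subset_trans (closedBall_subset_closedBall' (by linarith)) hRb
      have h1 := sr_neg hu (by linarith : 0 < R / 2) hb2 hne
      refine hxA (hAsub y (R / 2) (by linarith) hb2 h1 ?_)
      rw [mem_ball, dist_comm]
      exact hy'
    refine mem_of_superset (ball_mem_nhds x (by linarith : 0 < R / 2)) ?_
    intro y hy
    refine ⟨hRb (ball_subset_closedBall (ball_subset_ball (by linarith) hy)), ?_⟩
    rintro ⟨s, hs, hsb, hN⟩
    have hopen : IsOpen (ball y s ∩ ball x (R / 2)) := isOpen_ball.inter isOpen_ball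
    have hpos : 0 < (volume : Measure (E n)) (ball y s ∩ ball x (R / 2)) :=
      hopen.measure_pos _ ⟨y, mem_ball_self hs, hy⟩
    have h2 : ∫⁻ z in ball y s ∩ ball x (R / 2), (-u z).toENNReal ≤
        ∫⁻ z in ball y s, (-u z).toENNReal := lintegral_mono_set inter_subset_left
    have h3 : ∫⁻ z in ball y s ∩ ball x (R / 2), (-u z).toENNReal =
        ∫⁻ _z in ball y s ∩ ball x (R / 2), ⊤ := by
      refine setLIntegral_congr_fun hopen.measurableSet fun z hz => ?_
      simp only [hbot z hz.2, EReal.neg_bot, EReal.toENNReal_top]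
    rw [h3, setLIntegral_const, ENNReal.top_mul hpos.ne'] at h2
    exact absurd hN (not_lt.2 h2)
  have hΩA : Ω ⊆ A := by
    intro x hx
    by_contra hxA
    obtain ⟨x0, hx0, hx0b⟩ := hu.ne_bot
    obtain ⟨r0, hr0, hb0⟩ := hcb x0 hx0
    have hx0A : x0 ∈ A := ⟨r0, hr0, hb0, sr_neg hu hr0 hb0 hx0b⟩
    obtain ⟨z, hz1, hz2, hz3⟩ := hc A (Ω \ A) hAopen hBopen (fun y hy => by
      by_cases h : y ∈ A
      · exact Or.inl h
      · exact Or.inr ⟨hy, h⟩) ⟨x0, hx0, hx0A⟩ ⟨x, hx, hx, hxA⟩
    exact hz3.2 hz2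
  have hae : ∀ᵐ x ∂(volume : Measure (E n)), x ∈ Ω → u x ≠ ⊥ := by
    rw [ae_iff]
    refine measure_null_of_locally_null _ fun x hx => ?_
    have hxΩ : x ∈ Ω := by
      by_contra h
      exact hx fun h' => absurd h' h
    obtain ⟨r, hr, hb, hN⟩ := hΩA hxΩ
    have h1 := (sr_int hΩ hu (subset_trans ball_subset_closedBall hb) (sr_pos hu hr hb) hN).1
    refine ⟨{z | ¬ (u z ≠ ⊥)} ∩ ball x r, ?_, ?_⟩
    · refine mem_of_superset (inter_mem_nhdsWithin _ (ball_mem_nhds x hr)) ?_
      rintro z ⟨hz, hz2⟩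
      refine ⟨?_, hz2⟩
      intro hne
      exact hz fun _ => hne
    · rw [ae_iff] at h1
      rwa [Measure.restrict_apply₀'] at h1
      exact measurableSet_ball.nullMeasurableSet
  refine ⟨hae, ?_, ?_⟩
  · intro x hx
    obtain ⟨r, hr, hb, hN⟩ := hΩA hx
    have h1 := (sr_int hΩ hu (subset_trans ball_subset_closedBall hb) (sr_pos hu hr hb) hN).2.1
    exact ⟨ball x r, mem_nhdsWithin_of_mem_nhds (ball_mem_nhds x hr), h1⟩
  · intro r hr
    filter_upwards [hae] with x hx hb
    have hxΩ : x ∈ Ω := hb (mem_closedBall_self hr.le)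
    have hne := hx hxΩ
    have hN := sr_neg hu hr hb hne
    have hP := sr_pos hu hr hb
    have h1 := (sr_int hΩ hu (subset_trans ball_subset_closedBall hb) hP hN).2.2
    rw [h1]
    have h2 := hu.submean x r hr hb
    have hv : (volume : Measure (E n)) (ball x r) ≠ ⊤ := measure_ball_lt_top.ne
    rw [← EReal.coe_ennreal_toReal hv, ← EReal.coe_ennreal_toReal hP.ne,
      ← EReal.coe_ennreal_toReal hN.ne] at h2
    have h3 : ((u x).toReal : EReal) = u x := EReal.coe_toReal (hu.lt_top x hxΩ).ne hne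
    rw [← h3, ← EReal.coe_mul, ← EReal.coe_sub] at h2
    exact EReal.coe_le_coe_iff.1 h2

end Pool.Agent.Helper486.TP
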