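import Pool.Agent.Helper486.TP.Basic

/-! # The sub-mean value property implies a nonnegative distributional Laplacian -/

set_option autoImplicit false

open MeasureTheory Set Filter Topology Metric
open scoped InnerProductSpace ContDiff Laplacian ENNReal

namespace Pool.Agent.Helper486.TP




lemma j14665_taylor {n : ℕ} {φ : E n → ℝ} (hφ : ContDiff ℝ ∞ φ) {x z : E n} {ε : ℝ} (hε : 0 ≤ ε)
    {r : ℝ} (hz : ‖z‖ < r)
    (hB : ∀ y ∈ ball x r, ‖fderiv ℝ (fderiv ℝ φ) y - fderiv ℝ (fderiv ℝ φ) x‖ ≤ ε) :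
    |φ (x + z) - φ x - fderiv ℝ φ x z - (1 / 2) * fderiv ℝ (fderiv ℝ φ) x z z| ≤ ε * ‖z‖ ^ 2 := by
  have hD : ContDiff ℝ ∞ (fderiv ℝ φ) := hφ.fderiv_right (by simp)
  have h1 : ∀ w ∈ ball x r, ‖fderiv ℝ φ w - fderiv ℝ φ x - fderiv ℝ (fderiv ℝ φ) x (w - x)‖ ≤
      ε * ‖w - x‖ := by
    intro w hw
    exact Convex.norm_image_sub_le_of_norm_fderiv_le' (s := ball x r) (𝕜 := ℝ)
      (fun y _ => (hD.differentiable (by simp)) y) hB (convex_ball x r)
      (mem_ball_self (lt_of_le_of_lt (norm_nonneg _) hz)) hw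
  have h2 : ∀ t ∈ Icc (0 : ℝ) 1, HasDerivWithinAt
      (fun t : ℝ => φ (x + t • z) - t * fderiv ℝ φ x z - (t ^ 2 / 2) * fderiv ℝ (fderiv ℝ φ) x z z)
      (fderiv ℝ φ (x + t • z) z - fderiv ℝ φ x z - t * fderiv ℝ (fderiv ℝ φ) x z z) (Icc 0 1) t := by
    intro t _
    have a1 : HasDerivAt (fun t : ℝ => x + t • z) z t := by
      simpa using ((hasDerivAt_id t).smul_const z).const_add x
    have a2 : HasDerivAt (fun t : ℝ => φ (x + t • z)) (fderiv ℝ φ (x + t • z) z) t :=
      ((hφ.differentiable (by simp)) (x + t • z)).hasFDerivAt.comp_hasDerivAt t a1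
    have a3 : HasDerivAt (fun t : ℝ => t * fderiv ℝ φ x z) (fderiv ℝ φ x z) t := by
      simpa using (hasDerivAt_id t).mul_const (fderiv ℝ φ x z)
    have a4 : HasDerivAt (fun t : ℝ => (t ^ 2 / 2) * fderiv ℝ (fderiv ℝ φ) x z z)
        (t * fderiv ℝ (fderiv ℝ φ) x z z) t := by
      have := ((hasDerivAt_pow 2 t).div_const 2).mul_const (fderiv ℝ (fderiv ℝ φ) x z z)
      refine this.congr_deriv ?_
      norm_num
    exact ((a2.sub a3).sub a4).hasDerivWithinAt
  have h3 : ∀ t ∈ Ico (0 : ℝ) 1,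
      ‖fderiv ℝ φ (x + t • z) z - fderiv ℝ φ x z - t * fderiv ℝ (fderiv ℝ φ) x z z‖ ≤ ε * ‖z‖ ^ 2 := by
    intro t ht
    have b1 : x + t • z ∈ ball x r := by
      rw [mem_ball, dist_eq_norm, add_sub_cancel_left, norm_smul, Real.norm_eq_abs, abs_of_nonneg ht.1]
      calc t * ‖z‖ ≤ 1 * ‖z‖ := mul_le_mul_of_nonneg_right ht.2.le (norm_nonneg _)
        _ < r := by rw [one_mul]; exact hz
    have b2 := h1 _ b1
    rw [add_sub_cancel_left] at b2
    have b3 : fderiv ℝ φ (x + t • z) z - fderiv ℝ φ x z - t * fderiv ℝ (fderiv ℝ φ) x z z =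
        (fderiv ℝ φ (x + t • z) - fderiv ℝ φ x - fderiv ℝ (fderiv ℝ φ) x (t • z)) z := by
      rw [map_smul]
      simp
    rw [b3]
    calc ‖(fderiv ℝ φ (x + t • z) - fderiv ℝ φ x - fderiv ℝ (fderiv ℝ φ) x (t • z)) z‖
        ≤ ‖fderiv ℝ φ (x + t • z) - fderiv ℝ φ x - fderiv ℝ (fderiv ℝ φ) x (t • z)‖ * ‖z‖ :=
          ContinuousLinearMap.le_opNorm _ _
      _ ≤ (ε * ‖t • z‖) * ‖z‖ := mul_le_mul_of_nonneg_right b2 (norm_nonneg _)
      _ ≤ (ε * ‖z‖) * ‖z‖ := by
          apply mul_le_mul_of_nonneg_right _ (norm_nonneg _)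
          apply mul_le_mul_of_nonneg_left _ hε
          rw [norm_smul, Real.norm_eq_abs, abs_of_nonneg ht.1]
          calc t * ‖z‖ ≤ 1 * ‖z‖ := mul_le_mul_of_nonneg_right ht.2.le (norm_nonneg _)
            _ = ‖z‖ := one_mul _
      _ = ε * ‖z‖ ^ 2 := by ring
  have h4 := norm_image_sub_le_of_norm_deriv_le_segment_01' h2 h3
  rw [Real.norm_eq_abs] at h4
  refine le_of_eq_of_le ?_ h4
  congr 1
  simp only [one_smul, zero_smul, add_zero]
  ring

lemma j14665_iso {n : ℕ} (R : E n ≃ₗᵢ[ℝ] E n) (r : ℝ) (F : E n → ℝ) :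
    ∫ z in ball (0 : E n) r, F (R z) = ∫ z in ball (0 : E n) r, F z := by
  have h1 : R ⁻¹' (ball (0 : E n) r) = ball (0 : E n) r := by
    ext z
    simp
  have h2 := R.measurePreserving.setIntegral_preimage_emb
    (R.toHomeomorph.measurableEmbedding) F (ball (0 : E n) r)
  rw [h1] at h2
  exact h2

lemma j14665_lin {n : ℕ} (L : E n →L[ℝ] ℝ) (r : ℝ) : ∫ z in ball (0 : E n) r, L z = 0 := by
  have h1 := j14665_iso (LinearIsometryEquiv.neg ℝ) r (fun z => L z)
  simp only [LinearIsometryEquiv.coe_neg, map_neg] at h1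
  rw [integral_neg] at h1
  linarith

lemma j14665_off {n : ℕ} {i j : Fin n} (hij : i ≠ j) (r : ℝ) :
    ∫ z in ball (0 : E n) r, z i * z j = 0 := by
  classical
  have h1 := j14665_iso (LinearIsometryEquiv.piLpCongrRight 2
    (fun k : Fin n => if k = i then LinearIsometryEquiv.neg ℝ else LinearIsometryEquiv.refl ℝ ℝ)) r
    (fun z : E n => z i * z j)
  have h2 : ∀ z : E n, (LinearIsometryEquiv.piLpCongrRight 2
    (fun k : Fin n => if k = i then LinearIsometryEquiv.neg ℝ else LinearIsometryEquiv.refl ℝ ℝ)) z i *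
    (LinearIsometryEquiv.piLpCongrRight 2
    (fun k : Fin n => if k = i then LinearIsometryEquiv.neg ℝ else LinearIsometryEquiv.refl ℝ ℝ)) z j =
      - (z i * z j) := by
    intro z
    simp [LinearIsometryEquiv.piLpCongrRight_apply, hij.symm]
  simp only [h2] at h1
  rw [integral_neg] at h1
  linarith

lemma j14665_eq {n : ℕ} (i j : Fin n) (r : ℝ) :
    ∫ z in ball (0 : E n) r, z i ^ 2 = ∫ z in ball (0 : E n) r, z j ^ 2 := by
  classical
  have h1 := j14665_iso (LinearIsometryEquiv.piLpCongrLeft 2 ℝ ℝ (Equiv.swap i j)) r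
    (fun z : E n => z j ^ 2)
  rw [← h1]
  congr 1
  funext z
  simp [LinearIsometryEquiv.piLpCongrLeft_apply]

lemma j14665_int {n : ℕ} {F : E n → ℝ} (hF : Continuous F) (x : E n) (r : ℝ) :
    IntegrableOn F (ball x r) :=
  (hF.continuousOn.integrableOn_compact (isCompact_closedBall x r)).mono_set ball_subset_closedBall

lemma j14665_quad {n : ℕ} (B : E n →L[ℝ] E n →L[ℝ] ℝ) (i0 : Fin n) (r : ℝ) :
    ∫ z in ball (0 : E n) r, B z z = (∫ z in ball (0 : E n) r, z i0 ^ 2) *
      ∑ i, B (EuclideanSpace.basisFun (Fin n) ℝ i) (EuclideanSpace.basisFun (Fin n) ℝ i) := by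
  classical
  have h1 : ∀ z : E n, B z z = ∑ i, ∑ j, (z i * z j) *
      B (EuclideanSpace.basisFun (Fin n) ℝ i) (EuclideanSpace.basisFun (Fin n) ℝ j) := by
    intro z
    have hz : z = ∑ i, z i • (EuclideanSpace.basisFun (Fin n) ℝ i) := by
      have := (EuclideanSpace.basisFun (Fin n) ℝ).sum_repr z
      simpa using this.symm
    have key : ∀ (a : Fin n → ℝ) (e : Fin n → E n), B (∑ i, a i • e i) (∑ j, a j • e j) =
        ∑ i, ∑ j, (a i * a j) * B (e i) (e j) := by
      intro a e
      rw [map_sum B, _root_.sum_apply]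
      refine Finset.sum_congr rfl fun i _ => ?_
      rw [map_sum]
      refine Finset.sum_congr rfl fun j _ => ?_
      rw [map_smul, map_smul, ContinuousLinearMap.smul_apply, smul_eq_mul, smul_eq_mul]
      ring
    have h3 := key (fun i => z i) (fun i => EuclideanSpace.basisFun (Fin n) ℝ i)
    rw [← hz] at h3
    exact h3
  have hc : ∀ i j : Fin n, Continuous fun z : E n => (z i * z j) *
      B (EuclideanSpace.basisFun (Fin n) ℝ i) (EuclideanSpace.basisFun (Fin n) ℝ j) := by
    intro i j; fun_prop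
  rw [show (∫ z in ball (0 : E n) r, B z z) = ∫ z in ball (0 : E n) r, ∑ i, ∑ j, (z i * z j) *
      B (EuclideanSpace.basisFun (Fin n) ℝ i) (EuclideanSpace.basisFun (Fin n) ℝ j) from by
    congr 1; funext z; exact h1 z]
  rw [integral_finsetSum _ fun i _ => (j14665_int (continuous_finsetSum _ fun j _ => hc i j) 0 r)]
  rw [Finset.mul_sum]
  refine Finset.sum_congr rfl fun i _ => ?_
  rw [integral_finsetSum _ fun j _ => (j14665_int (hc i j) 0 r)]
  rw [Finset.sum_eq_single i]
  · rw [integral_mul_const]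
    congr 1
    rw [j14665_eq i0 i]
    congr 1
    funext z; ring
  · intro j _ hj
    rw [integral_mul_const, j14665_off hj.symm, zero_mul]
  · intro h; exact absurd (Finset.mem_univ i) h

lemma j14665_norm {n : ℕ} (i0 : Fin n) (r : ℝ) :
    ∫ z in ball (0 : E n) r, ‖z‖ ^ 2 = n * ∫ z in ball (0 : E n) r, z i0 ^ 2 := by
  have h1 : ∀ z : E n, ‖z‖ ^ 2 = ∑ i, z i ^ 2 := by
    intro z
    rw [EuclideanSpace.real_norm_sq_eq]
  simp only [h1]
  rw [integral_finsetSum _ fun i _ => (j14665_int (by fun_prop) 0 r)]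
  rw [Finset.sum_congr rfl fun i _ => j14665_eq i i0 r]
  simp

lemma j14665_pos {n : ℕ} (i0 : Fin n) {r : ℝ} (hr : 0 < r) :
    0 < ∫ z in ball (0 : E n) r, z i0 ^ 2 := by
  have hc : Continuous fun z : E n => z i0 ^ 2 := by fun_prop
  rw [setIntegral_pos_iff_support_of_nonneg_ae (Eventually.of_forall fun z => sq_nonneg _)
    (j14665_int hc 0 r)]
  have ho : IsOpen (Function.support (fun z : E n => z i0 ^ 2) ∩ ball 0 r) :=
    hc.isOpen_support.inter isOpen_ball
  refine ho.measure_pos volume ?_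
  refine ⟨(r / 2) • EuclideanSpace.basisFun (Fin n) ℝ i0, ?_, ?_⟩
  · simp [hr.ne']
  · rw [mem_ball_zero_iff, norm_smul, (EuclideanSpace.basisFun (Fin n) ℝ).norm_eq_one, mul_one,
      Real.norm_eq_abs, abs_of_pos (by linarith)]
    linarith


lemma j14665_trans {n : ℕ} (φ : E n → ℝ) (y : E n) (r : ℝ) :
    ∫ z in ball (0 : E n) r, φ (y + z) = ∫ x in ball y r, φ x := by
  have h1 : (fun z => y + z) ⁻¹' (ball y r) = ball (0 : E n) r := by
    ext z
    simp [mem_ball, dist_eq_norm]
  have h2 := (measurePreserving_add_left (volume : Measure (E n)) y).setIntegral_preimage_emb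
    (Homeomorph.addLeft y).measurableEmbedding φ (ball y r)
  rw [h1] at h2
  exact h2

/-- **Target S2.** A locally integrable function with the sub-mean value property (for almost every
centre, for each radius) has nonnegative distributional Laplacian. -/
theorem submean_weak {n : ℕ} (hn : 0 < n) {Ω : Set (E n)} (hΩ : IsOpen Ω) {f : E n → ℝ}
    (hf : LocallyIntegrableOn f Ω)
    (hm : ∀ r : ℝ, 0 < r → ∀ᵐ x ∂(volume : Measure (E n)), closedBall x r ⊆ Ω →
      (volume (ball x r)).toReal * f x ≤ ∫ y in ball x r, f y) :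
    ∀ φ, TestOn Ω φ → (∀ x, 0 ≤ φ x) → 0 ≤ ∫ x, f x * (Δ φ) x := by
  classical
  intro φ hφ hφ0
  set i0 : Fin n := ⟨0, hn⟩ with hi0
  have hK : IsCompact (tsupport φ) := hφ.cpt
  obtain ⟨δ, hδ, hδΩ⟩ := hK.exists_cthickening_subset_open hΩ hφ.sub
  set K1 := cthickening δ (tsupport φ) with hK1d
  have hK1 : IsCompact K1 := hK.cthickening
  have hfK : IntegrableOn f K1 := hf.integrableOn_compact_subset hδΩ hK1
  set g := K1.indicator f with hgd
  have hg : Integrable g := (integrable_indicator_iff hK1.measurableSet).2 hfK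
  have hKK : tsupport φ ⊆ K1 := self_subset_cthickening _
  have hcont : Continuous φ := hφ.smooth.continuous
  have hD1 : ContDiff ℝ ∞ (fderiv ℝ φ) := hφ.smooth.fderiv_right (by simp)
  have hD2 : ContDiff ℝ ∞ (fderiv ℝ (fderiv ℝ φ)) := hD1.fderiv_right (by simp)
  have hsupp2 : HasCompactSupport (fderiv ℝ (fderiv ℝ φ)) := (hφ.cpt.fderiv ℝ).fderiv ℝ
  -- Laplacian
  have hΔ : ∀ x, (Δ φ) x = ∑ i, fderiv ℝ (fderiv ℝ φ) x (EuclideanSpace.basisFun (Fin n) ℝ i)
      (EuclideanSpace.basisFun (Fin n) ℝ i) := by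
    intro x
    rw [InnerProductSpace.laplacian_eq_iteratedFDeriv_orthonormalBasis φ
      (EuclideanSpace.basisFun (Fin n) ℝ)]
    simp only [iteratedFDeriv_two_apply]
    rfl
  have hΔc : Continuous (Δ φ) := by
    have h1 : (Δ φ) = fun x => ∑ i, fderiv ℝ (fderiv ℝ φ) x (EuclideanSpace.basisFun (Fin n) ℝ i)
      (EuclideanSpace.basisFun (Fin n) ℝ i) := funext hΔ
    rw [h1]
    exact continuous_finsetSum _ fun i _ =>
      (hD2.continuous.clm_apply continuous_const).clm_apply continuous_const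
  have hΔ0 : ∀ x, x ∉ tsupport φ → (Δ φ) x = 0 := by
    intro x hx
    have h1 : fderiv ℝ φ x = 0 := fderiv_of_notMem_tsupport (𝕜 := ℝ) hx
    have h2 : fderiv ℝ (fderiv ℝ φ) x = 0 := by
      apply fderiv_of_notMem_tsupport (𝕜 := ℝ)
      exact fun h => hx (tsupport_fderiv_subset ℝ h)
    rw [hΔ, h2]
    simp
  have hΔs : HasCompactSupport (Δ φ) := by
    refine HasCompactSupport.intro hK ?_
    exact hΔ0
  have hfg : ∫ x, f x * (Δ φ) x = ∫ x, g x * (Δ φ) x := by
    congr 1
    funext x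
    by_cases hx : x ∈ tsupport φ
    · rw [hgd, indicator_of_mem (hKK hx)]
    · rw [hΔ0 x hx, mul_zero, mul_zero]
  rw [hfg]
  obtain ⟨Cφ, hCφ⟩ := hφ.cpt.exists_bound_of_continuous hcont
  obtain ⟨CΔ, hCΔ⟩ := hΔs.exists_bound_of_continuous hΔc
  have hgΔ : Integrable fun x => g x * (Δ φ) x :=
    hg.mul_bdd hΔc.aestronglyMeasurable (Eventually.of_forall hCΔ)
  have hgφ : Integrable fun x => g x * φ x :=
    hg.mul_bdd hcont.aestronglyMeasurable (Eventually.of_forall hCφ)
  have hφi : Integrable φ := hcont.integrable_of_hasCompactSupport hφ.cpt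
  -- main inequality
  have hmain : ∀ r, 0 < r → r ≤ δ →
      Integrable (fun y => g y * ∫ z in ball (0 : E n) r, (φ (y + z) - φ y)) ∧
      0 ≤ ∫ y, g y * ∫ z in ball (0 : E n) r, (φ (y + z) - φ y) := by
    intro r hr hrδ
    set V : ℝ := (volume (ball (0 : E n) r)).toReal with hV
    set S : Set (E n × E n) := {p | dist p.2 p.1 < r} with hS
    have hSm : MeasurableSet S := (isOpen_lt (by fun_prop) (by fun_prop)).measurableSet
    have hHH : Integrable (S.indicator fun p : E n × E n => φ p.1 * g p.2)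
        ((volume : Measure (E n)).prod (volume : Measure (E n))) :=
      (hφi.mul_prod hg).indicator hSm
    have e1 : ∀ x, ∫ y, S.indicator (fun p : E n × E n => φ p.1 * g p.2) (x, y) =
        φ x * ∫ y in ball x r, g y := by
      intro x
      rw [← integral_const_mul, ← integral_indicator measurableSet_ball]
      rfl
    have e2 : ∀ y, ∫ x, S.indicator (fun p : E n × E n => φ p.1 * g p.2) (x, y) =
        g y * ∫ x in ball y r, φ x := by
      intro y
      rw [← integral_const_mul, ← integral_indicator measurableSet_ball]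
      congr 1
      funext x
      by_cases hxy : dist y x < r
      · rw [indicator_of_mem (show (x, y) ∈ S from hxy),
          indicator_of_mem (show x ∈ ball y r from by rw [mem_ball, dist_comm]; exact hxy)]
        ring
      · rw [indicator_of_notMem (show (x, y) ∉ S from hxy),
          indicator_of_notMem (show x ∉ ball y r from by rw [mem_ball, dist_comm]; exact hxy)]
    have hI1 : Integrable fun x => φ x * ∫ y in ball x r, g y := by
      have := hHH.integral_prod_left
      simpa only [e1] using this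
    have hI2 : Integrable fun y => g y * ∫ x in ball y r, φ x := by
      have := hHH.integral_prod_right
      simpa only [e2] using this
    have hswap : ∫ x, φ x * ∫ y in ball x r, g y = ∫ y, g y * ∫ x in ball y r, φ x := by
      have := integral_integral_swap (μ := (volume : Measure (E n))) (ν := (volume : Measure (E n)))
        (f := fun x y => S.indicator (fun p : E n × E n => φ p.1 * g p.2) (x, y)) hHH
      simpa only [e1, e2] using this
    have hVx : ∀ x : E n, (volume (ball x r)).toReal = V := by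
      intro x
      rw [hV, Measure.addHaar_ball_center]
    have hle : ∫ x, V * (g x * φ x) ≤ ∫ x, φ x * ∫ y in ball x r, g y := by
      refine integral_mono_ae (hgφ.const_mul V) hI1 ?_
      filter_upwards [hm r hr] with x hx
      by_cases hxK : x ∈ tsupport φ
      · have hb1 : closedBall x r ⊆ K1 :=
          (closedBall_subset_cthickening hxK r).trans (cthickening_mono hrδ _)
        have hx1 := hx (hb1.trans hδΩ)
        rw [hVx] at hx1
        have hgx : g x = f x := indicator_of_mem (hKK hxK) f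
        have hgi : ∫ y in ball x r, g y = ∫ y in ball x r, f y := by
          refine setIntegral_congr_fun measurableSet_ball fun y hy => ?_
          exact indicator_of_mem (hb1 (ball_subset_closedBall hy)) f
        show V * (g x * φ x) ≤ φ x * ∫ y in ball x r, g y
        rw [hgi, hgx]
        calc V * (f x * φ x) = φ x * (V * f x) := by ring
          _ ≤ _ := mul_le_mul_of_nonneg_left hx1 (hφ0 x)
      · show V * (g x * φ x) ≤ φ x * ∫ y in ball x r, g y
        rw [image_eq_zero_of_notMem_tsupport hxK]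
        simp
    have e3 : ∀ y, g y * ∫ z in ball (0 : E n) r, (φ (y + z) - φ y) =
        g y * (∫ x in ball y r, φ x) - V * (g y * φ y) := by
      intro y
      have hc1 : Continuous fun z => φ (y + z) := by fun_prop
      rw [integral_sub (j14665_int hc1 0 r) (j14665_int continuous_const 0 r), j14665_trans,
        setIntegral_const]
      show g y * ((∫ x in ball y r, φ x) - V • φ y) = _
      rw [smul_eq_mul]; ring
    have hI3 : Integrable fun y => g y * (∫ x in ball y r, φ x) - V * (g y * φ y) :=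
      hI2.sub (hgφ.const_mul V)
    constructor
    · simpa only [e3] using hI3
    · simp only [e3]
      rw [integral_sub hI2 (hgφ.const_mul V), ← hswap]
      linarith
  -- approximation
  have happ : ∀ ε : ℝ, 0 < ε → ∃ r, 0 < r ∧ r ≤ δ ∧ ∀ y,
      |(∫ z in ball (0 : E n) r, (φ (y + z) - φ y)) -
        (∫ z in ball (0 : E n) r, z i0 ^ 2) / 2 * (Δ φ) y| ≤
      ε * (n * ∫ z in ball (0 : E n) r, z i0 ^ 2) := by
    intro ε hε
    have huc : UniformContinuous (fderiv ℝ (fderiv ℝ φ)) :=
      hsupp2.uniformContinuous_of_continuous hD2.continuous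
    obtain ⟨r0, hr0, hr1⟩ := (Metric.uniformContinuous_iff (α := E n)
      (β := E n →L[ℝ] E n →L[ℝ] ℝ)).1 huc ε hε
    refine ⟨min r0 δ, lt_min hr0 hδ, min_le_right _ _, fun y => ?_⟩
    set r := min r0 δ with hr
    have hB : ∀ w ∈ ball y r, ‖fderiv ℝ (fderiv ℝ φ) w - fderiv ℝ (fderiv ℝ φ) y‖ ≤ ε := by
      intro w hw
      have h := (hr1 (lt_of_lt_of_le hw (min_le_left _ _))).le
      exact (dist_eq_norm (E := E n →L[ℝ] E n →L[ℝ] ℝ) _ _).symm.trans_le h
    have hc1 : Continuous fun z : E n => φ (y + z) - φ y := by fun_prop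
    have hc2 : Continuous fun z : E n => fderiv ℝ φ y z := (fderiv ℝ φ y).continuous
    have hc3 : Continuous fun z : E n => (1 / 2) * fderiv ℝ (fderiv ℝ φ) y z z :=
      continuous_const.mul (((fderiv ℝ (fderiv ℝ φ) y).continuous).clm_apply continuous_id)
    have e4 : (∫ z in ball (0 : E n) r, (φ (y + z) - φ y)) -
        (∫ z in ball (0 : E n) r, z i0 ^ 2) / 2 * (Δ φ) y =
        ∫ z in ball (0 : E n) r, (φ (y + z) - φ y - fderiv ℝ φ y z -
          (1 / 2) * fderiv ℝ (fderiv ℝ φ) y z z) := by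
      have hc12 : Continuous fun z : E n => φ (y + z) - φ y - fderiv ℝ φ y z := hc1.sub hc2
      rw [integral_sub (j14665_int hc12 0 r) (j14665_int hc3 0 r),
        integral_sub (j14665_int hc1 0 r) (j14665_int hc2 0 r), j14665_lin, integral_const_mul,
        j14665_quad _ i0, hΔ]
      ring
    rw [e4, ← j14665_norm i0 r, ← integral_const_mul, ← Real.norm_eq_abs]
    refine norm_integral_le_of_norm_le (j14665_int (by fun_prop) 0 r) ?_
    filter_upwards [ae_restrict_mem measurableSet_ball] with z hz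
    rw [Real.norm_eq_abs]
    exact j14665_taylor hφ.smooth hε.le (mem_ball_zero_iff.1 hz) hB
  -- conclusion
  by_contra hneg
  push Not at hneg
  set A := ∫ x, g x * (Δ φ) x with hA
  set N := ∫ x, |g x| with hN
  have hN0 : 0 ≤ N := integral_nonneg fun x => abs_nonneg _
  have hn0 : (0 : ℝ) ≤ n := Nat.cast_nonneg n
  obtain ⟨r, hr, hrδ, hrε⟩ := happ (-A / (4 * (n * N + 1))) (by
    apply div_pos (by linarith); positivity)
  obtain ⟨hint, hge⟩ := hmain r hr hrδ
  set κ := ∫ z in ball (0 : E n) r, z i0 ^ 2 with hκ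
  have hκ0 : 0 < κ := j14665_pos i0 hr
  set ε := -A / (4 * (n * N + 1)) with hε
  have hε0 : 0 < ε := by apply div_pos (by linarith); positivity
  have hub : ∫ y, g y * ∫ z in ball (0 : E n) r, (φ (y + z) - φ y) ≤
      ∫ y, ((κ / 2) * (g y * (Δ φ) y) + (ε * (n * κ)) * |g y|) := by
    refine integral_mono hint ((hgΔ.const_mul _).add (hg.abs.const_mul _)) fun y => ?_
    have h1 := hrε y
    show g y * ∫ z in ball (0 : E n) r, (φ (y + z) - φ y) ≤
      (κ / 2) * (g y * (Δ φ) y) + (ε * (n * κ)) * |g y|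
    have h2 : g y * (∫ z in ball (0 : E n) r, (φ (y + z) - φ y)) - (κ / 2) * (g y * (Δ φ) y) =
      g y * ((∫ z in ball (0 : E n) r, (φ (y + z) - φ y)) - κ / 2 * (Δ φ) y) := by ring
    have h3 : g y * ((∫ z in ball (0 : E n) r, (φ (y + z) - φ y)) - κ / 2 * (Δ φ) y) ≤
      |g y| * (ε * (n * κ)) := by
      refine (le_abs_self _).trans ?_
      rw [abs_mul]
      exact mul_le_mul_of_nonneg_left h1 (abs_nonneg _)
    linarith
  rw [integral_add (hgΔ.const_mul _) (hg.abs.const_mul _), integral_const_mul, integral_const_mul]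
    at hub
  have h5 : 0 ≤ κ / 2 * A + ε * (n * κ) * N := hge.trans hub
  have h6 : 0 ≤ A / 2 + ε * n * N := by
    have : κ * (A / 2 + ε * n * N) = κ / 2 * A + ε * (n * κ) * N := by ring
    rw [← this] at h5
    exact nonneg_of_mul_nonneg_right h5 hκ0
  have h7 : ε * (n * N) ≤ -A / 4 := by
    have h8 : ε * (n * N) ≤ ε * (n * N + 1) := mul_le_mul_of_nonneg_left (by linarith) hε0.le
    have h9 : ε * (n * N + 1) = -A / 4 := by
      rw [hε]
      have : (n * N + 1 : ℝ) ≠ 0 := by positivity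
      field_simp
    linarith
  nlinarith

end Pool.Agent.Helper486.TP
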