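import Pool.Agent.Helper486.TP.Fam
import Pool.Agent.Helper486.TP.SubhReal
import Pool.Agent.Helper486.TP.SubmeanWeak
import Pool.Agent.Helper486.TP.Glb

/-! # The inequality for the Riesz measure of the lower envelope -/

set_option autoImplicit false

open MeasureTheory Set Filter Topology Metric
open scoped InnerProductSpace ContDiff Laplacian ENNReal

namespace Pool.Agent.Helper486.TP

variable {n : ℕ} {U V Ω : Set (E n)} {φ ψ : E n → ℝ}

/-- subharmonic functions have a Riesz measure -/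
theorem Subharmonic.exists_lap (hn : 0 < n) (hΩ : IsOpen Ω) (hc : IsPreconnected Ω)
    {u : E n → EReal} (hu : Subharmonic Ω u) :
    ∃ Q, HasLap Ω (fun x => (u x).toReal) Q 0 := by
  obtain ⟨-, h2, h3⟩ := subh_real hn hΩ hc hu
  have h4 := submean_weak hn hΩ h2 h3
  obtain ⟨Q, hQ1, -, hQ2⟩ := positive_distribution Ω hΩ
    (fun φ => ∫ x, (u x).toReal * (Δ φ) x)
    (fun φ ψ hφ hψ => by
      rw [← integral_add (hφ.integrable_lap_loc h2) (hψ.integrable_lap_loc h2)]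
      refine integral_congr_ae (Eventually.of_forall fun x => ?_)
      simp only
      rw [lap_add hφ.smooth hψ.smooth]; ring)
    (fun c φ hφ => by
      rw [← integral_const_mul]
      refine integral_congr_ae (Eventually.of_forall fun x => ?_)
      simp only
      rw [lap_const_mul c hφ.smooth]; ring)
    (fun φ hφ hφ0 => h4 φ hφ hφ0)
  refine ⟨Q, h2, hQ1, finOn_zero, fun φ hφ => ?_⟩
  rw [hQ2 φ hφ, integral_zero_measure, sub_zero]

theorem Polar.null (hn : 0 < n) {Z : Set (E n)} (hZ : Polar Z) : volume Z = 0 := by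
  refine measure_null_of_locally_null Z fun x hx => ?_
  obtain ⟨r, hr, u, hu, hu0⟩ := hZ x hx
  refine ⟨Z ∩ ball x r, inter_mem_nhdsWithin _ (ball_mem_nhds x hr), ?_⟩
  obtain ⟨h1, -, -⟩ := subh_real hn isOpen_ball (convex_ball x r).isPreconnected hu
  refine measure_mono_null (fun y hy => ?_) h1
  exact fun h => h hy.2 (hu0 y hy)

theorem HasLap.sub' {f g : E n → ℝ} {P₁ N₁ P₂ N₂ : Measure (E n)} (hf : HasLap Ω f P₁ N₁)
    (hg : HasLap Ω g P₂ N₂) : HasLap Ω (fun x => f x - g x) (P₁ + N₂) (N₁ + P₂) where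
  int := hf.int.sub hg.int
  finP := hf.finP.add hg.finN
  finN := hf.finN.add hg.finP
  lap := fun φ hφ => by
    rw [integral_add_measure (hφ.integrable_fin hf.finP) (hφ.integrable_fin hg.finN),
      integral_add_measure (hφ.integrable_fin hf.finN) (hφ.integrable_fin hg.finP)]
    have h1 : ∫ x, (f x - g x) * (Δ φ) x =
      (∫ x, f x * (Δ φ) x) - ∫ x, g x * (Δ φ) x := by
      rw [← integral_sub (hφ.integrable_lap_loc hf.int) (hφ.integrable_lap_loc hg.int)]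
      exact integral_congr_ae (Eventually.of_forall fun x => by ring)
    rw [h1, hf.lap φ hφ, hg.lap φ hφ]; ring

theorem locInt_congr {f g : E n → ℝ} (hΩ : MeasurableSet Ω) (hf : LocallyIntegrableOn f Ω)
    (h : ∀ᵐ x ∂(volume : Measure (E n)), x ∈ Ω → f x = g x) : LocallyIntegrableOn g Ω := by
  intro x hx
  obtain ⟨s, hs, h1⟩ := hf x hx
  refine ⟨s ∩ Ω, inter_mem hs self_mem_nhdsWithin, ?_⟩
  have h2 : IntegrableOn f (s ∩ Ω) := h1.mono_set inter_subset_left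
  refine h2.congr_fun_ae ?_
  have h3 : ∀ᵐ x ∂(volume : Measure (E n)).restrict (s ∩ Ω), x ∈ Ω := by
    have h4 : ∀ᵐ x ∂(volume : Measure (E n)).restrict Ω, x ∈ Ω := ae_restrict_mem hΩ
    exact ae_mono (Measure.restrict_mono inter_subset_right le_rfl) h4
  filter_upwards [ae_restrict_of_ae h, h3] with y hy hy'
  exact hy hy'

theorem int_congr_on {f g : E n → ℝ}
    (h : ∀ᵐ x ∂(volume : Measure (E n)), x ∈ Ω → f x = g x) (hφ : TestOn Ω φ) :
    ∫ x, f x * (Δ φ) x = ∫ x, g x * (Δ φ) x := by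
  refine integral_congr_ae ?_
  filter_upwards [h] with x hx
  by_cases hxΩ : x ∈ Ω
  · rw [hx hxΩ]
  · rw [hφ.lap_eq_zero hxΩ]; simp

theorem HasLap.congr {f g : E n → ℝ} {P N : Measure (E n)} (hΩ : MeasurableSet Ω)
    (hf : HasLap Ω f P N)
    (h : ∀ᵐ x ∂(volume : Measure (E n)), x ∈ Ω → f x = g x) : HasLap Ω g P N where
  int := locInt_congr hΩ hf.int h
  finP := hf.finP
  finN := hf.finN
  lap := fun φ hφ => by rw [← int_congr_on h hφ]; exact hf.lap φ hφ

theorem HasLap.const_mul {f : E n → ℝ} {P N : Measure (E n)} (hf : HasLap Ω f P N) {c : ℝ}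
    (hc : 0 < c) : HasLap Ω (fun x => c * f x) (ENNReal.ofReal c • P) (ENNReal.ofReal c • N) where
  int := by
    intro x hx
    obtain ⟨s, hs, h1⟩ := hf.int x hx
    exact ⟨s, hs, h1.const_mul c⟩
  finP := fun K hK hKΩ => by
    rw [Measure.smul_apply, smul_eq_mul]
    exact ENNReal.mul_lt_top ENNReal.ofReal_lt_top (hf.finP K hK hKΩ)
  finN := fun K hK hKΩ => by
    rw [Measure.smul_apply, smul_eq_mul]
    exact ENNReal.mul_lt_top ENNReal.ofReal_lt_top (hf.finN K hK hKΩ)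
  lap := fun φ hφ => by
    rw [integral_smul_measure, integral_smul_measure, ENNReal.toReal_ofReal hc.le]
    have h1 : ∫ x, c * f x * (Δ φ) x = c * ∫ x, f x * (Δ φ) x := by
      rw [← integral_const_mul]
      exact integral_congr_ae (Eventually.of_forall fun x => by ring)
    rw [h1, hf.lap φ hφ, smul_eq_mul, smul_eq_mul]; ring

/-- δ-subharmonic functions are a.e. finite -/
theorem DeltaSubharmonic.finite (hn : 0 < n) (hΩ : IsOpen Ω) (hc : IsPreconnected Ω)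
    {w : E n → EReal} (hw : DeltaSubharmonic Ω w) :
    ∀ᵐ x ∂(volume : Measure (E n)), x ∈ Ω → w x ≠ ⊥ ∧ w x ≠ ⊤ := by
  obtain ⟨u, v, Z, hu, hv, hZ, h⟩ := hw
  have hZ0 := hZ.null hn
  filter_upwards [measure_eq_zero_iff_ae_notMem.1 hZ0] with x hx hxΩ
  obtain ⟨h1, h2, h3⟩ := h x ⟨hxΩ, hx⟩
  have h4 := (hu.lt_top x hxΩ).ne
  have h5 := (hv.lt_top x hxΩ).ne
  rw [h3]
  lift u x to ℝ using ⟨h4, h1⟩ with a
  lift v x to ℝ using ⟨h5, h2⟩ with b
  rw [← EReal.coe_sub]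
  exact ⟨EReal.coe_ne_bot _, EReal.coe_ne_top _⟩

/-- δ-subharmonic functions have a Riesz measure -/
theorem DeltaSubharmonic.exists_lap (hn : 0 < n) (hΩ : IsOpen Ω) (hc : IsPreconnected Ω)
    {w : E n → EReal} (hw : DeltaSubharmonic Ω w) :
    ∃ P N, HasLap Ω (fun x => (w x).toReal) P N := by
  obtain ⟨u, v, Z, hu, hv, hZ, h⟩ := hw
  have hZ0 := hZ.null hn
  obtain ⟨Q, hQ⟩ := hu.exists_lap hn hΩ hc
  obtain ⟨Q', hQ'⟩ := hv.exists_lap hn hΩ hc
  refine ⟨_, _, (hQ.sub' hQ').congr hΩ.measurableSet ?_⟩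
  filter_upwards [measure_eq_zero_iff_ae_notMem.1 hZ0] with x hx hxΩ
  obtain ⟨h1, h2, h3⟩ := h x ⟨hxΩ, hx⟩
  have h4 := (hu.lt_top x hxΩ).ne
  have h5 := (hv.lt_top x hxΩ).ne
  rw [h3]
  lift u x to ℝ using ⟨h4, h1⟩ with a
  lift v x to ℝ using ⟨h5, h2⟩ with b
  rw [← EReal.coe_sub, EReal.toReal_coe, EReal.toReal_coe, EReal.toReal_coe]

theorem toReal_min' {a b : EReal} (ha : a ≠ ⊥ ∧ a ≠ ⊤) (hb : b ≠ ⊥ ∧ b ≠ ⊤) :
    (min a b).toReal = min a.toReal b.toReal := by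
  lift a to ℝ using ⟨ha.2, ha.1⟩
  lift b to ℝ using ⟨hb.2, hb.1⟩
  rw [← EReal.coe_strictMono.monotone.map_min]
  simp

theorem toReal_inf' {ι : Type} (s : Finset ι) (hs : s.Nonempty) (a : ι → EReal)
    (ha : ∀ i, a i ≠ ⊥ ∧ a i ≠ ⊤) :
    (s.inf' hs a).toReal = s.inf' hs (fun i => (a i).toReal) := by
  have h1 : ∀ i, a i = (((a i).toReal : ℝ) : EReal) := fun i =>
    (EReal.coe_toReal (ha i).2 (ha i).1).symm
  have h2 : s.inf' hs a = ((s.inf' hs (fun i => (a i).toReal) : ℝ) : EReal) := by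
    rw [Finset.apply_inf'_eq_inf'_comp (s := s) hs (g := fun r : ℝ => (r : EReal))
      (fun x y => EReal.coe_strictMono.monotone.map_min)]
    exact Finset.inf'_congr hs rfl fun i _ => h1 i
  rw [h2]; simp

/-- from measures of sets to integrals of test functions, signed version -/
theorem SignedRadon.int_le {μ ν : SignedRadon Ω} (h : μ ≤ ν) (hφ : TestOn Ω φ)
    (hφ0 : ∀ x, 0 ≤ φ x) :
    (∫ x, φ x ∂μ.pos) - (∫ x, φ x ∂μ.neg) ≤ (∫ x, φ x ∂ν.pos) - ∫ x, φ x ∂ν.neg := by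
  have h1 := int_le_of_sets (α := μ.pos + ν.neg) (β := ν.pos + μ.neg)
    (FinOn.add μ.pos_lt_top ν.neg_lt_top) (FinOn.add ν.pos_lt_top μ.neg_lt_top)
    (fun B K hB hK hBK hKΩ => by
      have h2 := h B K hB hK hBK hKΩ
      simp only [SignedRadon.val] at h2
      have a1 : μ.pos B ≠ ⊤ := ne_top_of_le_ne_top (μ.pos_lt_top K hK hKΩ).ne (measure_mono hBK)
      have a2 : μ.neg B ≠ ⊤ := ne_top_of_le_ne_top (μ.neg_lt_top K hK hKΩ).ne (measure_mono hBK)
      have a3 : ν.pos B ≠ ⊤ := ne_top_of_le_ne_top (ν.pos_lt_top K hK hKΩ).ne (measure_mono hBK)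
      have a4 : ν.neg B ≠ ⊤ := ne_top_of_le_ne_top (ν.neg_lt_top K hK hKΩ).ne (measure_mono hBK)
      rw [Measure.add_apply, Measure.add_apply, ← ENNReal.toReal_le_toReal
        (ENNReal.add_ne_top.2 ⟨a1, a4⟩) (ENNReal.add_ne_top.2 ⟨a3, a2⟩),
        ENNReal.toReal_add a1 a4, ENNReal.toReal_add a3 a2]
      linarith) hφ hφ0
  rw [integral_add_measure (hφ.integrable_fin μ.pos_lt_top) (hφ.integrable_fin ν.neg_lt_top),
    integral_add_measure (hφ.integrable_fin ν.pos_lt_top) (hφ.integrable_fin μ.neg_lt_top)] at h1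
  linarith

/-- from integrals of test functions to measures of sets, signed version -/
theorem SignedRadon.le_of_int (hΩ : IsOpen Ω) {μ ν : SignedRadon Ω}
    (h : ∀ φ, TestOn Ω φ → (∀ x, 0 ≤ φ x) →
      (∫ x, φ x ∂μ.pos) - (∫ x, φ x ∂μ.neg) ≤ (∫ x, φ x ∂ν.pos) - ∫ x, φ x ∂ν.neg) :
    μ ≤ ν := by
  intro B K hB hK hBK hKΩ
  obtain ⟨L, hL, hKL, hLΩ⟩ := exists_compact_between hK hΩ hKΩ
  have hLm : MeasurableSet L := hL.measurableSet
  have hint : interior L ⊆ L := interior_subset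
  have hf1 : FinOn Ω (μ.pos + ν.neg) := FinOn.add μ.pos_lt_top ν.neg_lt_top
  have hf2 : FinOn Ω (ν.pos + μ.neg) := FinOn.add ν.pos_lt_top μ.neg_lt_top
  have := hf1.isFinite hL hLΩ
  have := hf2.isFinite hL hLΩ
  have key := le_of_test (U := interior L) (α := (μ.pos + ν.neg).restrict L)
    (β := (ν.pos + μ.neg).restrict L) isOpen_interior
    (fun φ hφ hφ0 => by
      rw [hφ.setInt hLm hint, hφ.setInt hLm hint]
      have hφΩ : TestOn Ω φ := hφ.mono (hint.trans hLΩ)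
      rw [integral_add_measure (hφΩ.integrable_fin μ.pos_lt_top)
        (hφΩ.integrable_fin ν.neg_lt_top), integral_add_measure
        (hφΩ.integrable_fin ν.pos_lt_top) (hφΩ.integrable_fin μ.neg_lt_top)]
      have := h φ hφΩ hφ0
      linarith) hB (hBK.trans hKL)
  have hBL : B ∩ L = B := inter_eq_left.2 ((hBK.trans hKL).trans hint)
  rw [Measure.restrict_apply hB, Measure.restrict_apply hB, hBL] at key
  have a1 : μ.pos B ≠ ⊤ := ne_top_of_le_ne_top (μ.pos_lt_top K hK hKΩ).ne (measure_mono hBK)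
  have a2 : μ.neg B ≠ ⊤ := ne_top_of_le_ne_top (μ.neg_lt_top K hK hKΩ).ne (measure_mono hBK)
  have a3 : ν.pos B ≠ ⊤ := ne_top_of_le_ne_top (ν.pos_lt_top K hK hKΩ).ne (measure_mono hBK)
  have a4 : ν.neg B ≠ ⊤ := ne_top_of_le_ne_top (ν.neg_lt_top K hK hKΩ).ne (measure_mono hBK)
  rw [Measure.add_apply, Measure.add_apply, ← ENNReal.toReal_le_toReal
    (ENNReal.add_ne_top.2 ⟨a1, a4⟩) (ENNReal.add_ne_top.2 ⟨a3, a2⟩),
    ENNReal.toReal_add a1 a4, ENNReal.toReal_add a3 a2] at key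
  simp only [SignedRadon.val]
  linarith

theorem HasLap.isRiesz {w : E n → EReal} {c : ℝ} (hc : 0 < c) {P N : Measure (E n)}
    (h : HasLap Ω (fun x => (w x).toReal) P N) :
    ∃ μ : SignedRadon Ω, IsRiesz c Ω w μ := by
  have h1 := h.const_mul hc
  refine ⟨⟨_, _, h1.finP, h1.finN⟩, h.int, fun φ hφ1 hφ2 hφ3 => ?_⟩
  have hφ : TestOn Ω φ := ⟨hφ1, hφ2, hφ3⟩
  rw [← h1.lap φ hφ, ← integral_const_mul]
  exact integral_congr_ae (Eventually.of_forall fun x => by ring)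

/-- **The Riesz measure of the lower envelope of δ-subharmonic functions.** -/
theorem riesz_envelope (hn : 0 < n) (hΩ : IsOpen Ω) (hΩc : IsPreconnected Ω) {m : ℕ}
    (hm : 2 ≤ m) (w : Fin m → E n → EReal) (hw : ∀ j, DeltaSubharmonic Ω (w j)) {c : ℝ}
    (hc : 0 < c) :
    (∃ μ, IsRiesz c Ω (fun x => ⨅ j, w j x) μ) ∧
    (∀ j k, ∃ ρ, IsRiesz c Ω (fun x => min (w j x) (w k x)) ρ) ∧
    ∀ (μ : SignedRadon Ω) (ρ : Fin m → Fin m → SignedRadon Ω),
      IsRiesz c Ω (fun x => ⨅ j, w j x) μ →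
      (∀ j k, j < k → IsRiesz c Ω (fun x => min (w j x) (w k x)) (ρ j k)) →
      (∃ I, IsGLB {κ | ∃ j k, j < k ∧ κ = ρ j k} I) ∧
      ∀ I, IsGLB {κ | ∃ j k, j < k ∧ κ = ρ j k} I → I ≤ μ := by
  have : Nonempty (Fin m) := ⟨⟨0, by omega⟩⟩
  have hne : (Finset.univ : Finset (Fin m)).Nonempty := Finset.univ_nonempty
  have hfin : ∀ᵐ x ∂(volume : Measure (E n)), ∀ j, x ∈ Ω → w j x ≠ ⊥ ∧ w j x ≠ ⊤ :=
    ae_all_iff.2 fun j => (hw j).finite hn hΩ hΩc
  have hlap : ∀ j, ∃ P N, HasLap Ω (fun x => (w j x).toReal) P N := fun j =>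
    (hw j).exists_lap hn hΩ hΩc
  have hlapc : ∀ j, ∃ P N, HasLap Ω (fun x => c * (w j x).toReal) P N := fun j => by
    obtain ⟨P, N, h⟩ := hlap j
    exact ⟨_, _, h.const_mul hc⟩
  -- the infimum
  have hinf : ∀ᵐ x ∂(volume : Measure (E n)), x ∈ Ω →
      Finset.univ.inf' hne (fun j => (w j x).toReal) = (⨅ j, w j x).toReal := by
    filter_upwards [hfin] with x hx hxΩ
    rw [← toReal_inf' _ _ _ (fun j => hx j hxΩ), Finset.inf'_univ_eq_ciInf]
  have hmin : ∀ j k, ∀ᵐ x ∂(volume : Measure (E n)), x ∈ Ω →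
      min (w j x).toReal (w k x).toReal = (min (w j x) (w k x)).toReal := by
    intro j k
    filter_upwards [hfin] with x hx hxΩ
    rw [toReal_min' (hx j hxΩ) (hx k hxΩ)]
  refine ⟨?_, ?_, ?_⟩
  · obtain ⟨P, N, h⟩ := fam_hasLap hn hΩ hlap Finset.univ hne
    exact (h.congr hΩ.measurableSet hinf).isRiesz hc
  · intro j k
    obtain ⟨P₁, N₁, h₁⟩ := hlap j
    obtain ⟨P₂, N₂, h₂⟩ := hlap k
    obtain ⟨P, N, h⟩ := h₁.exists_min hn hΩ h₂
    exact (h.congr hΩ.measurableSet (hmin j k)).isRiesz hc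
  · intro μ ρ hμ hρ
    constructor
    · let ι : Type := {p : Fin m × Fin m // p.1 < p.2}
      have : Nonempty ι := ⟨⟨(⟨0, by omega⟩, ⟨1, by omega⟩), by simp [Fin.lt_def]⟩⟩
      obtain ⟨I, hI⟩ := exists_glb hΩ (fun p : ι => ρ p.1.1 p.1.2)
      refine ⟨I, ?_⟩
      have hr : Set.range (fun p : ι => ρ p.1.1 p.1.2) = {κ | ∃ j k, j < k ∧ κ = ρ j k} := by
        ext κ
        constructor
        · rintro ⟨p, rfl⟩
          exact ⟨p.1.1, p.1.2, p.2, rfl⟩
        · rintro ⟨j, k, hjk, rfl⟩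
          exact ⟨⟨(j, k), hjk⟩, rfl⟩
      rwa [← hr]
    · intro I hI
      refine SignedRadon.le_of_int hΩ fun φ hφ hφ0 => ?_
      have hIl : ∀ j k, j < k → ∀ ψ, TestOn Ω ψ → (∀ x, 0 ≤ ψ x) →
          (∫ x, ψ x ∂I.pos) - (∫ x, ψ x ∂I.neg) ≤
            ∫ x, min (c * (w j x).toReal) (c * (w k x).toReal) * (Δ ψ) x := by
        intro j k hjk ψ hψ hψ0
        have h1 : I ≤ ρ j k := hI.1 ⟨j, k, hjk, rfl⟩
        refine (SignedRadon.int_le h1 hψ hψ0).trans (le_of_eq ?_)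
        rw [(hρ j k hjk).2 ψ hψ.smooth hψ.cpt hψ.sub, ← int_congr_on (hmin j k) hψ,
          ← integral_const_mul]
        refine integral_congr_ae (Eventually.of_forall fun x => ?_)
        simp only
        rw [← mul_min_of_nonneg _ _ hc.le]; ring
      have hIl' : ∀ j k, j ≠ k → ∀ ψ, TestOn Ω ψ → (∀ x, 0 ≤ ψ x) →
          (∫ x, ψ x ∂I.pos) - (∫ x, ψ x ∂I.neg) ≤
            ∫ x, min (c * (w j x).toReal) (c * (w k x).toReal) * (Δ ψ) x := by
        intro j k hjk ψ hψ hψ0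
        rcases lt_or_gt_of_ne hjk with h | h
        · exact hIl j k h ψ hψ hψ0
        · have := hIl k j h ψ hψ hψ0
          simpa only [min_comm (c * (w k _).toReal)] using this
      have key := fam_le hn hΩ hlapc I.pos_lt_top I.neg_lt_top hIl' (m - 2) Finset.univ hne
        (by rw [Finset.card_univ, Fintype.card_fin]; omega) φ hφ hφ0
      refine key.trans (le_of_eq ?_)
      rw [hμ.2 φ hφ.smooth hφ.cpt hφ.sub, ← int_congr_on hinf hφ, ← integral_const_mul]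
      refine integral_congr_ae (Eventually.of_forall fun x => ?_)
      simp only
      have hmm : Finset.univ.inf' hne (fun i => c * (w i x).toReal) =
          c * Finset.univ.inf' hne (fun i => (w i x).toReal) := by
        rw [Finset.apply_inf'_eq_inf'_comp (s := Finset.univ) hne (g := fun r : ℝ => c * r)
          (fun x y => mul_min_of_nonneg _ _ hc.le)]
        rfl
      rw [hmm]; ring

end Pool.Agent.Helper486.TP
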