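import Pool.Agent.Helper486.TP.BDefs
import Pool.Agent.Helper486.TP.Basic

/-! # The Newtonian kernel is a fundamental solution -/

set_option autoImplicit false

open MeasureTheory Set Filter Topology Metric
open scoped InnerProductSpace ContDiff Laplacian ENNReal

namespace Pool.Agent.Helper486.TP




theorem newton_toReal {n : ℕ} (hn : 3 ≤ n) (a y : E n) (h : y ≠ a) :
    (newton a y).toReal = ‖y - a‖ ^ (-((n : ℝ) - 2)) := by
  have hp : 0 < ‖y - a‖ := norm_pos_iff.2 (sub_ne_zero.2 h)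
  rw [newton, ENNReal.toReal_inv, ENNReal.toReal_pow, norm_sub_rev, ENNReal.toReal_ofReal hp.le,
    Real.rpow_neg hp.le]
  congr 1
  rw [← Real.rpow_natCast]
  congr 1
  push_cast [Nat.cast_sub (by omega : 2 ≤ n)]
  ring

theorem newton_zero_eq {n : ℕ} (hn : 3 ≤ n) (y : E n) (h : y ≠ 0) :
    newton 0 y = ENNReal.ofReal (‖y‖ ^ (-((n : ℝ) - 2))) := by
  have hp : 0 < ‖y‖ := norm_pos_iff.2 h
  have h1 : newton 0 y ≠ ⊤ := by
    rw [newton, Ne, ENNReal.inv_eq_top]
    apply pow_ne_zero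
    rw [Ne, ENNReal.ofReal_eq_zero, not_le]
    simpa using hp
  rw [← ENNReal.ofReal_toReal h1, newton_toReal hn 0 y h, sub_zero]

theorem newton_measurable {n : ℕ} (a : E n) : Measurable (fun y : E n => newton a y) := by
  unfold newton
  exact ((((measurable_const.sub measurable_id).norm).ennreal_ofReal).pow_const _).inv

theorem rpow_intOn {n : ℕ} (hn : 3 ≤ n) (r : ℝ) :
    IntegrableOn (fun y : E n => ‖y‖ ^ (-((n : ℝ) - 2))) (ball 0 r) := by
  have hd : Module.finrank ℝ (E n) = n := by simp [E]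
  refine integrableOn_ball_of_norm_le_rpow (μ := (volume : Measure (E n))) (C := 1)
    (α := (n : ℝ) - 2) (by rw [hd]; omega) (by rw [hd]; linarith) ?_ ?_
  · refine ae_of_all _ (fun x => ?_)
    rw [one_mul, Real.norm_of_nonneg (by positivity)]
  · exact ((measurable_norm).pow_const _).aestronglyMeasurable

/-- **Target N2a.** Uniform local integrability of the Newtonian kernel. -/
theorem newton_locInt {n : ℕ} (hn : 3 ≤ n) (K : Set (E n)) (hK : IsCompact K) :
    ∃ C : ℝ≥0∞, C ≠ ⊤ ∧ ∀ a : E n, ∫⁻ y in K, newton a y ≤ C := by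
  haveI : Nonempty (Fin n) := ⟨⟨0, by omega⟩⟩
  have hfin : ∫⁻ y in ball (0 : E n) 1, newton 0 y ≠ ⊤ := by
    have h1 := rpow_intOn hn (n := n) 1
    have h2 : ∫⁻ y in ball (0 : E n) 1, newton 0 y
        = ∫⁻ y in ball (0 : E n) 1, ENNReal.ofReal (‖y‖ ^ (-((n : ℝ) - 2))) := by
      apply lintegral_congr_ae
      apply ae_restrict_of_ae
      have h0 : ∀ᵐ y : E n, y ≠ 0 := by
        have : (volume : Measure (E n)) {0} = 0 := by simp
        rw [ae_iff]; simpa using this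
      filter_upwards [h0] with y hy
      exact newton_zero_eq hn y hy
    rw [h2]
    have h3 := h1.2
    rw [hasFiniteIntegral_iff_ofReal (ae_of_all _ (fun y => by positivity))] at h3
    exact h3.ne
  refine ⟨(∫⁻ y in ball (0 : E n) 1, newton 0 y) + volume K, ?_, fun a => ?_⟩
  · exact ENNReal.add_ne_top.2 ⟨hfin, hK.measure_lt_top.ne⟩
  · have h1 : ∫⁻ y in K, newton a y ≤ (∫⁻ y in ball a 1, newton a y) + ∫⁻ y in K \ ball a 1, newton a y := by
      refine le_trans (lintegral_mono_set (t := ball a 1 ∪ (K \ ball a 1)) ?_) (lintegral_union_le _ _ _)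
      intro y hy
      by_cases h : y ∈ ball a 1
      · exact Or.inl h
      · exact Or.inr ⟨hy, h⟩
    have h2 : ∫⁻ y in K \ ball a 1, newton a y ≤ volume K := by
      calc ∫⁻ y in K \ ball a 1, newton a y ≤ ∫⁻ y in K \ ball a 1, 1 := by
            apply setLIntegral_mono' (hK.measurableSet.diff measurableSet_ball)
            intro y hy
            have : 1 ≤ ‖a - y‖ := by
              have := hy.2
              rw [mem_ball, not_lt, dist_comm, dist_eq_norm] at this
              exact this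
            rw [newton, ENNReal.inv_le_one]
            apply one_le_pow₀
            rw [← ENNReal.ofReal_one]
            exact ENNReal.ofReal_le_ofReal this
        _ = volume (K \ ball a 1) := by rw [setLIntegral_one]
        _ ≤ volume K := measure_mono Set.sdiff_subset
    have h3 : ∫⁻ y in ball a 1, newton a y = ∫⁻ y in ball (0 : E n) 1, newton 0 y := by
      rw [← lintegral_indicator measurableSet_ball, ← lintegral_indicator measurableSet_ball,
        ← lintegral_add_left_eq_self _ a]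
      congr 1
      ext y
      by_cases h : y ∈ ball (0 : E n) 1
      · have h' : a + y ∈ ball a 1 := by simpa using h
        rw [indicator_of_mem h, indicator_of_mem h', newton, newton]
        congr 4
        abel_nf
      · have h' : a + y ∉ ball a 1 := by simpa using h
        rw [indicator_of_notMem h, indicator_of_notMem h']
    rw [h3] at h1
    exact h1.trans (add_le_add_right h2 _)

/-! ### N2b -/

noncomputable def fe {n : ℕ} (ε : ℝ) (a y : E n) : ℝ := (‖y - a‖ ^ 2 + ε ^ 2) ^ ((2 - (n : ℝ)) / 2)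

theorem fe_contDiff {n : ℕ} {ε : ℝ} (hε : 0 < ε) (a : E n) : ContDiff ℝ ∞ (fe ε a) := by
  unfold fe
  apply ContDiff.rpow_const_of_ne
  · exact ((contDiff_id.sub contDiff_const).norm_sq ℝ).add contDiff_const
  · intro x
    have : 0 < ‖x - a‖ ^ 2 + ε ^ 2 := by positivity
    exact this.ne'

theorem hasFDerivAt_g {n : ℕ} (ε s : ℝ) (hε : 0 < ε) (a y : E n) :
    HasFDerivAt (fun y : E n => (‖y - a‖ ^ 2 + ε ^ 2) ^ s)
      ((s * (‖y - a‖ ^ 2 + ε ^ 2) ^ (s - 1)) • (2 • (innerSL ℝ (y - a)))) y := by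
  have h1 : HasFDerivAt (fun y : E n => y - a) (ContinuousLinearMap.id ℝ (E n)) y :=
    (hasFDerivAt_id y).sub_const a
  have h2 : HasFDerivAt (fun y : E n => ‖y - a‖ ^ 2 + ε ^ 2) (2 • (innerSL ℝ (y - a))) y := by
    have := h1.norm_sq.add_const (ε ^ 2)
    simpa using this
  have hpos : 0 < ‖y - a‖ ^ 2 + ε ^ 2 := by positivity
  exact h2.rpow_const (Or.inl hpos.ne')

theorem fe_D {n : ℕ} {ε : ℝ} (hε : 0 < ε) (a y : E n) (i : Fin n) :
    fderiv ℝ (fe ε a) y (EuclideanSpace.basisFun (Fin n) ℝ i)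
      = (2 - (n : ℝ)) * ((y i - a i) * (‖y - a‖ ^ 2 + ε ^ 2) ^ (-(n : ℝ) / 2)) := by
  have h := (hasFDerivAt_g ε ((2 - (n : ℝ)) / 2) hε a y).fderiv
  change fderiv ℝ (fun y : E n => (‖y - a‖ ^ 2 + ε ^ 2) ^ ((2 - (n : ℝ)) / 2)) y _ = _
  rw [h]
  have h2 : (2 - (n : ℝ)) / 2 - 1 = -(n : ℝ) / 2 := by ring
  rw [h2]
  simp [real_inner_comm, EuclideanSpace.inner_single_left, EuclideanSpace.inner_single_right]
  ring

theorem fe_DD {n : ℕ} {ε : ℝ} (hε : 0 < ε) (a y : E n) (i : Fin n) :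
    fderiv ℝ (fun z => fderiv ℝ (fe ε a) z (EuclideanSpace.basisFun (Fin n) ℝ i)) y
        (EuclideanSpace.basisFun (Fin n) ℝ i)
      = (2 - (n : ℝ)) * ((‖y - a‖ ^ 2 + ε ^ 2) ^ (-(n : ℝ) / 2)
          - n * (y i - a i) ^ 2 * (‖y - a‖ ^ 2 + ε ^ 2) ^ (-(n : ℝ) / 2 - 1)) := by
  have h0 : (fun z => fderiv ℝ (fe ε a) z (EuclideanSpace.basisFun (Fin n) ℝ i))
      = fun z : E n => (2 - (n : ℝ)) * ((z i - a i) * (‖z - a‖ ^ 2 + ε ^ 2) ^ (-(n : ℝ) / 2)) := by
    ext z; exact fe_D hε a z i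
  rw [h0]
  have h1 := hasFDerivAt_g ε (-(n : ℝ) / 2) hε a y
  have h2 : HasFDerivAt (fun z : E n => z i - a i) (EuclideanSpace.proj i : E n →L[ℝ] ℝ) y := by
    exact (EuclideanSpace.proj i : E n →L[ℝ] ℝ).hasFDerivAt.sub_const (a i)
  have h3 := (h2.mul h1).const_mul (2 - (n : ℝ))
  have h4 := h3.fderiv
  have h5 : fderiv ℝ (fun z : E n => (2 - (n : ℝ)) * ((z i - a i) * (‖z - a‖ ^ 2 + ε ^ 2) ^ (-(n : ℝ) / 2))) y = _ := h4
  rw [h5]
  simp [EuclideanSpace.inner_single_right]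
  ring

theorem fe_lap {n : ℕ} {ε : ℝ} (hε : 0 < ε) (a y : E n) :
    ∑ i, fderiv ℝ (fun z => fderiv ℝ (fe ε a) z (EuclideanSpace.basisFun (Fin n) ℝ i)) y
        (EuclideanSpace.basisFun (Fin n) ℝ i)
      = -((n : ℝ) * (n - 2)) * (ε ^ 2 * (‖y - a‖ ^ 2 + ε ^ 2) ^ (-((n : ℝ) + 2) / 2)) := by
  simp_rw [fe_DD hε a y]
  rw [← Finset.mul_sum, Finset.sum_sub_distrib, ← Finset.sum_mul, ← Finset.mul_sum]
  have h1 : ∑ i, (y i - a i) ^ 2 = ‖y - a‖ ^ 2 := by
    rw [EuclideanSpace.norm_sq_eq]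
    apply Finset.sum_congr rfl
    intro i _
    simp
  rw [h1]
  have hpos : 0 < ‖y - a‖ ^ 2 + ε ^ 2 := by positivity
  have h2 : (‖y - a‖ ^ 2 + ε ^ 2) ^ (-(n : ℝ) / 2)
      = (‖y - a‖ ^ 2 + ε ^ 2) ^ (-(n : ℝ) / 2 - 1) * (‖y - a‖ ^ 2 + ε ^ 2) := by
    rw [← Real.rpow_add_one hpos.ne']
    congr 1; ring
  have h3 : -((n : ℝ) + 2) / 2 = -(n : ℝ) / 2 - 1 := by ring
  rw [h3]
  simp only [Finset.sum_const, Finset.card_univ, Fintype.card_fin, nsmul_eq_mul]
  rw [h2]
  ring

theorem nl_lap_eq {n : ℕ} {φ : E n → ℝ} (hφ : ContDiff ℝ ∞ φ) (y : E n) :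
    (Δ φ) y = ∑ i, fderiv ℝ (fun z => fderiv ℝ φ z (EuclideanSpace.basisFun (Fin n) ℝ i)) y
        (EuclideanSpace.basisFun (Fin n) ℝ i) := by
  rw [InnerProductSpace.laplacian_eq_iteratedFDeriv_orthonormalBasis φ
    (EuclideanSpace.basisFun (Fin n) ℝ)]
  apply Finset.sum_congr rfl
  intro i _
  rw [iteratedFDeriv_two_apply]
  have h1 : DifferentiableAt ℝ (fderiv ℝ φ) y :=
    ((hφ.fderiv_right (m := 1) (by norm_cast)).differentiable (by norm_num)) y
  have h2 : fderiv ℝ (fun z => fderiv ℝ φ z (EuclideanSpace.basisFun (Fin n) ℝ i)) y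
      = (ContinuousLinearMap.apply ℝ ℝ (EuclideanSpace.basisFun (Fin n) ℝ i)).comp
        (fderiv ℝ (fderiv ℝ φ) y) := by
    have := (ContinuousLinearMap.apply ℝ ℝ (EuclideanSpace.basisFun (Fin n) ℝ i)).hasFDerivAt.comp y
      h1.hasFDerivAt
    exact this.fderiv
  rw [h2]
  simp

theorem int_parts {n : ℕ} (f g : E n → ℝ) (hf : ContDiff ℝ 1 f) (hg : ContDiff ℝ 1 g)
    (hs : HasCompactSupport g) (v : E n) :
    ∫ x, f x * fderiv ℝ g x v = - ∫ x, fderiv ℝ f x v * g x := by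
  have hfc : Continuous (fun x => fderiv ℝ f x v) := (hf.continuous_fderiv (by norm_num)).clm_apply continuous_const
  have hgc : Continuous (fun x => fderiv ℝ g x v) := (hg.continuous_fderiv (by norm_num)).clm_apply continuous_const
  have hgs : HasCompactSupport (fun x => fderiv ℝ g x v) := hs.fderiv_apply (𝕜 := ℝ) v
  apply integral_mul_fderiv_eq_neg_fderiv_mul_of_integrable
  · exact (hfc.mul hg.continuous).integrable_of_hasCompactSupport hs.mul_left
  · exact (hf.continuous.mul hgc).integrable_of_hasCompactSupport hgs.mul_left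
  · exact (hf.continuous.mul hg.continuous).integrable_of_hasCompactSupport hs.mul_left
  · intro x _; exact hf.differentiable (by norm_num) x
  · intro x _; exact hg.differentiable (by norm_num) x

theorem green {n : ℕ} {ε : ℝ} (hε : 0 < ε) {φ : E n → ℝ} (hφ : ContDiff ℝ ∞ φ)
    (hs : HasCompactSupport φ) (a : E n) :
    ∫ y, fe ε a y * (Δ φ) y
      = ∫ y, -((n : ℝ) * (n - 2)) * (ε ^ 2 * (‖y - a‖ ^ 2 + ε ^ 2) ^ (-((n : ℝ) + 2) / 2)) * φ y := by
  have hD : ∀ {ψ : E n → ℝ}, ContDiff ℝ ∞ ψ → ∀ v : E n, ContDiff ℝ ∞ (fun z => fderiv ℝ ψ z v) := by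
    intro ψ h v
    exact (h.fderiv_right (m := ∞) (by norm_cast)).clm_apply contDiff_const
  have hfe := fe_contDiff hε a (n := n)
  simp_rw [← fe_lap hε a, nl_lap_eq hφ, Finset.mul_sum, Finset.sum_mul]
  rw [integral_finset_sum, integral_finset_sum]
  · apply Finset.sum_congr rfl
    intro i _
    set v := EuclideanSpace.basisFun (Fin n) ℝ i
    rw [int_parts (fe ε a) (fun z => fderiv ℝ φ z v) (hfe.of_le (by norm_cast)) ((hD hφ v).of_le (by norm_cast)) (hs.fderiv_apply (𝕜 := ℝ) v) v]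
    rw [int_parts (fun z => fderiv ℝ (fe ε a) z v) φ ((hD hfe v).of_le (by norm_cast)) (hφ.of_le (by norm_cast)) hs v]
    ring
  · intro i _
    refine Continuous.integrable_of_hasCompactSupport ?_ (hs.mul_left)
    exact (hD (hD hfe _) _).continuous.mul hφ.continuous
  · intro i _
    refine Continuous.integrable_of_hasCompactSupport ?_ (HasCompactSupport.mul_left ?_)
    · exact hfe.continuous.mul (hD (hD hφ _) _).continuous
    · exact (hs.fderiv_apply (𝕜 := ℝ) _).fderiv_apply (𝕜 := ℝ) _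

theorem kint {n : ℕ} : Integrable (fun w : E n => ((1 : ℝ) + ‖w‖ ^ 2) ^ (-((n : ℝ) + 2) / 2)) := by
  apply integrable_rpow_neg_one_add_norm_sq
  simp [E]

/-- substitution -/
theorem subst_eq {n : ℕ} {ε : ℝ} (hε : 0 < ε) (φ : E n → ℝ) (a : E n) :
    ∫ y, -((n : ℝ) * (n - 2)) * (ε ^ 2 * (‖y - a‖ ^ 2 + ε ^ 2) ^ (-((n : ℝ) + 2) / 2)) * φ y
      = -∫ w : E n, ((n : ℝ) * (n - 2)) * ((1 : ℝ) + ‖w‖ ^ 2) ^ (-((n : ℝ) + 2) / 2) * φ (a + ε • w) := by
  rw [← integral_add_left_eq_self _ a]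
  have h := Measure.integral_comp_smul_of_nonneg (volume : Measure (E n))
    (fun y => -((n : ℝ) * (n - 2)) * (ε ^ 2 * (‖a + y - a‖ ^ 2 + ε ^ 2) ^ (-((n : ℝ) + 2) / 2)) * φ (a + y)) ε (hR := hε.le)
  have hd : Module.finrank ℝ (E n) = n := by simp [E]
  rw [hd] at h
  have hεn : ε ^ n ≠ 0 := by positivity
  have h2 : ∫ y, -((n : ℝ) * (n - 2)) * (ε ^ 2 * (‖a + y - a‖ ^ 2 + ε ^ 2) ^ (-((n : ℝ) + 2) / 2)) * φ (a + y)
      = ε ^ n * ∫ x : E n, -((n : ℝ) * (n - 2)) * (ε ^ 2 * (‖a + ε • x - a‖ ^ 2 + ε ^ 2) ^ (-((n : ℝ) + 2) / 2)) * φ (a + ε • x) := by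
    rw [h, smul_eq_mul, mul_inv_cancel_left₀ hεn]
  rw [h2, ← integral_const_mul, ← integral_neg]
  congr 1
  ext w
  have h3 : ‖a + ε • w - a‖ ^ 2 + ε ^ 2 = ε ^ 2 * (1 + ‖w‖ ^ 2) := by
    rw [add_sub_cancel_left, norm_smul, Real.norm_of_nonneg hε.le]; ring
  have h4 : (ε ^ 2 * (1 + ‖w‖ ^ 2)) ^ (-((n : ℝ) + 2) / 2) = (ε ^ (n + 2))⁻¹ * (1 + ‖w‖ ^ 2) ^ (-((n : ℝ) + 2) / 2) := by
    rw [Real.mul_rpow (by positivity) (by positivity)]
    congr 1
    rw [← Real.rpow_natCast ε 2, ← Real.rpow_mul hε.le, ← Real.rpow_natCast ε (n + 2), ← Real.rpow_neg hε.le]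
    congr 1
    push_cast
    ring
  rw [h3, h4]
  field_simp
  ring

theorem fe_le {n : ℕ} (hn : 3 ≤ n) {ε : ℝ} (a y : E n) (h : y ≠ a) :
    fe ε a y ≤ (newton a y).toReal := by
  have hp : 0 < ‖y - a‖ := norm_pos_iff.2 (sub_ne_zero.2 h)
  have hn' : (3 : ℝ) ≤ n := by exact_mod_cast hn
  rw [newton_toReal hn a y h, fe]
  have h1 : ‖y - a‖ ^ (-((n : ℝ) - 2)) = (‖y - a‖ ^ 2) ^ ((2 - (n : ℝ)) / 2) := by
    rw [← Real.rpow_natCast ‖y - a‖ 2, ← Real.rpow_mul hp.le]
    congr 1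
    push_cast
    ring
  rw [h1]
  apply Real.rpow_le_rpow_of_nonpos (by positivity)
  · nlinarith [sq_nonneg ε]
  · linarith

theorem fe_tendsto {n : ℕ} (hn : 3 ≤ n) (a y : E n) (h : y ≠ a) (e : ℕ → ℝ) (he : Tendsto e atTop (𝓝 0)) :
    Tendsto (fun m => fe (e m) a y) atTop (𝓝 (newton a y).toReal) := by
  have hp : 0 < ‖y - a‖ := norm_pos_iff.2 (sub_ne_zero.2 h)
  have h1 : ‖y - a‖ ^ (-((n : ℝ) - 2)) = (‖y - a‖ ^ 2 + 0 ^ 2) ^ ((2 - (n : ℝ)) / 2) := by
    rw [zero_pow (by norm_num), add_zero, ← Real.rpow_natCast ‖y - a‖ 2, ← Real.rpow_mul hp.le]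
    congr 1
    push_cast
    ring
  rw [newton_toReal hn a y h, h1]
  unfold fe
  apply Tendsto.rpow_const
  · exact tendsto_const_nhds.add (he.pow 2)
  · left; positivity

theorem lap_cont {n : ℕ} {φ : E n → ℝ} (hφ : ContDiff ℝ ∞ φ) : Continuous (Δ φ) := by
  have h : (Δ φ) = fun y => ∑ i, fderiv ℝ (fun z => fderiv ℝ φ z (EuclideanSpace.basisFun (Fin n) ℝ i)) y
        (EuclideanSpace.basisFun (Fin n) ℝ i) := by
    ext y; exact nl_lap_eq hφ y
  rw [h]
  have hD : ∀ {ψ : E n → ℝ}, ContDiff ℝ ∞ ψ → ∀ v : E n, ContDiff ℝ ∞ (fun z => fderiv ℝ ψ z v) := by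
    intro ψ h v
    exact (h.fderiv_right (m := ∞) (by norm_cast)).clm_apply contDiff_const
  exact continuous_finset_sum _ (fun i _ => (hD (hD hφ _) _).continuous)

theorem lap_supp {n : ℕ} {φ : E n → ℝ} (hφ : ContDiff ℝ ∞ φ) (hs : HasCompactSupport φ) :
    ∀ y, y ∉ tsupport φ → (Δ φ) y = 0 := by
  intro y hy
  have h : φ =ᶠ[𝓝 y] (fun _ => (0 : ℝ)) := by
    have : (tsupport φ)ᶜ ∈ 𝓝 y := (isClosed_tsupport φ).isOpen_compl.mem_nhds hy
    filter_upwards [this] with z hz
    exact image_eq_zero_of_notMem_tsupport hz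
  have h2 := (InnerProductSpace.laplacian_congr_nhds h).eq_of_nhds
  rw [h2]
  simp

/-- **Target N2b.** The Newtonian kernel is a fundamental solution of the Laplacian. -/
theorem newton_laplacian {n : ℕ} (hn : 3 ≤ n) :
    ∃ c : ℝ, 0 < c ∧ ∀ φ : E n → ℝ, ContDiff ℝ ∞ φ → HasCompactSupport φ → ∀ a : E n,
      ∫ y, (newton a y).toReal * (Δ φ) y = -c * φ a := by
  haveI : Nonempty (Fin n) := ⟨⟨0, by omega⟩⟩
  have hn' : (3 : ℝ) ≤ n := by exact_mod_cast hn
  set k : E n → ℝ := fun w => ((n : ℝ) * (n - 2)) * ((1 : ℝ) + ‖w‖ ^ 2) ^ (-((n : ℝ) + 2) / 2) with hk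
  have hkint : Integrable k := kint.const_mul _
  have hcoef : 0 < (n : ℝ) * (n - 2) := by apply mul_pos <;> linarith
  have hkpos : ∀ w, 0 < k w := fun w => by
    have h1 : 0 < ((1 : ℝ) + ‖w‖ ^ 2) ^ (-((n : ℝ) + 2) / 2) := Real.rpow_pos_of_pos (by positivity) _
    exact mul_pos hcoef h1
  refine ⟨∫ w, k w, ?_, ?_⟩
  · rw [integral_pos_iff_support_of_nonneg (fun w => (hkpos w).le) hkint]
    have : Function.support k = univ := by
      ext w; simp [(hkpos w).ne']
    rw [this]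
    simp
  · intro φ hφ hs a
    set e : ℕ → ℝ := fun m => 1 / ((m : ℝ) + 1) with he
    have hepos : ∀ m, 0 < e m := fun m => by positivity
    have helim : Tendsto e atTop (𝓝 0) := tendsto_one_div_add_atTop_nhds_zero_nat
    have hLc := lap_cont hφ
    have hLs := lap_supp hφ hs
    obtain ⟨M, hM⟩ : ∃ M, ∀ y, ‖(Δ φ) y‖ ≤ M := by
      have hcs : HasCompactSupport (Δ φ) := HasCompactSupport.intro hs (fun y hy => hLs y hy)
      exact hcs.exists_bound_of_continuous hLc
    obtain ⟨M', hM'⟩ : ∃ M, ∀ y, ‖φ y‖ ≤ M := hs.exists_bound_of_continuous hφ.continuous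
    have h0 : ∀ᵐ y : E n, y ≠ a := by
      rw [ae_iff]; simp
    -- left side
    have hL : Tendsto (fun m => ∫ y, fe (e m) a y * (Δ φ) y) atTop
        (𝓝 (∫ y, (newton a y).toReal * (Δ φ) y)) := by
      apply tendsto_integral_of_dominated_convergence (fun y => (newton a y).toReal * ‖(Δ φ) y‖)
      · intro m
        exact ((fe_contDiff (hepos m) a).continuous.mul hLc).aestronglyMeasurable
      · have hK : IntegrableOn (fun y => (newton a y).toReal) (tsupport φ) := by
          obtain ⟨C, hC, hCa⟩ := newton_locInt hn (tsupport φ) hs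
          apply integrable_toReal_of_lintegral_ne_top (newton_measurable a).aemeasurable
          exact ((hCa a).trans_lt (lt_top_iff_ne_top.2 hC)).ne
        have h1 : IntegrableOn (fun y => (newton a y).toReal * ‖(Δ φ) y‖) (tsupport φ) := by
          apply Integrable.mul_bdd (c := M) hK
          · exact hLc.norm.aestronglyMeasurable
          · exact ae_of_all _ (fun y => by rw [norm_norm]; exact hM y)
        rw [← integrableOn_iff_integrable_of_support_subset (s := tsupport φ)]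
        · exact h1
        · intro y hy
          by_contra h
          apply hy
          simp [hLs y h]
      · intro m
        filter_upwards [h0] with y hy
        rw [norm_mul]
        apply mul_le_mul_of_nonneg_right _ (norm_nonneg _)
        rw [Real.norm_of_nonneg]
        · exact fe_le hn a y hy
        · unfold fe; positivity
      · filter_upwards [h0] with y hy
        exact (fe_tendsto hn a y hy e helim).mul_const _
    -- right side
    have hR : Tendsto (fun m => -∫ w : E n, k w * φ (a + e m • w)) atTop (𝓝 (-∫ w : E n, k w * φ a)) := by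
      apply Tendsto.neg
      apply tendsto_integral_of_dominated_convergence (fun w => k w * M')
      · intro m
        apply AEStronglyMeasurable.mul hkint.1
        have : Continuous (fun w : E n => φ (a + e m • w)) := hφ.continuous.comp (by fun_prop)
        exact this.aestronglyMeasurable
      · exact hkint.mul_const _
      · intro m
        refine ae_of_all _ (fun w => ?_)
        rw [norm_mul, Real.norm_of_nonneg (hkpos w).le]
        exact mul_le_mul_of_nonneg_left (hM' _) (hkpos w).le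
      · refine ae_of_all _ (fun w => ?_)
        apply Tendsto.const_mul
        have h1 : Tendsto (fun m => a + e m • w) atTop (𝓝 (a + (0 : ℝ) • w)) :=
          tendsto_const_nhds.add (helim.smul_const w)
        rw [zero_smul, add_zero] at h1
        exact (hφ.continuous.tendsto a).comp h1
    have heq : ∀ m, ∫ y, fe (e m) a y * (Δ φ) y = -∫ w : E n, k w * φ (a + e m • w) := by
      intro m
      rw [green (hepos m) hφ hs a, subst_eq (hepos m) φ a]
    have := tendsto_nhds_unique hL ((tendsto_congr heq).2 hR)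
    rw [this, integral_mul_const]
    ring

end Pool.Agent.Helper486.TP
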