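import Pool.Agent.Helper486.TP.BDefs
import Pool.Agent.Helper486.TP.Basic

/-! # The Newtonian kernel is superharmonic -/

set_option autoImplicit false

open MeasureTheory Set Filter Topology Metric
open scoped InnerProductSpace ContDiff Laplacian ENNReal

namespace Pool.Agent.Helper486.TP






noncomputable def nk5_f {n : ℕ} (a : E n) (s e : ℝ) (y : E n) : ℝ := (‖y - a‖ ^ 2 + e) ^ s

lemma nk5_q {n : ℕ} (a : E n) (e : ℝ) (x : E n) :
    HasFDerivAt (fun y : E n => ‖y - a‖ ^ 2 + e) ((2 : ℝ) • innerSL ℝ (x - a)) x := by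
  have h1 : HasFDerivAt (fun y : E n => y - a) (ContinuousLinearMap.id ℝ (E n)) x :=
    (hasFDerivAt_id x).sub_const a
  have h3 := h1.norm_sq.add_const e
  convert! h3 using 1
  ext v
  simp

lemma nk5_r {n : ℕ} (a : E n) {e : ℝ} (he : 0 < e) (s : ℝ) (x : E n) :
    HasFDerivAt (nk5_f a s e)
      ((s * (‖x - a‖ ^ 2 + e) ^ (s - 1)) • ((2 : ℝ) • innerSL ℝ (x - a))) x :=
  (nk5_q a e x).rpow_const (Or.inl (by positivity))

lemma nk5_smooth {n : ℕ} (a : E n) {e : ℝ} (he : 0 < e) (s : ℝ) : ContDiff ℝ ∞ (nk5_f a s e) := by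
  unfold nk5_f
  refine ContDiff.rpow_const_of_ne ?_ ?_
  · exact ((contDiff_id.sub contDiff_const).norm_sq ℝ).add contDiff_const
  · intro x
    positivity

lemma nk5_D2 {n : ℕ} (a : E n) {e : ℝ} (he : 0 < e) (s : ℝ) (x v : E n) :
    fderiv ℝ (fderiv ℝ (nk5_f a s e)) x v v =
      2 * s * (‖x - a‖ ^ 2 + e) ^ (s - 1) * ‖v‖ ^ 2 +
        4 * s * (s - 1) * (‖x - a‖ ^ 2 + e) ^ (s - 1 - 1) * ⟪v, x - a⟫_ℝ ^ 2 := by
  have hsm := nk5_smooth a he s
  have hsm2 : ContDiff ℝ 2 (nk5_f a s e) := contDiff_infty.1 hsm 2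
  have hd : DifferentiableAt ℝ (fderiv ℝ (nk5_f a s e)) x :=
    ((hsm2.fderiv_right (m := 1) (by norm_num)).differentiable one_ne_zero) x
  have h1 : HasFDerivAt (fun y => fderiv ℝ (nk5_f a s e) y v)
      ((ContinuousLinearMap.apply ℝ ℝ v).comp (fderiv ℝ (fderiv ℝ (nk5_f a s e)) x)) x :=
    (ContinuousLinearMap.apply ℝ ℝ v).hasFDerivAt.comp x hd.hasFDerivAt
  have h2 : (fun y => fderiv ℝ (nk5_f a s e) y v) =
      fun y => 2 * s * (nk5_f a (s - 1) e y * (innerSL ℝ v) (y - a)) := by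
    funext y
    rw [(nk5_r a he s y).fderiv]
    simp only [_root_.smul_apply, innerSL_apply_apply, smul_eq_mul, nk5_f]
    rw [real_inner_comm]
    ring
  have h3 : HasFDerivAt (fun y : E n => (innerSL ℝ v) (y - a)) (innerSL ℝ v) x :=
    (innerSL ℝ v).hasFDerivAt.comp x ((hasFDerivAt_id x).sub_const a)
  have h4 := ((nk5_r a he (s - 1) x).mul h3).const_mul (2 * s)
  rw [h2] at h1
  have h5 := h1.unique h4
  have h6 := congrArg (fun L : E n →L[ℝ] ℝ => L v) h5
  simp only [ContinuousLinearMap.comp_apply, ContinuousLinearMap.apply_apply, _root_.add_apply,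
    _root_.smul_apply, smul_eq_mul, innerSL_apply_apply, real_inner_self_eq_norm_sq] at h6
  rw [h6, real_inner_comm v (x - a)]
  unfold nk5_f
  ring

lemma nk5_lap {n : ℕ} (hn : 3 ≤ n) (a : E n) {e : ℝ} (he : 0 < e) (x : E n) :
    (Δ (nk5_f a (-(((n - 2 : ℕ) : ℝ) / 2)) e)) x ≤ 0 := by
  set s : ℝ := -(((n - 2 : ℕ) : ℝ) / 2) with hs
  have hn2 : ((n - 2 : ℕ) : ℝ) = (n : ℝ) - 2 := by
    rw [Nat.cast_sub (by omega)]; norm_num
  have hn3 : (3 : ℝ) ≤ n := by exact_mod_cast hn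
  have hsv : s = -(((n : ℝ) - 2) / 2) := by rw [hs, hn2]
  rw [InnerProductSpace.laplacian_eq_iteratedFDeriv_orthonormalBasis _
    (EuclideanSpace.basisFun (Fin n) ℝ)]
  simp only [iteratedFDeriv_two_apply, Matrix.cons_val_zero, Matrix.cons_val_one]
  simp only [nk5_D2 a he]
  rw [Finset.sum_add_distrib, ← Finset.mul_sum, ← Finset.mul_sum,
    OrthonormalBasis.sum_sq_inner_right]
  have h1 : ∑ i : Fin n, ‖(EuclideanSpace.basisFun (Fin n) ℝ) i‖ ^ 2 = n := by
    simp
  rw [h1]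
  have hQ : 0 < ‖x - a‖ ^ 2 + e := by positivity
  have h2 : (‖x - a‖ ^ 2 + e) ^ (s - 1) =
      (‖x - a‖ ^ 2 + e) ^ (s - 1 - 1) * (‖x - a‖ ^ 2 + e) := by
    rw [← Real.rpow_add_one hQ.ne']
    congr 1
    ring
  rw [h2]
  have h3 : 0 < (‖x - a‖ ^ 2 + e) ^ (s - 1 - 1) := Real.rpow_pos_of_pos hQ _
  set W := (‖x - a‖ ^ 2 + e) ^ (s - 1 - 1)
  have h4 : 2 * s * (W * (‖x - a‖ ^ 2 + e)) * n + 4 * s * (s - 1) * W * ‖x - a‖ ^ 2 =
      -((n - 2) * n * e * W) := by
    rw [hsv]; ring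
  rw [h4]
  have h5 : 0 ≤ ((n : ℝ) - 2) * n * e * W := by
    have : (0 : ℝ) ≤ (n : ℝ) - 2 := by linarith
    positivity
  linarith

lemma nk5_newton {n : ℕ} (a y : E n) :
    newton a y = ENNReal.ofReal (‖y - a‖ ^ 2) ^ (-(((n - 2 : ℕ) : ℝ) / 2)) := by
  unfold newton
  rw [ENNReal.ofReal_pow (norm_nonneg _), ENNReal.rpow_neg, ← ENNReal.rpow_natCast_mul,
    norm_sub_rev y a]
  congr 1
  rw [← ENNReal.rpow_natCast]
  congr 1
  push_cast
  ring

lemma nk5_ofReal {n : ℕ} (a y : E n) {e : ℝ} (he : 0 < e) (s : ℝ) :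
    ENNReal.ofReal (nk5_f a s e y) = ENNReal.ofReal (‖y - a‖ ^ 2 + e) ^ s := by
  unfold nk5_f
  rw [ENNReal.ofReal_rpow_of_pos (by positivity)]

/-- **Target N1b.** The Newtonian kernel is superharmonic (from `hsm`, proved elsewhere). -/
theorem newton_superharmonic {n : ℕ} (hn : 3 ≤ n)
    (hsm : ∀ f : E n → ℝ, ContDiff ℝ ∞ f → (∀ x, (Δ f) x ≤ 0) → ∀ (x : E n) (r : ℝ), 0 < r →
      ∫ y in ball x r, f y ≤ (volume (ball x r)).toReal * f x) (a : E n) :
    PosSuperharmonic (fun y => newton a y) := by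
  refine ⟨?_, ?_, ?_⟩
  · refine Continuous.lowerSemicontinuous ?_
    unfold newton
    exact continuous_inv.comp ((ENNReal.continuous_pow _).comp
      (ENNReal.continuous_ofReal.comp (continuous_const.sub continuous_id).norm))
  · refine ⟨a - EuclideanSpace.single (⟨0, by omega⟩ : Fin n) (1 : ℝ), ?_⟩
    unfold newton
    simp
  · intro x r hr
    set s : ℝ := -(((n - 2 : ℕ) : ℝ) / 2) with hs
    have hs0 : 0 ≤ -s := by rw [hs, neg_neg]; positivity
    set ε : ℕ → ℝ := fun k => 1 / ((k : ℝ) + 1) with hε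
    have hε0 : ∀ k, 0 < ε k := fun k => by simp only [hε]; positivity
    have hεt : Tendsto ε atTop (𝓝 0) := tendsto_one_div_add_atTop_nhds_zero_nat
    have hvol : volume (ball x r) ≠ ⊤ := measure_ball_lt_top.ne
    -- bound for each k
    have hk : ∀ k, ∫⁻ y in ball x r, ENNReal.ofReal (nk5_f a s (ε k) y) ≤
        volume (ball x r) * newton a x := by
      intro k
      have hc : Continuous (nk5_f a s (ε k)) := (nk5_smooth a (hε0 k) s).continuous
      have hint : IntegrableOn (nk5_f a s (ε k)) (ball x r) :=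
        (hc.continuousOn.integrableOn_compact (isCompact_closedBall x r)).mono_set
          ball_subset_closedBall
      have hnn : ∀ y, 0 ≤ nk5_f a s (ε k) y := fun y => by
        unfold nk5_f
        have := hε0 k
        positivity
      rw [← ofReal_integral_eq_lintegral_ofReal hint (Filter.Eventually.of_forall hnn)]
      have h1 := hsm (nk5_f a s (ε k)) (nk5_smooth a (hε0 k) s)
        (fun z => nk5_lap hn a (hε0 k) z) x r hr
      refine (ENNReal.ofReal_le_ofReal h1).trans ?_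
      rw [ENNReal.ofReal_mul ENNReal.toReal_nonneg, ENNReal.ofReal_toReal hvol,
        nk5_ofReal a x (hε0 k), nk5_newton]
      refine mul_le_mul_right ?_ _
      rw [← hs, ← neg_neg s, ENNReal.rpow_neg, ENNReal.rpow_neg _ (-s)]
      refine ENNReal.inv_le_inv.2 (ENNReal.rpow_le_rpow (ENNReal.ofReal_le_ofReal ?_) hs0)
      linarith [hε0 k]
    -- limit
    have hlim : ∀ y, Tendsto (fun k => ENNReal.ofReal (nk5_f a s (ε k) y)) atTop
        (𝓝 (newton a y)) := by
      intro y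
      have h1 : Tendsto (fun k => ENNReal.ofReal (‖y - a‖ ^ 2 + ε k)) atTop
          (𝓝 (ENNReal.ofReal (‖y - a‖ ^ 2))) := by
        refine (ENNReal.continuous_ofReal.tendsto _).comp ?_
        have h2 := hεt.const_add (‖y - a‖ ^ 2)
        rwa [add_zero] at h2
      have h3 := (ENNReal.continuous_rpow_const (y := s)).tendsto (ENNReal.ofReal (‖y - a‖ ^ 2))
      have h4 := h3.comp h1
      rw [nk5_newton]
      refine h4.congr fun k => ?_
      exact (nk5_ofReal a y (hε0 k) s).symm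
    calc ∫⁻ y in ball x r, newton a y
        = ∫⁻ y in ball x r, liminf (fun k => ENNReal.ofReal (nk5_f a s (ε k) y)) atTop := by
          refine lintegral_congr fun y => ?_
          exact (hlim y).liminf_eq.symm
      _ ≤ liminf (fun k => ∫⁻ y in ball x r, ENNReal.ofReal (nk5_f a s (ε k) y)) atTop := by
          refine lintegral_liminf_le fun k => ?_
          exact ((nk5_smooth a (hε0 k) s).continuous.measurable).ennreal_ofReal
      _ ≤ volume (ball x r) * newton a x := by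
          refine liminf_le_of_le (by isBoundedDefault) fun b hb => ?_
          obtain ⟨k, hk'⟩ := hb.exists
          exact hk'.trans (hk k)

end Pool.Agent.Helper486.TP
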