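import Pool.Agent.Helper486.TP.BDefs
import Pool.Agent.Helper486.TP.Basic

/-! # Smooth functions with nonpositive Laplacian are superharmonic -/

set_option autoImplicit false

open MeasureTheory Set Filter Topology Metric
open scoped InnerProductSpace ContDiff Laplacian ENNReal

namespace Pool.Agent.Helper486.TP



theorem smn_int {n : ℕ} {F : E n → ℝ} (hF : Continuous F) (R : ℝ)
    (h0 : ∀ y, y ∉ closedBall (0 : E n) R → F y = 0) : Integrable F :=
  hF.integrable_of_hasCompactSupport (HasCompactSupport.intro (isCompact_closedBall 0 R) h0)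

theorem smn_G (R : ℝ) (g : ℝ → ℝ) (hg : Continuous g) (hg0 : ∀ s, 0 ≤ g s)
    (hgR : ∀ s, R ^ 2 ≤ s → g s = 0) :
    ∃ G : ℝ → ℝ, (∀ s, HasDerivAt G (-(1/2) * g s) s) ∧ (∀ s, 0 ≤ G s) ∧
      (∀ s, R ^ 2 ≤ s → G s = 0) := by
  have hz : ∀ s, R ^ 2 ≤ s → ∫ u in s..(R^2), g u = 0 := by
    intro s hs
    have h1 : ∫ u in s..(R^2), g u = ∫ u in s..(R^2), (0:ℝ) := by
      apply intervalIntegral.integral_congr
      intro u hu
      rw [Set.uIcc_of_ge hs] at hu
      exact hgR u hu.1
    rw [h1]; simp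
  refine ⟨fun s => (1/2) * ∫ u in s..(R^2), g u, ?_, ?_, ?_⟩
  · intro s
    have h := intervalIntegral.integral_hasDerivAt_left (hg.intervalIntegrable s (R^2))
      (hg.stronglyMeasurableAtFilter _ _) hg.continuousAt
    have h2 := h.const_mul (1/2)
    have h3 : -(1/2) * g s = 1 / 2 * -g s := by ring
    rw [h3]
    exact h2
  · intro s
    by_cases hs : s ≤ R^2
    · have := intervalIntegral.integral_nonneg (μ := volume) hs (fun u _ => hg0 u)
      show 0 ≤ (1/2) * ∫ u in s..(R^2), g u
      positivity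
    · have := hz s (le_of_not_ge hs)
      show 0 ≤ (1/2) * ∫ u in s..(R^2), g u
      rw [this]; simp
  · intro s hs
    show (1/2) * ∫ u in s..(R^2), g u = 0
    rw [hz s hs]; simp

theorem smn_ibp {n : ℕ} (R : ℝ) (hR : 0 < R) (g : ℝ → ℝ) (hg : Continuous g)
    (hgR : ∀ s, R ^ 2 ≤ s → g s = 0) (G : ℝ → ℝ) (hG : ∀ s, HasDerivAt G (-(1/2) * g s) s)
    (hGR : ∀ s, R ^ 2 ≤ s → G s = 0) (h : E n → ℝ) (hh : ContDiff ℝ 1 h) (v : E n) :
    ∫ y, G (‖y‖ ^ 2) * fderiv ℝ h y v = ∫ y, g (‖y‖ ^ 2) * ⟪y, v⟫_ℝ * h y := by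
  have hW : ∀ y : E n, HasFDerivAt (fun y : E n => G (‖y‖ ^ 2))
      ((-(1/2) * g (‖y‖ ^ 2)) • (2 • innerSL ℝ y)) y := by
    intro y
    have h1 := (hasStrictFDerivAt_norm_sq y).hasFDerivAt
    exact (hG (‖y‖^2)).comp_hasFDerivAt y h1
  have hW' : ∀ y : E n, fderiv ℝ (fun y : E n => G (‖y‖ ^ 2)) y v = - (g (‖y‖ ^ 2) * ⟪y, v⟫_ℝ) := by
    intro y
    rw [(hW y).fderiv]
    simp
    ring
  have hout : ∀ y : E n, y ∉ closedBall (0 : E n) R → R ^ 2 ≤ ‖y‖ ^ 2 := by
    intro y hy
    rw [mem_closedBall_zero_iff, not_le] at hy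
    nlinarith
  have hGc : Continuous G := continuous_iff_continuousAt.2 fun s => (hG s).continuousAt
  have hdh : Continuous (fun y => fderiv ℝ h y v) :=
    (hh.continuous_fderiv (by norm_num)).clm_apply continuous_const
  have key := integral_mul_fderiv_eq_neg_fderiv_mul_of_integrable (𝕜 := ℝ) (μ := (volume : Measure (E n)))
    (f := fun y : E n => G (‖y‖ ^ 2)) (g := h) (v := v)
    ?_ ?_ ?_ ?_ ?_
  · rw [key, ← integral_neg]
    apply integral_congr_ae
    filter_upwards with y
    simp only [hW']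
    ring
  · simp only [hW']
    apply smn_int (by fun_prop) R
    intro y hy
    rw [hgR _ (hout y hy)]; simp
  · apply smn_int (by fun_prop) R
    intro y hy
    rw [hGR _ (hout y hy)]; simp
  · have hc : Continuous (fun y : E n => G (‖y‖ ^ 2) * h y) := by
      have := hh.continuous
      fun_prop
    apply smn_int hc R
    intro y hy
    rw [hGR _ (hout y hy)]; simp
  · intro y _
    exact (hW y).differentiableAt
  · intro y _
    exact (hh.differentiable (by norm_num)) y


theorem smn_deriv {n : ℕ} (f : E n → ℝ) (hf : ContDiff ℝ ∞ f) (x : E n) (R : ℝ) (hR : 0 < R)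
    (g : ℝ → ℝ) (hg : Continuous g) (hgR : ∀ s, R ^ 2 ≤ s → g s = 0) (t : ℝ) :
    HasDerivAt (fun t : ℝ => ∫ y : E n, g (‖y‖ ^ 2) * f (x + t • y))
      (∫ y : E n, g (‖y‖ ^ 2) * fderiv ℝ f (x + t • y) y) t := by
  have hfc := hf.continuous
  have hdf : Continuous (fderiv ℝ f) := hf.continuous_fderiv (by simp)
  have hout : ∀ y : E n, y ∉ closedBall (0 : E n) R → R ^ 2 ≤ ‖y‖ ^ 2 := by
    intro y hy
    rw [mem_closedBall_zero_iff, not_le] at hy
    nlinarith
  have hc' : Continuous (fun p : ℝ × E n => g (‖p.2‖ ^ 2) * fderiv ℝ f (x + p.1 • p.2) p.2) := by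
    apply Continuous.mul (by fun_prop)
    exact (hdf.comp (by fun_prop)).clm_apply (by fun_prop)
  obtain ⟨C, hC⟩ := ((isCompact_closedBall t 1).prod (isCompact_closedBall (0 : E n) R)).exists_bound_of_continuousOn
    hc'.continuousOn
  have hs : ball t 1 ∈ 𝓝 t := ball_mem_nhds t one_pos
  have := hasDerivAt_integral_of_dominated_loc_of_deriv_le (μ := (volume : Measure (E n)))
    (F := fun t y => g (‖y‖ ^ 2) * f (x + t • y))
    (F' := fun t y => g (‖y‖ ^ 2) * fderiv ℝ f (x + t • y) y)
    (bound := (closedBall (0 : E n) R).indicator fun _ => C) (x₀ := t) hs ?_ ?_ ?_ ?_ ?_ ?_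
  · exact this.2
  · filter_upwards with s
    exact (by fun_prop : Continuous (fun y : E n => g (‖y‖ ^ 2) * f (x + s • y))).aestronglyMeasurable
  · apply smn_int (by fun_prop) R
    intro y hy
    rw [hgR _ (hout y hy)]; simp
  · exact (hc'.comp (by fun_prop : Continuous (fun y : E n => (t, y)))).aestronglyMeasurable
  · filter_upwards with y s hs
    by_cases hy : y ∈ closedBall (0 : E n) R
    · rw [indicator_of_mem hy]
      exact hC (s, y) ⟨ball_subset_closedBall hs, hy⟩
    · rw [indicator_of_notMem hy, hgR _ (hout y hy)]; simp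
  · exact (integrable_indicator_iff measurableSet_closedBall).2
      (integrableOn_const (isCompact_closedBall _ _).measure_lt_top.ne)
  · filter_upwards with y s hs
    have h1 : HasDerivAt (fun s : ℝ => x + s • y) y s := by
      have := ((hasDerivAt_id s).smul_const y).const_add x
      simpa using this
    have h2 := ((hf.differentiable (by simp)) (x + s • y)).hasFDerivAt.comp_hasDerivAt s h1
    exact h2.const_mul _

theorem smn_div {n : ℕ} (f : E n → ℝ) (hf : ContDiff ℝ ∞ f) (hlap : ∀ x, (Δ f) x ≤ 0)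
    (x : E n) (R : ℝ) (hR : 0 < R)
    (g : ℝ → ℝ) (hg : Continuous g) (hg0 : ∀ s, 0 ≤ g s)
    (hgR : ∀ s, R ^ 2 ≤ s → g s = 0) (t : ℝ) (ht : 0 ≤ t) :
    ∫ y : E n, g (‖y‖ ^ 2) * fderiv ℝ f (x + t • y) y ≤ 0 := by
  obtain ⟨G, hG, hG0, hGR⟩ := smn_G R g hg hg0 hgR
  have hout : ∀ y : E n, y ∉ closedBall (0 : E n) R → R ^ 2 ≤ ‖y‖ ^ 2 := by
    intro y hy
    rw [mem_closedBall_zero_iff, not_le] at hy
    nlinarith
  have hGc : Continuous G := continuous_iff_continuousAt.2 fun s => (hG s).continuousAt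
  let b := EuclideanSpace.basisFun (Fin n) ℝ
  have hf3 : ContDiff ℝ 3 f := by
    have := contDiff_infty.1 hf 3
    exact_mod_cast this
  have hdf : ContDiff ℝ 2 (fderiv ℝ f) := hf3.fderiv_right (by norm_num)
  have hddf : Continuous (fderiv ℝ (fderiv ℝ f)) := hdf.continuous_fderiv (by norm_num)
  have hh : ∀ i, ContDiff ℝ 1 (fun y : E n => fderiv ℝ f (x + t • y) (b i)) := by
    intro i
    have h1 : ContDiff ℝ 1 (fun y : E n => fderiv ℝ f (x + t • y)) :=
      (hdf.of_le (by norm_num)).comp (by fun_prop)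
    exact h1.clm_apply contDiff_const
  have hfd : ∀ i (y : E n), fderiv ℝ (fun y : E n => fderiv ℝ f (x + t • y) (b i)) y (b i)
      = t * (fderiv ℝ (fderiv ℝ f) (x + t • y) (b i) (b i)) := by
    intro i y
    have h1 : HasFDerivAt (fun y : E n => x + t • y) (t • ContinuousLinearMap.id ℝ (E n)) y := by
      have := ((hasFDerivAt_id (𝕜 := ℝ) y).const_smul t).const_add x
      simpa using this
    have h2 := ((hdf.differentiable (by norm_num)) (x + t • y)).hasFDerivAt.comp y h1
    have h3 : HasFDerivAt (fun y : E n => fderiv ℝ f (x + t • y) (b i)) _ y :=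
      h2.clm_apply (hasFDerivAt_const (b i) y)
    rw [h3.fderiv]
    simp
  have hI := fun i => smn_ibp R hR g hg hgR G hG hGR _ (hh i) (b i)
  have hsum : ∀ y : E n, g (‖y‖ ^ 2) * fderiv ℝ f (x + t • y) y
      = ∑ i, g (‖y‖ ^ 2) * ⟪y, b i⟫_ℝ * fderiv ℝ f (x + t • y) (b i) := by
    intro y
    conv_lhs => rw [← b.sum_repr' y]
    rw [b.sum_repr' y]
    conv_lhs => 
      arg 2
      arg 2
      rw [← b.sum_repr' y]
    rw [map_sum, Finset.mul_sum]
    apply Finset.sum_congr rfl
    intro i _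
    rw [map_smul, real_inner_comm]
    simp; ring
  have hlapf : ∀ z : E n, (Δ f) z = ∑ i, fderiv ℝ (fderiv ℝ f) z (b i) (b i) := by
    intro z
    rw [InnerProductSpace.laplacian_eq_iteratedFDeriv_orthonormalBasis f b]
    apply Finset.sum_congr rfl
    intro i _
    rw [iteratedFDeriv_two_apply]
    simp
  have hint1 : ∀ i, Integrable (fun y : E n => g (‖y‖ ^ 2) * ⟪y, b i⟫_ℝ * fderiv ℝ f (x + t • y) (b i)) := by
    intro i
    have := (hh i).continuous
    apply smn_int (by fun_prop) R
    intro y hy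
    rw [hgR _ (hout y hy)]; simp
  have hint2 : ∀ i, Integrable (fun y : E n => G (‖y‖ ^ 2) * fderiv ℝ (fun y : E n => fderiv ℝ f (x + t • y) (b i)) y (b i)) := by
    intro i
    have := ((hh i).continuous_fderiv (by norm_num)).clm_apply (continuous_const (y := b i))
    apply smn_int (by fun_prop) R
    intro y hy
    rw [hGR _ (hout y hy)]; simp
  calc ∫ y : E n, g (‖y‖ ^ 2) * fderiv ℝ f (x + t • y) y
      = ∫ y : E n, ∑ i, g (‖y‖ ^ 2) * ⟪y, b i⟫_ℝ * fderiv ℝ f (x + t • y) (b i) := by
        simp_rw [hsum]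
    _ = ∑ i, ∫ y : E n, g (‖y‖ ^ 2) * ⟪y, b i⟫_ℝ * fderiv ℝ f (x + t • y) (b i) :=
        integral_finsetSum _ (fun i _ => hint1 i)
    _ = ∑ i, ∫ y : E n, G (‖y‖ ^ 2) * fderiv ℝ (fun y : E n => fderiv ℝ f (x + t • y) (b i)) y (b i) := by
        apply Finset.sum_congr rfl
        intro i _
        exact (hI i).symm
    _ = ∫ y : E n, ∑ i, G (‖y‖ ^ 2) * fderiv ℝ (fun y : E n => fderiv ℝ f (x + t • y) (b i)) y (b i) :=
        (integral_finsetSum _ (fun i _ => hint2 i)).symm
    _ = ∫ y : E n, G (‖y‖ ^ 2) * (t * (Δ f) (x + t • y)) := by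
        apply integral_congr_ae
        filter_upwards with y
        rw [hlapf, Finset.mul_sum, Finset.mul_sum]
        apply Finset.sum_congr rfl
        intro i _
        rw [hfd]
    _ ≤ 0 := by
        apply integral_nonpos
        intro y
        exact mul_nonpos_of_nonneg_of_nonpos (hG0 _) (mul_nonpos_of_nonneg_of_nonpos ht (hlap _))

theorem smn_key {n : ℕ} (f : E n → ℝ) (hf : ContDiff ℝ ∞ f) (hlap : ∀ x, (Δ f) x ≤ 0)
    (x : E n) (R : ℝ) (hR : 0 < R)
    (g : ℝ → ℝ) (hg : Continuous g) (hg0 : ∀ s, 0 ≤ g s)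
    (hgR : ∀ s, R ^ 2 ≤ s → g s = 0) :
    ∫ y : E n, g (‖y‖ ^ 2) * f (x + y) ≤ (∫ y : E n, g (‖y‖ ^ 2)) * f x := by
  have hd := smn_deriv f hf x R hR g hg hgR
  have hanti : AntitoneOn (fun t : ℝ => ∫ y : E n, g (‖y‖ ^ 2) * f (x + t • y)) (Set.Icc 0 1) := by
    apply antitoneOn_of_deriv_nonpos (convex_Icc 0 1)
    · exact fun t _ => (hd t).continuousAt.continuousWithinAt
    · exact fun t _ => (hd t).differentiableAt.differentiableWithinAt
    · intro t ht
      rw [interior_Icc] at ht
      rw [(hd t).deriv]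
      exact smn_div f hf hlap x R hR g hg hg0 hgR t ht.1.le
  have := hanti (left_mem_Icc.2 zero_le_one) (right_mem_Icc.2 zero_le_one) zero_le_one
  simp only [one_smul, zero_smul, add_zero] at this
  rw [integral_mul_const] at this
  exact this

/-- **Target N1a.** Smooth functions with nonpositive Laplacian have the super-mean value property
over balls. -/
theorem smooth_supermean {n : ℕ} (hn : 0 < n) (f : E n → ℝ) (hf : ContDiff ℝ ∞ f)
    (hlap : ∀ x, (Δ f) x ≤ 0) (x : E n) (r : ℝ) (hr : 0 < r) :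
    ∫ y in ball x r, f y ≤ (volume (ball x r)).toReal * f x := by
  have hfc := hf.continuous
  let gk : ℕ → ℝ → ℝ := fun k s => max 0 (min 1 ((k:ℝ) * (r^2 - s)))
  have hgk : ∀ k, Continuous (gk k) := fun k => by
    show Continuous (fun s => max 0 (min 1 ((k:ℝ) * (r^2 - s))))
    fun_prop
  have hgk0 : ∀ k s, 0 ≤ gk k s := fun k s => le_max_left _ _
  have hgk1 : ∀ k s, gk k s ≤ 1 := fun k s => max_le zero_le_one (min_le_left _ _)
  have hgkR : ∀ k s, r ^ 2 ≤ s → gk k s = 0 := by
    intro k s hs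
    apply max_eq_left
    apply (min_le_right _ _).trans
    exact mul_nonpos_of_nonneg_of_nonpos (Nat.cast_nonneg k) (by linarith)
  have hlim : ∀ s, Tendsto (fun k => gk k s) atTop (𝓝 (if s < r^2 then 1 else 0)) := by
    intro s
    split_ifs with hs
    · apply tendsto_const_nhds.congr'
      obtain ⟨N, hN⟩ := exists_nat_ge (1 / (r^2 - s))
      filter_upwards [eventually_ge_atTop N] with k hk
      have hp : 0 < r^2 - s := by linarith
      have h1 : 1 ≤ (k:ℝ) * (r^2 - s) := by
        have h2 : 1 / (r^2 - s) ≤ k := hN.trans (by exact_mod_cast hk)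
        rw [div_le_iff₀ hp] at h2
        exact h2
      show 1 = max 0 (min 1 ((k:ℝ) * (r^2 - s)))
      rw [min_eq_left h1]
      simp
    · rw [not_lt] at hs
      simp only [hgkR _ s hs]
      exact tendsto_const_nhds
  have hball : ∀ y : E n, (‖y‖ ^ 2 < r ^ 2) ↔ y ∈ ball (0 : E n) r := by
    intro y
    rw [mem_ball_zero_iff]
    constructor
    · intro h
      exact lt_of_pow_lt_pow_left₀ 2 hr.le h
    · intro h
      exact pow_lt_pow_left₀ h (norm_nonneg _) (by norm_num)
  have hout : ∀ y : E n, y ∉ closedBall (0 : E n) r → r ^ 2 ≤ ‖y‖ ^ 2 := by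
    intro y hy
    rw [mem_closedBall_zero_iff, not_le] at hy
    nlinarith
  -- dominated convergence
  have hdc : ∀ F : E n → ℝ, Continuous F →
      Tendsto (fun k => ∫ y : E n, gk k (‖y‖ ^ 2) * F y) atTop (𝓝 (∫ y in ball (0 : E n) r, F y)) := by
    intro F hF
    rw [← integral_indicator measurableSet_ball]
    apply tendsto_integral_of_dominated_convergence ((closedBall (0 : E n) r).indicator fun y => ‖F y‖)
    · intro k
      have := hgk k
      exact (by fun_prop : Continuous (fun y : E n => gk k (‖y‖ ^ 2) * F y)).aestronglyMeasurable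
    · rw [integrable_indicator_iff measurableSet_closedBall]
      exact hF.norm.continuousOn.integrableOn_compact (isCompact_closedBall _ _)
    · intro k
      filter_upwards with y
      by_cases hy : y ∈ closedBall (0 : E n) r
      · rw [indicator_of_mem hy, norm_mul, Real.norm_of_nonneg (hgk0 _ _)]
        exact mul_le_of_le_one_left (norm_nonneg _) (hgk1 _ _)
      · rw [indicator_of_notMem hy, hgkR _ _ (hout y hy)]; simp
    · filter_upwards with y
      have h1 := (hlim (‖y‖^2)).mul_const (F y)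
      by_cases hy : y ∈ ball (0 : E n) r
      · rw [if_pos ((hball y).2 hy), one_mul] at h1
        rw [indicator_of_mem hy]
        exact h1
      · rw [if_neg (fun h => hy ((hball y).1 h)), zero_mul] at h1
        rw [indicator_of_notMem hy]
        exact h1
  have hA := hdc (fun y => f (x + y)) (by fun_prop)
  have hB := (hdc (fun _ => (1:ℝ)) continuous_const).mul_const (f x)
  have hle := le_of_tendsto_of_tendsto' hA hB (fun k => by
    have := smn_key f hf hlap x r hr (gk k) (hgk k) (hgk0 k) (hgkR k)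
    simpa using this)
  have htr : ∫ y in ball x r, f y = ∫ y in ball (0 : E n) r, f (x + y) := by
    have h1 : MeasurePreserving (fun y : E n => x + y) volume volume := measurePreserving_add_left _ x
    have h2 : MeasurableEmbedding (fun y : E n => x + y) := measurableEmbedding_addLeft x
    have h3 := h1.setIntegral_preimage_emb h2 f (ball x r)
    rw [← h3]
    congr 1
    congr 1
    ext y
    simp [mem_ball, dist_eq_norm]
  have hvol : ∫ y in ball (0 : E n) r, (1:ℝ) = (volume (ball x r)).toReal := by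
    simp only [integral_const, MeasurableSet.univ, measureReal_restrict_apply, univ_inter, smul_eq_mul, mul_one]
    rw [measureReal_def, Measure.addHaar_ball_center]
    rw [Measure.addHaar_ball_center volume x]
  rw [htr, ← hvol]
  exact hle

end Pool.Agent.Helper486.TP
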