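import Pool.Agent.Helper486.TP.Final
import Pool.Agent.Helper486.TP.SmoothSuper
import Pool.Agent.Helper486.TP.NewtonSuper
import Pool.Agent.Helper486.TP.NewtonLap
import Pool.Agent.Helper486.TP.Choquet

/-! # The triple meet of harmonic measures of disjoint fine domains -/

set_option autoImplicit false

open MeasureTheory Set Filter Topology Metric
open scoped InnerProductSpace Laplacian ENNReal

namespace Pool.Agent.Helper486.TP

variable {n : ℕ}

theorem newton_super (hn : 3 ≤ n) (a : E n) : PosSuperharmonic (newton a) :=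
  newton_superharmonic hn (fun f hf hl x r hr => smooth_supermean (by omega) f hf hl x r hr) a

theorem newton_ne_top (_hn : 3 ≤ n) {a y : E n} (h : a ≠ y) : newton a y ≠ ⊤ := by
  unfold newton
  rw [Ne, ENNReal.inv_eq_top]
  refine pow_ne_zero _ ?_
  rw [Ne, ENNReal.ofReal_eq_zero, not_le]
  exact norm_pos_iff.2 (sub_ne_zero.2 h)

theorem newton_self (hn : 3 ≤ n) (a : E n) : newton a a = ⊤ := by
  unfold newton
  rw [sub_self, norm_zero, ENNReal.ofReal_zero, zero_pow (by omega), ENNReal.inv_zero]

theorem newton_comm (a y : E n) : newton a y = newton y a := by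
  unfold newton
  rw [norm_sub_rev]

theorem newton_continuous2 : Continuous (fun p : E n × E n => newton p.1 p.2) := by
  unfold newton
  exact continuous_inv.comp ((ENNReal.continuous_pow _).comp
    (ENNReal.continuous_ofReal.comp ((continuous_fst.sub continuous_snd).norm)))

theorem newton_measurable2 : Measurable (fun p : E n × E n => newton p.1 p.2) :=
  newton_continuous2.measurable

theorem newton_meas (a : E n) : Measurable (newton a) := by
  unfold newton
  exact ((measurable_const.sub measurable_id).norm.ennreal_ofReal.pow_const _).inv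

theorem newton_meas' (y : E n) : Measurable (fun z => newton z y) := by
  unfold newton
  exact ((measurable_id.sub measurable_const).norm.ennreal_ofReal.pow_const _).inv

theorem newton_measurable3 : Measurable (fun p : E n × E n => newton p.2 p.1) := by
  unfold newton
  exact ((measurable_snd.sub measurable_fst).norm.ennreal_ofReal.pow_const _).inv

theorem pot_measurable (ω : Measure (E n)) [SFinite ω] : Measurable (pot ω) := by
  unfold pot
  exact Measurable.lintegral_prod_left' newton_measurable2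

theorem lscReg_le (f : E n → ℝ≥0∞) (y : E n) : lscReg f y ≤ f y := by
  unfold lscReg
  refine liminf_le_of_frequently_le' ?_
  exact Filter.Frequently.mono (p := fun z => z = y)
    (by
      intro h
      exact (mem_of_mem_nhds h) rfl) (fun z hz => by rw [hz])

theorem reduced_le {A : Set (E n)} {s v : E n → ℝ≥0∞} (hv : PosSuperharmonic v)
    (h : ∀ z ∈ A, s z ≤ v z) (y : E n) : reduced A s y ≤ v y := by
  unfold reduced
  exact iInf₂_le v ⟨hv, h⟩

theorem le_reduced {A : Set (E n)} {s : E n → ℝ≥0∞} {y : E n} (hy : y ∈ A) :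
    s y ≤ reduced A s y := by
  unfold reduced
  exact le_iInf₂ fun v hv => hv.2 y hy

/-- the potential of the swept measure -/
theorem IsSwept.le (hn : 3 ≤ n) {A : Set (E n)} {a : E n} {ω : Measure (E n)}
    (h : IsSwept A a ω) (y : E n) : pot ω y ≤ newton a y := by
  rw [h.pot_eq]
  exact (lscReg_le _ _).trans (reduced_le (newton_super hn a) (fun z _ => le_rfl) y)

theorem IsSwept.eq (hn : 3 ≤ n) {A : Set (E n)} {a : E n} {ω : Measure (E n)}
    (h : IsSwept A a ω) : ∀ᵐ y ∂(volume : Measure (E n)), y ∈ A → pot ω y = newton a y := by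
  have key := lscReg_ae (n := n) (by omega)
    (F := {v : E n → ℝ≥0∞ | PosSuperharmonic v ∧ ∀ z ∈ A, newton a z ≤ v z})
    (fun v hv => hv.1) ⟨newton a, newton_super hn a, fun z _ => le_rfl⟩
  filter_upwards [key] with y hy hyA
  rw [h.pot_eq]
  refine le_antisymm ?_ ?_
  · exact (lscReg_le _ _).trans (reduced_le (newton_super hn a) (fun z _ => le_rfl) y)
  · have h1 : lscReg (reduced A (newton a)) y = reduced A (newton a) y := hy
    rw [h1]
    exact le_reduced hyA

/-- the swept measure does not charge other points -/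
theorem IsSwept.singleton (hn : 3 ≤ n) {A : Set (E n)} {a b : E n} {ω : Measure (E n)}
    (h : IsSwept A a ω) (hab : a ≠ b) : ω {b} = 0 := by
  by_contra hne
  have h1 : newton b b * ω {b} ≤ pot ω b := by
    unfold pot
    calc newton b b * ω {b} = ∫⁻ z in {b}, newton z b ∂ω := by
          rw [lintegral_singleton]
      _ ≤ ∫⁻ z, newton z b ∂ω := setLIntegral_le_lintegral _ _
  rw [newton_self hn, ENNReal.top_mul hne] at h1
  have h2 := h1.trans (h.le hn b)
  exact newton_ne_top hn hab (top_le_iff.1 h2)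

theorem ae_ne (hn : 3 ≤ n) (a : E n) : ∀ᵐ y ∂(volume : Measure (E n)), a ≠ y := by
  have : Nonempty (Fin n) := ⟨⟨0, by omega⟩⟩
  have h : (volume : Measure (E n)) {a} = 0 := measure_singleton a
  filter_upwards [measure_eq_zero_iff_ae_notMem.1 h] with y hy hay
  exact hy (by simp [hay])

theorem lintegral_pot_le (hn : 3 ≤ n) (ω : Measure (E n)) [IsFiniteMeasure ω] {K : Set (E n)}
    (hK : IsCompact K) : ∫⁻ y in K, pot ω y < ⊤ := by
  obtain ⟨C, hC, h⟩ := newton_locInt hn K hK
  unfold pot
  rw [lintegral_lintegral_swap (f := fun y z : E n => newton z y)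
    newton_measurable3.aemeasurable]
  calc ∫⁻ z, (∫⁻ y in K, newton z y) ∂ω ≤ ∫⁻ _z, C ∂ω := lintegral_mono fun z => h z
    _ = C * ω univ := by rw [lintegral_const]
    _ < ⊤ := ENNReal.mul_lt_top hC.lt_top (measure_lt_top _ _)

theorem pot_ae_fin (hn : 3 ≤ n) (ω : Measure (E n)) [IsFiniteMeasure ω] :
    ∀ᵐ y ∂(volume : Measure (E n)), pot ω y < ⊤ := by
  have h : ∀ k : ℕ, ∀ᵐ y ∂(volume : Measure (E n)), y ∈ closedBall (0 : E n) k → pot ω y < ⊤ := by
    intro k
    have h1 := ae_lt_top (pot_measurable ω)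
      (lintegral_pot_le hn ω (isCompact_closedBall (0 : E n) (k : ℝ))).ne
    exact (ae_restrict_iff' measurableSet_closedBall).1 h1
  filter_upwards [ae_all_iff.2 h] with y hy
  obtain ⟨k, hk⟩ := exists_nat_ge ‖y‖
  exact hy k (by simpa using hk)

theorem newton_locIntegrable (hn : 3 ≤ n) (a : E n) (K : Set (E n)) (hK : IsCompact K) :
    IntegrableOn (fun y => (newton a y).toReal) K := by
  obtain ⟨C, hC, h⟩ := newton_locInt hn K hK
  exact integrable_toReal_of_lintegral_ne_top (newton_meas a).aemeasurable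
    ((h a).trans_lt hC.lt_top).ne

theorem pot_locIntegrable (hn : 3 ≤ n) (ω : Measure (E n)) [IsFiniteMeasure ω] (K : Set (E n))
    (hK : IsCompact K) : IntegrableOn (fun y => (pot ω y).toReal) K :=
  integrable_toReal_of_lintegral_ne_top (pot_measurable ω).aemeasurable
    (lintegral_pot_le hn ω hK).ne

theorem locInt_of_compact {Ω : Set (E n)} {f : E n → ℝ}
    (h : ∀ K : Set (E n), IsCompact K → IntegrableOn f K) : LocallyIntegrableOn f Ω := by
  intro x _
  exact ⟨closedBall x 1, mem_nhdsWithin_of_mem_nhds (closedBall_mem_nhds x one_pos),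
    h _ (isCompact_closedBall x 1)⟩

/-- the Laplacian of the potential -/
theorem pot_laplacian (hn : 3 ≤ n) (ω : Measure (E n)) [IsFiniteMeasure ω] {c : ℝ}
    (hc : ∀ φ : E n → ℝ, ContDiff ℝ (⊤ : ℕ∞) φ → HasCompactSupport φ → ∀ a : E n,
      ∫ y, (newton a y).toReal * (Δ φ) y = -c * φ a)
    {φ : E n → ℝ} (hφ : ContDiff ℝ (⊤ : ℕ∞) φ) (hφc : HasCompactSupport φ) :
    ∫ y, (pot ω y).toReal * (Δ φ) y = -c * ∫ z, φ z ∂ω := by
  obtain ⟨M, hM0, hM⟩ := lap_bdd hφ hφc
  obtain ⟨C, hC, hK⟩ := newton_locInt hn (tsupport φ) hφc.isCompact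
  have hts : TestOn (tsupport φ) φ := ⟨hφ, hφc, subset_rfl⟩
  have hmK : MeasurableSet (tsupport φ) := (isClosed_tsupport φ).measurableSet
  have hcont := lap_continuous hφ
  -- product integrability
  have hm : Measurable (fun p : E n × E n => (newton p.2 p.1).toReal * (Δ φ) p.1) :=
    (newton_measurable3.ennreal_toReal).mul (hcont.measurable.comp measurable_fst)
  have hint : Integrable (fun p : E n × E n => (newton p.2 p.1).toReal * (Δ φ) p.1)
      ((volume : Measure (E n)).prod ω) := by
    refine ⟨hm.aestronglyMeasurable, ?_⟩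
    rw [HasFiniteIntegral, lintegral_prod_symm' _ hm.enorm]
    change ∫⁻ z, (∫⁻ y, ‖(newton z y).toReal * (Δ φ) y‖ₑ) ∂ω < ⊤
    have hb : ∀ z : E n, ∫⁻ y, ‖(newton z y).toReal * (Δ φ) y‖ₑ ≤ C * ENNReal.ofReal M := by
      intro z
      calc ∫⁻ y, ‖(newton z y).toReal * (Δ φ) y‖ₑ
          ≤ ∫⁻ y, (tsupport φ).indicator (fun y => newton z y * ENNReal.ofReal M) y := by
            refine lintegral_mono fun y => ?_
            by_cases hy : y ∈ tsupport φ
            · rw [indicator_of_mem hy, enorm_mul]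
              gcongr
              · rw [Real.enorm_eq_ofReal ENNReal.toReal_nonneg]
                exact ENNReal.ofReal_toReal_le
              · rw [Real.enorm_eq_ofReal_abs]
                exact ENNReal.ofReal_le_ofReal (hM y)
            · rw [indicator_of_notMem hy, hts.lap_eq_zero hy]
              simp
        _ = ∫⁻ y in tsupport φ, newton z y * ENNReal.ofReal M := by
            rw [lintegral_indicator hmK]
        _ = (∫⁻ y in tsupport φ, newton z y) * ENNReal.ofReal M := by
            rw [lintegral_mul_const _ (newton_meas z)]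
        _ ≤ C * ENNReal.ofReal M := by gcongr; exact hK z
    calc ∫⁻ z, (∫⁻ y, ‖(newton z y).toReal * (Δ φ) y‖ₑ) ∂ω ≤ ∫⁻ _z, C * ENNReal.ofReal M ∂ω :=
          lintegral_mono hb
      _ = C * ENNReal.ofReal M * ω univ := by rw [lintegral_const]
      _ < ⊤ := ENNReal.mul_lt_top (ENNReal.mul_lt_top hC.lt_top ENNReal.ofReal_lt_top)
          (measure_lt_top _ _)
  have h1 : ∀ᵐ y ∂(volume : Measure (E n)), (pot ω y).toReal * (Δ φ) y =
      ∫ z, (newton z y).toReal * (Δ φ) y ∂ω := by
    filter_upwards [pot_ae_fin hn ω] with y hy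
    rw [integral_mul_const, integral_toReal]
    · rfl
    · exact (newton_meas' y).aemeasurable
    · exact ae_lt_top (newton_meas' y) hy.ne
  rw [integral_congr_ae h1, integral_integral_swap hint, ← integral_const_mul]
  exact integral_congr_ae (Eventually.of_forall fun z => hc φ hφ hφc z)

/-- **The triple meet of swept measures.** -/
theorem triple_meet (hn : 3 ≤ n) (D : Fin 3 → Set (E n)) (hD : ∀ i j, i ≠ j → Disjoint (D i) (D j))
    (a : Fin 3 → E n) (ha : ∀ i, a i ∈ D i) (ω : Fin 3 → Measure (E n))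
    (hω : ∀ i, IsSwept (D i)ᶜ (a i) (ω i)) : ω 0 ⊓ ω 1 ⊓ ω 2 = 0 := by
  have hfin : ∀ i, IsFiniteMeasure (ω i) := fun i => (hω i).finite
  obtain ⟨c, hc0, hc⟩ := newton_laplacian hn
  set κ : Measure (E n) := ω 0 ⊓ ω 1 ⊓ ω 2 with hκ
  have hκle : ∀ i, κ ≤ ω i := by
    intro i
    fin_cases i
    · exact inf_le_left.trans inf_le_left
    · exact inf_le_left.trans inf_le_right
    · exact inf_le_right
  have hκfin : IsFiniteMeasure κ := isFiniteMeasure_of_le (ω 0) (hκle 0)
  have hne : ∀ i j, i ≠ j → a i ≠ a j := by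
    intro i j hij h
    exact Set.disjoint_left.1 (hD i j hij) (ha i) (h ▸ ha j)
  set Ω : Set (E n) := (Set.range a)ᶜ with hΩdef
  have hΩ : IsOpen Ω := (Set.finite_range a).isClosed.isOpen_compl
  let v : Fin 3 → E n → ℝ := fun i y => (newton (a i) y).toReal - (pot (ω i) y).toReal
  have hv : ∀ i, LocallyIntegrableOn (v i) Ω := fun i =>
    locInt_of_compact fun K hK => (newton_locIntegrable hn (a i) K hK).sub
      (pot_locIntegrable hn (ω i) K hK)
  have hv0 : ∀ i, ∀ᵐ x ∂(volume : Measure (E n)), x ∈ Ω → 0 ≤ v i x := by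
    intro i
    filter_upwards [ae_ne hn (a i)] with x hx _
    exact sub_nonneg.2 (ENNReal.toReal_mono (newton_ne_top hn hx) ((hω i).le hn x))
  have hvz : ∀ i, ∀ᵐ x ∂(volume : Measure (E n)), x ∉ D i → v i x = 0 := by
    intro i
    filter_upwards [(hω i).eq hn] with x hx hxD
    have := hx hxD
    simp only [v, this, sub_self]
  have hd : ∀ i j, i ≠ j → ∀ᵐ x ∂(volume : Measure (E n)), x ∈ Ω → v i x = 0 ∨ v j x = 0 := by
    intro i j hij
    filter_upwards [hvz i, hvz j] with x h1 h2 _
    by_cases hx : x ∈ D i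
    · right; exact h2 (Set.disjoint_left.1 (hD i j hij) hx)
    · left; exact h1 hx
  have hfo : ∀ (μ : Measure (E n)) [IsFiniteMeasure μ], FinOn Ω μ :=
    fun μ _ K _ _ => measure_lt_top μ K
  have hlap : ∀ i φ, TestOn Ω φ → ∫ x, v i x * (Δ φ) x =
      (∫ x, φ x ∂(ENNReal.ofReal c • ω i)) - ∫ x, φ x ∂(0 : Measure (E n)) := by
    intro i φ hφ
    have h0 : φ (a i) = 0 := hφ.eq_zero (by simp [hΩdef])
    have h1 := hc φ hφ.smooth hφ.cpt (a i)
    have h2 := pot_laplacian hn (ω i) hc hφ.smooth hφ.cpt
    rw [h0, mul_zero] at h1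
    rw [integral_zero_measure, sub_zero, integral_smul_measure, ENNReal.toReal_ofReal hc0.le,
      smul_eq_mul]
    have h3 : ∫ x, v i x * (Δ φ) x = (∫ x, (newton (a i) x).toReal * (Δ φ) x) -
        ∫ x, (pot (ω i) x).toReal * (Δ φ) x := by
      rw [← integral_sub (hφ.integrable_lap_loc (locInt_of_compact fun K hK =>
        newton_locIntegrable hn (a i) K hK)) (hφ.integrable_lap_loc (locInt_of_compact
        fun K hK => pot_locIntegrable hn (ω i) K hK))]
      exact integral_congr_ae (Eventually.of_forall fun x => by simp only [v]; ring)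
    rw [h3, h1, h2]; ring
  have hfs : ∀ μ : Measure (E n), IsFiniteMeasure μ → IsFiniteMeasure (ENNReal.ofReal c • μ) := by
    intro μ hμ
    exact ⟨by
      rw [Measure.smul_apply, smul_eq_mul]
      exact ENNReal.mul_lt_top ENNReal.ofReal_lt_top (measure_lt_top _ _)⟩
  have hf1 := hfs κ hκfin
  have hf2 := fun i => hfs (ω i) (hfin i)
  have key := fun (B K : Set (E n)) (hB : MeasurableSet B) (hK : IsCompact K) (hBK : B ⊆ K)
    (hKΩ : K ⊆ Ω) => claim_loc (n := n) (by omega) hΩ hv hv0 hd (ENNReal.ofReal c • κ) 0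
    (fun i => ENNReal.ofReal c • ω i) (fun _ => 0) (hfo _) finOn_zero (fun i => hfo _)
    (fun _ => finOn_zero) hlap
    (fun i φ hφ hφ0 => by
      simp only [integral_zero_measure, sub_zero]
      refine integral_mono_measure ?_ (Eventually.of_forall hφ0) (hφ.integrable _)
      refine Measure.le_iff.2 fun s hs => ?_
      rw [Measure.smul_apply, Measure.smul_apply, smul_eq_mul, smul_eq_mul]
      gcongr
      exact hκle i) hB hK hBK hKΩ
  have hκK : ∀ K : Set (E n), IsCompact K → K ⊆ Ω → κ K = 0 := by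
    intro K hK hKΩ
    have := key K K hK.measurableSet hK subset_rfl hKΩ
    rw [Measure.smul_apply, smul_eq_mul, Measure.coe_zero, Pi.zero_apply, nonpos_iff_eq_zero,
      mul_eq_zero] at this
    rcases this with h | h
    · exact absurd (ENNReal.ofReal_eq_zero.1 h) (not_le.2 hc0)
    · exact h
  have hκΩ : κ Ω = 0 := by
    rw [hΩ.measure_eq_iSup_isCompact]
    simp only [ENNReal.iSup_eq_zero]
    exact fun K hKΩ hK => hκK K hK hKΩ
  have hκa : ∀ i, κ {a i} = 0 := by
    intro i
    obtain ⟨j, hj⟩ : ∃ j : Fin 3, j ≠ i := exists_ne i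
    exact le_antisymm ((hκle j {a i}).trans ((hω j).singleton hn (hne j i hj)).le) bot_le
  have hκr : κ (Set.range a) = 0 := by
    rw [← Set.iUnion_singleton_eq_range]
    exact measure_iUnion_null hκa
  refine Measure.measure_univ_eq_zero.1 ?_
  rw [← Set.union_compl_self (Set.range a)]
  exact measure_union_null hκr hκΩ

end Pool.Agent.Helper486.TP
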