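import Pool.Agent.Helper486.TP.Transl
import Pool.Agent.Helper486.TP.Basic

/-! # The maximum of two functions whose Laplacian dominates a measure -/

set_option autoImplicit false

open MeasureTheory Set Filter Topology Metric
open scoped InnerProductSpace ContDiff Laplacian

namespace Pool.Agent.Helper486.TP







/-! ### directional derivatives -/

/-- directional derivative -/
noncomputable def mxD {n : ℕ} (e : E n) (f : E n → ℝ) : E n → ℝ := fun x => fderiv ℝ f x e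

theorem mxD_smooth {n : ℕ} {f : E n → ℝ} (hf : ContDiff ℝ ∞ f) (e : E n) :
    ContDiff ℝ ∞ (mxD e f) :=
  (hf.fderiv_right (m := ∞) (by simp)).clm_apply contDiff_const

theorem mxD_cpt {n : ℕ} {f : E n → ℝ} (hf : HasCompactSupport f) (e : E n) :
    HasCompactSupport (mxD e f) := hf.fderiv_apply ℝ e

/-- the standard basis -/
noncomputable def mxb (n : ℕ) : OrthonormalBasis (Fin n) ℝ (E n) := EuclideanSpace.basisFun (Fin n) ℝ

theorem mx_lap {n : ℕ} {f : E n → ℝ} (hf : ContDiff ℝ ∞ f) (x : E n) :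
    (Δ f) x = ∑ i, mxD (mxb n i) (mxD (mxb n i) f) x := by
  rw [InnerProductSpace.laplacian_eq_iteratedFDeriv_orthonormalBasis f (mxb n)]
  refine Finset.sum_congr rfl fun i _ => ?_
  rw [iteratedFDeriv_two_apply]
  have hd : DifferentiableAt ℝ (fderiv ℝ f) x :=
    ((hf.fderiv_right (m := ∞) (by simp)).differentiable (by simp)) x
  have h := fderiv_clm_apply (𝕜 := ℝ) (c := fderiv ℝ f) (u := fun _ => mxb n i) hd
    (differentiableAt_const _)
  show _ = fderiv ℝ (fun y => fderiv ℝ f y (mxb n i)) x (mxb n i)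
  rw [h]
  simp

theorem mx_lap_cont {n : ℕ} {f : E n → ℝ} (hf : ContDiff ℝ ∞ f) : Continuous (Δ f) := by
  have h : Δ f = fun x => ∑ i, mxD (mxb n i) (mxD (mxb n i) f) x := funext fun x => mx_lap hf x
  rw [h]
  exact continuous_finsetSum _ fun i _ => (mxD_smooth (mxD_smooth hf _) _).continuous

theorem mx_lap_cpt {n : ℕ} {f : E n → ℝ} (hf : ContDiff ℝ ∞ f) (hc : HasCompactSupport f) :
    HasCompactSupport (Δ f) := by
  refine HasCompactSupport.of_support_subset_isCompact hc (fun x hx => ?_)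
  by_contra hxs
  apply hx
  have h0 : f =ᶠ[𝓝 x] fun _ => 0 := notMem_tsupport_iff_eventuallyEq.1 hxs
  have h1 : ∀ e : E n, mxD e f =ᶠ[𝓝 x] fun _ => 0 := by
    intro e
    have h2 := h0.fderiv (𝕜 := ℝ)
    filter_upwards [h2] with y hy
    simp only [mxD, hy]
    simp
  rw [mx_lap hf]
  refine Finset.sum_eq_zero fun i _ => ?_
  unfold mxD
  have h3 := (h1 (mxb n i)).fderiv_eq (𝕜 := ℝ)
  unfold mxD at h3
  rw [h3]
  simp

/-- reflection -/
theorem mxD_refl {n : ℕ} {f : E n → ℝ} (hf : ContDiff ℝ ∞ f) (e x : E n) :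
    mxD e (fun z => f (x - z)) = fun z => - mxD e f (x - z) := by
  funext z
  have h1 : HasFDerivAt f (fderiv ℝ f (x - z)) (x - z) :=
    (hf.differentiable (by simp) (x - z)).hasFDerivAt
  have h2 : HasFDerivAt (fun z : E n => x - z) (-(ContinuousLinearMap.id ℝ (E n))) z :=
    (hasFDerivAt_id z).const_sub x
  have h3 := (h1.comp z h2).fderiv
  show fderiv ℝ (f ∘ fun z => x - z) z e = _
  rw [h3]
  simp [mxD]

theorem mx_smooth_refl {n : ℕ} {f : E n → ℝ} (hf : ContDiff ℝ ∞ f) (x : E n) :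
    ContDiff ℝ ∞ (fun z => f (x - z)) := hf.comp (contDiff_const.sub contDiff_id)

theorem mx_lap_refl {n : ℕ} {f : E n → ℝ} (hf : ContDiff ℝ ∞ f) (x z : E n) :
    (Δ (fun z => f (x - z))) z = (Δ f) (x - z) := by
  rw [mx_lap (mx_smooth_refl hf x), mx_lap hf]
  refine Finset.sum_congr rfl fun i _ => ?_
  rw [mxD_refl hf]
  have h := mxD_refl (mxD_smooth hf (mxb n i)) (mxb n i) x
  have h2 : mxD (mxb n i) (fun z => -mxD (mxb n i) f (x - z)) z =
      - mxD (mxb n i) (fun z => mxD (mxb n i) f (x - z)) z := by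
    unfold mxD
    rw [fderiv_fun_neg]
    rfl
  rw [h2, h]
  simp

/-! ### convolution -/

/-- convolution -/
noncomputable def mxcv {n : ℕ} (g ρ : E n → ℝ) (x : E n) : ℝ := ∫ t, g t * ρ (x - t)

theorem mxcv_eq {n : ℕ} (g ρ : E n → ℝ) :
    mxcv g ρ = convolution g ρ (ContinuousLinearMap.mul ℝ ℝ) volume := by
  funext x
  rfl

theorem mxcv_smooth {n : ℕ} {g ρ : E n → ℝ} (hg : Integrable g) (hρ : ContDiff ℝ ∞ ρ)
    (hc : HasCompactSupport ρ) : ContDiff ℝ ∞ (mxcv g ρ) := by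
  rw [mxcv_eq]
  exact hc.contDiff_convolution_right _ hg.locallyIntegrable hρ

theorem mxcv_D {n : ℕ} {g ρ : E n → ℝ} (hg : Integrable g) (hρ : ContDiff ℝ ∞ ρ)
    (hc : HasCompactSupport ρ) (e : E n) : mxD e (mxcv g ρ) = mxcv g (mxD e ρ) := by
  funext x
  have h1 := (hc.hasFDerivAt_convolution_right (𝕜 := ℝ) (μ := volume)
    (ContinuousLinearMap.mul ℝ ℝ) hg.locallyIntegrable (hρ.of_le (by simp)) x).fderiv
  rw [mxcv_eq g (mxD e ρ)]
  unfold mxD
  rw [mxcv_eq g ρ, h1]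
  exact convolution_precompR_apply (𝕜 := ℝ) (μ := volume) (ContinuousLinearMap.mul ℝ ℝ)
    hg.locallyIntegrable (hc.fderiv ℝ) ((hρ.fderiv_right (m := ∞) (by simp)).continuous) x e

theorem mx_int_mul {n : ℕ} {g ψ : E n → ℝ} (hg : Integrable g) (hψ : Continuous ψ)
    (hc : HasCompactSupport ψ) (x : E n) : Integrable (fun t => g t * ψ (x - t)) := by
  obtain ⟨C, hC⟩ := hc.exists_bound_of_continuous hψ
  exact hg.mul_bdd (hψ.comp (continuous_const.sub continuous_id)).aestronglyMeasurable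
    (Eventually.of_forall fun t => hC (x - t))

theorem mx_lap_cv {n : ℕ} {g ρ : E n → ℝ} (hg : Integrable g) (hρ : ContDiff ℝ ∞ ρ)
    (hc : HasCompactSupport ρ) (x : E n) :
    (Δ (mxcv g ρ)) x = ∫ t, g t * (Δ ρ) (x - t) := by
  rw [mx_lap (mxcv_smooth hg hρ hc)]
  have h1 : ∀ i, mxD (mxb n i) (mxD (mxb n i) (mxcv g ρ)) x =
      ∫ t, g t * mxD (mxb n i) (mxD (mxb n i) ρ) (x - t) := by
    intro i
    rw [mxcv_D hg hρ hc, mxcv_D hg (mxD_smooth hρ _) (mxD_cpt hc _)]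
    rfl
  simp only [h1]
  rw [← integral_finsetSum]
  · refine integral_congr_ae (Eventually.of_forall fun t => ?_)
    simp only [mx_lap hρ, Finset.mul_sum]
  · intro i _
    exact mx_int_mul hg (mxD_smooth (mxD_smooth hρ _) _).continuous (mxD_cpt (mxD_cpt hc _) _) x

/-! ### Green -/

theorem mx_ibp {n : ℕ} {S φ : E n → ℝ} (hS : ContDiff ℝ ∞ S) (hφ : ContDiff ℝ ∞ φ)
    (hc : HasCompactSupport φ) (e : E n) :
    ∫ x, S x * mxD e φ x = - ∫ x, mxD e S x * φ x := by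
  refine integral_mul_fderiv_eq_neg_fderiv_mul_of_integrable ?_ ?_ ?_ ?_ ?_
  · exact ((mxD_smooth hS e).continuous.mul hφ.continuous).integrable_of_hasCompactSupport
      hc.mul_left
  · exact (hS.continuous.mul (mxD_smooth hφ e).continuous).integrable_of_hasCompactSupport
      (mxD_cpt hc e).mul_left
  · exact (hS.continuous.mul hφ.continuous).integrable_of_hasCompactSupport hc.mul_left
  · exact fun x _ => hS.differentiable (by simp) x
  · exact fun x _ => hφ.differentiable (by simp) x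

theorem mx_green {n : ℕ} {S φ : E n → ℝ} (hS : ContDiff ℝ ∞ S) (hφ : ContDiff ℝ ∞ φ)
    (hc : HasCompactSupport φ) : ∫ x, S x * (Δ φ) x = ∫ x, (Δ S) x * φ x := by
  have h1 : ∀ i, ∫ x, S x * mxD (mxb n i) (mxD (mxb n i) φ) x =
      ∫ x, mxD (mxb n i) (mxD (mxb n i) S) x * φ x := by
    intro i
    rw [mx_ibp hS (mxD_smooth hφ _) (mxD_cpt hc _), mx_ibp (mxD_smooth hS _) hφ hc, neg_neg]
  simp only [mx_lap hφ, mx_lap hS, Finset.mul_sum, Finset.sum_mul]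
  rw [integral_finsetSum, integral_finsetSum]
  · exact Finset.sum_congr rfl fun i _ => h1 i
  · intro i _
    exact ((mxD_smooth (mxD_smooth hS _) _).continuous.mul
      hφ.continuous).integrable_of_hasCompactSupport hc.mul_left
  · intro i _
    exact (hS.continuous.mul (mxD_smooth (mxD_smooth hφ _) _).continuous
      ).integrable_of_hasCompactSupport (mxD_cpt (mxD_cpt hc _) _).mul_left


/-! ### smooth maximum -/

/-- smooth positive part -/
noncomputable def mxh (t u : ℝ) : ℝ := (u + √(u ^ 2 + t ^ 2)) / 2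

noncomputable def mxh1 (t u : ℝ) : ℝ := (1 + u / √(u ^ 2 + t ^ 2)) / 2

noncomputable def mxh2 (t u : ℝ) : ℝ := t ^ 2 / (√(u ^ 2 + t ^ 2) * (u ^ 2 + t ^ 2)) / 2

theorem mx_pos {t : ℝ} (ht : 0 < t) (u : ℝ) : 0 < u ^ 2 + t ^ 2 := by positivity

theorem mxh_smooth {t : ℝ} (ht : 0 < t) : ContDiff ℝ ∞ (mxh t) :=
  (contDiff_id.add (((contDiff_id.pow 2).add contDiff_const).sqrt
    (fun u => (mx_pos ht u).ne'))).div_const 2

theorem mxh_deriv {t : ℝ} (ht : 0 < t) (u : ℝ) : HasDerivAt (mxh t) (mxh1 t u) u := by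
  have h1 : HasDerivAt (fun u : ℝ => u ^ 2 + t ^ 2) (2 * u) u := by
    simpa using (hasDerivAt_pow 2 u).add_const (t ^ 2)
  have h2 := h1.sqrt (mx_pos ht u).ne'
  have h3 := ((hasDerivAt_id u).add h2).div_const 2
  refine HasDerivAt.congr_deriv h3 ?_
  unfold mxh1
  have : √(u ^ 2 + t ^ 2) ≠ 0 := (Real.sqrt_pos.2 (mx_pos ht u)).ne'
  field_simp

theorem mxh1_deriv {t : ℝ} (ht : 0 < t) (u : ℝ) : HasDerivAt (mxh1 t) (mxh2 t u) u := by
  have h1 : HasDerivAt (fun u : ℝ => u ^ 2 + t ^ 2) (2 * u) u := by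
    simpa using (hasDerivAt_pow 2 u).add_const (t ^ 2)
  have h2 := h1.sqrt (mx_pos ht u).ne'
  have hs : √(u ^ 2 + t ^ 2) ≠ 0 := (Real.sqrt_pos.2 (mx_pos ht u)).ne'
  have h3 := (((hasDerivAt_id u).div h2 hs).const_add 1).div_const 2
  refine HasDerivAt.congr_deriv h3 ?_
  unfold mxh2
  have hsq : √(u ^ 2 + t ^ 2) ^ 2 = u ^ 2 + t ^ 2 := Real.sq_sqrt (mx_pos ht u).le
  have hne := (mx_pos ht u).ne'
  simp only [id]
  field_simp
  rw [hsq]
  ring

theorem mxh1_mem {t : ℝ} (ht : 0 < t) (u : ℝ) : 0 ≤ mxh1 t u ∧ mxh1 t u ≤ 1 := by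
  have hs : 0 < √(u ^ 2 + t ^ 2) := Real.sqrt_pos.2 (mx_pos ht u)
  have h1 : |u| ≤ √(u ^ 2 + t ^ 2) := Real.abs_le_sqrt (by nlinarith [sq_nonneg t])
  have h2 := abs_le.1 h1
  have h3 : u / √(u ^ 2 + t ^ 2) ≤ 1 := by rw [div_le_one hs]; exact h2.2
  have h4 : -1 ≤ u / √(u ^ 2 + t ^ 2) := by rw [le_div_iff₀ hs]; linarith [h2.1]
  unfold mxh1
  constructor <;> linarith

theorem mxh2_nonneg {t : ℝ} (ht : 0 < t) (u : ℝ) : 0 ≤ mxh2 t u := by
  unfold mxh2
  have := mx_pos ht u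
  positivity

theorem mxh_near {t : ℝ} (ht : 0 < t) (u : ℝ) : |mxh t u - max u 0| ≤ t := by
  have h1 : |u| ≤ √(u ^ 2 + t ^ 2) := Real.abs_le_sqrt (by nlinarith [sq_nonneg t])
  have h2 : √(u ^ 2 + t ^ 2) ≤ |u| + t := by
    rw [Real.sqrt_le_left (by positivity)]
    have := sq_abs u
    nlinarith [abs_nonneg u]
  have h3 : max u 0 = (u + |u|) / 2 := by
    rcases le_total 0 u with h | h
    · rw [max_eq_left h, abs_of_nonneg h]; ring
    · rw [max_eq_right h, abs_of_nonpos h]; ring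
  rw [h3, abs_le]
  unfold mxh
  constructor <;> linarith

/-- smooth maximum of two functions -/
noncomputable def mxS {n : ℕ} (t : ℝ) (G₁ G₂ : E n → ℝ) (x : E n) : ℝ :=
  G₂ x + mxh t (G₁ x - G₂ x)

theorem mxS_smooth {n : ℕ} {t : ℝ} (ht : 0 < t) {G₁ G₂ : E n → ℝ} (h₁ : ContDiff ℝ ∞ G₁)
    (h₂ : ContDiff ℝ ∞ G₂) : ContDiff ℝ ∞ (mxS t G₁ G₂) :=
  h₂.add ((mxh_smooth ht).comp (h₁.sub h₂))

theorem mxS_near {n : ℕ} {t : ℝ} (ht : 0 < t) (G₁ G₂ : E n → ℝ) (x : E n) :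
    |mxS t G₁ G₂ x - max (G₁ x) (G₂ x)| ≤ t := by
  have h := mxh_near ht (G₁ x - G₂ x)
  have h2 : max (G₁ x) (G₂ x) = G₂ x + max (G₁ x - G₂ x) 0 := by
    rcases le_total (G₁ x) (G₂ x) with h | h
    · rw [max_eq_right h, max_eq_right (by linarith)]; ring
    · rw [max_eq_left h, max_eq_left (by linarith)]; ring
  rw [h2]
  have h3 : mxS t G₁ G₂ x - (G₂ x + max (G₁ x - G₂ x) 0) =
      mxh t (G₁ x - G₂ x) - max (G₁ x - G₂ x) 0 := by unfold mxS; ring
  rw [h3]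
  exact h

theorem mxS_D {n : ℕ} {t : ℝ} (ht : 0 < t) {G₁ G₂ : E n → ℝ} (h₁ : ContDiff ℝ ∞ G₁)
    (h₂ : ContDiff ℝ ∞ G₂) (e x : E n) : mxD e (mxS t G₁ G₂) x =
      mxD e G₂ x + mxh1 t (G₁ x - G₂ x) * (mxD e G₁ x - mxD e G₂ x) := by
  have d1 := (h₁.differentiable (by simp) x).hasFDerivAt
  have d2 := (h₂.differentiable (by simp) x).hasFDerivAt
  have h3 := (mxh_deriv ht (G₁ x - G₂ x)).comp_hasFDerivAt x (d1.sub d2)
  have h4 := (d2.add h3).fderiv
  have h5 : mxD e (mxS t G₁ G₂) x = fderiv ℝ (G₂ + mxh t ∘ fun x => G₁ x - G₂ x) x e := rfl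
  have h6 : (G₂ + mxh t ∘ (G₁ - G₂)) = (G₂ + mxh t ∘ fun x => G₁ x - G₂ x) := rfl
  rw [h5]
  rw [h6] at h4
  rw [h4]
  simp [mxD]

theorem mxS_DD {n : ℕ} {t : ℝ} (ht : 0 < t) {G₁ G₂ : E n → ℝ} (h₁ : ContDiff ℝ ∞ G₁)
    (h₂ : ContDiff ℝ ∞ G₂) (e x : E n) : mxD e (mxD e (mxS t G₁ G₂)) x =
      mxD e (mxD e G₂) x + (mxh2 t (G₁ x - G₂ x) * (mxD e G₁ x - mxD e G₂ x) ^ 2 +
        mxh1 t (G₁ x - G₂ x) * (mxD e (mxD e G₁) x - mxD e (mxD e G₂) x)) := by
  have hfun : mxD e (mxS t G₁ G₂) = fun x =>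
      mxD e G₂ x + mxh1 t (G₁ x - G₂ x) * (mxD e G₁ x - mxD e G₂ x) :=
    funext fun x => mxS_D ht h₁ h₂ e x
  have d1 := (h₁.differentiable (by simp) x).hasFDerivAt
  have d2 := (h₂.differentiable (by simp) x).hasFDerivAt
  have e1 := ((mxD_smooth h₁ e).differentiable (by simp) x).hasFDerivAt
  have e2 := ((mxD_smooth h₂ e).differentiable (by simp) x).hasFDerivAt
  have h3 : HasFDerivAt (fun x => mxh1 t (G₁ x - G₂ x))
      (mxh2 t (G₁ x - G₂ x) • (fderiv ℝ G₁ x - fderiv ℝ G₂ x)) x :=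
    HasDerivAt.comp_hasFDerivAt (h₂ := mxh1 t) (f := fun x => G₁ x - G₂ x) x
      (mxh1_deriv ht (G₁ x - G₂ x)) (d1.sub d2)
  have h4 := (e2.add (h3.mul (e1.sub e2))).fderiv
  rw [hfun]
  have h5 : mxD e (fun x => mxD e G₂ x + mxh1 t (G₁ x - G₂ x) * (mxD e G₁ x - mxD e G₂ x)) x =
    fderiv ℝ (mxD e G₂ + (fun x => mxh1 t (G₁ x - G₂ x)) * (mxD e G₁ - mxD e G₂)) x e := rfl
  have h6 : fderiv ℝ (mxD e G₂ + (fun x => mxh1 t (G₁ x - G₂ x)) * (mxD e G₁ - mxD e G₂)) x =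
    fderiv ℝ (mxD e G₂) x + (mxh1 t (G₁ x - G₂ x) • (fderiv ℝ (mxD e G₁) x - fderiv ℝ (mxD e G₂) x) +
      (mxD e G₁ x - mxD e G₂ x) • (mxh2 t (G₁ x - G₂ x) • (fderiv ℝ G₁ x - fderiv ℝ G₂ x))) := h4
  rw [h5, h6]
  simp only [mxD, ContinuousLinearMap.add_apply, ContinuousLinearMap.smul_apply,
    ContinuousLinearMap.sub_apply, smul_eq_mul]
  ring

theorem mxS_lap {n : ℕ} {t : ℝ} (ht : 0 < t) {G₁ G₂ : E n → ℝ} (h₁ : ContDiff ℝ ∞ G₁)
    (h₂ : ContDiff ℝ ∞ G₂) (x : E n) (M : ℝ) (hM1 : M ≤ (Δ G₁) x) (hM2 : M ≤ (Δ G₂) x) :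
    M ≤ (Δ (mxS t G₁ G₂)) x := by
  have hsum : (Δ (mxS t G₁ G₂)) x = (Δ G₂) x +
      (mxh2 t (G₁ x - G₂ x) * (∑ i, (mxD (mxb n i) G₁ x - mxD (mxb n i) G₂ x) ^ 2) +
        mxh1 t (G₁ x - G₂ x) * ((Δ G₁) x - (Δ G₂) x)) := by
    rw [mx_lap (mxS_smooth ht h₁ h₂), mx_lap h₁, mx_lap h₂]
    simp only [mxS_DD ht h₁ h₂]
    rw [Finset.sum_add_distrib, Finset.sum_add_distrib, ← Finset.mul_sum, ← Finset.mul_sum,
      Finset.sum_sub_distrib]
  rw [hsum]
  have h0 := mxh2_nonneg ht (G₁ x - G₂ x)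
  have h3 : 0 ≤ ∑ i, (mxD (mxb n i) G₁ x - mxD (mxb n i) G₂ x) ^ 2 :=
    Finset.sum_nonneg fun i _ => sq_nonneg _
  have h4 := mul_nonneg h0 h3
  obtain ⟨h5, h6⟩ := mxh1_mem ht (G₁ x - G₂ x)
  have h7 : 0 ≤ mxh1 t (G₁ x - G₂ x) * ((Δ G₁) x - M) := mul_nonneg h5 (by linarith)
  have h8 : 0 ≤ (1 - mxh1 t (G₁ x - G₂ x)) * ((Δ G₂) x - M) := mul_nonneg (by linarith) (by linarith)
  nlinarith


/-! ### mollifiers -/

/-- mollifier -/
structure Mxk {n : ℕ} (δ : ℝ) (ρ : E n → ℝ) : Prop where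
  smooth : ContDiff ℝ ∞ ρ
  nn : ∀ x, 0 ≤ ρ x
  one : ∫ x, ρ x = 1
  supp : ∀ x, δ ≤ ‖x‖ → ρ x = 0

theorem Mxk.cpt {n : ℕ} {δ : ℝ} {ρ : E n → ℝ} (h : Mxk δ ρ) : HasCompactSupport ρ := by
  refine HasCompactSupport.of_support_subset_isCompact (isCompact_closedBall (0 : E n) δ) ?_
  intro x hx
  rw [mem_closedBall_zero_iff]
  by_contra hc
  exact hx (h.supp x (by linarith [not_le.1 hc]))

theorem Mxk.int {n : ℕ} {δ : ℝ} {ρ : E n → ℝ} (h : Mxk δ ρ) : Integrable ρ :=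
  h.smooth.continuous.integrable_of_hasCompactSupport h.cpt

theorem mxk_exists {n : ℕ} {δ : ℝ} (hδ : 0 < δ) : ∃ ρ : E n → ℝ, Mxk δ ρ := by
  let f : ContDiffBump (0 : E n) := ⟨δ / 2, δ, by linarith, by linarith⟩
  refine ⟨f.normed volume, ⟨f.contDiff_normed, fun x => f.nonneg_normed x, f.integral_normed, ?_⟩⟩
  intro x hx
  have h1 : x ∉ Function.support (f.normed volume) := by
    rw [f.support_normed_eq]
    intro hc
    rw [mem_ball_zero_iff] at hc
    exact absurd hc (not_lt.2 hx)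
  simpa using h1

theorem mx_prod_int {n : ℕ} {φ ρ : E n → ℝ} (hφ : Continuous φ) (hc : HasCompactSupport φ)
    (hρ : Continuous ρ) (hρc : HasCompactSupport ρ) (A : Measure (E n)) [IsFiniteMeasure A] :
    Integrable (fun p : E n × E n => φ p.1 * ρ (p.1 - p.2)) (volume.prod A) := by
  obtain ⟨C, hC⟩ := hρc.exists_bound_of_continuous hρ
  have h1 : Integrable (fun p : E n × E n => φ p.1 * 1) (volume.prod A) :=
    (hφ.integrable_of_hasCompactSupport hc).mul_prod (integrable_const (1 : ℝ))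
  have h2 := h1.mul_bdd (c := C) (g := fun p : E n × E n => ρ (p.1 - p.2))
    (hρ.comp (continuous_fst.sub continuous_snd)).aestronglyMeasurable
    (Eventually.of_forall fun p => hC (p.1 - p.2))
  simpa using h2

theorem mx_meas {n : ℕ} {δ : ℝ} {φ ρ : E n → ℝ} (hφ : Continuous φ) (hc : HasCompactSupport φ)
    (hk : Mxk δ ρ) (A : Measure (E n)) [IsFiniteMeasure A] {η : ℝ}
    (hη : ∀ x y, dist x y < δ → |φ x - φ y| ≤ η) :
    |(∫ x, φ x * (∫ z, ρ (x - z) ∂A)) - ∫ z, φ z ∂A| ≤ η * A.real univ := by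
  have hF := mx_prod_int hφ hc hk.smooth.continuous hk.cpt A
  have h1 : (∫ x, φ x * (∫ z, ρ (x - z) ∂A)) = ∫ z, (∫ x, φ x * ρ (x - z)) ∂A := by
    have h2 := integral_integral_swap (f := fun x z => φ x * ρ (x - z)) (μ := volume) (ν := A) hF
    rw [← h2]
    refine integral_congr_ae (Eventually.of_forall fun x => ?_)
    exact (integral_const_mul _ _).symm
  have hi : Integrable (fun z => ∫ x, φ x * ρ (x - z)) A := hF.integral_prod_right
  obtain ⟨C, hC⟩ := hc.exists_bound_of_continuous hφ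
  have hi2 : Integrable φ A :=
    Integrable.mono' (integrable_const C) hφ.aestronglyMeasurable (Eventually.of_forall hC)
  rw [h1, ← integral_sub hi hi2]
  have hz : ∀ z, ‖(∫ x, φ x * ρ (x - z)) - φ z‖ ≤ η := by
    intro z
    have hρz : Integrable (fun x => ρ (x - z)) := hk.int.comp_sub_right z
    have h3 : ∫ x, φ z * ρ (x - z) = φ z := by
      rw [integral_const_mul, integral_sub_right_eq_self (fun x => ρ x) z, hk.one, mul_one]
    have h4 : Integrable (fun x => φ x * ρ (x - z)) :=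
      hρz.bdd_mul hφ.aestronglyMeasurable (Eventually.of_forall hC)
    have h5 : (∫ x, φ x * ρ (x - z)) - φ z = ∫ x, (φ x - φ z) * ρ (x - z) := by
      conv_lhs => rw [← h3]
      rw [← integral_sub h4 (hρz.const_mul _)]
      refine integral_congr_ae (Eventually.of_forall fun x => ?_)
      show φ x * ρ (x - z) - φ z * ρ (x - z) = _
      ring
    rw [h5]
    have h6 : ∫ x, η * ρ (x - z) = η := by
      rw [integral_const_mul, integral_sub_right_eq_self (fun x => ρ x) z, hk.one, mul_one]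
    conv_rhs => rw [← h6]
    refine norm_integral_le_of_norm_le (hρz.const_mul η) (Eventually.of_forall fun x => ?_)
    rw [norm_mul, Real.norm_eq_abs, Real.norm_of_nonneg (hk.nn _)]
    by_cases hx : dist x z < δ
    · exact mul_le_mul_of_nonneg_right (hη x z hx) (hk.nn _)
    · have : ρ (x - z) = 0 := hk.supp _ (by rw [← dist_eq_norm]; exact not_lt.1 hx)
      simp [this]
  have := norm_integral_le_of_norm_le_const (μ := A) (Eventually.of_forall hz)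
  simpa [Real.norm_eq_abs] using this

theorem mx_L1 {n : ℕ} {g : E n → ℝ} (hg : Integrable g) {η : ℝ} (hη : 0 < η) :
    ∃ δ₀ > 0, ∀ δ, δ ≤ δ₀ → ∀ ρ : E n → ℝ, Mxk δ ρ →
      Integrable (fun x => mxcv g ρ x - g x) ∧ ∫ x, |mxcv g ρ x - g x| ≤ η := by
  have ht := translation_continuous g hg
  rw [Metric.tendsto_nhds_nhds] at ht
  obtain ⟨δ₀, hδ₀, hd⟩ := ht η hη
  refine ⟨δ₀, hδ₀, fun δ hδ ρ hk => ?_⟩
  have hK1 : Integrable (fun p : E n × E n => ρ p.2 * g (p.1 - p.2)) (volume.prod volume) :=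
    Integrable.convolution_integrand (μ := volume) (ν := volume) (ContinuousLinearMap.mul ℝ ℝ)
      hk.int hg
  have hK2 : Integrable (fun p : E n × E n => g p.1 * ρ p.2) (volume.prod volume) :=
    hg.mul_prod hk.int
  have hK : Integrable (fun p : E n × E n => (g (p.1 - p.2) - g p.1) * ρ p.2)
      (volume.prod volume) := by
    refine (hK1.sub hK2).congr (Eventually.of_forall fun p => ?_)
    simp only [Pi.sub_apply]
    ring
  obtain ⟨C, hC⟩ := hk.cpt.exists_bound_of_continuous hk.smooth.continuous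
  have hx : ∀ x, mxcv g ρ x - g x = ∫ s, (g (x - s) - g x) * ρ s := by
    intro x
    have h1 : mxcv g ρ x = ∫ s, g (x - s) * ρ s := by
      unfold mxcv
      have := integral_sub_left_eq_self (fun s => g s * ρ (x - s)) volume x
      rw [← this]
      refine integral_congr_ae (Eventually.of_forall fun s => ?_)
      simp
    have h2 : ∫ s, g x * ρ s = g x := by rw [integral_const_mul, hk.one, mul_one]
    have h3 : Integrable (fun s => g (x - s) * ρ s) :=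
      (hg.comp_sub_left x).mul_bdd hk.smooth.continuous.aestronglyMeasurable
        (Eventually.of_forall hC)
    rw [h1]
    conv_lhs => rw [← h2]
    rw [← integral_sub h3 (hk.int.const_mul _)]
    refine integral_congr_ae (Eventually.of_forall fun s => ?_)
    show g (x - s) * ρ s - g x * ρ s = _
    ring
  have hfun : (fun x => mxcv g ρ x - g x) = fun x => ∫ s, (g (x - s) - g x) * ρ s := funext hx
  refine ⟨by rw [hfun]; exact hK.integral_prod_left, ?_⟩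
  simp only [hx]
  have hKn := hK.norm
  calc ∫ x, |∫ s, (g (x - s) - g x) * ρ s|
      ≤ ∫ x, ∫ s, ‖(g (x - s) - g x) * ρ s‖ := by
        refine integral_mono (by exact hK.integral_prod_left.norm)
          (by exact hKn.integral_prod_left) fun x => ?_
        exact norm_integral_le_integral_norm (μ := volume) (fun s => (g (x - s) - g x) * ρ s)
    _ = ∫ s, ∫ x, ‖(g (x - s) - g x) * ρ s‖ :=
        integral_integral_swap (f := fun x s => ‖(g (x - s) - g x) * ρ s‖) hKn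
    _ ≤ ∫ s, η * ρ s := by
        refine integral_mono (by exact hKn.integral_prod_right) (hk.int.const_mul η) fun s => ?_
        show (∫ x, ‖(g (x - s) - g x) * ρ s‖) ≤ η * ρ s
        simp only [norm_mul, Real.norm_eq_abs, abs_of_nonneg (hk.nn s)]
        rw [integral_mul_const]
        by_cases hs : ‖s‖ < δ
        · have h1 := hd (x := -s) (by simpa using lt_of_lt_of_le hs hδ)
          rw [Real.dist_eq, sub_zero] at h1
          have h2 := (le_abs_self _).trans h1.le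
          refine mul_le_mul_of_nonneg_right ?_ (hk.nn s)
          simpa [sub_eq_add_neg] using h2
        · rw [hk.supp s (not_lt.1 hs)]; simp
    _ = η := by rw [integral_const_mul, hk.one, mul_one]

/-- one step -/
theorem mx_step {n : ℕ} (U : Set (E n)) (hU : IsOpen U)
    (g₁ g₂ : E n → ℝ) (h₁ : Integrable g₁) (h₂ : Integrable g₂)
    (A B : Measure (E n)) [IsFiniteMeasure A] [IsFiniteMeasure B]
    (hg₁ : ∀ φ, TestOn U φ → (∀ x, 0 ≤ φ x) →
      ∫ x, φ x ∂A - ∫ x, φ x ∂B ≤ ∫ x, g₁ x * (Δ φ) x)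
    (hg₂ : ∀ φ, TestOn U φ → (∀ x, 0 ≤ φ x) →
      ∫ x, φ x ∂A - ∫ x, φ x ∂B ≤ ∫ x, g₂ x * (Δ φ) x)
    (φ : E n → ℝ) (hφ : TestOn U φ) (h0 : ∀ x, 0 ≤ φ x) (C : ℝ) (hC : ∀ x, ‖(Δ φ) x‖ ≤ C)
    {η : ℝ} (hη : 0 < η) :
    ∫ x, φ x ∂A - ∫ x, φ x ∂B ≤ (∫ x, max (g₁ x) (g₂ x) * (Δ φ) x) +
      η * ((∫ x, |(Δ φ) x|) + 2 * C + A.real univ + B.real univ) := by
  obtain ⟨d1, hd1, hL1⟩ := mx_L1 h₁ hη
  obtain ⟨d2, hd2, hL2⟩ := mx_L1 h₂ hη
  have hu := hφ.cpt.uniformContinuous_of_continuous hφ.smooth.continuous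
  rw [Metric.uniformContinuous_iff] at hu
  obtain ⟨d3, hd3, hL3⟩ := hu η hη
  obtain ⟨d4, hd4, hL4⟩ := hφ.cpt.exists_cthickening_subset_open hU hφ.sub
  obtain ⟨δ, hδ, hδ1, hδ2, hδ3, hδ4⟩ : ∃ δ : ℝ, 0 < δ ∧ δ ≤ d1 ∧ δ ≤ d2 ∧ δ ≤ d3 ∧ δ ≤ d4 := by
    refine ⟨min (min d1 d2) (min d3 d4), by positivity, ?_, ?_, ?_, ?_⟩
    · exact (min_le_left _ _).trans (min_le_left _ _)
    · exact (min_le_left _ _).trans (min_le_right _ _)
    · exact (min_le_right _ _).trans (min_le_left _ _)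
    · exact (min_le_right _ _).trans (min_le_right _ _)
  obtain ⟨ρ, hk⟩ := mxk_exists (n := n) hδ
  obtain ⟨i1, b1⟩ := hL1 δ hδ1 ρ hk
  obtain ⟨i2, b2⟩ := hL2 δ hδ2 ρ hk
  have hm : ∀ x y, dist x y < δ → |φ x - φ y| ≤ η := fun x y hxy =>
    (hL3 (lt_of_lt_of_le hxy hδ3)).le
  have bA := mx_meas hφ.smooth.continuous hφ.cpt hk A hm
  have bB := mx_meas hφ.smooth.continuous hφ.cpt hk B hm
  have hFA := (mx_prod_int hφ.smooth.continuous hφ.cpt hk.smooth.continuous hk.cpt A).integral_prod_left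
  have hFB := (mx_prod_int hφ.smooth.continuous hφ.cpt hk.smooth.continuous hk.cpt B).integral_prod_left
  simp only [integral_const_mul] at hFA hFB
  -- the test functions
  have hψ : ∀ x ∈ tsupport φ, TestOn U (fun z => ρ (x - z)) := by
    intro x hx
    have hsub : tsupport (fun z => ρ (x - z)) ⊆ closedBall x δ := by
      refine closure_minimal ?_ isClosed_closedBall
      intro z hz
      rw [mem_closedBall, dist_comm, dist_eq_norm]
      by_contra hc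
      exact hz (hk.supp _ (not_le.1 hc).le)
    refine ⟨mx_smooth_refl hk.smooth x, ?_, ?_⟩
    · exact (isCompact_closedBall x δ).of_isClosed_subset (isClosed_tsupport _) hsub
    · refine hsub.trans (((closedBall_subset_closedBall hδ4).trans ?_).trans hL4)
      exact closedBall_subset_cthickening hx d4
  have hM1 : ∀ x ∈ tsupport φ, ∫ z, ρ (x - z) ∂A - ∫ z, ρ (x - z) ∂B ≤ (Δ (mxcv g₁ ρ)) x := by
    intro x hx
    have h := hg₁ _ (hψ x hx) fun z => hk.nn _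
    rw [mx_lap_cv h₁ hk.smooth hk.cpt]
    simpa only [mx_lap_refl hk.smooth] using h
  have hM2 : ∀ x ∈ tsupport φ, ∫ z, ρ (x - z) ∂A - ∫ z, ρ (x - z) ∂B ≤ (Δ (mxcv g₂ ρ)) x := by
    intro x hx
    have h := hg₂ _ (hψ x hx) fun z => hk.nn _
    rw [mx_lap_cv h₂ hk.smooth hk.cpt]
    simpa only [mx_lap_refl hk.smooth] using h
  have s1 := mxcv_smooth h₁ hk.smooth hk.cpt
  have s2 := mxcv_smooth h₂ hk.smooth hk.cpt
  have hS := mxS_smooth hη s1 s2
  set S := mxS η (mxcv g₁ ρ) (mxcv g₂ ρ) with hSdef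
  have hMS : (∫ x, φ x * (∫ z, ρ (x - z) ∂A)) - (∫ x, φ x * (∫ z, ρ (x - z) ∂B)) ≤
      ∫ x, S x * (Δ φ) x := by
    rw [mx_green hS hφ.smooth hφ.cpt, ← integral_sub hFA hFB]
    refine integral_mono (hFA.sub hFB) (((mx_lap_cont hS).mul
      hφ.smooth.continuous).integrable_of_hasCompactSupport hφ.cpt.mul_left) fun x => ?_
    show φ x * (∫ z, ρ (x - z) ∂A) - φ x * (∫ z, ρ (x - z) ∂B) ≤ (Δ S) x * φ x
    by_cases hx : x ∈ tsupport φ
    · have h := mxS_lap hη s1 s2 x _ (hM1 x hx) (hM2 x hx)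
      have h' := mul_le_mul_of_nonneg_right h (h0 x)
      linarith
    · have : φ x = 0 := image_eq_zero_of_notMem_tsupport hx
      simp [this]
  have hlapI : Integrable (fun x => |(Δ φ) x|) :=
    ((mx_lap_cont hφ.smooth).integrable_of_hasCompactSupport (mx_lap_cpt hφ.smooth hφ.cpt)).norm
  have hmaxI : Integrable (fun x => max (g₁ x) (g₂ x) * (Δ φ) x) :=
    (h₁.sup h₂).mul_bdd (mx_lap_cont hφ.smooth).aestronglyMeasurable (Eventually.of_forall hC)
  have hSI : Integrable (fun x => S x * (Δ φ) x) :=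
    (hS.continuous.mul (mx_lap_cont hφ.smooth)).integrable_of_hasCompactSupport
      (mx_lap_cpt hφ.smooth hφ.cpt).mul_left
  have hfin : ∫ x, S x * (Δ φ) x ≤ ∫ x, (max (g₁ x) (g₂ x) * (Δ φ) x + (η * |(Δ φ) x| +
      C * (|mxcv g₁ ρ x - g₁ x| + |mxcv g₂ ρ x - g₂ x|))) := by
    refine integral_mono hSI (hmaxI.add ((hlapI.const_mul η).add ((i1.abs.add i2.abs).const_mul C)))
      fun x => ?_
    show S x * (Δ φ) x ≤ max (g₁ x) (g₂ x) * (Δ φ) x + (η * |(Δ φ) x| +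
      C * (|mxcv g₁ ρ x - g₁ x| + |mxcv g₂ ρ x - g₂ x|))
    have e1 := mxS_near hη (mxcv g₁ ρ) (mxcv g₂ ρ) x
    rw [← hSdef] at e1
    have e2 : |max (mxcv g₁ ρ x) (mxcv g₂ ρ x) - max (g₁ x) (g₂ x)| ≤
        |mxcv g₁ ρ x - g₁ x| + |mxcv g₂ ρ x - g₂ x| := by
      refine (abs_max_sub_max_le_max _ _ _ _).trans (max_le ?_ ?_)
      · linarith [abs_nonneg (mxcv g₂ ρ x - g₂ x)]
      · linarith [abs_nonneg (mxcv g₁ ρ x - g₁ x)]
    have e3 : |S x - max (g₁ x) (g₂ x)| ≤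
        η + (|mxcv g₁ ρ x - g₁ x| + |mxcv g₂ ρ x - g₂ x|) := by
      have := abs_add_le (S x - max (mxcv g₁ ρ x) (mxcv g₂ ρ x))
        (max (mxcv g₁ ρ x) (mxcv g₂ ρ x) - max (g₁ x) (g₂ x))
      rw [sub_add_sub_cancel] at this
      linarith
    have e4 : (S x - max (g₁ x) (g₂ x)) * (Δ φ) x ≤
        |S x - max (g₁ x) (g₂ x)| * |(Δ φ) x| := by
      rw [← abs_mul]; exact le_abs_self _
    have e5 := mul_le_mul_of_nonneg_right e3 (abs_nonneg ((Δ φ) x))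
    have e6 : |(Δ φ) x| ≤ C := hC x
    have e7 : (|mxcv g₁ ρ x - g₁ x| + |mxcv g₂ ρ x - g₂ x|) * |(Δ φ) x| ≤
        (|mxcv g₁ ρ x - g₁ x| + |mxcv g₂ ρ x - g₂ x|) * C :=
      mul_le_mul_of_nonneg_left e6 (by positivity)
    nlinarith
  have hsum : ∫ x, (max (g₁ x) (g₂ x) * (Δ φ) x + (η * |(Δ φ) x| +
      C * (|mxcv g₁ ρ x - g₁ x| + |mxcv g₂ ρ x - g₂ x|))) =
      (∫ x, max (g₁ x) (g₂ x) * (Δ φ) x) + (η * (∫ x, |(Δ φ) x|) +
      C * ((∫ x, |mxcv g₁ ρ x - g₁ x|) + (∫ x, |mxcv g₂ ρ x - g₂ x|))) := by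
    have j1 : Integrable (fun x => C * (|mxcv g₁ ρ x - g₁ x| + |mxcv g₂ ρ x - g₂ x|)) :=
      (i1.abs.add i2.abs).const_mul C
    have j2 : Integrable (fun x => η * |(Δ φ) x| +
      C * (|mxcv g₁ ρ x - g₁ x| + |mxcv g₂ ρ x - g₂ x|)) := (hlapI.const_mul η).add j1
    rw [integral_add hmaxI j2, integral_add (hlapI.const_mul η) j1,
      integral_const_mul, integral_const_mul, integral_add i1.abs i2.abs]
  rw [hsum] at hfin
  have hC0 : 0 ≤ C := (norm_nonneg _).trans (hC 0)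
  have hCb : C * ((∫ x, |mxcv g₁ ρ x - g₁ x|) + (∫ x, |mxcv g₂ ρ x - g₂ x|)) ≤ C * (η + η) :=
    mul_le_mul_of_nonneg_left (add_le_add b1 b2) hC0
  have a1 := (abs_le.1 bA).1
  have a2 := (abs_le.1 bB).2
  nlinarith

/-- **Target M.** If two integrable functions have distributional Laplacian `≥ A - B` on `U`, then
so has their maximum. -/
theorem max_lemma {n : ℕ} (hn : 0 < n) (K : Kernel n) (U : Set (E n)) (hU : IsOpen U)
    (g₁ g₂ : E n → ℝ) (h₁ : Integrable g₁) (h₂ : Integrable g₂)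
    (A B : Measure (E n)) [IsFiniteMeasure A] [IsFiniteMeasure B]
    (hg₁ : ∀ φ, TestOn U φ → (∀ x, 0 ≤ φ x) →
      ∫ x, φ x ∂A - ∫ x, φ x ∂B ≤ ∫ x, g₁ x * (Δ φ) x)
    (hg₂ : ∀ φ, TestOn U φ → (∀ x, 0 ≤ φ x) →
      ∫ x, φ x ∂A - ∫ x, φ x ∂B ≤ ∫ x, g₂ x * (Δ φ) x) :
    ∀ φ, TestOn U φ → (∀ x, 0 ≤ φ x) →
      ∫ x, φ x ∂A - ∫ x, φ x ∂B ≤ ∫ x, max (g₁ x) (g₂ x) * (Δ φ) x := by
  intro φ hφ h0
  obtain ⟨C, hC⟩ := (mx_lap_cpt hφ.smooth hφ.cpt).exists_bound_of_continuous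
    (mx_lap_cont hφ.smooth)
  have hC0 : 0 ≤ C := (norm_nonneg _).trans (hC 0)
  set D := (∫ x, |(Δ φ) x|) + 2 * C + A.real univ + B.real univ with hD
  have hD0 : 0 ≤ D := by
    have : 0 ≤ ∫ x, |(Δ φ) x| := integral_nonneg fun x => abs_nonneg _
    positivity
  refine le_of_forall_pos_le_add fun ε hε => ?_
  have h := mx_step U hU g₁ g₂ h₁ h₂ A B hg₁ hg₂ φ hφ h0 C hC (η := ε / (D + 1)) (by positivity)
  refine h.trans (add_le_add_right ?_ _)
  rw [← hD, div_mul_eq_mul_div, div_le_iff₀ (by positivity)]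
  nlinarith

end Pool.Agent.Helper486.TP
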