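import Pool.Agent.Helper486.TP.Defs

/-! # Nonnegative distributions are measures -/

set_option autoImplicit false

open MeasureTheory Set Filter Topology Metric
open scoped InnerProductSpace ContDiff Laplacian

namespace Pool.Agent.Helper486.TP




section helpers

open scoped CompactlySupported

lemma TestOn.zero' {n : ℕ} (U : Set (E n)) : TestOn U (fun _ => (0 : ℝ)) where
  smooth := contDiff_const
  cpt := by
    have h : (fun _ : E n => (0 : ℝ)) = 0 := rfl
    rw [h]
    exact HasCompactSupport.zero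
  sub := by
    have h : (fun _ : E n => (0 : ℝ)) = 0 := rfl
    rw [h, tsupport, Function.support_zero, closure_empty]
    exact empty_subset _

lemma TestOn.add' {n : ℕ} {U : Set (E n)} {φ ψ : E n → ℝ} (h1 : TestOn U φ) (h2 : TestOn U ψ) :
    TestOn U (fun x => φ x + ψ x) where
  smooth := h1.smooth.add h2.smooth
  cpt := h1.cpt.add h2.cpt
  sub := (tsupport_add φ ψ).trans (union_subset h1.sub h2.sub)

lemma TestOn.smul' {n : ℕ} {U : Set (E n)} {φ : E n → ℝ} (c : ℝ) (h1 : TestOn U φ) :
    TestOn U (fun x => c * φ x) where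
  smooth := contDiff_const.mul h1.smooth
  cpt := h1.cpt.mul_left
  sub := (tsupport_mul_subset_right (f := fun _ => c) (g := φ)).trans h1.sub

lemma exists_cutoff_cpt {n : ℕ} {U : Set (E n)} (hU : IsOpen U) {K : Set (E n)} (hK : IsCompact K)
    (hKU : K ⊆ U) : ∃ χ : E n → ℝ, TestOn U χ ∧ (∀ x, 0 ≤ χ x) ∧ ∀ x ∈ K, χ x = 1 := by
  obtain ⟨L, hL, hKL, hLU⟩ := exists_compact_between hK hU hKU
  obtain ⟨f, hf1, hf2, hf3, hf4⟩ := exists_contMDiff_support_eq_eq_one_iff (n := ⊤)
    (modelWithCornersSelf ℝ (E n)) (s := interior L) (t := K) isOpen_interior hK.isClosed hKL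
  have hts : tsupport f ⊆ L := by
    rw [tsupport, hf3]
    exact closure_minimal interior_subset hL.isClosed
  refine ⟨f, ⟨hf1.contDiff, hL.of_isClosed_subset (isClosed_tsupport f) hts, hts.trans hLU⟩,
    fun x => (hf2 (mem_range_self x)).1, fun x hx => (hf4 x).1 hx⟩

open Classical in
/-- extension by zero -/
noncomputable def ext0 {n : ℕ} (U : Set (E n)) (f : ↥U → ℝ) : E n → ℝ :=
  fun x => if h : x ∈ U then f ⟨x, h⟩ else 0

lemma ext0_add {n : ℕ} (U : Set (E n)) (f g : ↥U → ℝ) :
    ext0 U (fun x => f x + g x) = fun x => ext0 U f x + ext0 U g x := by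
  funext x
  by_cases h : x ∈ U <;> simp [ext0, h]

lemma ext0_smul {n : ℕ} (U : Set (E n)) (c : ℝ) (f : ↥U → ℝ) :
    ext0 U (fun x => c * f x) = fun x => c * ext0 U f x := by
  funext x
  by_cases h : x ∈ U <;> simp [ext0, h]

lemma ext0_zero {n : ℕ} (U : Set (E n)) :
    ext0 U (fun _ => (0 : ℝ)) = fun _ => 0 := by
  funext x
  by_cases h : x ∈ U <;> simp [ext0, h]

lemma ext0_nonneg {n : ℕ} (U : Set (E n)) (f : ↥U → ℝ) (hf : ∀ x, 0 ≤ f x) (x : E n) :
    0 ≤ ext0 U f x := by
  by_cases h : x ∈ U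
  · simpa [ext0, h] using hf ⟨x, h⟩
  · simp [ext0, h]

lemma ext0_test {n : ℕ} {U : Set (E n)} {φ : E n → ℝ} (h : TestOn U φ) :
    ext0 U (fun x => φ x) = φ := by
  funext x
  by_cases hx : x ∈ U
  · simp [ext0, hx]
  · have h0 : φ x = 0 := image_eq_zero_of_notMem_tsupport (fun h' => hx (h.sub h'))
    simp [ext0, hx, h0]

lemma TestOn.hcs {n : ℕ} {U : Set (E n)} {φ : E n → ℝ} (h : TestOn U φ) :
    HasCompactSupport (fun x : ↥U => φ x) := by
  refine HasCompactSupport.intro (K := Subtype.val ⁻¹' (tsupport φ)) ?_ ?_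
  · rw [Subtype.isCompact_iff, Subtype.image_preimage_coe, inter_eq_right.2 h.sub]
    exact h.cpt
  · intro x hx
    exact image_eq_zero_of_notMem_tsupport hx

/-- restriction of a test function -/
noncomputable def resT {n : ℕ} {U : Set (E n)} {φ : E n → ℝ} (h : TestOn U φ) : C_c(↥U, ℝ) where
  toFun := fun x => φ x
  continuous_toFun := h.smooth.continuous.comp continuous_subtype_val
  hasCompactSupport' := h.hcs

/-- the domain of the functional -/
noncomputable def domT {n : ℕ} (U : Set (E n)) : Submodule ℝ C_c(↥U, ℝ) where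
  carrier := {f | TestOn U (ext0 U f)}
  add_mem' := by
    intro f g hf hg
    have h : ext0 U (⇑(f + g)) = fun x => ext0 U f x + ext0 U g x := ext0_add U f g
    show TestOn U (ext0 U (⇑(f + g)))
    rw [h]
    exact hf.add' hg
  zero_mem' := by
    have h : ext0 U (⇑(0 : C_c(↥U, ℝ))) = fun _ => 0 := ext0_zero U
    show TestOn U (ext0 U (⇑(0 : C_c(↥U, ℝ))))
    rw [h]
    exact TestOn.zero' U
  smul_mem' := by
    intro c f hf
    have h : ext0 U (⇑(c • f)) = fun x => c * ext0 U f x := ext0_smul U c f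
    show TestOn U (ext0 U (⇑(c • f)))
    rw [h]
    exact hf.smul' c

/-- the nonnegative cone -/
noncomputable def posC (X : Type) [TopologicalSpace X] : PointedCone ℝ C_c(X, ℝ) where
  carrier := {f | ∀ x, 0 ≤ f x}
  add_mem' := by
    intro f g hf hg x
    have h : (f + g) x = f x + g x := rfl
    rw [h]
    exact add_nonneg (hf x) (hg x)
  zero_mem' := by
    intro x
    exact le_rfl
  smul_mem' := by
    intro c f hf x
    have h : (c • f) x = (c : ℝ) * f x := rfl
    rw [h]
    exact mul_nonneg c.2 (hf x)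

end helpers


/-- **Target R.** A nonnegative distribution on an open set is a Radon measure. -/
theorem positive_distribution {n : ℕ} (U : Set (E n)) (hU : IsOpen U) (T : (E n → ℝ) → ℝ)
    (hadd : ∀ φ ψ, TestOn U φ → TestOn U ψ → T (fun x => φ x + ψ x) = T φ + T ψ)
    (hsmul : ∀ (c : ℝ) (φ : E n → ℝ), TestOn U φ → T (fun x => c * φ x) = c * T φ)
    (hpos : ∀ φ, TestOn U φ → (∀ x, 0 ≤ φ x) → 0 ≤ T φ) :
    ∃ Q : Measure (E n), (∀ K : Set (E n), IsCompact K → K ⊆ U → Q K < ⊤) ∧ Q Uᶜ = 0 ∧
      ∀ φ, TestOn U φ → ∫ x, φ x ∂Q = T φ := by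
  classical
  have : LocallyCompactSpace ↥U := hU.locallyCompactSpace
  -- the functional on the domain
  let F : (CompactlySupportedContinuousMap ↥U ℝ) →ₗ.[ℝ] ℝ :=
    { domain := domT U
      toFun :=
        { toFun := fun f => T (ext0 U (⇑(f : CompactlySupportedContinuousMap ↥U ℝ)))
          map_add' := by
            intro f g
            have h : ext0 U (⇑((f + g : ↥(domT U)) : CompactlySupportedContinuousMap ↥U ℝ)) =
              fun x => ext0 U (⇑(f : CompactlySupportedContinuousMap ↥U ℝ)) x + ext0 U (⇑(g : CompactlySupportedContinuousMap ↥U ℝ)) x :=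
              ext0_add U _ _
            rw [h]
            exact hadd _ _ f.2 g.2
          map_smul' := by
            intro c f
            have h : ext0 U (⇑((c • f : ↥(domT U)) : CompactlySupportedContinuousMap ↥U ℝ)) =
              fun x => c * ext0 U (⇑(f : CompactlySupportedContinuousMap ↥U ℝ)) x :=
              ext0_smul U _ _
            rw [h]
            exact hsmul _ _ f.2 } }
  obtain ⟨g, hg1, hg2⟩ := riesz_extension (posC ↥U) F (by
    intro x hx
    exact hpos _ x.2 (fun y => ext0_nonneg U _ hx y)) (by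
    intro y
    obtain ⟨M, hM⟩ := y.hasCompactSupport.exists_bound_of_continuous y.continuous
    have hK : IsCompact ((Subtype.val : ↥U → E n) '' (tsupport y)) :=
      y.hasCompactSupport.isCompact.image continuous_subtype_val
    obtain ⟨χ, hχ1, hχ2, hχ3⟩ := exists_cutoff_cpt hU hK (by
      rintro _ ⟨x, -, rfl⟩
      exact x.2)
    refine ⟨⟨resT (hχ1.smul' |M|), ?_⟩, ?_⟩
    · show TestOn U (ext0 U _)
      have h : ext0 U (⇑(resT (hχ1.smul' |M|))) = fun x => |M| * χ x := ext0_test (hχ1.smul' |M|)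
      rw [h]
      exact hχ1.smul' |M|
    · intro x
      have h : (resT (hχ1.smul' |M|) + y) x = |M| * χ x + y x := rfl
      show 0 ≤ (resT (hχ1.smul' |M|) + y) x
      rw [h]
      by_cases hx : x ∈ tsupport y
      · rw [hχ3 x ⟨x, hx, rfl⟩, mul_one]
        have h1 := hM x
        have h2 := le_abs_self M
        have h3 := neg_abs_le (y x)
        rw [Real.norm_eq_abs] at h1
        linarith
      · rw [image_eq_zero_of_notMem_tsupport hx, add_zero]
        exact mul_nonneg (abs_nonneg _) (hχ2 x))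
  let Λ : CompactlySupportedContinuousMap ↥U ℝ →ₚ[ℝ] ℝ := PositiveLinearMap.mk₀ g (fun x hx => hg2 x (fun y => hx y))
  have hreg : (RealRMK.rieszMeasure Λ).Regular := inferInstance
  refine ⟨(RealRMK.rieszMeasure Λ).map Subtype.val, ?_, ?_, ?_⟩
  · intro K hK hKU
    rw [Measure.map_apply measurable_subtype_coe hK.measurableSet]
    refine IsCompact.measure_lt_top ?_
    rw [Subtype.isCompact_iff, Subtype.image_preimage_coe, inter_eq_right.2 hKU]
    exact hK
  · rw [Measure.map_apply measurable_subtype_coe hU.measurableSet.compl]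
    have h : (Subtype.val : ↥U → E n) ⁻¹' Uᶜ = ∅ := by
      ext x
      simp
    rw [h, measure_empty]
  · intro φ hφ
    rw [integral_map measurable_subtype_coe.aemeasurable
      hφ.smooth.continuous.aestronglyMeasurable]
    have h1 : ∫ x : ↥U, φ x ∂(RealRMK.rieszMeasure Λ) = Λ (resT hφ) :=
      RealRMK.integral_rieszMeasure Λ (resT hφ)
    rw [h1]
    have h2 : ext0 U (⇑(resT hφ)) = φ := ext0_test hφ
    have hmem : resT hφ ∈ domT U := by
      show TestOn U (ext0 U _)
      rw [h2]
      exact hφ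
    have h3 : g (resT hφ) = F ⟨resT hφ, hmem⟩ := hg1 ⟨resT hφ, hmem⟩
    have h4 : F ⟨resT hφ, hmem⟩ = T (ext0 U (⇑(resT hφ))) := rfl
    have h5 : Λ (resT hφ) = g (resT hφ) := rfl
    rw [h5, h3, h4, h2]

end Pool.Agent.Helper486.TP
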