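import Pool.Agent.Helper486.TP.Claim
import Pool.Agent.Helper486.TP.PosDist
import Pool.Agent.Helper486.TP.Max

/-! # Localization, minima of δ-subharmonic functions, and the inequality for finite families -/

set_option autoImplicit false

open MeasureTheory Set Filter Topology Metric
open scoped InnerProductSpace ContDiff Laplacian ENNReal

namespace Pool.Agent.Helper486.TP

variable {n : ℕ} {U V Ω : Set (E n)} {φ ψ : E n → ℝ}

/-- `μ` is finite on compact subsets of `Ω`. -/
def FinOn (Ω : Set (E n)) (μ : Measure (E n)) : Prop :=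
  ∀ K : Set (E n), IsCompact K → K ⊆ Ω → μ K < ⊤

theorem FinOn.add {μ ν : Measure (E n)} (h : FinOn Ω μ) (h' : FinOn Ω ν) : FinOn Ω (μ + ν) :=
  fun K hK hKΩ => by
    rw [Measure.add_apply]; exact ENNReal.add_lt_top.2 ⟨h K hK hKΩ, h' K hK hKΩ⟩

theorem FinOn.isFinite {μ : Measure (E n)} (h : FinOn Ω μ) {K : Set (E n)} (hK : IsCompact K)
    (hKΩ : K ⊆ Ω) : IsFiniteMeasure (μ.restrict K) :=
  ⟨by rw [Measure.restrict_apply_univ]; exact h K hK hKΩ⟩

theorem TestOn.eq_zero (h : TestOn U φ) {x : E n} (hx : x ∉ U) : φ x = 0 :=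
  image_eq_zero_of_notMem_tsupport fun h' => hx (h.sub h')

theorem TestOn.lap_eq_zero (h : TestOn U φ) {x : E n} (hx : x ∉ U) : (Δ φ) x = 0 := by
  have h1 : x ∉ tsupport φ := fun h' => hx (h.sub h')
  have h2 : iteratedFDeriv ℝ 2 φ x = 0 := by
    have := notMem_tsupport_iff_eventuallyEq.1 h1
    have h3 := this.iteratedFDeriv (𝕜 := ℝ) 2
    have h4 := h3.eq_of_nhds
    rw [h4]
    exact congrFun (iteratedFDeriv_zero_fun (𝕜 := ℝ) (E := E n) (F := ℝ) (n := 2)) x
  rw [lap_eq]
  simp [h2]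

theorem TestOn.setInt (h : TestOn U φ) {K : Set (E n)} (hK : MeasurableSet K) (hUK : U ⊆ K)
    (μ : Measure (E n)) : ∫ x, φ x ∂(μ.restrict K) = ∫ x, φ x ∂μ := by
  refine setIntegral_eq_integral_of_forall_compl_eq_zero fun x hx => h.eq_zero fun h' => hx (hUK h')

theorem TestOn.ind (h : TestOn U φ) {K : Set (E n)} (hUK : U ⊆ K) (f : E n → ℝ) (x : E n) :
    K.indicator f x * (Δ φ) x = f x * (Δ φ) x := by
  by_cases hx : x ∈ U
  · rw [indicator_of_mem (hUK hx)]
  · rw [h.lap_eq_zero hx]; simp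

theorem TestOn.integrable_fin (h : TestOn Ω φ) {μ : Measure (E n)} (hμ : FinOn Ω μ) :
    Integrable φ μ := by
  have h1 : Integrable φ (μ.restrict (tsupport φ)) := by
    have := hμ.isFinite h.cpt.isCompact h.sub
    exact h.integrable _
  have h2 : IntegrableOn φ (tsupport φ) μ := h1
  exact (integrableOn_iff_integrable_of_support_subset (subset_tsupport φ)).1 h2

theorem TestOn.integrable_lap_loc (h : TestOn Ω φ) {f : E n → ℝ} (hf : LocallyIntegrableOn f Ω) :
    Integrable (fun x => f x * (Δ φ) x) := by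
  have h1 : IntegrableOn f (tsupport φ) := hf.integrableOn_compact_subset h.sub h.cpt.isCompact
  have h2 : Integrable ((tsupport φ).indicator f) :=
    (integrable_indicator_iff (isClosed_tsupport φ).measurableSet).2 h1
  have h3 := h.integrable_mul_lap h2
  have h4 : TestOn (tsupport φ) φ := ⟨h.smooth, h.cpt, subset_rfl⟩
  refine h3.congr (Eventually.of_forall fun x => ?_)
  exact h4.ind subset_rfl f x

/-- The main claim, local version. -/
theorem claim_loc (hn : 0 < n) (hΩ : IsOpen Ω) {v : Fin 3 → E n → ℝ}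
    (hv : ∀ k, LocallyIntegrableOn (v k) Ω)
    (hv0 : ∀ k, ∀ᵐ x ∂(volume : Measure (E n)), x ∈ Ω → 0 ≤ v k x)
    (hd : ∀ i j, i ≠ j → ∀ᵐ x ∂(volume : Measure (E n)), x ∈ Ω → v i x = 0 ∨ v j x = 0)
    (σp σn : Measure (E n)) (P N : Fin 3 → Measure (E n))
    (hσp : FinOn Ω σp) (hσn : FinOn Ω σn) (hP : ∀ k, FinOn Ω (P k)) (hN : ∀ k, FinOn Ω (N k))
    (hlap : ∀ k φ, TestOn Ω φ →
      ∫ x, v k x * (Δ φ) x = (∫ x, φ x ∂(P k)) - ∫ x, φ x ∂(N k))
    (hσ : ∀ k φ, TestOn Ω φ → (∀ x, 0 ≤ φ x) →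
      (∫ x, φ x ∂σp) - (∫ x, φ x ∂σn) ≤ (∫ x, φ x ∂(P k)) - ∫ x, φ x ∂(N k))
    {B K : Set (E n)} (hB : MeasurableSet B) (hK : IsCompact K) (hBK : B ⊆ K) (hKΩ : K ⊆ Ω) :
    σp B ≤ σn B := by
  obtain ⟨L, hL, hKL, hLΩ⟩ := exists_compact_between hK hΩ hKΩ
  have hLm : MeasurableSet L := hL.measurableSet
  have hint : interior L ⊆ L := interior_subset
  have := hσp.isFinite hL hLΩ
  have := hσn.isFinite hL hLΩ
  have := fun k => (hP k).isFinite hL hLΩ
  have := fun k => (hN k).isFinite hL hLΩ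
  have key := claim_finite (U := interior L) hn isOpen_interior
    (v := fun k x => L.indicator (fun y => |v k y|) x)
    (fun k => (integrable_indicator_iff hLm).2
      ((hv k).integrableOn_compact_subset hLΩ hL).abs)
    (fun k x => indicator_nonneg (fun y _ => abs_nonneg _) x)
    (fun i j hij => by
      filter_upwards [hd i j hij] with x hx
      by_cases hxL : x ∈ L
      · rcases hx (hLΩ hxL) with h | h
        · left; simp [h]
        · right; simp [h]
      · left; simp [hxL])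
    (σp.restrict L) (σn.restrict L) (fun k => (P k).restrict L) (fun k => (N k).restrict L)
    (fun k φ hφ => by
      rw [hφ.setInt hLm hint, hφ.setInt hLm hint, ← hlap k φ (hφ.mono (hint.trans hLΩ))]
      refine integral_congr_ae ?_
      filter_upwards [hv0 k] with x hx
      rw [hφ.ind hint]
      by_cases hxL : x ∈ interior L
      · simp only [abs_of_nonneg (hx (hLΩ (hint hxL)))]
      · rw [hφ.lap_eq_zero hxL]; simp)
    (fun k φ hφ hφ0 => by
      rw [hφ.setInt hLm hint, hφ.setInt hLm hint, hφ.setInt hLm hint, hφ.setInt hLm hint]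
      exact hσ k φ (hφ.mono (hint.trans hLΩ)) hφ0)
    B hB (hBK.trans hKL)
  have hBL : B ∩ L = B := inter_eq_left.2 ((hBK.trans hKL).trans hint)
  rwa [Measure.restrict_apply hB, Measure.restrict_apply hB, hBL] at key

/-- `f` is locally integrable on `Ω` with distributional Laplacian the signed Radon measure
`P - N`. -/
structure HasLap (Ω : Set (E n)) (f : E n → ℝ) (P N : Measure (E n)) : Prop where
  int : LocallyIntegrableOn f Ω
  finP : FinOn Ω P
  finN : FinOn Ω N
  lap : ∀ φ, TestOn Ω φ → ∫ x, f x * (Δ φ) x = (∫ x, φ x ∂P) - ∫ x, φ x ∂N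

/-- test functions are controlled by measures -/
theorem int_le_of_sets {α β : Measure (E n)} (hα : FinOn Ω α) (hβ : FinOn Ω β)
    (h : ∀ B K : Set (E n), MeasurableSet B → IsCompact K → B ⊆ K → K ⊆ Ω → α B ≤ β B)
    (hφ : TestOn Ω φ) (hφ0 : ∀ x, 0 ≤ φ x) : ∫ x, φ x ∂α ≤ ∫ x, φ x ∂β := by
  have h4 : TestOn (tsupport φ) φ := ⟨hφ.smooth, hφ.cpt, subset_rfl⟩
  have hm : MeasurableSet (tsupport φ) := (isClosed_tsupport φ).measurableSet
  rw [← h4.setInt hm subset_rfl α, ← h4.setInt hm subset_rfl β]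
  have := hβ.isFinite hφ.cpt.isCompact hφ.sub
  refine integral_mono_measure ?_ (Eventually.of_forall hφ0) (h4.integrable _)
  refine Measure.le_iff.2 fun s hs => ?_
  rw [Measure.restrict_apply hs, Measure.restrict_apply hs]
  exact h _ _ (hs.inter hm) hφ.cpt.isCompact inter_subset_right hφ.sub

theorem three (hn : 0 < n) (hΩ : IsOpen Ω) {a b c : E n → ℝ}
    {P₀ N₀ P₁ N₁ P₂ N₂ P₃ N₃ : Measure (E n)}
    (hbc : HasLap Ω (fun x => min (b x) (c x)) P₀ N₀)
    (hac : HasLap Ω (fun x => min (a x) (c x)) P₁ N₁)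
    (hab : HasLap Ω (fun x => min (a x) (b x)) P₂ N₂)
    (habc : HasLap Ω (fun x => min (min (a x) (b x)) (c x)) P₃ N₃)
    {lp ln : Measure (E n)} (hlp : FinOn Ω lp) (hln : FinOn Ω ln)
    (h0 : ∀ φ, TestOn Ω φ → (∀ x, 0 ≤ φ x) →
      (∫ x, φ x ∂lp) - (∫ x, φ x ∂ln) ≤ ∫ x, min (b x) (c x) * (Δ φ) x)
    (h1 : ∀ φ, TestOn Ω φ → (∀ x, 0 ≤ φ x) →
      (∫ x, φ x ∂lp) - (∫ x, φ x ∂ln) ≤ ∫ x, min (a x) (c x) * (Δ φ) x)
    (h2 : ∀ φ, TestOn Ω φ → (∀ x, 0 ≤ φ x) →
      (∫ x, φ x ∂lp) - (∫ x, φ x ∂ln) ≤ ∫ x, min (a x) (b x) * (Δ φ) x) :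
    ∀ φ, TestOn Ω φ → (∀ x, 0 ≤ φ x) →
      (∫ x, φ x ∂lp) - (∫ x, φ x ∂ln) ≤ ∫ x, min (min (a x) (b x)) (c x) * (Δ φ) x := by
  intro φ hφ hφ0
  let u : E n → ℝ := fun x => min (min (a x) (b x)) (c x)
  let w : Fin 3 → E n → ℝ := ![fun x => min (b x) (c x), fun x => min (a x) (c x),
    fun x => min (a x) (b x)]
  let P : Fin 3 → Measure (E n) := ![P₀, P₁, P₂]
  let N : Fin 3 → Measure (E n) := ![N₀, N₁, N₂]
  have hw : ∀ k, HasLap Ω (w k) (P k) (N k) := by
    intro k
    fin_cases k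
    · exact hbc
    · exact hac
    · exact hab
  have hlw : ∀ k φ, TestOn Ω φ → (∀ x, 0 ≤ φ x) →
      (∫ x, φ x ∂lp) - (∫ x, φ x ∂ln) ≤ ∫ x, w k x * (Δ φ) x := by
    intro k
    fin_cases k
    · exact h0
    · exact h1
    · exact h2
  have hle : ∀ k x, u x ≤ w k x := by
    intro k x
    fin_cases k
    · show min (min (a x) (b x)) (c x) ≤ min (b x) (c x)
      exact min_le_min_right _ (min_le_right _ _)
    · show min (min (a x) (b x)) (c x) ≤ min (a x) (c x)
      exact min_le_min_right _ (min_le_left _ _)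
    · exact min_le_left _ _
  have hdis : ∀ i j, i ≠ j → ∀ x, w i x - u x = 0 ∨ w j x - u x = 0 := by
    have e0 : ∀ x, w 0 x = min (b x) (c x) := fun x => rfl
    have e1 : ∀ x, w 1 x = min (a x) (c x) := fun x => rfl
    have e2 : ∀ x, w 2 x = min (a x) (b x) := fun x => rfl
    have eu : ∀ x, u x = min (min (a x) (b x)) (c x) := fun x => rfl
    have h01 : ∀ x, w 0 x - u x = 0 ∨ w 1 x - u x = 0 := by
      intro x
      rw [e0, e1, eu]
      rcases le_total (a x) (b x) with h | h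
      · right; rw [min_eq_left h]; ring
      · left; rw [min_eq_right h]; ring
    have h02 : ∀ x, w 0 x - u x = 0 ∨ w 2 x - u x = 0 := by
      intro x
      rw [e0, e2, eu, min_assoc]
      rcases le_total (a x) (c x) with h | h
      · right
        rw [← min_assoc, min_eq_left ((min_le_left _ _).trans h)]; ring
      · left
        rw [min_eq_right ((min_le_right _ _).trans h)]; ring
    have h12 : ∀ x, w 1 x - u x = 0 ∨ w 2 x - u x = 0 := by
      intro x
      rw [e1, e2, eu]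
      rcases le_total (b x) (c x) with h | h
      · right
        rw [min_eq_left ((min_le_right _ _).trans h)]; ring
      · left
        rw [min_right_comm, min_eq_left ((min_le_right _ _).trans h)]; ring
    intro i j hij x
    fin_cases i <;> fin_cases j
    · exact absurd rfl hij
    · exact h01 x
    · exact h02 x
    · exact (h01 x).symm
    · exact absurd rfl hij
    · exact h12 x
    · exact (h02 x).symm
    · exact (h12 x).symm
    · exact absurd rfl hij
  have hsub : ∀ k φ, TestOn Ω φ → ∫ x, (w k x - u x) * (Δ φ) x =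
      (∫ x, w k x * (Δ φ) x) - ∫ x, u x * (Δ φ) x := by
    intro k φ hφ
    rw [← integral_sub (hφ.integrable_lap_loc (hw k).int) (hφ.integrable_lap_loc habc.int)]
    exact integral_congr_ae (Eventually.of_forall fun x => by ring)
  have hint2 : ∀ {μ ν : Measure (E n)}, FinOn Ω μ → FinOn Ω ν → ∀ φ, TestOn Ω φ →
      ∫ x, φ x ∂(μ + ν) = (∫ x, φ x ∂μ) + ∫ x, φ x ∂ν := by
    intro μ ν hμ hν φ hφ
    exact integral_add_measure (hφ.integrable_fin hμ) (hφ.integrable_fin hν)
  have key := fun (B K : Set (E n)) (hB : MeasurableSet B) (hK : IsCompact K) (hBK : B ⊆ K)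
    (hKΩ : K ⊆ Ω) => claim_loc hn hΩ (v := fun k x => w k x - u x)
    (fun k => (hw k).int.sub habc.int)
    (fun k => Eventually.of_forall fun x _ => sub_nonneg.2 (hle k x))
    (fun i j hij => Eventually.of_forall fun x _ => hdis i j hij x)
    (lp + N₃) (ln + P₃) (fun k => P k + N₃) (fun k => N k + P₃)
    (hlp.add habc.finN) (hln.add habc.finP) (fun k => (hw k).finP.add habc.finN)
    (fun k => (hw k).finN.add habc.finP)
    (fun k φ hφ => by
      rw [hsub k φ hφ, (hw k).lap φ hφ, hint2 (hw k).finP habc.finN φ hφ,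
        hint2 (hw k).finN habc.finP φ hφ]
      have := habc.lap φ hφ
      change (∫ x, u x * (Δ φ) x) = _ at this
      rw [this]; ring)
    (fun k φ hφ hφ0 => by
      rw [hint2 (hw k).finP habc.finN φ hφ, hint2 (hw k).finN habc.finP φ hφ,
        hint2 hlp habc.finN φ hφ, hint2 hln habc.finP φ hφ]
      have := hlw k φ hφ hφ0
      rw [(hw k).lap φ hφ] at this
      linarith) hB hK hBK hKΩ
  have h3 := int_le_of_sets (hlp.add habc.finN) (hln.add habc.finP)
    (fun B K hB hK hBK hKΩ => key B K hB hK hBK hKΩ) hφ hφ0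
  rw [hint2 hlp habc.finN φ hφ, hint2 hln habc.finP φ hφ] at h3
  rw [habc.lap φ hφ]
  linarith

end Pool.Agent.Helper486.TP
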