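import Pool.Agent.Helper486.TP.Defs

/-! # Subharmonic and δ-subharmonic functions, signed Radon measures, Riesz measures -/

set_option autoImplicit false

open MeasureTheory Set Filter Topology Metric
open scoped InnerProductSpace ContDiff Laplacian ENNReal

namespace Pool.Agent.Helper486.TP

/-- Subharmonic functions in a domain `Ω ⊆ ℝⁿ` (classical definition): `u : Ω → [-∞, ∞)` is upper
semicontinuous, not identically `-∞`, and for every closed ball contained in `Ω` the value of `u`
at the centre is at most the mean value of `u` over the ball. The integral of `u` over the ball is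
written as the integral of the positive part (finite, as `u` is bounded above on compact sets)
minus the integral of the negative part (possibly `∞`). -/
structure Subharmonic {n : ℕ} (Ω : Set (E n)) (u : E n → EReal) : Prop where
  usc : UpperSemicontinuousOn u Ω
  lt_top : ∀ x ∈ Ω, u x < ⊤
  ne_bot : ∃ x ∈ Ω, u x ≠ ⊥
  submean : ∀ (x : E n) (r : ℝ), 0 < r → closedBall x r ⊆ Ω →
    ((volume (ball x r) : ℝ≥0∞) : EReal) * u x ≤
      ((∫⁻ y in ball x r, (u y).toENNReal : ℝ≥0∞) : EReal) -
        ((∫⁻ y in ball x r, (-u y).toENNReal : ℝ≥0∞) : EReal)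

/-- Polar sets: near each of its points `Z` is contained in the `-∞`-set of some subharmonic
function (not identically `-∞`) on a ball. -/
def Polar {n : ℕ} (Z : Set (E n)) : Prop :=
  ∀ x ∈ Z, ∃ r > (0 : ℝ), ∃ u : E n → EReal, Subharmonic (ball x r) u ∧
    ∀ y ∈ Z ∩ ball x r, u y = ⊥

/-- `w` is δ-subharmonic in `Ω`: off some polar set, `w = u - v` with `u`, `v` subharmonic in `Ω`
(at the points of `Ω` off the polar set both `u` and `v` are finite). -/
def DeltaSubharmonic {n : ℕ} (Ω : Set (E n)) (w : E n → EReal) : Prop :=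
  ∃ (u v : E n → EReal) (Z : Set (E n)), Subharmonic Ω u ∧ Subharmonic Ω v ∧ Polar Z ∧
    ∀ x ∈ Ω \ Z, u x ≠ ⊥ ∧ v x ≠ ⊥ ∧ w x = u x - v x

/-- A signed Radon measure on the open set `Ω`, given as a difference `pos - neg` of two positive
Borel measures that are finite on the compact subsets of `Ω`. -/
structure SignedRadon {n : ℕ} (Ω : Set (E n)) where
  pos : Measure (E n)
  neg : Measure (E n)
  pos_lt_top : ∀ K : Set (E n), IsCompact K → K ⊆ Ω → pos K < ⊤
  neg_lt_top : ∀ K : Set (E n), IsCompact K → K ⊆ Ω → neg K < ⊤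

/-- The value `μ(B)` of a signed Radon measure (used for Borel sets `B` contained in a compact
subset of `Ω`). -/
noncomputable def SignedRadon.val {n : ℕ} {Ω : Set (E n)} (μ : SignedRadon Ω) (B : Set (E n)) : ℝ :=
  (μ.pos B).toReal - (μ.neg B).toReal

/-- The order of signed Radon measures on `Ω`: `μ ≤ ν` iff `μ(B) ≤ ν(B)` for every Borel set `B`
contained in a compact subset of `Ω`. -/
noncomputable instance {n : ℕ} {Ω : Set (E n)} : Preorder (SignedRadon Ω) where
  le μ ν := ∀ B K : Set (E n), MeasurableSet B → IsCompact K → B ⊆ K → K ⊆ Ω → μ.val B ≤ ν.val B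
  le_refl _ _ _ _ _ _ _ := le_rfl
  le_trans _ _ _ h h' B K hB hK hBK hKΩ := (h B K hB hK hBK hKΩ).trans (h' B K hB hK hBK hKΩ)

/-- `μ` is the Riesz measure `c Δ w` of `w` on `Ω`, where `Δ w` is taken in the sense of
distributions: `∫ φ dμ = c ∫ w Δφ` for every smooth `φ` with compact support in `Ω`. (As a function
in `L¹_loc(Ω)`, `w` is represented by `(w x).toReal`.) -/
def IsRiesz {n : ℕ} (c : ℝ) (Ω : Set (E n)) (w : E n → EReal) (μ : SignedRadon Ω) : Prop :=
  LocallyIntegrableOn (fun x => (w x).toReal) Ω ∧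
    ∀ φ : E n → ℝ, ContDiff ℝ ∞ φ → HasCompactSupport φ → tsupport φ ⊆ Ω →
      (∫ x, φ x ∂μ.pos) - (∫ x, φ x ∂μ.neg) = c * ∫ x, (w x).toReal * (Δ φ) x

end Pool.Agent.Helper486.TP
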