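import Pool.Agent.Helper486.TP.Defs

/-! # Continuity of translations in `L¹` -/

set_option autoImplicit false

open MeasureTheory Set Filter Topology Metric

namespace Pool.Agent.Helper486.TP

theorem translation_continuous {n : ℕ} (f : E n → ℝ) (hf : Integrable f) :
    Tendsto (fun y : E n => ∫ x, |f (x + y) - f x|) (𝓝 0) (𝓝 0) := by
  rw [Metric.tendsto_nhds]
  intro ε hε
  obtain ⟨g, hgc, hg, hgcont, hgi⟩ := hf.exists_hasCompactSupport_integral_sub_le
    (ε := ε / 4) (by positivity)
  -- the uniformly continuous part
  have hK : IsCompact (cthickening 1 (tsupport g)) := hgc.isCompact.cthickening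
  have hvol : (volume (cthickening 1 (tsupport g))) < ⊤ := hK.measure_lt_top
  set V : ℝ := (volume (cthickening 1 (tsupport g))).toReal with hV
  have hV0 : 0 ≤ V := ENNReal.toReal_nonneg
  have huc : UniformContinuous g := hgcont.uniformContinuous_of_tendsto_cocompact
    (by exact hgc.is_zero_at_infty)
  obtain ⟨δ, hδ, hd⟩ := Metric.uniformContinuous_iff.1 huc (ε / (4 * (V + 1))) (by positivity)
  filter_upwards [Metric.ball_mem_nhds (0 : E n) (lt_min hδ one_pos)] with y hy
  have hyd : ‖y‖ < δ := by
    have := mem_ball_zero_iff.1 hy; exact this.trans_le (min_le_left _ _)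
  have hy1 : ‖y‖ < 1 := by
    have := mem_ball_zero_iff.1 hy; exact this.trans_le (min_le_right _ _)
  have hgy : Integrable (fun x => g (x + y)) := hgi.comp_add_right y
  have hfy : Integrable (fun x => f (x + y)) := hf.comp_add_right y
  have hmid : ∫ x, |g (x + y) - g x| ≤ ε / 4 := by
    have h1 : ∀ x, |g (x + y) - g x| ≤
        (cthickening 1 (tsupport g)).indicator (fun _ => ε / (4 * (V + 1))) x := by
      intro x
      by_cases hx : x ∈ cthickening 1 (tsupport g)
      · rw [indicator_of_mem hx]
        have := hd (a := x + y) (b := x) (by rw [dist_eq_norm]; simpa using hyd)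
        rw [Real.dist_eq] at this
        exact this.le
      · rw [indicator_of_notMem hx]
        have h0 : g x = 0 := by
          by_contra h
          exact hx (self_subset_cthickening _ (subset_tsupport g h))
        have h1 : g (x + y) = 0 := by
          by_contra h
          refine hx (mem_cthickening_of_dist_le x (x + y) 1 _ (subset_tsupport g h) ?_)
          rw [dist_eq_norm]; simpa using hy1.le
        simp [h0, h1]
    calc ∫ x, |g (x + y) - g x|
        ≤ ∫ x, (cthickening 1 (tsupport g)).indicator (fun _ => ε / (4 * (V + 1))) x := by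
          refine integral_mono_of_nonneg (Eventually.of_forall fun x => abs_nonneg _) ?_
            (Eventually.of_forall h1)
          exact (integrable_indicator_iff hK.measurableSet).2
            (integrableOn_const hvol.ne)
      _ = V * (ε / (4 * (V + 1))) := by
          rw [integral_indicator hK.measurableSet, setIntegral_const, smul_eq_mul]
          rfl
      _ ≤ ε / 4 := by
          rw [mul_div_assoc']
          rw [div_le_div_iff₀ (by positivity) (by norm_num)]
          nlinarith
  have hside : ∫ x, |f (x + y) - g (x + y)| ≤ ε / 4 := by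
    have := integral_add_right_eq_self (μ := (volume : Measure (E n)))
      (fun x => ‖f x - g x‖) y
    simp only [Real.norm_eq_abs] at this hg
    rw [this]; exact hg
  have hside2 : ∫ x, |f x - g x| ≤ ε / 4 := by simpa only [Real.norm_eq_abs] using hg
  have hle : ∫ x, |f (x + y) - f x| ≤
      ∫ x, (|f (x + y) - g (x + y)| + |g (x + y) - g x| + |f x - g x|) := by
    refine integral_mono (hfy.sub hf).abs
      (((hfy.sub hgy).abs.add (hgy.sub hgi).abs).add (hf.sub hgi).abs) fun x => ?_
    have := abs_add_three (f (x + y) - g (x + y)) (g (x + y) - g x) (g x - f x)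
    simp only at this ⊢
    rw [abs_sub_comm (g x) (f x)] at this
    calc |f (x + y) - f x| = |f (x + y) - g (x + y) + (g (x + y) - g x) + (g x - f x)| := by
          ring_nf
      _ ≤ _ := this
  have i1 : Integrable (fun x => |f (x + y) - g (x + y)|) := (hfy.sub hgy).abs
  have i2 : Integrable (fun x => |g (x + y) - g x|) := (hgy.sub hgi).abs
  have i3 : Integrable (fun x => |f x - g x|) := (hf.sub hgi).abs
  have i12 : Integrable (fun x => |f (x + y) - g (x + y)| + |g (x + y) - g x|) := i1.add i2
  rw [integral_add i12 i3, integral_add i1 i2] at hle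
  rw [Real.dist_eq, sub_zero, abs_of_nonneg (integral_nonneg fun x => abs_nonneg _)]
  linarith

end Pool.Agent.Helper486.TP
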